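import Pool.Agent.LibHB92.RA

/-
The finite field part: a function p on a finite field whose superlevel sets have few dilates covering the field and few
translates up to a small error is almost equal to 1.
-/

set_option autoImplicit false

noncomputable section

namespace Pool.LibHB92

universe u

/-- the hypotheses on p : 𝔽 → [0,1] -/
structure FFH (B1 B2 : ℝ → ℕ) {𝔽 : Type u} [Field 𝔽] [Fintype 𝔽] (p : 𝔽 → ℝ) : Prop where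
  nn : ∀ b, 0 ≤ p b
  le : ∀ b, p b ≤ 1
  zero : p 0 = 0
  one : p 1 = 1
  inv : ∀ b, p b⁻¹ = p b
  mul : ∀ (ε : ℝ) (a b : 𝔽), 0 ≤ ε → 1 - ε ≤ p a → a ≠ 0 → b ≠ 0 → |p (a * b) - p b| ≤ 4 * ε
  pk1 : ∀ (ε : ℝ) (A : Finset 𝔽), 0 < ε → (∀ a ∈ A, a ≠ 0) → B1 ε < A.card →
    ∃ a ∈ A, ∃ b ∈ A, a ≠ b ∧ 1 - 2 * ε ≤ p (a * b⁻¹)
  pk2 : ∀ (ε : ℝ) (C : Finset 𝔽), 0 < ε → B2 ε < C.card →
    ∃ c ∈ C, ∃ d ∈ C, c ≠ d ∧
      (∑ b, |p (b + c) - p (b + d)|) / Fintype.card 𝔽 ≤ ε + 2 / Fintype.card 𝔽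

/-- average variation of p under the translation by κ -/
def Dd {𝔽 : Type u} [Field 𝔽] [Fintype 𝔽] (p : 𝔽 → ℝ) (κ : 𝔽) : ℝ :=
  (∑ b, |p (b + κ) - p b|) / Fintype.card 𝔽

end Pool.LibHB92
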