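import Pool.Agent.LibHB92.S3
import Pool.Agent.LibHB92.FDef

/-
PLAN (BR1, MEDIUM). Notation: for b ≠ 0 zu b := (hL.un b _).unit, pp b = PP (zu b); pp 0 = 0 (dif_neg). pp_eq: if w : Rˣ and (w : R) = z b + η x with b ≠ 0 then PP w = pp b: w = zu b * h with h := (zu b)⁻¹ w, (h : R) = 1 + η * ((zu b)⁻¹ x): PP_cong. pp_nn, pp_le: PP_nonneg, PP_le_one (0 in the other case). pp_one: (1 : Rˣ): 1 = z 1 + η (-x): PP_one, pp_eq.
pp_mul_eq: PP (zu a * zu b) = pp (a b) by pp_eq and hL.mul. pp_inv: b = 0: inv_zero. b ≠ 0: zu b * zu b⁻¹ = z 1 + η.. = 1 + η x': zu b⁻¹ = (zu b)⁻¹ * h: PP_cong, PP_inv. pp_mul: |pp (a b) - pp b| = |PP (zu a zu b) - PP (zu b)| ≤ 4 ε by PP_mul.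
-/

set_option autoImplicit false

noncomputable section

namespace Pool.LibHB92

universe u

variable {R : Type u} [CommRing R] {F : Type u} [CommGroup F] [Fintype F] {η : R} {φ : R → F}
  {N : ℕ} {𝔽 : Type u} [Field 𝔽] [Fintype 𝔽] {z t : 𝔽 → R}

private theorem BR1_pp (M : Mean R) (hL : Lft η 𝔽 z t) (b : 𝔽) (hb : b ≠ 0) :
    pp η φ M z b = PP η φ M (hL.un b hb).unit := by
  unfold pp
  rw [dif_pos ⟨hb, hL.un b hb⟩]

theorem pp_eq (hD : Dat η φ N) (hdif : Dif R) (M : Mean R) (hM : AffInv M) (hL : Lft η 𝔽 z t)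
    (b : 𝔽) (hb : b ≠ 0) (w : Rˣ) (x : R) (hw : (w : R) = z b + η * x) :
    PP η φ M w = pp η φ M z b := by
  obtain ⟨u, hu⟩ : ∃ u : Rˣ, u = (hL.un b hb).unit := ⟨_, rfl⟩
  have huz : (u : R) = z b := by
    rw [hu]
    exact (hL.un b hb).unit_spec
  rw [BR1_pp M hL b hb, ← hu]
  have h1 : ((u⁻¹ * w : Rˣ) : R) = 1 + η * (((u⁻¹ : Rˣ) : R) * x) := by
    rw [Units.val_mul, hw, ← huz, mul_add, Units.inv_mul]
    ring
  have h2 := PP_cong hD hdif M hM u (u⁻¹ * w) _ h1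
  rwa [mul_inv_cancel_left] at h2

theorem pp_zero (M : Mean R) : pp η φ M z 0 = 0 := by
  unfold pp
  exact dif_neg fun h => h.1 rfl

theorem pp_nn (M : Mean R) (b : 𝔽) : 0 ≤ pp η φ M z b := by
  unfold pp
  split_ifs with h
  · exact PP_nonneg M _
  · exact le_rfl

theorem pp_le (M : Mean R) (b : 𝔽) : pp η φ M z b ≤ 1 := by
  unfold pp
  split_ifs with h
  · exact PP_le_one M _
  · exact zero_le_one

theorem pp_one (hD : Dat η φ N) (hdif : Dif R) (M : Mean R) (hM : AffInv M) (hL : Lft η 𝔽 z t) :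
    pp η φ M z 1 = 1 := by
  obtain ⟨x, hx⟩ := hL.one
  rw [← pp_eq hD hdif M hM hL 1 one_ne_zero 1 (-x) (by rw [hx, Units.val_one]; ring)]
  exact PP_one M

theorem pp_inv (hD : Dat η φ N) (hdif : Dif R) (M : Mean R) (hM : AffInv M) (hL : Lft η 𝔽 z t)
    (b : 𝔽) : pp η φ M z b⁻¹ = pp η φ M z b := by
  by_cases hb : b = 0
  · rw [hb, inv_zero]
  obtain ⟨u, hu⟩ : ∃ u : Rˣ, u = (hL.un b hb).unit := ⟨_, rfl⟩
  have huz : (u : R) = z b := by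
    rw [hu]
    exact (hL.un b hb).unit_spec
  obtain ⟨x₁, h1⟩ := hL.mul b b⁻¹
  obtain ⟨x₂, h2⟩ := hL.one
  rw [mul_inv_cancel₀ hb, h2, ← huz] at h1
  have h3 : ((u⁻¹ : Rˣ) : R) = z b⁻¹ + η * (-(((u⁻¹ : Rˣ) : R) * (x₁ + x₂))) := by
    have h4 : ((u⁻¹ : Rˣ) : R) * ((u : R) * z b⁻¹) = z b⁻¹ := by
      rw [← mul_assoc, Units.inv_mul, one_mul]
    rw [h1] at h4
    linear_combination h4
  rw [← pp_eq hD hdif M hM hL b⁻¹ (inv_ne_zero hb) u⁻¹ _ h3, PP_inv M hM, BR1_pp M hL b hb, hu]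

theorem pp_mul (hD : Dat η φ N) (hdif : Dif R) (M : Mean R) (hM : AffInv M) (hL : Lft η 𝔽 z t)
    (ε : ℝ) (a b : 𝔽) (hε : 0 ≤ ε) (h : 1 - ε ≤ pp η φ M z a) (ha : a ≠ 0) (hb : b ≠ 0) :
    |pp η φ M z (a * b) - pp η φ M z b| ≤ 4 * ε := by
  obtain ⟨u, hu⟩ : ∃ u : Rˣ, u = (hL.un a ha).unit := ⟨_, rfl⟩
  have huz : (u : R) = z a := by
    rw [hu]
    exact (hL.un a ha).unit_spec
  obtain ⟨v, hv⟩ : ∃ v : Rˣ, v = (hL.un b hb).unit := ⟨_, rfl⟩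
  have hvz : (v : R) = z b := by
    rw [hv]
    exact (hL.un b hb).unit_spec
  obtain ⟨x, hx⟩ := hL.mul a b
  rw [← pp_eq hD hdif M hM hL (a * b) (mul_ne_zero ha hb) (u * v) x (by rw [Units.val_mul, huz, hvz, hx]),
    BR1_pp M hL b hb, ← hv]
  refine PP_mul M hM u v hε ?_
  rw [BR1_pp M hL a ha, ← hu] at h
  exact h

end Pool.LibHB92
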