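import Pool.Agent.LibHB92.Defs

/-
PLAN (PKb, MEDIUM). n = 0 trivial. For s : S let 𝒜 s : Finset (Finset (Fin k)) be the image of i ↦ {l | G i s (y l)}. The map i ↦ (s ↦ {l | G i s (y l)}) from Fin n to the functions Π s, 𝒜 s is injective (hinj), so n ≤ ∏ s, card (𝒜 s). card (𝒜 s) ≤ card (shatterer) ≤ ∑ j in range (vcDim + 1), choose k j
(Finset.card_le_card_shatterer, Finset.card_shatterer_le_sum_vcDim) and vcDim < N: if 𝒜 s shatters T with card T = N' ≥ N, shrink to card N (mono_right), enumerate T by Fin N (Finset.orderIsoOfFin / equivFin), for J : Set (Fin N) the subset of T gives b J with T ∩ {l | G (b J) s (y l)} = that subset: contradicts NoSh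
(points y (e i)). N = 0: NoSh 0 is false as n > 0 (b constant). ∑ j < N, choose k j ≤ (k+1)^N (choose k j ≤ k^j ≤ .., or ∑_{j ≤ N-1} k^j ≤ (k+1)^(N-1); any proof, e.g. the number of subsets of size < N is at most the number of functions Fin N → Option (Fin k)).
-/

set_option autoImplicit false

noncomputable section

namespace Pool.LibHB92

universe u v w

open Classical in
/-- the traces of the properties on the points -/
private def tr {Y : Type u} {S : Type v} {k n : ℕ} (y : Fin k → Y)
    (G : Fin n → S → Y → Prop) (i : Fin n) (s : S) : Finset (Fin k) :=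
  Finset.univ.filter fun l => G i s (y l)

private theorem mem_tr {Y : Type u} {S : Type v} {k n : ℕ} (y : Fin k → Y)
    (G : Fin n → S → Y → Prop) (i : Fin n) (s : S) (l : Fin k) :
    l ∈ tr y G i s ↔ G i s (y l) := by
  classical
  simp [tr]

private theorem card_image_le {Y : Type u} {S : Type v} {N k n : ℕ} (y : Fin k → Y)
    (G : Fin n → S → Y → Prop) (s : S) (hG : NoSh N (fun i => G i s)) :
    (Finset.univ.image fun i => tr y G i s).card ≤ (k + 1) ^ N := by
  classical
  set A := Finset.univ.image fun i => tr y G i s with hA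
  have hvc : A.vcDim ≤ N := by
    unfold Finset.vcDim
    refine Finset.sup_le fun T hT => ?_
    rw [Finset.mem_shatterer] at hT
    by_contra hcon
    rw [not_le] at hcon
    obtain ⟨T', hT', hcard⟩ := Finset.exists_subset_card_eq hcon.le
    have hS : A.Shatters T' := hT.mono_right hT'
    let e : T' ≃ Fin N := T'.equivFinOfCardEq hcard
    apply hG
    have hb : ∀ J : Set (Fin N), ∃ i : Fin n, ∀ a : T', G i s (y a) ↔ e a ∈ J := by
      intro J
      obtain ⟨u, hu, hu2⟩ := hS (t := T'.filter fun l => ∃ a : T', (a : Fin k) = l ∧ e a ∈ J)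
        (Finset.filter_subset _ _)
      rw [hA, Finset.mem_image] at hu
      obtain ⟨i, -, rfl⟩ := hu
      refine ⟨i, fun a => ?_⟩
      have h1 : (a : Fin k) ∈ T' ∩ tr y G i s ↔
          (a : Fin k) ∈ T'.filter fun l => ∃ a : T', (a : Fin k) = l ∧ e a ∈ J := by rw [hu2]
      rw [Finset.mem_inter, Finset.mem_filter, mem_tr] at h1
      constructor
      · intro h
        obtain ⟨-, a', ha', haJ⟩ := h1.1 ⟨a.2, h⟩
        rwa [Subtype.ext ha'] at haJ
      · intro h
        exact (h1.2 ⟨a.2, a, rfl, h⟩).2
    choose b hb using hb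
    refine ⟨fun i => y (e.symm i), b, fun i J => ?_⟩
    have := hb J (e.symm i)
    rwa [Equiv.apply_symm_apply] at this
  calc A.card ≤ A.shatterer.card := Finset.card_le_card_shatterer A
    _ ≤ ∑ j ∈ Finset.Iic A.vcDim, (Fintype.card (Fin k)).choose j :=
        Finset.card_shatterer_le_sum_vcDim
    _ ≤ ∑ j ∈ Finset.range (N + 1), k ^ j * 1 ^ (N - j) * N.choose j := by
        rw [Fintype.card_fin]
        have hsub : Finset.Iic A.vcDim ⊆ Finset.range (N + 1) := by
          intro j hj
          rw [Finset.mem_Iic] at hj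
          rw [Finset.mem_range]
          omega
        refine (Finset.sum_le_sum_of_subset hsub).trans (Finset.sum_le_sum fun j hj => ?_)
        rw [Finset.mem_range] at hj
        have h1 : 1 ≤ N.choose j := Nat.choose_pos (by omega)
        have h2 : k.choose j ≤ k ^ j := Nat.choose_le_pow k j
        rw [one_pow, mul_one]
        exact h2.trans (Nat.le_mul_of_pos_right _ h1)
    _ = (k + 1) ^ N := (add_pow k 1 N).symm

/-- Sauer-Shelah: a VC family that is separated by k points is small -/
theorem count {Y : Type u} {S : Type v} [Fintype S] {N k n : ℕ} (y : Fin k → Y)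
    (G : Fin n → S → Y → Prop) (hG : ∀ s, NoSh N (fun i => G i s))
    (hinj : ∀ i j, i ≠ j → ∃ l s, ¬ (G i s (y l) ↔ G j s (y l))) :
    n ≤ ((k + 1) ^ N) ^ Fintype.card S := by
  classical
  have h1 : (Finset.univ : Finset (Fin n)).card ≤
      (Fintype.piFinset fun s => Finset.univ.image fun i => tr y G i s).card := by
    refine Finset.card_le_card_of_injOn (fun i s => tr y G i s) ?_ ?_
    · intro i _
      rw [Finset.mem_coe, Fintype.mem_piFinset]
      intro s
      exact Finset.mem_image_of_mem _ (Finset.mem_univ i)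
    · intro i _ j _ hij
      by_contra hne
      obtain ⟨l, s, hls⟩ := hinj i j hne
      apply hls
      have h2 : tr y G i s = tr y G j s := congrFun hij s
      rw [← mem_tr y G i s l, ← mem_tr y G j s l, h2]
  rw [Finset.card_univ, Fintype.card_fin, Fintype.card_piFinset] at h1
  refine h1.trans ?_
  calc ∏ s : S, (Finset.univ.image fun i => tr y G i s).card ≤ ∏ _s : S, (k + 1) ^ N :=
        Finset.prod_le_prod' fun s _ => card_image_le y G s (hG s)
    _ = ((k + 1) ^ N) ^ Fintype.card S := by rw [Finset.prod_const, Finset.card_univ]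

end Pool.LibHB92
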