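import Mathlib

/-
PLAN (PKc, MEDIUM). Let a := 1 - ε in (0,1). For n ≥ 1 choose m with 2^m ≤ n < 2^(m+1) (Nat.log 2 n) and k := C * (m + 1) with C : ℕ such that a^C < 1/4 (exists: a^C → 0; for m large strict): a^k * n^2 < (1/4)^(m+1) * 4^(m+1) = 1. And ((k+1)^N)^f = (C(m+1) + 1)^(N f) < 2^m ≤ n for m ≥ m0: polynomial against exponential
(tendsto_pow_const_div_const_pow_of_one_lt, or Nat lemma). B := 2^(m0+1).
-/

set_option autoImplicit false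

noncomputable section

namespace Pool.LibHB92

/-- numbers for the packing lemma -/
theorem numeric (N f : ℕ) {ε : ℝ} (hε : 0 < ε) (hε1 : ε < 1) : ∃ B : ℕ, ∀ n : ℕ, B < n →
    ∃ k : ℕ, (1 - ε) ^ k * (n : ℝ) ^ 2 < 1 ∧ ((k + 1) ^ N) ^ f < n := by
  have ha0 : 0 ≤ 1 - ε := by linarith
  have ha1 : 1 - ε < 1 := by linarith
  obtain ⟨C, hC⟩ := exists_pow_lt_of_lt_one (by norm_num : (0 : ℝ) < 1 / 4) ha1
  have hc0 : (0 : ℝ) < ((C : ℝ) + 1) ^ (N * f) := by positivity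
  have h1 := tendsto_pow_const_div_const_pow_of_one_lt (N * f) (by norm_num : (1 : ℝ) < 2)
  have h2 : ∀ᶠ n : ℕ in Filter.atTop, (n : ℝ) ^ (N * f) / 2 ^ n < 1 / (2 * ((C : ℝ) + 1) ^ (N * f)) :=
    h1.eventually_lt_const (by positivity)
  obtain ⟨m0, hm0⟩ := Filter.eventually_atTop.1 h2
  refine ⟨2 ^ m0, fun n hn => ?_⟩
  have hn0 : n ≠ 0 := by
    rintro rfl
    exact absurd hn (by simp)
  set m := Nat.log 2 n with hm
  have hm1 : 2 ^ m ≤ n := Nat.pow_log_le_self 2 hn0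
  have hm2 : n < 2 ^ (m + 1) := Nat.lt_pow_succ_log_self (by norm_num) n
  have hmm : m0 ≤ m := by
    rw [hm]
    exact Nat.le_log_of_pow_le (by norm_num) hn.le
  refine ⟨C * (m + 1), ?_, ?_⟩
  · rw [pow_mul]
    have h3 : ((1 - ε) ^ C) ^ (m + 1) < (1 / 4) ^ (m + 1) := pow_lt_pow_left₀ hC (by positivity) (by omega)
    have h4 : (n : ℝ) ≤ 2 ^ (m + 1) := by exact_mod_cast hm2.le
    have h5 : (n : ℝ) ^ 2 ≤ 4 ^ (m + 1) := by
      calc (n : ℝ) ^ 2 ≤ (2 ^ (m + 1)) ^ 2 := pow_le_pow_left₀ (by positivity) h4 2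
        _ = 4 ^ (m + 1) := by
          rw [← pow_mul, mul_comm, pow_mul]
          norm_num
    have h6 : (0 : ℝ) < (n : ℝ) ^ 2 := by
      have : (0 : ℝ) < n := by exact_mod_cast Nat.pos_of_ne_zero hn0
      positivity
    calc ((1 - ε) ^ C) ^ (m + 1) * (n : ℝ) ^ 2 < (1 / 4) ^ (m + 1) * (n : ℝ) ^ 2 :=
          mul_lt_mul_of_pos_right h3 h6
      _ ≤ (1 / 4) ^ (m + 1) * 4 ^ (m + 1) := mul_le_mul_of_nonneg_left h5 (by positivity)
      _ = 1 := by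
          rw [← mul_pow]
          norm_num
  · refine lt_of_lt_of_le ?_ hm1
    have h3 := hm0 (m + 1) (by omega)
    rw [div_lt_div_iff₀ (by positivity) (by positivity), one_mul] at h3
    have h4 : ((C * (m + 1) + 1 : ℕ) : ℝ) ≤ ((C : ℝ) + 1) * ((m + 1 : ℕ) : ℝ) := by
      push_cast
      have : (0 : ℝ) ≤ m := Nat.cast_nonneg m
      nlinarith
    have h5 : (((C * (m + 1) + 1 : ℕ) : ℝ)) ^ (N * f) ≤ ((C : ℝ) + 1) ^ (N * f) * ((m + 1 : ℕ) : ℝ) ^ (N * f) := by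
      rw [← mul_pow]
      exact pow_le_pow_left₀ (by positivity) h4 _
    have h6 : (((C * (m + 1) + 1 : ℕ) : ℝ)) ^ (N * f) < 2 ^ m := by
      have h7 : (2 : ℝ) ^ (m + 1) = 2 * 2 ^ m := by ring
      rw [h7] at h3
      nlinarith
    rw [← pow_mul]
    exact_mod_cast h6

end Pool.LibHB92
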