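import Pool.Agent.LibHB92.PKa
import Pool.Agent.LibHB92.PKb
import Pool.Agent.LibHB92.PKc

/-
PLAN (PK, MEDIUM). packing: ε ≥ 1: B := 1 (pr ≤ 1). ε < 1: B from numeric N f; I0 with card n > B, enumerate I0 by Fin n (I0.equivFin symm), G' i s := G (e i) s; NoSh restricts to subfamilies (compose b with e). If no pair works: sample with sep i j y := ∃ s, ¬ (G' i s y ↔ G' j s y) gives y : Fin k → Y separating all pairs, count gives
n ≤ ((k+1)^N)^(card S) ≤ ((k+1)^N)^f < n. cover: a maximal finset I0 ⊆ I1 with all pairs > ε apart (Finset.exists_maximal or strong induction; card ≤ B by packing), every i in I1 is within ε of some j in I0 (i in I0: j := i, pr of a false property is 0 ≤ ε). packF, coverF: S := F, G i s y := (f i y = s): ∃ s, ¬ (f i y = s ↔ f j y = s) iff f i y ≠ f j y.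
-/

set_option autoImplicit false

noncomputable section

namespace Pool.LibHB92

universe u v w

/-- the packing lemma -/
theorem packing (N f : ℕ) {ε : ℝ} (hε : 0 < ε) : ∃ B : ℕ, ∀ (Y : Type u) (M : Mean Y)
    (S : Type w) [Fintype S], Fintype.card S ≤ f → ∀ (I : Type v) (G : I → S → Y → Prop),
    (∀ s, NoSh N (fun i => G i s)) → ∀ I0 : Finset I, B < I0.card →
    ∃ i ∈ I0, ∃ j ∈ I0, i ≠ j ∧ M.pr (fun y => ∃ s, ¬ (G i s y ↔ G j s y)) ≤ ε := by
  by_cases h1 : ε < 1
  · obtain ⟨B, hB⟩ := numeric N f hε h1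
    refine ⟨B, ?_⟩
    intro Y M S _ hS I G hG I0 hI0
    obtain ⟨k, hk, hkn⟩ := hB I0.card hI0
    by_contra hcon0
    have hcon : ∀ i ∈ I0, ∀ j ∈ I0, i ≠ j → ε < M.pr (fun y => ∃ s, ¬ (G i s y ↔ G j s y)) :=
      fun i hi j hj hij => not_le.mp fun hle => hcon0 ⟨i, hi, j, hj, hij, hle⟩
    let e : Fin I0.card ≃ I0 := I0.equivFin.symm
    obtain ⟨y, hy⟩ := sample M (fun i j y => ∃ s, ¬ (G (e i) s y ↔ G (e j) s y)) hε h1
      (fun i j hij => hcon (e i) (e i).2 (e j) (e j).2 (fun h => hij (e.injective (Subtype.ext h)))) k hk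
    have hn := count (N := N) y (fun i s => G (e i) s) (fun s => by
      rintro ⟨z, b, hb⟩
      exact hG s ⟨z, fun J => (e (b J) : I), hb⟩) hy
    have h2 : ((k + 1) ^ N) ^ Fintype.card S ≤ ((k + 1) ^ N) ^ f :=
      Nat.pow_le_pow_right (Nat.pow_pos (Nat.succ_pos k)) hS
    omega
  · refine ⟨1, ?_⟩
    intro Y M S _ hS I G hG I0 hI0
    obtain ⟨i, hi, j, hj, hij⟩ := Finset.one_lt_card.mp hI0
    refine ⟨i, hi, j, hj, hij, (M.pr_le_one _).trans (not_lt.mp h1)⟩

/-- functions with values in a finite set -/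
theorem packF (N f : ℕ) {ε : ℝ} (hε : 0 < ε) : ∃ B : ℕ, ∀ (Y : Type u) (M : Mean Y)
    (S : Type w) [Fintype S], Fintype.card S ≤ f → ∀ (I : Type v) (A : I → Y → S),
    (∀ s, NoSh N (fun i y => A i y = s)) → ∀ I0 : Finset I, B < I0.card →
    ∃ i ∈ I0, ∃ j ∈ I0, i ≠ j ∧ M.pr (fun y => A i y ≠ A j y) ≤ ε := by
  obtain ⟨B, hB⟩ := packing.{u, v, w} N f hε
  refine ⟨B, ?_⟩
  intro Y M S _ hS I A hA I0 hI0
  obtain ⟨i, hi, j, hj, hij, h⟩ := hB Y M S hS I (fun i s y => A i y = s) hA I0 hI0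
  refine ⟨i, hi, j, hj, hij, ?_⟩
  refine le_of_eq_of_le (M.pr_congr fun y => ?_) h
  constructor
  · intro hne
    exact ⟨A i y, fun h => hne (h.mp rfl).symm⟩
  · rintro ⟨s, hs⟩ heq
    exact hs (by rw [heq])

/-- the covering version -/
theorem coverF (N f : ℕ) {ε : ℝ} (hε : 0 < ε) : ∃ B : ℕ, ∀ (Y : Type u) (M : Mean Y)
    (S : Type w) [Fintype S], Fintype.card S ≤ f → ∀ (I : Type v) (A : I → Y → S),
    (∀ s, NoSh N (fun i y => A i y = s)) → ∀ I1 : Finset I,
    ∃ I0 : Finset I, I0 ⊆ I1 ∧ I0.card ≤ B ∧ ∀ i ∈ I1, ∃ j ∈ I0,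
      M.pr (fun y => A i y ≠ A j y) ≤ ε := by
  classical
  obtain ⟨B, hB⟩ := packF.{u, v, w} N f hε
  refine ⟨B, ?_⟩
  intro Y M S _ hS I A hA I1
  let T : Finset (Finset I) := I1.powerset.filter fun I0 =>
    ∀ i ∈ I0, ∀ j ∈ I0, i ≠ j → ε < M.pr (fun y => A i y ≠ A j y)
  have hT : T.Nonempty := ⟨∅, by simp [T]⟩
  obtain ⟨I0, hI0, hmax⟩ := Finset.exists_max_image T Finset.card hT
  obtain ⟨hsub, hpair⟩ := Finset.mem_filter.mp hI0
  rw [Finset.mem_powerset] at hsub
  refine ⟨I0, hsub, ?_, ?_⟩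
  · by_contra hc
    obtain ⟨i, hi, j, hj, hij, h⟩ := hB Y M S hS I A hA I0 (not_le.mp hc)
    exact absurd h (not_le.mpr (hpair i hi j hj hij))
  · intro i hi
    by_cases hi0 : i ∈ I0
    · refine ⟨i, hi0, ?_⟩
      rw [M.pr_false fun y h => h rfl]
      exact hε.le
    · by_contra hcon
      push Not at hcon
      have hin : insert i I0 ∈ T := by
        rw [Finset.mem_filter, Finset.mem_powerset]
        refine ⟨Finset.insert_subset hi hsub, ?_⟩
        intro a ha b hb hab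
        rw [Finset.mem_insert] at ha hb
        rcases ha with rfl | ha
        · rcases hb with rfl | hb
          · exact absurd rfl hab
          · exact hcon b hb
        · rcases hb with rfl | hb
          · rw [M.pr_ne_symm (A a) (A b)]
            exact hcon a ha
          · exact hpair a ha b hb hab
      have := hmax _ hin
      rw [Finset.card_insert_of_notMem hi0] at this
      omega

end Pool.LibHB92
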