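import Pool.Agent.LibHB92.BR1
import Pool.Agent.LibHB92.PK

set_option autoImplicit false

noncomputable section

/-
PLAN (BR2, MEDIUM/STRONG). B from packing N f ε (Y := 𝔽 × R × R, M.trip 𝔽, S := F, I := 𝔽, G γ s (β, y, y') := ∃ x, φ (1 + η x) = s ∧ z β + t γ - η y = (1 + η x) (z β + t γ - η y')). NoSh: a pattern (β_i, y_i, y'_i), b gives the pattern (z β_i, y_i, y'_i), t (b J) of hD.V2 s. So for C of card > B: c ≠ d in C with
(M.trip 𝔽).pr (sep) ≤ ε, sep (β, y, y') := ∃ s, ¬ (G c s .. ↔ G d s ..). For β with β + c ≠ 0 and β + d ≠ 0: z β + t c = z (β + c) + η x is a unit u_c (z (β+c) unit times 1 + η x', hD.un), PP u_c = pp (β + c) (pp_eq), G c s (β, y, y') iff s = g u_c y (g u_c y')⁻¹ (g_div: existence, value, uniqueness). So if not sep the two quotients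
g u_c y (g u_c y')⁻¹ and g u_d y (g u_d y')⁻¹ are equal. PP_two: |pp (β + c) - pp (β + d)| ≤ M_y M_y' |ind - ind| ≤ M.m (fun y => M.m (fun y' => ind (sep (β, y, y')))) (Mean.sub, abs_le, mono). The at most two exceptional β contribute ≤ 1 each. Sum over β, divide by card: ≤ (M.trip 𝔽).pr sep + 2 / card ≤ ε + 2 / card.
-/

namespace Pool.LibHB92

universe u

private theorem BR2_dbl {Y : Type u} (M : Mean Y) (A B P : Y → Y → Prop)
    (h : ∀ y y', ¬ P y y' → (A y y' ↔ B y y')) :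
    |M.m (fun y => M.m (fun y' => ind (A y y'))) - M.m (fun y => M.m (fun y' => ind (B y y')))| ≤
      M.m (fun y => M.m (fun y' => ind (P y y'))) := by
  have hb : ∀ A : Y → Y → Prop, Bd (fun y => M.m (fun y' => ind (A y y'))) := fun A =>
    bd_of (fun y => M.pr_nonneg (A y)) (fun y => M.pr_le_one (A y))
  rw [← M.sub (hb A) (hb B)]
  refine (M.abs_le ((hb A).sub (hb B))).trans ?_
  refine M.mono _ _ ((hb A).sub (hb B)).abs (hb P) fun y => ?_
  refine (M.abs_pr_sub (A y) (B y)).trans ?_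
  exact M.pr_mono fun y' hy' => by
    by_contra hn
    exact hy' (h y y' hn)

private theorem BR2_unit {R : Type u} [CommRing R] {F : Type u} [CommGroup F] {η : R} {φ : R → F}
    {N : ℕ} (hD : Dat η φ N) {𝔽 : Type u} [Field 𝔽] {z t : 𝔽 → R} (hL : Lft η 𝔽 z t) (b c : 𝔽)
    (h : b + c ≠ 0) : ∃ (w : Rˣ) (x : R), (w : R) = z b + t c ∧ (w : R) = z (b + c) + η * x := by
  obtain ⟨x, hx⟩ := hL.add b c
  obtain ⟨v, hv⟩ := hL.un (b + c) h
  obtain ⟨v', hv'⟩ := hD.un (((v⁻¹ : Rˣ) : R) * x)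
  have h1 : (v : R) * ((v⁻¹ : Rˣ) : R) = 1 := Units.mul_inv v
  have h2 : ((v * v' : Rˣ) : R) = z (b + c) + η * x := by
    rw [Units.val_mul, hv', ← hv]
    linear_combination (η * x) * h1
  exact ⟨v * v', x, by rw [h2, hx], h2⟩

/-- packing for translations -/
theorem pp_pk2 (N f : ℕ) {ε : ℝ} (hε : 0 < ε) : ∃ B : ℕ, ∀ (R : Type u) [CommRing R]
    (F : Type u) [CommGroup F] [Fintype F], Fintype.card F ≤ f → ∀ (η : R) (φ : R → F),
    Dat η φ N → Dif R → ∀ M : Mean R, AffInv M → ∀ (𝔽 : Type u) [Field 𝔽] [Fintype 𝔽]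
    (z t : 𝔽 → R), Lft η 𝔽 z t → ∀ C : Finset 𝔽, B < C.card →
    ∃ c ∈ C, ∃ d ∈ C, c ≠ d ∧
      (∑ b, |pp η φ M z (b + c) - pp η φ M z (b + d)|) / Fintype.card 𝔽 ≤
        ε + 2 / Fintype.card 𝔽 := by
  classical
  obtain ⟨B, hB⟩ := packing.{u, u, u} N f hε
  refine ⟨B, ?_⟩
  intro R _ F _ _ hF η φ hD hdif M hM 𝔽 _ _ z t hL C hC
  obtain ⟨T, hT, hTe⟩ := hD.V2
  let G : 𝔽 → F → 𝔽 × R × R → Prop := fun c s q => T s (t c) (z q.1, q.2.1, q.2.2)
  have hG : ∀ s, NoSh N (fun c => G c s) := by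
    rintro s ⟨y, b, hyb⟩
    exact hT s ⟨fun i => (z (y i).1, (y i).2.1, (y i).2.2), fun J => t (b J), fun i J => hyb i J⟩
  obtain ⟨c, hc, d, hd, hcd, hpr⟩ := hB (𝔽 × R × R) (M.trip 𝔽) F hF 𝔽 G hG C hC
  refine ⟨c, hc, d, hd, hcd, ?_⟩
  have hcard : (0 : ℝ) < Fintype.card 𝔽 := Nat.cast_pos.2 Fintype.card_pos
  set Q : 𝔽 → ℝ := fun b => M.m (fun y => M.m (fun y' => ind (∃ s, ¬ (G c s (b, y, y') ↔ G d s (b, y, y'))))) with hQ
  have hpr' : (∑ b, Q b) / Fintype.card 𝔽 ≤ ε := hpr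
  have hQ0 : ∀ b, 0 ≤ Q b := by
    intro b
    exact M.nonneg (bd_of (fun y => M.pr_nonneg _) (fun y => M.pr_le_one _)) fun y => M.pr_nonneg _
  have key : ∀ b : 𝔽, b + c ≠ 0 → b + d ≠ 0 → |pp η φ M z (b + c) - pp η φ M z (b + d)| ≤ Q b := by
    intro b h1 h2
    obtain ⟨u, x, hu, hu'⟩ := BR2_unit hD hL b c h1
    obtain ⟨v, x', hv, hv'⟩ := BR2_unit hD hL b d h2
    rw [← pp_eq hD hdif M hM hL (b + c) h1 u x hu', ← pp_eq hD hdif M hM hL (b + d) h2 v x' hv',
      PP_two, PP_two]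
    refine BR2_dbl M _ _ (fun y y' => ∃ s, ¬ (G c s (b, y, y') ↔ G d s (b, y, y'))) ?_
    intro y y' hn
    push Not at hn
    have e : g η φ u y * (g η φ u y')⁻¹ = g η φ v y * (g η φ v y')⁻¹ := by
      obtain ⟨xu, hu1, hu2, -⟩ := g_div hD u y y'
      obtain ⟨xv, hv1, hv2, hv3⟩ := g_div hD v y y'
      have h3 : G c (g η φ u y * (g η φ u y')⁻¹) (b, y, y') := by
        refine (hTe _ (t c) (z b, y, y') ⟨u, hu⟩).2 ⟨xu, hu2, ?_⟩
        show z b + t c - η * y = (1 + η * xu) * (z b + t c - η * y')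
        rw [← hu]
        exact hu1
      obtain ⟨x1, hx1, hx2⟩ := (hTe _ (t d) (z b, y, y') ⟨v, hv⟩).1 ((hn _).1 h3)
      have h4 : (v : R) - η * y = (1 + η * x1) * (v - η * y') := by
        rw [hv]
        exact hx2
      rw [← hx1, ← hv2, hv3 x1 h4]
    rw [e]
  have hle : ∀ b : 𝔽, |pp η φ M z (b + c) - pp η φ M z (b + d)| ≤
      Q b + ((if b = -c then 1 else 0) + (if b = -d then 1 else 0)) := by
    intro b
    by_cases h1 : b + c = 0
    · have h2 : |pp η φ M z (b + c) - pp η φ M z (b + d)| ≤ 1 := by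
        rw [abs_le]
        constructor <;> linarith [pp_nn (η := η) (φ := φ) (z := z) M (b + c), pp_le (η := η) (φ := φ) (z := z) M (b + c),
          pp_nn (η := η) (φ := φ) (z := z) M (b + d), pp_le (η := η) (φ := φ) (z := z) M (b + d)]
      rw [if_pos (eq_neg_of_add_eq_zero_left h1)]
      have h3 := hQ0 b
      have h4 : (0 : ℝ) ≤ if b = -d then 1 else 0 := by split_ifs <;> norm_num
      linarith
    · by_cases h2 : b + d = 0
      · have h2' : |pp η φ M z (b + c) - pp η φ M z (b + d)| ≤ 1 := by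
          rw [abs_le]
          constructor <;> linarith [pp_nn (η := η) (φ := φ) (z := z) M (b + c), pp_le (η := η) (φ := φ) (z := z) M (b + c),
            pp_nn (η := η) (φ := φ) (z := z) M (b + d), pp_le (η := η) (φ := φ) (z := z) M (b + d)]
        rw [if_pos (eq_neg_of_add_eq_zero_left h2)]
        have h3 := hQ0 b
        have h4 : (0 : ℝ) ≤ if b = -c then 1 else 0 := by split_ifs <;> norm_num
        linarith
      · have h3 := key b h1 h2
        have h4 : (0 : ℝ) ≤ if b = -c then 1 else 0 := by split_ifs <;> norm_num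
        have h5 : (0 : ℝ) ≤ if b = -d then 1 else 0 := by split_ifs <;> norm_num
        linarith
  have hsum : ∑ b, |pp η φ M z (b + c) - pp η φ M z (b + d)| ≤ (∑ b, Q b) + 2 := by
    refine (Finset.sum_le_sum fun b _ => hle b).trans ?_
    rw [Finset.sum_add_distrib, Finset.sum_add_distrib]
    simp only [Finset.sum_ite_eq', Finset.mem_univ, if_true]
    norm_num
  calc (∑ b, |pp η φ M z (b + c) - pp η φ M z (b + d)|) / Fintype.card 𝔽
      ≤ ((∑ b, Q b) + 2) / Fintype.card 𝔽 := div_le_div_of_nonneg_right hsum hcard.le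
    _ = (∑ b, Q b) / Fintype.card 𝔽 + 2 / Fintype.card 𝔽 := add_div _ _ _
    _ ≤ ε + 2 / Fintype.card 𝔽 := by linarith

end Pool.LibHB92
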