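import Pool.Agent.LibHB92.BR1

/-
PLAN (BR3, MEDIUM). Packing for dilations. B from packF N f ε. For b ≠ 0 zu b := (hL.un b _).unit : Rˣ. A a finset of nonzero elements, card > B. If zu a = zu b for some a ≠ b in A: pp (a b⁻¹) = PP (zu a (zu b)⁻¹) = PP 1 = 1. Otherwise I := Rˣ, family A' u y := g η φ u y (NoSh from hD.V1 s with b J := (0, ((u J)⁻¹ : R)):
g u y = φ (1 - η (y + 0) u⁻¹)), I0 := image of A.attach under zu, card = card A: a ≠ b with pr (g (zu a) ≠ g (zu b)) ≤ ε, PP_close: 1 - 2 ε ≤ PP (zu a (zu b)⁻¹) = pp (a b⁻¹). The last equality: pp_eq with w := zu a * (zu b)⁻¹: (w : R) = z (a b⁻¹) + η x because z (a b⁻¹) * z b = z a + η x1 (hL.mul), multiply by (zu b)⁻¹.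
-/

set_option autoImplicit false

noncomputable section

namespace Pool.LibHB92

universe u

private theorem BR3_nosh {R : Type u} [CommRing R] {F : Type u} [CommGroup F] {η : R} {φ : R → F}
    {N : ℕ} (hD : Dat η φ N) (s : F) : NoSh N (fun (w : Rˣ) (y : R) => g η φ w y = s) := by
  rintro ⟨y, b, h⟩
  refine hD.V1 s ⟨y, fun J => (0, (((b J)⁻¹ : Rˣ) : R)), fun i J => ?_⟩
  rw [← h i J]
  simp only [g, add_zero]

private theorem BR3_pp {R : Type u} [CommRing R] {F : Type u} [CommGroup F] [Fintype F] {η : R}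
    {φ : R → F} {N : ℕ} (hD : Dat η φ N) (hdif : Dif R) (M : Mean R) (hM : AffInv M)
    {𝔽 : Type u} [Field 𝔽] [Fintype 𝔽] {z t : 𝔽 → R} (hL : Lft η 𝔽 z t) (a b : 𝔽) (ha : a ≠ 0)
    (hb : b ≠ 0) :
    PP η φ M ((hL.un a ha).unit * ((hL.un b hb).unit)⁻¹) = pp η φ M z (a * b⁻¹) := by
  obtain ⟨x1, hx1⟩ := hL.mul (a * b⁻¹) b
  rw [mul_assoc, inv_mul_cancel₀ hb, mul_one] at hx1
  refine pp_eq hD hdif M hM hL (a * b⁻¹) (mul_ne_zero ha (inv_ne_zero hb)) _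
    (-(x1 * ((((hL.un b hb).unit)⁻¹ : Rˣ) : R))) ?_
  have h1 : z b * ((((hL.un b hb).unit)⁻¹ : Rˣ) : R) = 1 := by
    have := ((hL.un b hb).unit).mul_inv
    rwa [IsUnit.unit_spec] at this
  have h2 : (((hL.un a ha).unit : Rˣ) : R) = z a := IsUnit.unit_spec _
  rw [Units.val_mul, h2]
  have h3 : z a = z (a * b⁻¹) * z b - η * x1 := by rw [hx1]; ring
  rw [h3]
  linear_combination z (a * b⁻¹) * h1

/-- packing for dilations -/
theorem pp_pk1 (N f : ℕ) {ε : ℝ} (hε : 0 < ε) : ∃ B : ℕ, ∀ (R : Type u) [CommRing R]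
    (F : Type u) [CommGroup F] [Fintype F], Fintype.card F ≤ f → ∀ (η : R) (φ : R → F),
    Dat η φ N → Dif R → ∀ M : Mean R, AffInv M → ∀ (𝔽 : Type u) [Field 𝔽] [Fintype 𝔽]
    (z t : 𝔽 → R), Lft η 𝔽 z t → ∀ A : Finset 𝔽, (∀ a ∈ A, a ≠ 0) → B < A.card →
    ∃ a ∈ A, ∃ b ∈ A, a ≠ b ∧ 1 - 2 * ε ≤ pp η φ M z (a * b⁻¹) := by
  classical
  obtain ⟨B, hB⟩ := packF.{u, u, u} N f hε
  refine ⟨B, ?_⟩
  intro R _ F _ _ hF η φ hD hdif M hM 𝔽 _ _ z t hL A hA0 hAB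
  let zu : {a // a ∈ A} → Rˣ := fun a => (hL.un a.1 (hA0 a.1 a.2)).unit
  by_cases hinj : Function.Injective zu
  · have hcard : (Finset.univ.image zu).card = A.card := by
      rw [Finset.card_image_of_injective _ hinj, Finset.card_univ, Fintype.card_coe]
    obtain ⟨v, hv, w, hw, hvw, hpr⟩ := hB R M F hF Rˣ (fun w y => g η φ w y)
      (fun s => BR3_nosh hD s) (Finset.univ.image zu) (by rw [hcard]; exact hAB)
    obtain ⟨a, _, rfl⟩ := Finset.mem_image.1 hv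
    obtain ⟨b, _, rfl⟩ := Finset.mem_image.1 hw
    refine ⟨a.1, a.2, b.1, b.2, fun h => hvw (by rw [Subtype.ext h]), ?_⟩
    have h1 := PP_close M hM (zu a) (zu b) hε.le hpr
    rwa [BR3_pp hD hdif M hM hL a.1 b.1 (hA0 a.1 a.2) (hA0 b.1 b.2)] at h1
  · unfold Function.Injective at hinj
    push Not at hinj
    obtain ⟨a, b, hab, hne⟩ := hinj
    refine ⟨a.1, a.2, b.1, b.2, fun h => hne (Subtype.ext h), ?_⟩
    have h1 := BR3_pp hD hdif M hM hL a.1 b.1 (hA0 a.1 a.2) (hA0 b.1 b.2)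
    have h2 : (hL.un a.1 (hA0 a.1 a.2)).unit = (hL.un b.1 (hA0 b.1 b.2)).unit := hab
    rw [h2, mul_inv_cancel, PP_one] at h1
    rw [← h1]
    linarith

end Pool.LibHB92
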