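import Mathlib

/-
LibHB92: MP_b1abd3_lc. A NIP valued field with infinite residue field of characteristic p > 0 is henselian if for one prime
q != p the groups L*/(L*)^q are finite. Page: store L25_b1abd3_helper92.md.
This file: finitely additive means on bounded functions and their elementary rules.
-/

set_option autoImplicit false

noncomputable section

namespace Pool.LibHB92

universe u v

/-- bounded real functions -/
def Bd {Y : Type u} (f : Y → ℝ) : Prop := ∃ C : ℝ, ∀ y, |f y| ≤ C

/-- a mean: a positive normalised linear functional on the bounded functions -/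
structure Mean (Y : Type u) where
  m : (Y → ℝ) → ℝ
  add : ∀ f g, Bd f → Bd g → m (fun y => f y + g y) = m f + m g
  smul : ∀ (c : ℝ) f, Bd f → m (fun y => c * f y) = c * m f
  mono : ∀ f g, Bd f → Bd g → (∀ y, f y ≤ g y) → m f ≤ m g
  one : m (fun _ => 1) = 1

open Classical in
/-- the indicator of a proposition -/
def ind (P : Prop) : ℝ := if P then 1 else 0

theorem ind_true {P : Prop} (h : P) : ind P = 1 := by simp [ind, h]

theorem ind_false {P : Prop} (h : ¬ P) : ind P = 0 := by simp [ind, h]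

theorem ind_nonneg (P : Prop) : 0 ≤ ind P := by
  unfold ind
  split_ifs <;> norm_num

theorem ind_le_one (P : Prop) : ind P ≤ 1 := by
  unfold ind
  split_ifs <;> norm_num

theorem ind_mono {P Q : Prop} (h : P → Q) : ind P ≤ ind Q := by
  by_cases hP : P
  · rw [ind_true hP, ind_true (h hP)]
  · rw [ind_false hP]
    exact ind_nonneg Q

theorem ind_congr {P Q : Prop} (h : P ↔ Q) : ind P = ind Q := by
  rw [propext h]

theorem bd_ind {Y : Type u} (P : Y → Prop) : Bd (fun y => ind (P y)) :=
  ⟨1, fun y => by rw [abs_of_nonneg (ind_nonneg _)]; exact ind_le_one _⟩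

theorem bd_const {Y : Type u} (c : ℝ) : Bd (fun _ : Y => c) := ⟨|c|, fun _ => le_rfl⟩

theorem Bd.add {Y : Type u} {f g : Y → ℝ} (hf : Bd f) (hg : Bd g) : Bd (fun y => f y + g y) := by
  obtain ⟨C, hC⟩ := hf
  obtain ⟨D, hD⟩ := hg
  exact ⟨C + D, fun y => (abs_add_le _ _).trans (add_le_add (hC y) (hD y))⟩

theorem Bd.mul {Y : Type u} {f g : Y → ℝ} (hf : Bd f) (hg : Bd g) : Bd (fun y => f y * g y) := by
  obtain ⟨C, hC⟩ := hf
  obtain ⟨D, hD⟩ := hg
  refine ⟨C * D, fun y => ?_⟩
  rw [abs_mul]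
  exact mul_le_mul (hC y) (hD y) (abs_nonneg _) ((abs_nonneg _).trans (hC y))

theorem Bd.cmul {Y : Type u} {f : Y → ℝ} (c : ℝ) (hf : Bd f) : Bd (fun y => c * f y) :=
  (bd_const c).mul hf

theorem Bd.sub {Y : Type u} {f g : Y → ℝ} (hf : Bd f) (hg : Bd g) : Bd (fun y => f y - g y) := by
  have := hf.add (hg.cmul (-1))
  simpa [sub_eq_add_neg] using this

theorem Bd.abs {Y : Type u} {f : Y → ℝ} (hf : Bd f) : Bd (fun y => |f y|) := by
  obtain ⟨C, hC⟩ := hf
  exact ⟨C, fun y => by rw [abs_abs]; exact hC y⟩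

theorem Bd.sum {Y : Type u} {ι : Type v} (s : Finset ι) {f : ι → Y → ℝ}
    (hf : ∀ i ∈ s, Bd (f i)) : Bd (fun y => ∑ i ∈ s, f i y) := by
  classical
  induction s using Finset.induction_on with
  | empty => simpa using bd_const (Y := Y) 0
  | insert a s ha ih =>
    have h1 := (hf a (Finset.mem_insert_self a s)).add
      (ih fun i hi => hf i (Finset.mem_insert_of_mem hi))
    simpa [Finset.sum_insert ha] using h1

theorem Bd.comp {Y : Type u} {X : Type v} {f : Y → ℝ} (hf : Bd f) (h : X → Y) :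
    Bd (fun x => f (h x)) := by
  obtain ⟨C, hC⟩ := hf
  exact ⟨C, fun x => hC _⟩

/-- functions with values in [0,1] are bounded -/
theorem bd_of {Y : Type u} {f : Y → ℝ} (h0 : ∀ y, 0 ≤ f y) (h1 : ∀ y, f y ≤ 1) : Bd f :=
  ⟨1, fun y => by rw [abs_of_nonneg (h0 y)]; exact h1 y⟩

namespace Mean

variable {Y : Type u} (M : Mean Y)

theorem const (c : ℝ) : M.m (fun _ => c) = c := by
  have := M.smul c (fun _ => 1) (bd_const 1)
  simpa [M.one] using this

theorem sub {f g : Y → ℝ} (hf : Bd f) (hg : Bd g) : M.m (fun y => f y - g y) = M.m f - M.m g := by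
  have h1 := M.add f (fun y => (-1) * g y) hf (hg.cmul (-1))
  rw [M.smul (-1) g hg] at h1
  have : (fun y => f y - g y) = fun y => f y + (-1) * g y := by
    funext y
    ring
  rw [this, h1]
  ring

theorem sum {ι : Type v} (s : Finset ι) {f : ι → Y → ℝ} (hf : ∀ i ∈ s, Bd (f i)) :
    M.m (fun y => ∑ i ∈ s, f i y) = ∑ i ∈ s, M.m (f i) := by
  classical
  induction s using Finset.induction_on with
  | empty => simpa using M.const 0
  | insert a s ha ih =>
    rw [Finset.sum_insert ha, ← ih fun i hi => hf i (Finset.mem_insert_of_mem hi),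
      ← M.add _ _ (hf a (Finset.mem_insert_self a s))
        (Bd.sum s fun i hi => hf i (Finset.mem_insert_of_mem hi))]
    congr 1
    funext y
    rw [Finset.sum_insert ha]

theorem nonneg {f : Y → ℝ} (hf : Bd f) (h : ∀ y, 0 ≤ f y) : 0 ≤ M.m f := by
  rw [← M.const 0]
  exact M.mono _ _ (bd_const 0) hf h

theorem le_const {f : Y → ℝ} (hf : Bd f) {c : ℝ} (h : ∀ y, f y ≤ c) : M.m f ≤ c := by
  rw [← M.const c]
  exact M.mono _ _ hf (bd_const c) h

theorem abs_le {f : Y → ℝ} (hf : Bd f) : |M.m f| ≤ M.m (fun y => |f y|) := by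
  rw [abs_le']
  constructor
  · exact M.mono _ _ hf hf.abs fun y => le_abs_self _
  · have h1 := M.smul (-1) f hf
    have h2 : -M.m f = M.m (fun y => (-1) * f y) := by rw [h1]; ring
    rw [h2]
    exact M.mono _ _ (hf.cmul (-1)) hf.abs fun y => by
      rw [neg_one_mul]
      exact neg_le_abs _

/-- if the mean is larger than c, so is some value -/
theorem exists_gt {f : Y → ℝ} (hf : Bd f) {c : ℝ} (h : c < M.m f) : ∃ y, c < f y := by
  by_contra hn
  push Not at hn
  exact absurd (M.le_const hf hn) (not_le.2 h)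

/-- probability of a property -/
def pr (P : Y → Prop) : ℝ := M.m (fun y => ind (P y))

theorem pr_nonneg (P : Y → Prop) : 0 ≤ M.pr P := M.nonneg (bd_ind P) fun _ => ind_nonneg _

theorem pr_le_one (P : Y → Prop) : M.pr P ≤ 1 := M.le_const (bd_ind P) fun _ => ind_le_one _

theorem pr_mono {P Q : Y → Prop} (h : ∀ y, P y → Q y) : M.pr P ≤ M.pr Q :=
  M.mono _ _ (bd_ind P) (bd_ind Q) fun y => ind_mono (h y)

theorem pr_congr {P Q : Y → Prop} (h : ∀ y, P y ↔ Q y) : M.pr P = M.pr Q := by
  unfold pr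
  congr 1
  funext y
  exact ind_congr (h y)

theorem pr_true {P : Y → Prop} (h : ∀ y, P y) : M.pr P = 1 := by
  rw [← M.one]
  unfold pr
  congr 1
  funext y
  exact ind_true (h y)

theorem pr_false {P : Y → Prop} (h : ∀ y, ¬ P y) : M.pr P = 0 := by
  rw [← M.const 0]
  unfold pr
  congr 1
  funext y
  exact ind_false (h y)

/-- union bound -/
theorem pr_or (P Q : Y → Prop) : M.pr (fun y => P y ∨ Q y) ≤ M.pr P + M.pr Q := by
  unfold pr
  rw [← M.add _ _ (bd_ind P) (bd_ind Q)]
  refine M.mono _ _ (bd_ind _) ((bd_ind P).add (bd_ind Q)) fun y => ?_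
  by_cases hP : P y
  · rw [ind_true (Or.inl hP), ind_true hP]
    linarith [ind_nonneg (Q y)]
  · by_cases hQ : Q y
    · rw [ind_true (Or.inr hQ), ind_true hQ]
      linarith [ind_nonneg (P y)]
    · rw [ind_false (by tauto)]
      linarith [ind_nonneg (P y), ind_nonneg (Q y)]

theorem pr_le_or {P Q R : Y → Prop} (h : ∀ y, P y → Q y ∨ R y) : M.pr P ≤ M.pr Q + M.pr R :=
  (M.pr_mono h).trans (M.pr_or Q R)

/-- complement -/
theorem pr_not (P : Y → Prop) : M.pr (fun y => ¬ P y) = 1 - M.pr P := by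
  have h1 : M.pr (fun y => ¬ P y) = M.m (fun y => 1 - ind (P y)) := by
    unfold pr
    congr 1
    funext y
    by_cases hP : P y
    · rw [ind_true hP, ind_false (not_not.2 hP)]
      norm_num
    · rw [ind_true hP, ind_false hP]
      norm_num
  rw [h1, M.sub (bd_const 1) (bd_ind P), M.const]
  rfl

theorem exists_of_pr_pos {P : Y → Prop} (h : 0 < M.pr P) : ∃ y, P y := by
  by_contra hn
  push Not at hn
  rw [M.pr_false hn] at h
  exact lt_irrefl _ h

/-- two properties that agree with high probability -/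
theorem abs_pr_sub (P Q : Y → Prop) : |M.pr P - M.pr Q| ≤ M.pr (fun y => ¬ (P y ↔ Q y)) := by
  have h1 : M.pr P ≤ M.pr Q + M.pr (fun y => ¬ (P y ↔ Q y)) :=
    M.pr_le_or fun y hy => by tauto
  have h2 : M.pr Q ≤ M.pr P + M.pr (fun y => ¬ (P y ↔ Q y)) :=
    M.pr_le_or fun y hy => by tauto
  rw [abs_le']
  constructor <;> linarith

/-- triangle inequality for the distance pr (f ≠ g) -/
theorem pr_ne_tri {S : Type v} (f g h : Y → S) :
    M.pr (fun y => f y ≠ h y) ≤ M.pr (fun y => f y ≠ g y) + M.pr (fun y => g y ≠ h y) :=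
  M.pr_le_or fun y hy => by
    by_contra hn
    push Not at hn
    exact hy (hn.1.trans hn.2)

theorem pr_ne_symm {S : Type v} (f g : Y → S) :
    M.pr (fun y => f y ≠ g y) = M.pr (fun y => g y ≠ f y) :=
  M.pr_congr fun _ => ne_comm

open Classical in
/-- the values of a function with finitely many values have total probability 1 -/
theorem sum_pr_eq {S : Type v} [Fintype S] (f : Y → S) : ∑ s, M.pr (fun y => f y = s) = 1 := by
  unfold pr
  rw [← M.sum Finset.univ fun s _ => bd_ind _, ← M.one]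
  congr 1
  funext y
  rw [Finset.sum_eq_single (f y)]
  · exact ind_true rfl
  · intro s _ hs
    exact ind_false fun h => hs h.symm
  · intro h
    exact absurd (Finset.mem_univ _) h

/-- almost sure transfer -/
theorem pr_eq_of {P Q : Y → Prop} (h : M.pr (fun y => ¬ (P y ↔ Q y)) = 0) : M.pr P = M.pr Q := by
  have h1 := M.abs_pr_sub P Q
  rw [h] at h1
  have h2 : M.pr P - M.pr Q = 0 := abs_nonpos_iff.1 h1
  linarith

end Mean

end Pool.LibHB92
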