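import Pool.Agent.LibHB92.FF2

/-
FF3. The main result of the finite field part, by averaging.
-/

set_option autoImplicit false

noncomputable section

namespace Pool.LibHB92

universe u

private theorem FF3_avg {𝔽 : Type u} [Field 𝔽] [Fintype 𝔽] (p : 𝔽 → ℝ) :
    (∑ b, ∑ b', |p b' - p b|) / Fintype.card 𝔽 = ∑ κ, Dd p κ := by
  unfold Dd
  rw [← Finset.sum_div]
  congr 1
  have h1 : ∑ κ : 𝔽, ∑ b : 𝔽, |p (b + κ) - p b| = ∑ b : 𝔽, ∑ κ : 𝔽, |p (b + κ) - p b| := Finset.sum_comm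
  rw [h1]
  refine Finset.sum_congr rfl fun b _ => ?_
  rw [← Equiv.sum_comp (Equiv.addLeft b) (fun b' => |p b' - p b|)]
  rfl

theorem ff_main (B1 B2 : ℝ → ℕ) {δ : ℝ} (hδ : 0 < δ) : ∃ Q0 : ℕ, ∀ (𝔽 : Type u) [Field 𝔽]
    [Fintype 𝔽], Q0 ≤ Fintype.card 𝔽 → ∀ p : 𝔽 → ℝ, FFH B1 B2 p → ∀ ζ : 𝔽, ζ ≠ 0 →
    1 - δ ≤ p ζ := by
  classical
  set a : ℝ := δ / 200 with ha
  have ha0 : 0 < a := by positivity
  set B : ℕ := B1 a with hB
  set b : ℝ := a / (100 * ((B : ℝ) + 1)) with hb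
  have hBR : (0 : ℝ) ≤ B := Nat.cast_nonneg B
  have hb0 : 0 < b := by positivity
  have hbB : 36 * b * B < a := by
    rw [hb, mul_div_assoc', div_mul_eq_mul_div, div_lt_iff₀ (by positivity)]
    nlinarith
  obtain ⟨Q1, hQ1⟩ := ff_diff.{u} B1 B2 hb0
  refine ⟨max Q1 (max 2 ⌈2 / b⌉₊), ?_⟩
  intro 𝔽 _ _ hcard p h ζ hζ
  have hc1 : Q1 ≤ Fintype.card 𝔽 := le_trans (le_max_left _ _) hcard
  have hc2 : 2 ≤ Fintype.card 𝔽 := le_trans (le_trans (le_max_left _ _) (le_max_right _ _)) hcard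
  have hc3 : ⌈2 / b⌉₊ ≤ Fintype.card 𝔽 := le_trans (le_trans (le_max_right _ _) (le_max_right _ _)) hcard
  set Q : ℕ := Fintype.card 𝔽 with hQ
  have hQR : (2 : ℝ) ≤ Q := by exact_mod_cast hc2
  have hQ0 : (0 : ℝ) < Q := by linarith
  have hQb : 2 / (Q : ℝ) ≤ b := by
    have h1 : 2 / b ≤ Q := Nat.ceil_le.1 hc3
    rw [div_le_iff₀ hb0] at h1
    rw [div_le_iff₀ hQ0]
    linarith
  -- step 1
  have hD : ∀ κ : 𝔽, Dd p κ ≤ 18 * b := by
    intro κ
    by_cases hκ : κ = 0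
    · rw [hκ]
      unfold Dd
      simp only [add_zero, sub_self, abs_zero, Finset.sum_const_zero, zero_div]
      positivity
    · have h1 := hQ1 𝔽 hc1 p h κ hκ
      linarith
  have hT : ∑ c, ∑ b', |p b' - p c| ≤ 18 * b * (Q : ℝ) ^ 2 := by
    have h1 := FF3_avg p
    have h2 : ∑ κ : 𝔽, Dd p κ ≤ ∑ _κ : 𝔽, 18 * b := Finset.sum_le_sum fun κ _ => hD κ
    rw [Finset.sum_const, Finset.card_univ, nsmul_eq_mul, ← h1, div_le_iff₀ (by rw [← hQ]; exact hQ0)] at h2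
    rw [← hQ] at h2
    nlinarith
  -- step 2
  have hS := ff_card h ha0
  rw [← hB, ← hQ] at hS
  set S := Finset.univ.filter (fun x : 𝔽 => x ≠ 0 ∧ 1 - 2 * a ≤ p x) with hSdef
  have hSR : (Q : ℝ) / 2 ≤ B * S.card := by
    have h1 : Q ≤ B * S.card + 1 := by omega
    have h2 : (Q : ℝ) ≤ B * S.card + 1 := by exact_mod_cast h1
    have h3 : 1 ≤ B * S.card := by omega
    have h4 : (1 : ℝ) ≤ B * S.card := by exact_mod_cast h3
    linarith
  have hex : ∃ c ∈ S, ∑ b', |p b' - p c| ≤ a * Q := by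
    by_contra hcon
    push Not at hcon
    have h1 : (S.card : ℝ) * (a * Q) ≤ ∑ c ∈ S, ∑ b', |p b' - p c| := by
      rw [← nsmul_eq_mul]
      exact Finset.card_nsmul_le_sum _ _ _ fun c hc => (hcon c hc).le
    have h2 : ∑ c ∈ S, ∑ b', |p b' - p c| ≤ ∑ c, ∑ b', |p b' - p c| :=
      Finset.sum_le_sum_of_subset_of_nonneg (Finset.subset_univ _)
        fun c _ _ => Finset.sum_nonneg fun b' _ => abs_nonneg _
    have h3 : (S.card : ℝ) * (a * Q) ≤ 18 * b * (Q : ℝ) ^ 2 := h1.trans (h2.trans hT)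
    have h4 : (S.card : ℝ) * a ≤ 18 * b * Q := by
      have h5 : (S.card : ℝ) * a * Q ≤ 18 * b * Q * Q := by nlinarith
      exact le_of_mul_le_mul_right h5 hQ0
    have h6 : (B : ℝ) * ((S.card : ℝ) * a) ≤ B * (18 * b * Q) := mul_le_mul_of_nonneg_left h4 hBR
    have h7 : (Q : ℝ) / 2 * a ≤ B * (18 * b * Q) := by
      have h8 : (Q : ℝ) / 2 * a ≤ (B * S.card) * a := mul_le_mul_of_nonneg_right hSR ha0.le
      nlinarith
    have h9 : 36 * b * B * Q < a * Q := mul_lt_mul_of_pos_right hbB hQ0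
    nlinarith
  obtain ⟨c, hcS, hc⟩ := hex
  rw [hSdef, Finset.mem_filter] at hcS
  have hpc := hcS.2.2
  have hsum : ∑ b' : 𝔽, (1 - p b') ≤ 3 * a * Q := by
    have h1 : ∀ b' ∈ (Finset.univ : Finset 𝔽), 1 - p b' ≤ |p b' - p c| + 2 * a := by
      intro b' _
      have h2 := neg_abs_le (p b' - p c)
      linarith
    refine (Finset.sum_le_sum h1).trans ?_
    rw [Finset.sum_add_distrib, Finset.sum_const, Finset.card_univ, nsmul_eq_mul, ← hQ]
    linarith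
  -- step 3
  have hsum2 : ∑ b' : 𝔽, (1 - p (ζ * b')) ≤ 3 * a * Q := by
    have h1 : ∑ b' : 𝔽, (1 - p (ζ * b')) = ∑ b' : 𝔽, (1 - p b') := by
      rw [← Equiv.sum_comp (Equiv.mulLeft₀ ζ hζ) (fun b' => 1 - p b')]
      rfl
    rw [h1]
    exact hsum
  have hex2 : ∃ b' : 𝔽, b' ≠ 0 ∧ (1 - p b') + (1 - p (ζ * b')) ≤ 12 * a := by
    by_contra hcon
    push Not at hcon
    have h1 : ∑ b' : 𝔽, ((1 - p b') + (1 - p (ζ * b'))) ≤ 6 * a * Q := by
      rw [Finset.sum_add_distrib]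
      linarith
    have h2 : ∑ b' ∈ Finset.univ.erase (0 : 𝔽), (12 * a) ≤
        ∑ b' ∈ Finset.univ.erase (0 : 𝔽), ((1 - p b') + (1 - p (ζ * b'))) :=
      Finset.sum_le_sum fun b' hb' => (hcon b' (Finset.ne_of_mem_erase hb')).le
    have h3 := Finset.add_sum_erase Finset.univ (fun b' : 𝔽 => (1 - p b') + (1 - p (ζ * b'))) (Finset.mem_univ 0)
    simp only [mul_zero, h.zero, sub_zero] at h3
    rw [Finset.sum_const, Finset.card_erase_of_mem (Finset.mem_univ _), Finset.card_univ, nsmul_eq_mul, ← hQ,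
      Nat.cast_sub (by omega)] at h2
    push_cast at h2
    nlinarith
  obtain ⟨b', hb'0, hb'⟩ := hex2
  -- step 4
  have h1 := h.le b'
  have h2 := h.le (ζ * b')
  have h3 := h.mul (12 * a) b' ζ (by positivity) (by linarith) hb'0 hζ
  rw [mul_comm b' ζ] at h3
  have h4 := (abs_le.1 h3).2
  have h5 : 60 * a ≤ δ := by rw [ha]; linarith
  linarith

end Pool.LibHB92
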