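import Pool.Agent.LibHB92.MKb
import Pool.Agent.LibHB92.FF3
import Pool.Agent.LibHB92.BR2
import Pool.Agent.LibHB92.BR3

/-
The core theorem (helper92).
-/

set_option autoImplicit false

noncomputable section

namespace Pool.LibHB92

universe u

theorem Lft.pow {R : Type u} [CommRing R] {η : R} {𝔽 : Type u} [Field 𝔽] {z t : 𝔽 → R}
    (hL : Lft η 𝔽 z t) (ζ : 𝔽) (k : ℕ) : ∃ x, z ζ ^ k = z (ζ ^ k) + η * x := by
  induction k with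
  | zero =>
    obtain ⟨x, hx⟩ := hL.one
    refine ⟨-x, ?_⟩
    rw [pow_zero, pow_zero, hx]
    ring
  | succ k ih =>
    obtain ⟨x, hx⟩ := ih
    obtain ⟨x', hx'⟩ := hL.mul (ζ ^ k) ζ
    refine ⟨x' + x * z ζ, ?_⟩
    rw [pow_succ, hx, pow_succ]
    linear_combination hx'

/-- the core: the q-th power of a lift of a q-th root of unity of a large finite field has trivial phi -/
theorem core (N f q : ℕ) (hq : 0 < q) : ∃ Q0 : ℕ, ∀ (R : Type u) [CommRing R]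
    (F : Type u) [CommGroup F] [Fintype F], Fintype.card F ≤ f → (∀ s : F, s ^ q = 1) →
    ∀ (η : R) (φ : R → F), Dat η φ N → Dif R →
    ∀ (𝔽 : Type u) [Field 𝔽] [Fintype 𝔽], Q0 ≤ Fintype.card 𝔽 →
    ∀ (z t : 𝔽 → R), Lft η 𝔽 z t → ∀ ζ : 𝔽, ζ ^ q = 1 → φ (z ζ ^ q) = 1 := by
  classical
  have hb1 : ∀ ε : ℝ, ∃ B : ℕ, 0 < ε → ∀ (R : Type u) [CommRing R]
    (F : Type u) [CommGroup F] [Fintype F], Fintype.card F ≤ f → ∀ (η : R) (φ : R → F),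
    Dat η φ N → Dif R → ∀ M : Mean R, AffInv M → ∀ (𝔽 : Type u) [Field 𝔽] [Fintype 𝔽]
    (z t : 𝔽 → R), Lft η 𝔽 z t → ∀ A : Finset 𝔽, (∀ a ∈ A, a ≠ 0) → B < A.card →
    ∃ a ∈ A, ∃ b ∈ A, a ≠ b ∧ 1 - 2 * ε ≤ pp η φ M z (a * b⁻¹) := by
    intro ε
    by_cases hε : 0 < ε
    · obtain ⟨B, hB⟩ := pp_pk1.{u} N f hε
      exact ⟨B, fun _ => hB⟩
    · exact ⟨0, fun h => absurd h hε⟩
  have hb2 : ∀ ε : ℝ, ∃ B : ℕ, 0 < ε → ∀ (R : Type u) [CommRing R]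
    (F : Type u) [CommGroup F] [Fintype F], Fintype.card F ≤ f → ∀ (η : R) (φ : R → F),
    Dat η φ N → Dif R → ∀ M : Mean R, AffInv M → ∀ (𝔽 : Type u) [Field 𝔽] [Fintype 𝔽]
    (z t : 𝔽 → R), Lft η 𝔽 z t → ∀ C : Finset 𝔽, B < C.card →
    ∃ c ∈ C, ∃ d ∈ C, c ≠ d ∧
      (∑ b, |pp η φ M z (b + c) - pp η φ M z (b + d)|) / Fintype.card 𝔽 ≤
        ε + 2 / Fintype.card 𝔽 := by
    intro ε
    by_cases hε : 0 < ε
    · obtain ⟨B, hB⟩ := pp_pk2.{u} N f hε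
      exact ⟨B, fun _ => hB⟩
    · exact ⟨0, fun h => absurd h hε⟩
  choose B1 hB1 using hb1
  choose B2 hB2 using hb2
  have hqR : (0 : ℝ) < q := Nat.cast_pos.2 hq
  have hδ : (0 : ℝ) < 1 / (2 * q) := by positivity
  obtain ⟨Q0, hQ0⟩ := ff_main.{u} B1 B2 hδ
  refine ⟨Q0, ?_⟩
  intro R _ F _ _ hF hexp η φ hD hdif 𝔽 _ _ h𝔽 z t hL ζ hζ
  obtain ⟨M, hM⟩ := mean_exists R
  have hζ0 : ζ ≠ 0 := by
    rintro rfl
    rw [zero_pow hq.ne'] at hζ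
    exact zero_ne_one hζ
  have hH : FFH B1 B2 (pp η φ M z) :=
    { nn := fun b => pp_nn M b
      le := fun b => pp_le M b
      zero := pp_zero M
      one := pp_one hD hdif M hM hL
      inv := fun b => pp_inv hD hdif M hM hL b
      mul := fun ε a b hε h ha hb => pp_mul hD hdif M hM hL ε a b hε h ha hb
      pk1 := fun ε A hε hA hc => hB1 ε hε R F hF η φ hD hdif M hM 𝔽 z t hL A hA hc
      pk2 := fun ε C hε hc => hB2 ε hε R F hF η φ hD hdif M hM 𝔽 z t hL C hc }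
  have h1 := hQ0 𝔽 h𝔽 _ hH ζ hζ0
  obtain ⟨u, hu⟩ := hL.un ζ hζ0
  have h2 : PP η φ M u = pp η φ M z ζ :=
    pp_eq hD hdif M hM hL ζ hζ0 u 0 (by rw [hu]; ring)
  rw [← h2] at h1
  obtain ⟨ω, hω⟩ := exists_pi M u h1
  have h3 := pi_pow M hM u ω hδ.le hω q
  rw [hexp ω] at h3
  have h4 : (q : ℝ) * (1 / (2 * q)) = 1 / 2 := by field_simp
  rw [h4] at h3
  obtain ⟨x, hx⟩ := hL.pow ζ q
  obtain ⟨x1, hx1⟩ := hL.one
  rw [hζ, hx1] at hx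
  have h5 : ((u ^ q : Rˣ) : R) = 1 + η * (x1 + x) := by
    rw [Units.val_pow_eq_pow_val, hu, hx]
    ring
  have h6 := g_cong hD hdif M hM 1 (u ^ q) (x1 + x) h5
  rw [one_mul] at h6
  have h7 : 0 < M.pr (fun y => g η φ (u ^ q) y = 1 * g η φ 1 y ∧
      g η φ (u ^ q) y = (φ ((u ^ q : Rˣ) : R))⁻¹ * g η φ 1 y) := by
    have h8 : M.pr (fun y => g η φ (u ^ q) y = 1 * g η φ 1 y) ≤
        M.pr (fun y => g η φ (u ^ q) y = 1 * g η φ 1 y ∧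
          g η φ (u ^ q) y = (φ ((u ^ q : Rˣ) : R))⁻¹ * g η φ 1 y) +
        M.pr (fun y => g η φ (u ^ q) y ≠ (φ ((u ^ q : Rˣ) : R))⁻¹ * g η φ 1 y) :=
      M.pr_le_or fun y hy => by
        by_cases hn : g η φ (u ^ q) y = (φ ((u ^ q : Rˣ) : R))⁻¹ * g η φ 1 y
        · exact Or.inl ⟨hy, hn⟩
        · exact Or.inr hn
    rw [h6] at h8
    linarith
  obtain ⟨y, hy1, hy2⟩ := M.exists_of_pr_pos h7
  rw [hy1, one_mul] at hy2
  have h9 : (φ ((u ^ q : Rˣ) : R))⁻¹ = 1 := by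
    have := congrArg (fun a => a * (g η φ 1 y)⁻¹) hy2
    simpa using this.symm
  rw [inv_eq_one, Units.val_pow_eq_pow_val, hu] at h9
  exact h9

end Pool.LibHB92
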