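import Pool.Agent.LibHB92.Base

/-
Definitions of the core: invariant means, the data (eta, phi), the random variables g(z, y) = phi(1 - eta y / z), the
distribution pi(z, s) of g(z, y) / g(1, y) and its collision probability PP z.
-/

set_option autoImplicit false

noncomputable section

namespace Pool.LibHB92

universe u v

/-- invariance of a mean on a ring under translations and multiplications by units -/
structure AffInv {R : Type u} [CommRing R] (M : Mean R) : Prop where
  tr : ∀ (r : R) (f : R → ℝ), Bd f → M.m (fun y => f (y + r)) = M.m f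
  sc : ∀ (w : Rˣ) (f : R → ℝ), Bd f → M.m (fun y => f (w * y)) = M.m f

/-- no N points are shattered by the family of properties A i (i : I) -/
def NoSh {Y : Type u} {I : Type v} (N : ℕ) (A : I → Y → Prop) : Prop :=
  ¬ ∃ (y : Fin N → Y) (b : Set (Fin N) → I), ∀ (i : Fin N) (J : Set (Fin N)),
    A (b J) (y i) ↔ i ∈ J

/-- the data: 1 + eta R consists of units, phi is multiplicative on it, and two families have no shattered
sets of N points -/
structure Dat {R : Type u} [CommRing R] {F : Type u} [CommGroup F] (η : R) (φ : R → F) (N : ℕ) :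
    Prop where
  un : ∀ x : R, IsUnit (1 + η * x)
  mul : ∀ x y : R, φ ((1 + η * x) * (1 + η * y)) = φ (1 + η * x) * φ (1 + η * y)
  V1 : ∀ s : F, NoSh N (fun (b : R × R) (y : R) => φ (1 - η * (y + b.1) * b.2) = s)
  V2 : ∃ T : F → R → R × R × R → Prop, (∀ s, NoSh N (T s)) ∧
    ∀ s t (y : R × R × R), IsUnit (y.1 + t) → (T s t y ↔ ∃ x : R, φ (1 + η * x) = s ∧
      y.1 + t - η * y.2.1 = (1 + η * x) * (y.1 + t - η * y.2.2))

/-- arbitrarily long sequences of units with differences that are units -/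
def Dif (R : Type u) [CommRing R] : Prop :=
  ∀ n : ℕ, ∃ w : Fin n → Rˣ, ∀ i j, i ≠ j → IsUnit ((w i : R) - (w j : R))

/-- the random variable g(z, y) = phi(1 - eta y / z) -/
def g {R : Type u} [CommRing R] {F : Type u} (η : R) (φ : R → F) (z : Rˣ) (y : R) : F :=
  φ (1 - η * y * ((z⁻¹ : Rˣ) : R))

/-- pi(z, s) : probability that g(z, y) = s g(1, y) -/
def pi' {R : Type u} [CommRing R] {F : Type u} [CommGroup F] (η : R) (φ : R → F) (M : Mean R)
    (z : Rˣ) (s : F) : ℝ :=
  M.pr (fun y => g η φ z y = s * g η φ 1 y)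

/-- collision probability -/
def PP {R : Type u} [CommRing R] {F : Type u} [CommGroup F] [Fintype F] (η : R) (φ : R → F)
    (M : Mean R) (z : Rˣ) : ℝ :=
  ∑ s, pi' η φ M z s ^ 2

/-- the mean on FF x R x R -/
def Mean.trip {R : Type u} (M : Mean R) (𝔽 : Type u) [Fintype 𝔽] [Nonempty 𝔽] :
    Mean (𝔽 × R × R) where
  m := fun f => (∑ b : 𝔽, M.m (fun y => M.m (fun y' => f (b, y, y')))) / Fintype.card 𝔽
  add := by
    rintro f g ⟨C, hC⟩ ⟨D, hD⟩
    have e : ∀ b : 𝔽, M.m (fun y => M.m (fun y' => f (b, y, y') + g (b, y, y'))) =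
        M.m (fun y => M.m (fun y' => f (b, y, y'))) + M.m (fun y => M.m (fun y' => g (b, y, y'))) := by
      intro b
      rw [← M.add _ _ ⟨C, fun y => ?_⟩ ⟨D, fun y => ?_⟩]
      · congr 1
        funext y
        exact M.add _ _ ⟨C, fun y' => hC _⟩ ⟨D, fun y' => hD _⟩
      · refine (M.abs_le ⟨C, fun y' => hC _⟩).trans ?_
        exact M.le_const (Bd.abs ⟨C, fun y' => hC _⟩) fun y' => hC _
      · refine (M.abs_le ⟨D, fun y' => hD _⟩).trans ?_
        exact M.le_const (Bd.abs ⟨D, fun y' => hD _⟩) fun y' => hD _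
    simp only [e, Finset.sum_add_distrib, add_div]
  smul := by
    rintro c f ⟨C, hC⟩
    have e : ∀ b : 𝔽, M.m (fun y => M.m (fun y' => c * f (b, y, y'))) =
        c * M.m (fun y => M.m (fun y' => f (b, y, y'))) := by
      intro b
      rw [← M.smul c _ ⟨C, fun y => ?_⟩]
      · congr 1
        funext y
        exact M.smul c _ ⟨C, fun y' => hC _⟩
      · refine (M.abs_le ⟨C, fun y' => hC _⟩).trans ?_
        exact M.le_const (Bd.abs ⟨C, fun y' => hC _⟩) fun y' => hC _
    simp only [e, ← Finset.mul_sum, mul_div_assoc]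
  mono := by
    rintro f g ⟨C, hC⟩ ⟨D, hD⟩ h
    refine div_le_div_of_nonneg_right (Finset.sum_le_sum fun b _ => ?_) (Nat.cast_nonneg _)
    refine M.mono _ _ ⟨C, fun y => ?_⟩ ⟨D, fun y => ?_⟩ fun y =>
      M.mono _ _ ⟨C, fun y' => hC _⟩ ⟨D, fun y' => hD _⟩ fun y' => h _
    · refine (M.abs_le ⟨C, fun y' => hC _⟩).trans ?_
      exact M.le_const (Bd.abs ⟨C, fun y' => hC _⟩) fun y' => hC _
    · refine (M.abs_le ⟨D, fun y' => hD _⟩).trans ?_
      exact M.le_const (Bd.abs ⟨D, fun y' => hD _⟩) fun y' => hD _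
  one := by
    have h1 : M.m (fun _ => M.m (fun _ => (1 : ℝ))) = 1 := by
      rw [M.const, M.const]
    have hc : (Fintype.card 𝔽 : ℝ) ≠ 0 := Nat.cast_ne_zero.2 Fintype.card_ne_zero
    simp only [h1, Finset.sum_const, Finset.card_univ, nsmul_eq_mul, mul_one]
    exact div_self hc

/-- the function p on the finite field attached to lifts z -/
structure Lft {R : Type u} [CommRing R] (η : R) (𝔽 : Type u) [Field 𝔽] (z t : 𝔽 → R) : Prop where
  un : ∀ b, b ≠ 0 → IsUnit (z b)
  mul : ∀ b c, ∃ x, z b * z c = z (b * c) + η * x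
  add : ∀ b c, ∃ x, z b + t c = z (b + c) + η * x
  one : ∃ x, z 1 = 1 + η * x

open Classical in
/-- p b = PP (z b) for b ≠ 0 -/
def pp {R : Type u} [CommRing R] {F : Type u} [CommGroup F] [Fintype F] (η : R) (φ : R → F)
    (M : Mean R) {𝔽 : Type u} [Field 𝔽] (z : 𝔽 → R) (b : 𝔽) : ℝ :=
  if h : b ≠ 0 ∧ IsUnit (z b) then PP η φ M h.2.unit else 0

end Pool.LibHB92
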