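import Pool.Agent.LibHB92.FDef

/-
FF1. Covering and dilation for the finite field part.
-/

set_option autoImplicit false

noncomputable section

namespace Pool.LibHB92

universe u

variable {B1 B2 : ℝ → ℕ} {𝔽 : Type u} [Field 𝔽] [Fintype 𝔽] {p : 𝔽 → ℝ}

theorem ff_cover (h : FFH B1 B2 p) {ε : ℝ} (hε : 0 < ε) : ∃ A0 : Finset 𝔽,
    (∀ a ∈ A0, a ≠ 0) ∧ A0.card ≤ B1 ε ∧ ∀ b, b ≠ 0 → ∃ a ∈ A0, 1 - 2 * ε ≤ p (b * a⁻¹) := by
  classical
  let Good : Finset 𝔽 → Prop := fun A => (∀ a ∈ A, a ≠ 0) ∧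
    ∀ a ∈ A, ∀ b ∈ A, a ≠ b → ¬ (1 - 2 * ε ≤ p (a * b⁻¹))
  have hne : (Finset.univ.filter Good).Nonempty := by
    refine ⟨∅, ?_⟩
    rw [Finset.mem_filter]
    refine ⟨Finset.mem_univ _, ?_, ?_⟩
    · intro a ha; simp at ha
    · intro a ha; simp at ha
  obtain ⟨A0, hA0, hmax⟩ := Finset.exists_max_image (Finset.univ.filter Good) Finset.card hne
  rw [Finset.mem_filter] at hA0
  obtain ⟨_, hnz, hbad⟩ := hA0
  refine ⟨A0, hnz, ?_, ?_⟩
  · by_contra hcon
    push Not at hcon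
    obtain ⟨a, ha, b, hb, hab, hp⟩ := h.pk1 ε A0 hε hnz hcon
    exact hbad a ha b hb hab hp
  · intro b hb
    by_cases hbA : b ∈ A0
    · refine ⟨b, hbA, ?_⟩
      rw [mul_inv_cancel₀ hb, h.one]
      linarith
    · by_contra hcon
      push Not at hcon
      have hgood : Good (insert b A0) := by
        refine ⟨?_, ?_⟩
        · intro a ha
          rcases Finset.mem_insert.1 ha with rfl | ha
          · exact hb
          · exact hnz a ha
        · intro x hx y hy hxy hp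
          rcases Finset.mem_insert.1 hx with hx1 | hx1
          · rcases Finset.mem_insert.1 hy with hy1 | hy1
            · exact hxy (hx1.trans hy1.symm)
            · rw [hx1] at hp
              exact absurd hp (not_le.2 (hcon y hy1))
          · rcases Finset.mem_insert.1 hy with hy1 | hy1
            · have e1 : p (x * b⁻¹) = p (b * x⁻¹) := by
                rw [← h.inv (x * b⁻¹), mul_inv, inv_inv, mul_comm x⁻¹ b]
              rw [hy1, e1] at hp
              exact absurd hp (not_le.2 (hcon x hx1))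
            · exact hbad x hx1 y hy1 hxy hp
      have h1 := hmax (insert b A0) (by rw [Finset.mem_filter]; exact ⟨Finset.mem_univ _, hgood⟩)
      rw [Finset.card_insert_of_notMem hbA] at h1
      omega

open Classical in
theorem ff_card (h : FFH B1 B2 p) {ε : ℝ} (hε : 0 < ε) : Fintype.card 𝔽 - 1 ≤
    B1 ε * (Finset.univ.filter (fun x : 𝔽 => x ≠ 0 ∧ 1 - 2 * ε ≤ p x)).card := by
  obtain ⟨A0, hnz, hcard, hcov⟩ := ff_cover h hε
  set S := Finset.univ.filter (fun x : 𝔽 => x ≠ 0 ∧ 1 - 2 * ε ≤ p x) with hS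
  have h1 : (Finset.univ.erase (0 : 𝔽)) ⊆ A0.biUnion (fun a => S.image (fun x => x * a)) := by
    intro b hb
    rw [Finset.mem_erase] at hb
    obtain ⟨a, ha, hp⟩ := hcov b hb.1
    rw [Finset.mem_biUnion]
    refine ⟨a, ha, ?_⟩
    rw [Finset.mem_image]
    refine ⟨b * a⁻¹, ?_, ?_⟩
    · rw [hS, Finset.mem_filter]
      exact ⟨Finset.mem_univ _, mul_ne_zero hb.1 (inv_ne_zero (hnz a ha)), hp⟩
    · rw [mul_assoc, inv_mul_cancel₀ (hnz a ha), mul_one]
  have h2 : (Finset.univ.erase (0 : 𝔽)).card = Fintype.card 𝔽 - 1 := by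
    rw [Finset.card_erase_of_mem (Finset.mem_univ _), Finset.card_univ]
  rw [← h2]
  refine (Finset.card_le_card h1).trans ?_
  refine (Finset.card_biUnion_le).trans ?_
  refine (Finset.sum_le_sum fun a _ => Finset.card_image_le).trans ?_
  rw [Finset.sum_const, smul_eq_mul]
  exact Nat.mul_le_mul_right _ hcard

theorem ff_dil (h : FFH B1 B2 p) {ε : ℝ} (hε : 0 < ε) (a κ : 𝔽) (ha : a ≠ 0)
    (hp : 1 - 2 * ε ≤ p a) : |Dd p (a * κ) - Dd p κ| ≤ 16 * ε := by
  have hx : ∀ x, |p (a * x) - p x| ≤ 8 * ε := by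
    intro x
    by_cases hx0 : x = 0
    · rw [hx0, mul_zero, sub_self, abs_zero]; positivity
    · have h1 := h.mul (2 * ε) a x (by positivity) hp ha hx0
      linarith
  have h1 : ∑ b, |p (b + a * κ) - p b| = ∑ b, |p (a * (b + κ)) - p (a * b)| := by
    rw [← Equiv.sum_comp (Equiv.mulLeft₀ a ha) (fun b => |p (b + a * κ) - p b|)]
    refine Finset.sum_congr rfl fun b _ => ?_
    show |p (a * b + a * κ) - p (a * b)| = _
    rw [mul_add]
  have hQ : (0 : ℝ) < Fintype.card 𝔽 := by exact_mod_cast Fintype.card_pos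
  unfold Dd
  rw [h1, ← sub_div, ← Finset.sum_sub_distrib, abs_div, abs_of_pos hQ, div_le_iff₀ hQ]
  refine (Finset.abs_sum_le_sum_abs _ _).trans ?_
  have h2 : ∀ b ∈ (Finset.univ : Finset 𝔽), |(|p (a * (b + κ)) - p (a * b)| - |p (b + κ) - p b|)| ≤ 16 * ε := by
    intro b _
    have h3 := abs_abs_sub_abs_le (p (a * (b + κ)) - p (a * b)) (p (b + κ) - p b)
    refine h3.trans ?_
    have h4 : p (a * (b + κ)) - p (a * b) - (p (b + κ) - p b)
        = (p (a * (b + κ)) - p (b + κ)) - (p (a * b) - p b) := by ring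
    rw [h4]
    refine (abs_sub _ _).trans ?_
    have h5 := hx (b + κ)
    have h6 := hx b
    linarith
  refine (Finset.sum_le_sum h2).trans ?_
  rw [Finset.sum_const, Finset.card_univ, nsmul_eq_mul]
  linarith

theorem ff_pair (h : FFH B1 B2 p) {ε : ℝ} (hε : 0 < ε) (C : Finset 𝔽) (hC : B2 ε < C.card) :
    ∃ c ∈ C, ∃ d ∈ C, c ≠ d ∧ Dd p (c - d) ≤ ε + 2 / Fintype.card 𝔽 := by
  obtain ⟨c, hc, d, hd, hcd, h1⟩ := h.pk2 ε C hε hC
  refine ⟨c, hc, d, hd, hcd, ?_⟩
  refine le_of_eq_of_le ?_ h1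
  unfold Dd
  congr 1
  rw [← Equiv.sum_comp (Equiv.addRight d) (fun b => |p (b + (c - d)) - p b|)]
  refine Finset.sum_congr rfl fun b _ => ?_
  simp only [Equiv.coe_addRight]
  have h2 : b + d + (c - d) = b + c := by ring
  rw [h2]

theorem Dd_neg (p : 𝔽 → ℝ) (κ : 𝔽) : Dd p (-κ) = Dd p κ := by
  unfold Dd
  congr 1
  rw [← Equiv.sum_comp (Equiv.addRight κ) (fun b => |p (b + -κ) - p b|)]
  refine Finset.sum_congr rfl fun b _ => ?_
  simp only [Equiv.coe_addRight]
  have h2 : b + κ + -κ = b := by ring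
  rw [h2, abs_sub_comm]

end Pool.LibHB92
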