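import Pool.Agent.LibHB92.FF1

/-
FF2. The translates by every nonzero element move p by at most 17 ε on average (Ramsey).
-/

set_option autoImplicit false

noncomputable section

namespace Pool.LibHB92

universe u

private theorem FF2_B2_pos {B1 B2 : ℝ → ℕ} {𝔽 : Type u} [Field 𝔽] [Fintype 𝔽] {p : 𝔽 → ℝ}
    (h : FFH B1 B2 p) {ε : ℝ} (hε : 0 < ε) : 1 ≤ B2 ε := by
  by_contra hcon
  have h0 : B2 ε < ({0} : Finset 𝔽).card := by
    rw [Finset.card_singleton]; omega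
  obtain ⟨c, hc, d, hd, hcd, _⟩ := h.pk2 ε {0} hε h0
  rw [Finset.mem_singleton] at hc hd
  exact hcd (hc.trans hd.symm)

theorem ff_diff (B1 B2 : ℝ → ℕ) {ε : ℝ} (hε : 0 < ε) : ∃ Q1 : ℕ, ∀ (𝔽 : Type u) [Field 𝔽]
    [Fintype 𝔽], Q1 ≤ Fintype.card 𝔽 → ∀ p : 𝔽 → ℝ, FFH B1 B2 p → ∀ κ : 𝔽, κ ≠ 0 →
    Dd p κ ≤ 17 * ε + 2 / Fintype.card 𝔽 := by
  classical
  obtain ⟨n, hn⟩ := ramsey (B1 ε) (B2 ε + 1)
  refine ⟨n, ?_⟩
  intro 𝔽 _ _ hcard p hp κ hκ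
  obtain ⟨A0, hnz, hA0, hcov⟩ := ff_cover hp hε
  obtain ⟨e⟩ : Nonempty (Fin n ↪ 𝔽) := Function.Embedding.nonempty_of_card_le (by rw [Fintype.card_fin]; exact hcard)
  obtain ⟨g⟩ : Nonempty ({a // a ∈ A0} ↪ Fin (B1 ε)) := Function.Embedding.nonempty_of_card_le (by
    rw [Fintype.card_fin, Fintype.card_coe]; exact hA0)
  have hch : ∀ i j : Fin n, ∃ a : {a // a ∈ A0}, i ≠ j → 1 - 2 * ε ≤ p ((e i - e j) * (a : 𝔽)⁻¹) := by
    intro i j
    by_cases hij : i = j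
    · obtain ⟨a, ha, _⟩ := hcov 1 one_ne_zero
      exact ⟨⟨a, ha⟩, fun h => absurd hij h⟩
    · have h1 : e i - e j ≠ 0 := sub_ne_zero.2 (fun h => hij (e.injective h))
      obtain ⟨a, ha, h2⟩ := hcov _ h1
      exact ⟨⟨a, ha⟩, fun _ => h2⟩
  choose f hf using hch
  obtain ⟨s, a, hs, hmono⟩ := hn (fun i j => g (f i j))
  have hB2 := FF2_B2_pos hp hε
  let i0 : Fin (B2 ε + 1) := ⟨0, by omega⟩
  let i1 : Fin (B2 ε + 1) := ⟨1, by omega⟩
  have h01 : i0 < i1 := by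
    show (0 : ℕ) < 1
    exact Nat.zero_lt_one
  set α : {a // a ∈ A0} := f (s i0) (s i1) with hα
  have hall : ∀ i j, i < j → f (s i) (s j) = α := by
    intro i j hij
    apply g.injective
    have h1 := hmono i j hij
    have h2 := hmono i0 i1 h01
    exact h1.trans h2.symm
  have hα0 : (α : 𝔽) ≠ 0 := hnz _ α.2
  have hpx : ∀ i j, i < j → 1 - 2 * ε ≤ p ((e (s i) - e (s j)) * (α : 𝔽)⁻¹) := by
    intro i j hij
    have h1 := hf (s i) (s j) (hs hij).ne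
    rw [hall i j hij] at h1
    exact h1
  -- the set C
  have hinj : Function.Injective (fun i : Fin (B2 ε + 1) => κ * (α : 𝔽)⁻¹ * e (s i)) := by
    intro i j hij
    have h1 : κ * (α : 𝔽)⁻¹ ≠ 0 := mul_ne_zero hκ (inv_ne_zero hα0)
    exact hs.injective (e.injective (mul_left_cancel₀ h1 hij))
  set C : Finset 𝔽 := Finset.univ.image (fun i : Fin (B2 ε + 1) => κ * (α : 𝔽)⁻¹ * e (s i)) with hC
  have hCcard : B2 ε < C.card := by
    rw [hC, Finset.card_image_of_injective _ hinj, Finset.card_univ, Fintype.card_fin]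
    exact Nat.lt_succ_self _
  obtain ⟨c, hc, d, hd, hcd, hle⟩ := ff_pair hp hε C hCcard
  rw [hC, Finset.mem_image] at hc hd
  obtain ⟨i, _, rfl⟩ := hc
  obtain ⟨j, _, rfl⟩ := hd
  have hkey : ∀ i j : Fin (B2 ε + 1), i < j →
      Dd p (κ * (α : 𝔽)⁻¹ * e (s i) - κ * (α : 𝔽)⁻¹ * e (s j)) ≤ ε + 2 / Fintype.card 𝔽 →
      Dd p κ ≤ 17 * ε + 2 / Fintype.card 𝔽 := by
    intro i j hij h1
    have h2 : κ * (α : 𝔽)⁻¹ * e (s i) - κ * (α : 𝔽)⁻¹ * e (s j)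
        = ((e (s i) - e (s j)) * (α : 𝔽)⁻¹) * κ := by ring
    have h3 : (e (s i) - e (s j)) * (α : 𝔽)⁻¹ ≠ 0 := by
      refine mul_ne_zero (sub_ne_zero.2 fun h => ?_) (inv_ne_zero hα0)
      exact (hs hij).ne (e.injective h)
    have h4 := ff_dil hp hε _ κ h3 (hpx i j hij)
    rw [h2] at h1
    have h5 := (abs_le.1 h4).1
    linarith
  have hne : i ≠ j := by
    rintro rfl
    exact hcd rfl
  rcases lt_or_gt_of_ne hne with hij | hij
  · exact hkey i j hij hle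
  · refine hkey j i hij ?_
    rw [← Dd_neg, neg_sub]
    exact hle

end Pool.LibHB92
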