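import Pool.Agent.LibHB92.Defs

/-
Identities of g.
-/

set_option autoImplicit false

noncomputable section

namespace Pool.LibHB92

universe u v

variable {R : Type u} [CommRing R] {F : Type u} [CommGroup F] {η : R} {φ : R → F} {N : ℕ}

theorem Dat.one (hD : Dat η φ N) : φ 1 = 1 := by
  have h := hD.mul 0 0
  simp only [mul_zero, add_zero, mul_one] at h
  exact left_eq_mul.1 h

omit [CommGroup F] in
/-- the scaling identity -/
theorem g_sc (z z' : Rˣ) (y : R) : g η φ (z * z') (z' * y) = g η φ z y := by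
  unfold g
  congr 2
  rw [mul_inv, Units.val_mul]
  have h : (z' : R) * ((z'⁻¹ : Rˣ) : R) = 1 := Units.mul_inv z'
  linear_combination (η * y * ((z⁻¹ : Rˣ) : R)) * h

omit [CommGroup F] in
theorem g_sc' (z z' : Rˣ) (y : R) : g η φ z (z' * y) = g η φ (z * z'⁻¹) y := by
  have := g_sc (η := η) (φ := φ) (z * z'⁻¹) z' y
  rw [inv_mul_cancel_right] at this
  exact this

/-- the translation identity: h = 1 - eta r / z -/
theorem g_tr (hD : Dat η φ N) (z h : Rˣ) (r y : R)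
    (hh : (h : R) = 1 - η * r * ((z⁻¹ : Rˣ) : R)) :
    g η φ z (y + r) = φ h * g η φ (z * h) y := by
  unfold g
  have h1 : (h : R) = 1 + η * (-(r * ((z⁻¹ : Rˣ) : R))) := by rw [hh]; ring
  have h2 : (1 : R) - η * y * (((z * h)⁻¹ : Rˣ) : R) = 1 + η * (-(y * (((z * h)⁻¹ : Rˣ) : R))) := by
    ring
  have h4 : φ (h : R) * φ (1 + η * (-(y * (((z * h)⁻¹ : Rˣ) : R)))) =
      φ ((h : R) * (1 + η * (-(y * (((z * h)⁻¹ : Rˣ) : R))))) := by
    rw [h1, hD.mul]
  rw [h2, h4, ← h2]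
  congr 1
  rw [mul_inv, Units.val_mul]
  have h3 : (h : R) * ((h⁻¹ : Rˣ) : R) = 1 := Units.mul_inv h
  linear_combination (-1 : R) * hh + (η * y * ((z⁻¹ : Rˣ) : R)) * h3

/-- the quotient of two values -/
theorem g_div (hD : Dat η φ N) (a : Rˣ) (y y' : R) :
    ∃ x : R, (a : R) - η * y = (1 + η * x) * (a - η * y') ∧
      φ (1 + η * x) = g η φ a y * (g η φ a y')⁻¹ ∧
      ∀ x' : R, (a : R) - η * y = (1 + η * x') * (a - η * y') → 1 + η * x' = 1 + η * x := by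
  have hu' : IsUnit (1 - η * y' * ((a⁻¹ : Rˣ) : R)) := by
    have := hD.un (-(y' * ((a⁻¹ : Rˣ) : R)))
    convert this using 1
    ring
  obtain ⟨u', hu'⟩ := hu'
  have ha : (a : R) * ((a⁻¹ : Rˣ) : R) = 1 := Units.mul_inv a
  have hu : (u' : R) * ((u'⁻¹ : Rˣ) : R) = 1 := Units.mul_inv u'
  have e' : (a : R) - η * y' = a * u' := by
    rw [hu']
    linear_combination (η * y') * ha
  refine ⟨(y' - y) * ((a⁻¹ : Rˣ) : R) * ((u'⁻¹ : Rˣ) : R), ?_, ?_, ?_⟩
  · rw [e']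
    linear_combination e' + (η * y - η * y') * ha +
      (-(η * (y' - y) * ((a⁻¹ : Rˣ) : R) * a)) * hu
  · have e1 : (1 + η * ((y' - y) * ((a⁻¹ : Rˣ) : R) * ((u'⁻¹ : Rˣ) : R))) *
        (1 + η * (-(y' * ((a⁻¹ : Rˣ) : R)))) = 1 - η * y * ((a⁻¹ : Rˣ) : R) := by
      have : (1 : R) + η * (-(y' * ((a⁻¹ : Rˣ) : R))) = u' := by rw [hu']; ring
      rw [this]
      linear_combination hu' + (η * (y' - y) * ((a⁻¹ : Rˣ) : R)) * hu
    have e2 := hD.mul ((y' - y) * ((a⁻¹ : Rˣ) : R) * ((u'⁻¹ : Rˣ) : R)) (-(y' * ((a⁻¹ : Rˣ) : R)))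
    rw [e1] at e2
    unfold g
    rw [e2]
    have e3 : (1 : R) + η * (-(y' * ((a⁻¹ : Rˣ) : R))) = 1 - η * y' * ((a⁻¹ : Rˣ) : R) := by ring
    rw [e3, mul_inv_cancel_right]
  · intro x' hx'
    have hau : IsUnit ((a : R) - η * y') := by
      rw [e']
      exact (a * u').isUnit
    apply hau.mul_right_cancel
    rw [← hx', e']
    linear_combination e' + (η * y - η * y') * ha +
      (-(η * (y' - y) * ((a⁻¹ : Rˣ) : R) * a)) * hu

end Pool.LibHB92
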