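import Pool.Agent.LibNP88.M2
import Pool.Agent.LibNP88.M1

/-
PLAN (KA, MEDIUM). def_mem: the relation symbol VRel.mem (as in the proof of def_max in LibNP88/M2.lean). nip_as: S := {v : Fin 1 ⊕ Fin 1 → K | v a ∈ O ∧ v b ∈ O ∧ ∃ x w, x ∈ O ∧ w = b - a (x^p - x) ∧ valuation w < 1} is definable (def_mem, def_ex, def_poly, def_max, def_inter, def_pre). nip_def gives N. A pattern a_i, b_J in the residue field:
lift to O (IsLocalRing.residue_surjective): b_J = a_i (x^p - x) in the residue field iff there is a lift x with valuation (b - a (x^p - x)) < 1 (residue = 0 iff valuation < 1: ValuationSubring.valuation_lt_one_iff, IsLocalRing.residue_eq_zero_iff).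
-/

set_option autoImplicit false

noncomputable section

open FirstOrder Polynomial

namespace Pool.LibHB92

universe u

open Pool.LibNP88

theorem def_mem {K : Type u} [Field K] (O : ValuationSubring K) {σ : Type} [Finite σ] (s : σ) :
    Df O {v : σ → K | v s ∈ O} := by
  letI := strV O
  refine ⟨Language.Relations.formula₁ (L := Lvf[[(Set.univ : Set K)]]) (Sum.inl VRel.mem)
    (Language.var s), ?_⟩
  ext v
  change v s ∈ O ↔ (Language.Relations.formula₁ (L := Lvf[[(Set.univ : Set K)]])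
    (Sum.inl VRel.mem) (Language.var s)).Realize v
  rw [Language.Formula.realize_rel₁]
  exact Iff.rfl

/-- the polynomial `w - (b - a (x ^ p - x))` -/
private def KA_P (K : Type u) [Field K] (p : ℕ) : MvPolynomial ((Fin 1 ⊕ Fin 1) ⊕ Fin 2) K :=
  MvPolynomial.X (Sum.inr 1) - (MvPolynomial.X (Sum.inl (Sum.inr 0)) -
    MvPolynomial.X (Sum.inl (Sum.inl 0)) * (MvPolynomial.X (Sum.inr 0) ^ p - MvPolynomial.X (Sum.inr 0)))

private def KA_T {K : Type u} [Field K] (O : ValuationSubring K) (p : ℕ) : Set ((Fin 1 ⊕ Fin 1) ⊕ Fin 2 → K) :=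
  {u | u (Sum.inr 0) ∈ O} ∩ ({u | MvPolynomial.eval u (KA_P K p) = 0} ∩ {u | O.valuation (u (Sum.inr 1)) < 1})

private def KA_S {K : Type u} [Field K] (O : ValuationSubring K) (p : ℕ) : Set (Fin 1 ⊕ Fin 1 → K) :=
  {v | v (Sum.inl 0) ∈ O} ∩ ({v | v (Sum.inr 0) ∈ O} ∩ {v | ∃ w : Fin 2 → K, Sum.elim v w ∈ KA_T O p})

private theorem KA_df {K : Type u} [Field K] (O : ValuationSubring K) (p : ℕ) : Df O (KA_S O p) :=
  def_inter O _ _ (def_mem O _) (def_inter O _ _ (def_mem O _)
    (def_ex O _ (def_inter O _ _ (def_mem O _) (def_inter O _ _ (def_poly O _) (def_max O _)))))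

private theorem KA_iff {K : Type u} [Field K] (O : ValuationSubring K) (p : ℕ) (A B : O) :
    Sum.elim (fun _ : Fin 1 => (A : K)) (fun _ : Fin 1 => (B : K)) ∈ KA_S O p ↔
      ∃ x, IsLocalRing.residue O B = IsLocalRing.residue O A * (x ^ p - x) := by
  constructor
  · rintro ⟨-, -, w, hw1, hw2, hw3⟩
    have h1 : w 0 ∈ O := hw1
    have h2 : MvPolynomial.eval (Sum.elim (Sum.elim (fun _ : Fin 1 => (A : K)) (fun _ : Fin 1 => (B : K))) w)
      (KA_P K p) = 0 := hw2
    have h3 : O.valuation (w 1) < 1 := hw3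
    simp only [KA_P, map_sub, map_mul, map_pow, MvPolynomial.eval_X, Sum.elim_inl, Sum.elim_inr] at h2
    have h4 : w 1 = ((B - A * ((⟨w 0, h1⟩ : O) ^ p - ⟨w 0, h1⟩) : O) : K) := by
      push_cast
      exact sub_eq_zero.1 h2
    rw [h4] at h3
    have h5 := (ValuationSubring.valuation_lt_one_iff O _).2 h3
    have h6 : IsLocalRing.residue O (B - A * ((⟨w 0, h1⟩ : O) ^ p - ⟨w 0, h1⟩)) = 0 :=
      (IsLocalRing.residue_eq_zero_iff _).2 h5
    rw [map_sub, map_mul, map_sub, map_pow] at h6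
    exact ⟨IsLocalRing.residue O ⟨w 0, h1⟩, sub_eq_zero.1 h6⟩
  · rintro ⟨x, hx⟩
    obtain ⟨y, rfl⟩ := IsLocalRing.residue_surjective x
    refine ⟨A.2, B.2, ![(y : K), ((B - A * (y ^ p - y) : O) : K)], y.2, ?_, ?_⟩
    · show MvPolynomial.eval (Sum.elim (Sum.elim (fun _ : Fin 1 => (A : K)) (fun _ : Fin 1 => (B : K)))
        ![(y : K), ((B - A * (y ^ p - y) : O) : K)]) (KA_P K p) = 0
      simp [KA_P]
    · show O.valuation ((B - A * (y ^ p - y) : O) : K) < 1
      apply (ValuationSubring.valuation_lt_one_iff O _).1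
      apply (IsLocalRing.residue_eq_zero_iff _).1
      rw [map_sub, map_mul, map_sub, map_pow, hx, sub_self]

/-- the family a * (x^p - x) over the residue field is NIP -/
theorem nip_as {K : Type u} [Field K] (O : ValuationSubring K) (hN : NIP O) (p : ℕ) : ∃ N : ℕ,
    ¬ ∃ (a : Fin N → IsLocalRing.ResidueField O) (b : Set (Fin N) → IsLocalRing.ResidueField O),
      ∀ i J, (∃ x, b J = a i * (x ^ p - x)) ↔ i ∈ J := by
  obtain ⟨N, hNN⟩ := nip_def O hN (m := 1) (n := 1) (KA_S O p) (KA_df O p)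
  refine ⟨N, ?_⟩
  rintro ⟨a, b, hab⟩
  choose A hA using fun i => IsLocalRing.residue_surjective (R := O) (a i)
  choose B hB using fun J => IsLocalRing.residue_surjective (R := O) (b J)
  refine hNN ⟨fun i _ => (A i : K), fun J _ => (B J : K), fun i J => ?_⟩
  rw [← hab i J, KA_iff O p (A i) (B J), hA, hB]

end Pool.LibHB92
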