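import Mathlib

/-
PLAN (KB, SHORT). Otherwise choose t i in all H j (j ≠ i) but not in H i; b J := ∑ i ∈ Jᶜ, t i (classical): for i in J all terms are in H i; for i not in J exactly one term (t i) is not in H i.
-/

set_option autoImplicit false

namespace Pool.LibHB92

universe u

/-- Baldwin-Saxl -/
theorem baldwin_saxl {G : Type u} [AddCommGroup G] {N : ℕ} (H : Fin N → AddSubgroup G)
    (hN : ¬ ∃ b : Set (Fin N) → G, ∀ i J, b J ∈ H i ↔ i ∈ J) :
    ∃ i, ∀ x, (∀ j, j ≠ i → x ∈ H j) → x ∈ H i := by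
  classical
  by_contra hcon
  push Not at hcon
  choose t ht1 ht2 using hcon
  apply hN
  refine ⟨fun J => ∑ i ∈ Finset.univ.filter (fun i => i ∉ J), t i, fun i J => ?_⟩
  constructor
  · intro h
    by_contra hi
    have hmem : i ∈ Finset.univ.filter (fun i => i ∉ J) := Finset.mem_filter.mpr ⟨Finset.mem_univ i, hi⟩
    have h' : ∑ k ∈ Finset.univ.filter (fun i => i ∉ J), t k ∈ H i := h
    rw [← Finset.add_sum_erase _ _ hmem] at h'
    have h2 : ∑ k ∈ (Finset.univ.filter (fun i => i ∉ J)).erase i, t k ∈ H i := by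
      refine AddSubgroup.sum_mem _ fun k hk => ?_
      exact ht1 k i (Finset.ne_of_mem_erase hk).symm
    have h3 : t i ∈ H i := by
      have h4 := AddSubgroup.sub_mem _ h' h2
      rwa [add_sub_cancel_right] at h4
    exact ht2 i h3
  · intro hi
    refine AddSubgroup.sum_mem _ fun k hk => ?_
    rw [Finset.mem_filter] at hk
    exact ht1 k i fun he => hk.2 (he ▸ hi)

end Pool.LibHB92
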