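import Mathlib

/-
Additive polynomials. apf p c d T = ∑_{j < d} c j T^(p^j).
PLAN (KC, MEDIUM). isp_add, isp_mul, isp_inv, isp_mono: Frobenius (add_pow_char_pow, mul_pow, inv_pow; y^(p^a) = (y^(p^(a-b)))^(p^b)). one_step: induction on d. d = 0: apf c 1 T = c 0 * T, e := 0, c' := c 0 (p ≥ 1: 0^p - 0 = 0). d + 1: e' with e'^p = c (d+1) / a in k^(p^(M+d)) (c (d+1) / a = y^(p^(M+d+1)), e' := y^(p^(M+d)));
a * ((e' T^(p^d))^p - e' T^(p^d)) = c (d+1) T^(p^(d+1)) - a e' T^(p^d). So apf c (d+2) T - that = apf c'' (d+1) T with c'' = c except c'' d = c d + a e' (Function.update), apply the induction hypothesis for c'' (M the same, coefficients in k^(p^(M+d))), get e0 with apf e0 d; e := Function.update e0 d e' : apf e (d+1) T = apf e0 d T + e' T^(p^d)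
and (x + y)^p = x^p + y^p (add_pow_char).
-/

set_option autoImplicit false

noncomputable section

namespace Pool.LibHB92

universe u

/-- the additive polynomial with coefficients c 0, ..., c (d-1) -/
def apf {k : Type u} [Field k] (p : ℕ) (c : ℕ → k) (d : ℕ) (T : k) : k :=
  ∑ j ∈ Finset.range d, c j * T ^ p ^ j

/-- x is a p^M-th power -/
def IsP {k : Type u} [Field k] (p M : ℕ) (x : k) : Prop := ∃ y, x = y ^ p ^ M

variable {k : Type u} [Field k] (p : ℕ) [Fact p.Prime] [CharP k p]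

theorem isp_add {M : ℕ} {x y : k} (hx : IsP p M x) (hy : IsP p M y) : IsP p M (x + y) := by
  obtain ⟨a, rfl⟩ := hx
  obtain ⟨b, rfl⟩ := hy
  exact ⟨a + b, (add_pow_char_pow a b p M).symm⟩

theorem isp_neg {M : ℕ} {x : k} (hx : IsP p M x) : IsP p M (-x) := by
  obtain ⟨a, rfl⟩ := hx
  refine ⟨-a, ?_⟩
  have h : a ^ p ^ M + (-a) ^ p ^ M = 0 := by
    rw [← add_pow_char_pow, add_neg_cancel, zero_pow (pow_ne_zero _ (Fact.out : p.Prime).ne_zero)]
  exact neg_eq_of_add_eq_zero_right h

theorem isp_mul {M : ℕ} {x y : k} (hx : IsP p M x) (hy : IsP p M y) : IsP p M (x * y) := by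
  obtain ⟨a, rfl⟩ := hx
  obtain ⟨b, rfl⟩ := hy
  exact ⟨a * b, (mul_pow a b _).symm⟩

theorem isp_inv {M : ℕ} {x : k} (hx : IsP p M x) : IsP p M x⁻¹ := by
  obtain ⟨a, rfl⟩ := hx
  exact ⟨a⁻¹, (inv_pow a _).symm⟩

theorem isp_mono {M M' : ℕ} (h : M ≤ M') {x : k} (hx : IsP p M' x) : IsP p M x := by
  obtain ⟨a, rfl⟩ := hx
  refine ⟨a ^ p ^ (M' - M), ?_⟩
  rw [← pow_mul, ← pow_add, Nat.sub_add_cancel h]

omit [Fact p.Prime] [CharP k p] in
private theorem KC_zero (c : ℕ → k) (T : k) : apf p c 0 T = 0 := by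
  simp [apf]

omit [Fact p.Prime] [CharP k p] in
private theorem KC_succ (c : ℕ → k) (d : ℕ) (T : k) : apf p c (d + 1) T = apf p c d T + c d * T ^ p ^ d := by
  unfold apf
  rw [Finset.sum_range_succ]

omit [Fact p.Prime] [CharP k p] in
private theorem KC_congr {c c' : ℕ → k} {d : ℕ} {T : k} (h : ∀ j < d, c j = c' j) : apf p c d T = apf p c' d T :=
  Finset.sum_congr rfl fun j hj => by rw [h j (Finset.mem_range.1 hj)]

/-- reduction of an additive polynomial modulo a (x^p - x) -/
theorem one_step (d M : ℕ) (c : ℕ → k) (a : k) (ha : a ≠ 0) (hc : ∀ j, IsP p (M + d) (c j))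
    (haM : IsP p (M + d) a) : ∃ (e : ℕ → k) (c' : k), (∀ j, IsP p M (e j)) ∧ IsP p M c' ∧
    ∀ T, apf p c (d + 1) T = a * ((apf p e d T) ^ p - apf p e d T) + c' * T := by
  induction d generalizing c with
  | zero =>
    refine ⟨fun _ => 0, c 0, fun _ => ⟨0, ?_⟩, hc 0, fun T => ?_⟩
    · rw [zero_pow (pow_ne_zero _ (Fact.out : p.Prime).ne_zero)]
    · rw [KC_succ, KC_zero, KC_zero, zero_pow (Fact.out : p.Prime).ne_zero]
      simp
  | succ d ih =>
    obtain ⟨y, hy⟩ := isp_mul p (hc (d + 1)) (isp_inv p haM)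
    obtain ⟨e', he'⟩ : ∃ e', e' = y ^ p ^ (M + d) := ⟨_, rfl⟩
    have he1 : IsP p (M + d) e' := ⟨y, he'⟩
    have he2 : a * e' ^ p = c (d + 1) := by
      rw [he', ← pow_mul, ← pow_succ]
      have h3 : M + d + 1 = M + (d + 1) := by ring
      rw [h3, ← hy]
      field_simp
    have hcm : ∀ j, IsP p (M + d) (c j) := fun j => isp_mono p (by omega) (hc j)
    have ham : IsP p (M + d) a := isp_mono p (by omega) haM
    obtain ⟨e0, c', h1, h2, h3⟩ := ih (fun j => if j = d then c d + a * e' else c j) (fun j => by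
      by_cases hj : j = d
      · rw [if_pos hj]
        exact isp_add p (hcm d) (isp_mul p ham he1)
      · rw [if_neg hj]
        exact hcm j) ham
    refine ⟨fun j => if j = d then e' else e0 j, c', fun j => ?_, h2, fun T => ?_⟩
    · by_cases hj : j = d
      · simp only [if_pos hj]
        exact isp_mono p (by omega) he1
      · simp only [if_neg hj]
        exact h1 j
    · have h4 : apf p (fun j => if j = d then e' else e0 j) (d + 1) T = apf p e0 d T + e' * T ^ p ^ d := by
        rw [KC_succ, KC_congr p (c' := e0) fun j hj => if_neg (ne_of_lt hj), if_pos rfl]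
      have h5 : apf p (fun j => if j = d then c d + a * e' else c j) (d + 1) T =
          apf p c (d + 1) T + a * e' * T ^ p ^ d := by
        rw [KC_succ, KC_succ, KC_congr p (c' := c) fun j hj => if_neg (ne_of_lt hj), if_pos rfl]
        ring
      rw [h4, KC_succ, eq_sub_of_add_eq h5.symm, h3 T, add_pow_char]
      have h6 : (e' * T ^ p ^ d) ^ p = e' ^ p * T ^ p ^ (d + 1) := by
        rw [mul_pow, ← pow_mul, ← pow_succ]
      rw [h6, ← he2]
      ring

end Pool.LibHB92
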