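import Pool.Agent.LibHB92.KC

/-
PLAN (KD, MEDIUM/STRONG). key: if (apf D d T)^p - apf D d T = β * apf c (d+1) T for all T in the infinite field k, then F β := ∑_{j ≤ d} (c j * β)^(p^(d-j)) = 0. Proof: both sides are values of polynomials in T: compare coefficients (Polynomial.funext on an infinite field) of T^(p^j): j = 0: - D 0 = β c 0; 1 ≤ j < d: (D (j-1))^p - D j = β c j; j = d: (D (d-1))^p = β c d
(d = 0: 0 = β c 0). By induction - D j = ∑_{i ≤ j} (c i β)^(p^(j-i)); at j = d: 0 = F β. (Alternatively avoid coefficients of sparse polynomials: a general lemma: ∑_{j < m} x j T^(p^j) = 0 for all T in an infinite field implies x j = 0 for all j < m; apply it to the difference.)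
F is additive and F_p-linear (Frobenius), F is a nonzero polynomial function of β of degree ≤ p^d (coefficient of β^(p^d) is c 0^(p^d) ≠ 0): at most p^d zeros (Polynomial.card_roots'). The span of β_1..β_d (linearly independent over ZMod p) has p^d elements (Module.card_fintype / card of ZMod p ^ d), all zeros of F. So the set of zeros is the span and β' is in it.
-/

set_option autoImplicit false

noncomputable section

namespace Pool.LibHB92

universe u

variable {k : Type u} [Field k] (p : ℕ) [Fact p.Prime] [CharP k p] [Algebra (ZMod p) k]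

/-- sparse additive polynomials that vanish identically -/
theorem apf_zero [Infinite k] (c : ℕ → k) (d : ℕ) (h : ∀ T, apf p c d T = 0) :
    ∀ j, j < d → c j = 0 := by
  intro j hj
  have hp1 : 1 < p := (Fact.out : p.Prime).one_lt
  let P : Polynomial k := ∑ i ∈ Finset.range d, Polynomial.C (c i) * Polynomial.X ^ p ^ i
  have hP : P = 0 := by
    refine Polynomial.funext fun T => ?_
    rw [Polynomial.eval_finsetSum, Polynomial.eval_zero, ← h T, apf]
    refine Finset.sum_congr rfl fun i _ => ?_
    simp
  have hc : P.coeff (p ^ j) = c j := by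
    rw [Polynomial.finsetSum_coeff]
    rw [Finset.sum_eq_single j]
    · simp
    · intro i _ hij
      rw [Polynomial.coeff_C_mul, Polynomial.coeff_X_pow, if_neg, mul_zero]
      intro h1
      exact hij (Nat.pow_right_injective hp1 h1).symm
    · intro h1
      exact absurd (Finset.mem_range.2 hj) h1
  rw [← hc, hP, Polynomial.coeff_zero]

private def kd_G (p : ℕ) (c : ℕ → k) (j : ℕ) (β : k) : k :=
  ∑ i ∈ Finset.range (j + 1), (c i * β) ^ p ^ (j - i)

omit [Algebra (ZMod p) k] in
private theorem kd_G_succ (c : ℕ → k) (j : ℕ) (β : k) :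
    kd_G p c (j + 1) β = (kd_G p c j β) ^ p + c (j + 1) * β := by
  unfold kd_G
  rw [Finset.sum_range_succ, sum_pow_char, Nat.sub_self, pow_zero, pow_one]
  congr 1
  refine Finset.sum_congr rfl fun i hi => ?_
  rw [Finset.mem_range] at hi
  have h1 : j + 1 - i = (j - i) + 1 := by omega
  rw [h1, pow_succ p, pow_mul]

omit [Algebra (ZMod p) k] in
private theorem kd_G_add (c : ℕ → k) (j : ℕ) (β γ : k) :
    kd_G p c j (β + γ) = kd_G p c j β + kd_G p c j γ := by
  unfold kd_G
  rw [← Finset.sum_add_distrib]
  refine Finset.sum_congr rfl fun i _ => ?_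
  rw [mul_add, add_pow_char_pow]

omit [Algebra (ZMod p) k] in
private theorem kd_neg_pow (x : k) : (-x) ^ p = -(x ^ p) := by
  have := map_neg (frobenius k p) x
  simpa only [frobenius_def] using this

private theorem kd_key [Infinite k] (d : ℕ) (c : ℕ → k) (β : k) (D : ℕ → k)
    (hD : ∀ T, (apf p D d T) ^ p - apf p D d T = β * apf p c (d + 1) T) : kd_G p c d β = 0 := by
  have hp0 : p ≠ 0 := (Fact.out : p.Prime).ne_zero
  let D1 : ℕ → k := fun j => if j < d then D j else 0
  let pr : ℕ → k := fun j => if j = 0 then 0 else D1 (j - 1)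
  let E : ℕ → k := fun j => pr j ^ p - D1 j - β * c j
  have hE : ∀ T, apf p E (d + 1) T = 0 := by
    intro T
    have h1 : apf p E (d + 1) T = ∑ j ∈ Finset.range (d + 1), pr j ^ p * T ^ p ^ j -
        ∑ j ∈ Finset.range (d + 1), D1 j * T ^ p ^ j - β * apf p c (d + 1) T := by
      unfold apf
      rw [Finset.mul_sum, ← Finset.sum_sub_distrib, ← Finset.sum_sub_distrib]
      refine Finset.sum_congr rfl fun j _ => ?_
      simp only [E]
      ring
    have h2 : ∑ j ∈ Finset.range (d + 1), pr j ^ p * T ^ p ^ j = (apf p D d T) ^ p := by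
      rw [Finset.sum_range_succ']
      have h3 : pr 0 = 0 := rfl
      rw [h3, zero_pow hp0, zero_mul, add_zero, apf, sum_pow_char]
      refine Finset.sum_congr rfl fun j hj => ?_
      rw [Finset.mem_range] at hj
      have h4 : pr (j + 1) = D j := by
        simp only [pr, D1]
        rw [if_neg (Nat.succ_ne_zero j), Nat.add_sub_cancel, if_pos hj]
      rw [h4, mul_pow, ← pow_mul, ← pow_succ]
    have h3 : ∑ j ∈ Finset.range (d + 1), D1 j * T ^ p ^ j = apf p D d T := by
      rw [Finset.sum_range_succ]
      have h4 : D1 d = 0 := if_neg (lt_irrefl d)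
      rw [h4, zero_mul, add_zero, apf]
      refine Finset.sum_congr rfl fun j hj => ?_
      rw [Finset.mem_range] at hj
      have h5 : D1 j = D j := if_pos hj
      rw [h5]
    rw [h1, h2, h3, hD, sub_self]
  have hE0 := apf_zero p E (d + 1) hE
  have hind : ∀ j, j ≤ d → kd_G p c j β = -D1 j := by
    intro j
    induction j with
    | zero =>
      intro _
      have h1 := hE0 0 (Nat.succ_pos d)
      have h2 : E 0 = (0 : k) ^ p - D1 0 - β * c 0 := rfl
      rw [h2, zero_pow hp0] at h1
      have h3 : kd_G p c 0 β = c 0 * β := by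
        unfold kd_G
        simp
      rw [h3]
      linear_combination -h1
    | succ j ih =>
      intro hj
      have h1 := hE0 (j + 1) (by omega)
      have h2 : E (j + 1) = (D1 j) ^ p - D1 (j + 1) - β * c (j + 1) := rfl
      rw [h2] at h1
      rw [kd_G_succ, ih (by omega), kd_neg_pow]
      linear_combination -h1
  have h1 := hind d le_rfl
  have h2 : D1 d = 0 := if_neg (lt_irrefl d)
  rw [h1, h2, neg_zero]

/-- the elements β such that β Q is of the form D^p - D form the span -/
theorem span_lemma [Infinite k] (d : ℕ) (c : ℕ → k) (hc : c 0 ≠ 0) (β : Fin d → k)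
    (hβ : LinearIndependent (ZMod p) β) (D : Fin d → ℕ → k)
    (hD : ∀ i T, (apf p (D i) d T) ^ p - apf p (D i) d T = β i * apf p c (d + 1) T)
    (β' : k) (D' : ℕ → k)
    (hD' : ∀ T, (apf p D' d T) ^ p - apf p D' d T = β' * apf p c (d + 1) T) :
    β' ∈ Submodule.span (ZMod p) (Set.range β) := by
  have hp1 : 1 < p := (Fact.out : p.Prime).one_lt
  -- the kernel
  let Z : AddSubgroup k :=
    { carrier := {x | kd_G p c d x = 0}
      add_mem' := by
        intro a b ha hb
        have ha' : kd_G p c d a = 0 := ha
        have hb' : kd_G p c d b = 0 := hb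
        change kd_G p c d (a + b) = 0
        rw [kd_G_add, ha', hb', add_zero]
      zero_mem' := by
        change kd_G p c d 0 = 0
        have := kd_G_add p c d 0 0
        rw [add_zero] at this
        exact left_eq_add.1 this
      neg_mem' := by
        intro a ha
        have ha' : kd_G p c d a = 0 := ha
        change kd_G p c d (-a) = 0
        have h0 : kd_G p c d 0 = 0 := by
          have := kd_G_add p c d 0 0
          rw [add_zero] at this
          exact left_eq_add.1 this
        have h1 := kd_G_add p c d a (-a)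
        rw [add_neg_cancel, h0, ha', zero_add] at h1
        exact h1.symm }
  have hspan : Submodule.span (ZMod p) (Set.range β) ≤ AddSubgroup.toZModSubmodule p Z := by
    rw [Submodule.span_le]
    rintro _ ⟨i, rfl⟩
    exact kd_key p d c (β i) (D i) (hD i)
  -- the polynomial
  let Q : Polynomial k := ∑ i ∈ Finset.range (d + 1),
    Polynomial.C (c i ^ p ^ (d - i)) * Polynomial.X ^ p ^ (d - i)
  have hQe : ∀ x, Q.eval x = kd_G p c d x := by
    intro x
    rw [Polynomial.eval_finsetSum, kd_G]
    refine Finset.sum_congr rfl fun i _ => ?_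
    simp [mul_pow]
  have hQdeg : Q.natDegree ≤ p ^ d := by
    refine Polynomial.natDegree_sum_le_of_forall_le _ _ fun i _ => ?_
    refine (Polynomial.natDegree_C_mul_X_pow_le _ _).trans ?_
    exact Nat.pow_le_pow_right (by omega) (Nat.sub_le _ _)
  have hQ0 : Q ≠ 0 := by
    intro h0
    have h1 : Q.coeff (p ^ d) = c 0 ^ p ^ d := by
      rw [Polynomial.finsetSum_coeff, Finset.sum_eq_single 0]
      · rw [Nat.sub_zero, Polynomial.coeff_C_mul, Polynomial.coeff_X_pow, if_pos rfl, mul_one]
      · intro i hi hi0
        rw [Finset.mem_range] at hi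
        rw [Polynomial.coeff_C_mul, Polynomial.coeff_X_pow, if_neg, mul_zero]
        intro h1
        have := Nat.pow_right_injective hp1 h1
        omega
      · intro h1
        exact absurd (Finset.mem_range.2 (Nat.succ_pos d)) h1
    rw [h0, Polynomial.coeff_zero] at h1
    exact pow_ne_zero _ hc h1.symm
  classical
  have hsub : ((Submodule.span (ZMod p) (Set.range β) : Submodule (ZMod p) k) : Set k) ⊆
      (Q.roots.toFinset : Set k) := by
    intro x hx
    have h1 : kd_G p c d x = 0 := hspan hx
    rw [Finset.mem_coe, Multiset.mem_toFinset, Polynomial.mem_roots hQ0, Polynomial.IsRoot,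
      hQe, h1]
  have hcard : Set.ncard (Q.roots.toFinset : Set k) ≤
      Set.ncard ((Submodule.span (ZMod p) (Set.range β) : Submodule (ZMod p) k) : Set k) := by
    have h1 : Set.ncard ((Submodule.span (ZMod p) (Set.range β) : Submodule (ZMod p) k) : Set k) =
        p ^ d := by
      rw [← Nat.card_coe_set_eq]
      have h2 := Nat.card_congr (Module.Basis.span hβ).equivFun.toEquiv
      have h3 : Nat.card (Fin d → ZMod p) = p ^ d := by
        rw [Nat.card_eq_fintype_card, Fintype.card_fun, ZMod.card, Fintype.card_fin]
      rw [h3] at h2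
      exact h2
    rw [h1, Set.ncard_coe_finset]
    exact (Multiset.toFinset_card_le _).trans ((Polynomial.card_roots' Q).trans hQdeg)
  have heq := Set.eq_of_subset_of_ncard_le hsub hcard (Finset.finite_toSet _)
  have hmem : β' ∈ (Q.roots.toFinset : Set k) := by
    rw [Finset.mem_coe, Multiset.mem_toFinset, Polynomial.mem_roots hQ0, Polynomial.IsRoot,
      hQe, kd_key p d c β' D' hD']
  rw [← heq] at hmem
  exact hmem

end Pool.LibHB92
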