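import Pool.Agent.LibHB92.KD

/-
PLAN (KE, MEDIUM/STRONG). build: induction on m. m = 0: c := fun j => if j = 0 then 1 else 0, apf c 1 T = T. Step m → m+1 (b : Fin (m+1) → k, levels: M + (m+1)(m+1) ≥ (M + m) + m m): induction hypothesis at level M + m for the first m elements (b ∘ castSucc; isp_mono): c, D with coefficients in k^(p^(M+m)). a := (b (last))⁻¹. one_step (d := m, M): apf c (m+1) T = a ((apf e m T)^p - apf e m T) + c' T.
c' ≠ 0: otherwise b_last * apf c (m+1) T = (apf e m T)^p - apf e m T, so b_last is in the span of the others by span_lemma: contradicts independence (linearIndependent_fin_snoc / LinearIndependent.notMem_span_image). ρ := a / c'. For an additive polynomial with coefficients x and length l the function S ↦ apf x l (ρ (S^p - S)) is apf x' (l+1) S with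
x' j = x (j-1) ρ^(p^(j-1)) - x j ρ^(p^j) (first term 0 for j = 0, second 0 for j ≥ l). New c: that of c; its c 0 is - c 0 ρ ≠ 0. New D i for i < m: that of D i; new D last: S ↦ S + apf e m (ρ (S^p - S)). Check for the last one, T := ρ (S^p - S): (S + ℓ T)^p - (S + ℓ T) = (S^p - S) + (ℓ T)^p - ℓ T = c' T / a + (apf c (m+1) T - c' T) / a = b_last apf c (m+1) T.
-/

set_option autoImplicit false

noncomputable section

namespace Pool.LibHB92

universe u

section aux

variable {k : Type u} [Field k] (p : ℕ)

private def KE_sub (ρ : k) (l : ℕ) (x : ℕ → k) (j : ℕ) : k :=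
  (if j = 0 then 0 else x (j - 1) * ρ ^ p ^ (j - 1)) - (if j < l then x j * ρ ^ p ^ j else 0)

variable [Fact p.Prime]

private theorem KE_zero (M : ℕ) : IsP p M (0 : k) :=
  ⟨0, (zero_pow (pow_ne_zero M (Fact.out : p.Prime).ne_zero)).symm⟩

private theorem KE_one (M : ℕ) : IsP p M (1 : k) := ⟨1, (one_pow _).symm⟩

private theorem KE_pow {M : ℕ} {x : k} (hx : IsP p M x) (n : ℕ) : IsP p M (x ^ n) := by
  obtain ⟨y, rfl⟩ := hx
  exact ⟨y ^ n, by rw [← pow_mul, ← pow_mul, mul_comm]⟩

variable [CharP k p]

private theorem KE_apf (ρ : k) (l : ℕ) (x : ℕ → k) (S : k) :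
    apf p (KE_sub p ρ l x) (l + 1) S = apf p x l (ρ * (S ^ p - S)) := by
  have h1 : ∀ j, (ρ * (S ^ p - S)) ^ p ^ j = ρ ^ p ^ j * (S ^ p ^ (j + 1) - S ^ p ^ j) := by
    intro j
    rw [mul_pow, sub_pow_char_pow, ← pow_mul, pow_succ' p j]
  have h2 : apf p (KE_sub p ρ l x) (l + 1) S =
      ∑ j ∈ Finset.range (l + 1), (if j = 0 then 0 else x (j - 1) * ρ ^ p ^ (j - 1)) * S ^ p ^ j -
      ∑ j ∈ Finset.range (l + 1), (if j < l then x j * ρ ^ p ^ j else 0) * S ^ p ^ j := by
    rw [apf, ← Finset.sum_sub_distrib]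
    refine Finset.sum_congr rfl fun j _ => ?_
    rw [KE_sub, sub_mul]
  rw [h2, Finset.sum_range_succ', Finset.sum_range_succ, apf]
  have h3 : ∀ j ∈ Finset.range l,
      (if j < l then x j * ρ ^ p ^ j else 0) * S ^ p ^ j = x j * ρ ^ p ^ j * S ^ p ^ j := by
    intro j hj
    rw [if_pos (Finset.mem_range.1 hj)]
  rw [Finset.sum_congr rfl h3]
  simp only [Nat.add_sub_cancel, Nat.succ_ne_zero, if_false, lt_irrefl, zero_mul, add_zero,
    if_true]
  rw [← Finset.sum_sub_distrib]
  refine Finset.sum_congr rfl fun j _ => ?_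
  rw [h1 j]
  ring

private theorem KE_isp {M : ℕ} {ρ : k} (hρ : IsP p M ρ) (l : ℕ) {x : ℕ → k}
    (hx : ∀ j, IsP p M (x j)) (j : ℕ) : IsP p M (KE_sub p ρ l x j) := by
  rw [KE_sub, sub_eq_add_neg]
  refine isp_add p ?_ (isp_neg p ?_)
  · split_ifs
    · exact KE_zero p M
    · exact isp_mul p (hx _) (KE_pow p hρ _)
  · split_ifs
    · exact isp_mul p (hx _) (KE_pow p hρ _)
    · exact KE_zero p M

private theorem KE_add (x y : ℕ → k) (l : ℕ) (S : k) :
    apf p (fun j => x j + y j) l S = apf p x l S + apf p y l S := by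
  rw [apf, apf, apf, ← Finset.sum_add_distrib]
  exact Finset.sum_congr rfl fun j _ => by ring

private theorem KE_id (l : ℕ) (S : k) :
    apf p (fun j => if j = 0 then 1 else 0) (l + 1) S = S := by
  rw [apf, Finset.sum_range_succ']
  simp

end aux

variable {k : Type u} [Field k] (p : ℕ) [Fact p.Prime] [CharP k p] [Algebra (ZMod p) k]

/-- a common multiple of the polynomials (X^p - X) / b i with a parametrisation -/
theorem build [Infinite k] (m M : ℕ) (b : Fin m → k) (hb : LinearIndependent (ZMod p) b)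
    (hbP : ∀ i, IsP p (M + m * m) (b i)) : ∃ (c : ℕ → k) (D : Fin m → ℕ → k), c 0 ≠ 0 ∧
    (∀ j, IsP p M (c j)) ∧ (∀ i j, IsP p M (D i j)) ∧
    ∀ i T, (apf p (D i) m T) ^ p - apf p (D i) m T = b i * apf p c (m + 1) T := by
  induction m generalizing M with
  | zero =>
    refine ⟨fun j => if j = 0 then 1 else 0, fun _ _ => 0, by simp, fun j => ?_,
      fun i => i.elim0, fun i => i.elim0⟩
    by_cases hj : j = 0
    · simp only [hj, if_true]
      exact KE_one p M
    · simp only [hj, if_false]
      exact KE_zero p M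
  | succ m ih =>
    obtain ⟨c, D, hc0, hcM, hDM, hD⟩ := ih (M + m) (fun i => b i.castSucc)
      (hb.comp _ (Fin.castSucc_injective m))
      (fun i => isp_mono p (by nlinarith) (hbP i.castSucc))
    have hbl : b (Fin.last m) ≠ 0 := hb.ne_zero _
    have ha : (b (Fin.last m))⁻¹ ≠ 0 := inv_ne_zero hbl
    have haM : IsP p (M + m) (b (Fin.last m))⁻¹ :=
      isp_inv p (isp_mono p (by nlinarith) (hbP (Fin.last m)))
    obtain ⟨e, c', heM, hc'M, he⟩ := one_step p m M c (b (Fin.last m))⁻¹ ha hcM haM
    have hc' : c' ≠ 0 := by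
      rintro rfl
      have h1 := span_lemma p m c hc0 (fun i => b i.castSucc)
        (hb.comp _ (Fin.castSucc_injective m)) D hD (b (Fin.last m)) e (fun T => by
          rw [he T, zero_mul, add_zero, ← mul_assoc, mul_inv_cancel₀ hbl, one_mul])
      have h2 : Set.range (fun i : Fin m => b i.castSucc) = b '' Set.range Fin.castSucc := by
        rw [← Set.range_comp]
        rfl
      rw [h2] at h1
      refine hb.notMem_span_image ?_ h1
      rintro ⟨i, hi⟩
      exact (Fin.castSucc_lt_last i).ne hi
    set a := (b (Fin.last m))⁻¹ with hadef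
    set ρ := a / c' with hρdef
    have hρ : ρ ≠ 0 := div_ne_zero ha hc'
    have hρM : IsP p M ρ := by
      rw [hρdef, div_eq_mul_inv]
      exact isp_mul p (isp_mono p (by omega) haM) (isp_inv p hc'M)
    refine ⟨KE_sub p ρ (m + 1) c,
      Fin.lastCases (motive := fun _ => ℕ → k)
        (fun j => (if j = 0 then 1 else 0) + KE_sub p ρ m e j) (fun i => KE_sub p ρ m (D i)),
      ?_, KE_isp p hρM _ (fun j => isp_mono p (by omega) (hcM j)), ?_, ?_⟩
    · simp only [KE_sub, if_true, Nat.succ_pos, pow_zero, pow_one, zero_sub]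
      exact neg_ne_zero.2 (mul_ne_zero hc0 hρ)
    · intro i
      refine Fin.lastCases ?_ (fun i => ?_) i
      · intro j
        rw [Fin.lastCases_last]
        refine isp_add p ?_ (KE_isp p hρM m heM j)
        split_ifs
        · exact KE_one p M
        · exact KE_zero p M
      · intro j
        rw [Fin.lastCases_castSucc]
        exact KE_isp p hρM m (fun j => isp_mono p (by omega) (hDM i j)) j
    · intro i
      refine Fin.lastCases ?_ (fun i => ?_) i
      · intro S
        rw [Fin.lastCases_last, KE_add, KE_id, KE_apf, KE_apf, add_pow_char]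
        have h3 := he (ρ * (S ^ p - S))
        set T := ρ * (S ^ p - S) with hT
        have h4 : S ^ p - S = c' * T * b (Fin.last m) := by
          have h5 : c' * ρ * b (Fin.last m) = 1 := by
            rw [hρdef, hadef]
            field_simp
          calc S ^ p - S = (c' * ρ * b (Fin.last m)) * (S ^ p - S) := by rw [h5, one_mul]
            _ = c' * T * b (Fin.last m) := by rw [hT]; ring
        have h6 : b (Fin.last m) * apf p c (m + 1) T =
            ((apf p e m T) ^ p - apf p e m T) + c' * T * b (Fin.last m) := by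
          rw [h3, mul_add, ← mul_assoc, hadef, mul_inv_cancel₀ hbl, one_mul]
          ring
        rw [h6, ← h4]
        ring
      · intro S
        rw [Fin.lastCases_castSucc, KE_apf, KE_apf]
        exact hD i _

end Pool.LibHB92
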