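import Pool.Agent.LibHB92.KE
import Pool.Agent.LibHB92.KB

/-
PLAN (KF, MEDIUM). as_surj: N = n + 1 (N = 0: hN is violated by b constant). k infinite, so not finite dimensional over ZMod p: N linearly independent elements β_i; M := (n + n * n): b_i := β_i^(p^M) are independent too (apply the injective additive map x ↦ x^(p^M), which is ZMod p-linear) and IsP M. H_i := {(b_i)⁻¹ (x^p - x)}: an additive subgroup (range of an additive map).
baldwin_saxl: index i. build for the n elements b_j, j ≠ i (Fin.succAbove i), at level M := n: c, D, c coefficients in k^(p^n). one_step (d := n, M := 0, a := (b_i)⁻¹): apf c (n+1) T = a ((apf e n T)^p - apf e n T) + c' T, c' ≠ 0 by span_lemma (b_i not in the span of the others). For every T: Q := apf c (n+1) T is in H_j for all j ≠ i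
(Q = (b_j)⁻¹ ((D_j T)^p - D_j T)), so in H_i: Q = a (x^p - x); so c' T = a ((x - ℓ)^p - (x - ℓ)). Given t take T := a t / c': x - ℓ is the solution. alg_inf: if the set A of elements algebraic over ZMod p is finite: it is closed under x ↦ x^p - x (which maps A to A and is not injective: 0 ↦ 0, 1 ↦ 0), so some a in A is not of the form x^p - x with x in A;
as_surj: a = x^p - x with x in k, x is algebraic over ZMod p (root of X^p - X - a over the algebraic closure: IsAlgebraic of a, integral closure transitivity: isIntegral_trans / IsAlgebraic.. adjoin), contradiction.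
-/

set_option autoImplicit false

noncomputable section

namespace Pool.LibHB92

universe u

variable {k : Type u} [Field k] (p : ℕ) [Fact p.Prime] [CharP k p] [Algebra (ZMod p) k]

omit [CharP k p] in
private theorem KF_indep [Infinite k] (m : ℕ) :
    ∃ β : Fin m → k, LinearIndependent (ZMod p) β := by
  let B := Module.Basis.ofVectorSpace (ZMod p) k
  have hinf : Infinite (Module.Basis.ofVectorSpaceIndex (ZMod p) k) := by
    by_contra h
    rw [not_infinite_iff_finite] at h
    have h1 : Module.Finite (ZMod p) k := Module.Finite.of_basis B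
    have h2 : Finite k := Module.finite_of_finite (ZMod p)
    exact not_finite k
  let ι : ℕ ↪ Module.Basis.ofVectorSpaceIndex (ZMod p) k := Infinite.natEmbedding _
  refine ⟨fun i => B (ι i), ?_⟩
  exact B.linearIndependent.comp (fun i : Fin m => ι i)
    (fun i j hij => Fin.ext (ι.injective hij))

private def KFmap (a : k) : k →+ k where
  toFun x := a * (x ^ p - x)
  map_zero' := by
    have : (0 : k) ^ p = 0 := zero_pow (Fact.out : p.Prime).ne_zero
    rw [this, sub_zero, mul_zero]
  map_add' x y := by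
    rw [add_pow_char]
    ring

/-- Kaplan-Scanlon-Wagner: infinite NIP fields of characteristic p are Artin-Schreier closed -/
theorem as_surj [Infinite k] {N : ℕ} (hN : ¬ ∃ (a : Fin N → k) (b : Set (Fin N) → k),
    ∀ i J, (∃ x, b J = a i * (x ^ p - x)) ↔ i ∈ J) (t : k) : ∃ x, x ^ p - x = t := by
  rcases Nat.eq_zero_or_pos N with h0 | h0
  · subst h0
    exact absurd ⟨fun i => i.elim0, fun _ => 0, fun i => i.elim0⟩ hN
  obtain ⟨n, rfl⟩ : ∃ n, N = n + 1 := ⟨N - 1, by omega⟩
  obtain ⟨β, hβ⟩ := KF_indep (k := k) p (n + 1)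
  let fr : k →ₗ[ZMod p] k :=
    AddMonoidHom.toZModLinearMap p (iterateFrobenius k p (n + n * n)).toAddMonoidHom
  have hfr : ∀ x, fr x = x ^ p ^ (n + n * n) := fun x => iterateFrobenius_def p (n + n * n) x
  have hfrinj : Function.Injective fr := (iterateFrobenius k p (n + n * n)).injective
  let b : Fin (n + 1) → k := fun i => fr (β i)
  have hb : LinearIndependent (ZMod p) b := hβ.map' fr (LinearMap.ker_eq_bot.2 hfrinj)
  have hbP : ∀ i, IsP p (n + n * n) (b i) := fun i => ⟨β i, hfr _⟩
  have hb0 : ∀ i, b i ≠ 0 := fun i => hb.ne_zero i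
  let H : Fin (n + 1) → AddSubgroup k := fun i => (KFmap p (b i)⁻¹).range
  have hH : ∀ i Q, Q ∈ H i ↔ ∃ x, Q = (b i)⁻¹ * (x ^ p - x) := by
    intro i Q
    constructor
    · rintro ⟨x, hx⟩
      exact ⟨x, hx.symm⟩
    · rintro ⟨x, hx⟩
      exact ⟨x, hx.symm⟩
  have hN' : ¬ ∃ b' : Set (Fin (n + 1)) → k, ∀ i J, b' J ∈ H i ↔ i ∈ J := by
    rintro ⟨b', hb'⟩
    exact hN ⟨fun i => (b i)⁻¹, b', fun i J => (hH i (b' J)).symm.trans (hb' i J)⟩
  obtain ⟨i, hi⟩ := baldwin_saxl H hN'
  have hind : LinearIndependent (ZMod p) (fun j : Fin n => b (i.succAbove j)) :=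
    hb.comp _ Fin.succAbove_right_injective
  obtain ⟨c, D, hc0, hcP, -, hD⟩ := build p n n (fun j : Fin n => b (i.succAbove j)) hind
    (fun j => hbP _)
  have hai : (b i)⁻¹ ≠ 0 := inv_ne_zero (hb0 i)
  obtain ⟨e, c', -, -, hstep⟩ := one_step p n 0 c (b i)⁻¹ hai
    (fun j => by rw [zero_add]; exact hcP j)
    (by
      rw [zero_add]
      exact isp_inv p (isp_mono p (by nlinarith [Nat.zero_le n]) (hbP i)))
  have hc' : c' ≠ 0 := by
    intro hc'
    have h1 : b i ∈ Submodule.span (ZMod p) (Set.range fun j : Fin n => b (i.succAbove j)) := by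
      refine span_lemma p n c hc0 _ hind D hD (b i) e ?_
      intro T
      rw [hstep T, hc', zero_mul, add_zero, ← mul_assoc, mul_inv_cancel₀ (hb0 i), one_mul]
    have h2 : (Set.range fun j : Fin n => b (i.succAbove j)) = b '' {i}ᶜ := by
      rw [← Fin.range_succAbove, ← Set.range_comp]
      rfl
    rw [h2] at h1
    exact hb.notMem_span_image (s := {i}ᶜ) (x := i) (by simp) h1
  have hQ : apf p c (n + 1) ((b i)⁻¹ * t / c') ∈ H i := by
    apply hi
    intro j hj
    obtain ⟨j', rfl⟩ := Fin.exists_succAbove_eq hj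
    rw [hH]
    refine ⟨apf p (D j') n ((b i)⁻¹ * t / c'), ?_⟩
    rw [hD j', ← mul_assoc, inv_mul_cancel₀ (hb0 _), one_mul]
  obtain ⟨x, hx⟩ := (hH _ _).1 hQ
  refine ⟨x - apf p e n ((b i)⁻¹ * t / c'), ?_⟩
  rw [hstep, mul_div_cancel₀ _ hc'] at hx
  rw [sub_pow_char]
  have h3 : (b i)⁻¹ * ((apf p e n ((b i)⁻¹ * t / c') ^ p - apf p e n ((b i)⁻¹ * t / c')) + t) =
      (b i)⁻¹ * (x ^ p - x) := by
    rw [mul_add]
    exact hx
  have h4 := mul_left_cancel₀ hai h3
  linear_combination -h4

theorem alg_inf (h : ∀ t : k, ∃ x, x ^ p - x = t) :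
    {x : k | IsAlgebraic (ZMod p) x}.Infinite := by
  intro hfin
  have hp : p.Prime := Fact.out
  have hmap : Set.MapsTo (fun x : k => x ^ p - x) {x : k | IsAlgebraic (ZMod p) x}
      {x : k | IsAlgebraic (ZMod p) x} := by
    intro x hx
    exact (IsAlgebraic.pow hx p).sub hx
  have hsurj : Set.SurjOn (fun x : k => x ^ p - x) {x : k | IsAlgebraic (ZMod p) x}
      {x : k | IsAlgebraic (ZMod p) x} := by
    intro a ha
    obtain ⟨x, hx⟩ := h a
    refine ⟨x, ?_, hx⟩
    have hai : IsIntegral (ZMod p) a := IsAlgebraic.isIntegral ha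
    have h1 : IsIntegral (integralClosure (ZMod p) k) x := by
      refine ⟨Polynomial.X ^ p - (Polynomial.X + Polynomial.C ⟨a, hai⟩), ?_, ?_⟩
      · apply Polynomial.monic_X_pow_sub
        rw [Polynomial.degree_X_add_C]
        exact_mod_cast hp.one_lt
      · rw [Polynomial.eval₂_sub, Polynomial.eval₂_add, Polynomial.eval₂_X_pow,
          Polynomial.eval₂_X, Polynomial.eval₂_C]
        have h2 : (algebraMap (integralClosure (ZMod p) k) k) ⟨a, hai⟩ = a := rfl
        rw [h2, ← hx]
        ring
    exact (isIntegral_trans x h1).isAlgebraic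
  have hinj : Set.InjOn (fun x : k => x ^ p - x) {x : k | IsAlgebraic (ZMod p) x} :=
    (Set.Finite.surjOn_iff_bijOn_of_mapsTo hfin hmap).1 hsurj |>.injOn
  have h0 : (0 : k) ∈ {x : k | IsAlgebraic (ZMod p) x} := isAlgebraic_zero
  have h1 : (1 : k) ∈ {x : k | IsAlgebraic (ZMod p) x} := isAlgebraic_one
  have h2 : (0 : k) = 1 := by
    apply hinj h0 h1
    show (0 : k) ^ p - 0 = 1 ^ p - 1
    rw [zero_pow hp.ne_zero, one_pow, sub_zero, sub_self]
  exact zero_ne_one h2

end Pool.LibHB92
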