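import Pool.Agent.LibHB92.Defs

/-
PLAN (MKa, MEDIUM). Index type ι := (Z → Fin n) × (T' → Fin n), T' := the finite set of all z^(-a) r, where a : Z → Fin n, z^a := ∏ (w : Z), w ^ (a w : ℕ) in Rˣ, r in T (Finset.image, classical). Point: y (a, b) := z^a * ∑ (t : T'), (b t : ℕ) • t.
Scaling by w in Z: w * y (a, b) = y (a + 1_w, b) if a w + 1 < n; translation by r in T: y (a, b) + r = y (a, b + 1_(t)) with t := z^(-a) r if b t + 1 < n. General lemma (prove it first): for a finite type X, a coordinate x0 and functions G G' : (X → Fin n) → ℝ with |G|, |G'| ≤ 1 and G' c = G (c + 1 at x0) whenever c x0 + 1 < n: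
|∑ c, G' c - ∑ c, G c| ≤ 2 * (number of c with a fixed value at x0) = 2 n^(|X| - 1), i.e. the sum over c with c x0 + 1 < n of G' is the sum over c with c x0 ≠ 0 of G (bijection Finset.sum_bij or sum_equiv with Function.update), the rest has n^(|X|-1) terms on each side. card ι = n^|Z| n^|T'|. (Work with sums over pairs: fix b resp. a.)
Any other approximately invariant averages are fine too.
-/

set_option autoImplicit false

noncomputable section

namespace Pool.LibHB92

universe u v w

private theorem MKa_count {X : Type*} [Fintype X] [DecidableEq X] (x0 : X) (n : ℕ) (l : Fin n) :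
    n * (Finset.univ.filter (fun c : X → Fin n => c x0 = l)).card = Fintype.card (X → Fin n) := by
  have h1 : Finset.univ.filter (fun c : X → Fin n => c x0 = l) =
      Fintype.piFinset (fun x => if x = x0 then ({l} : Finset (Fin n)) else Finset.univ) := by
    ext c
    rw [Finset.mem_filter, Fintype.mem_piFinset]
    constructor
    · rintro ⟨_, h⟩ x
      by_cases hx : x = x0
      · rw [if_pos hx, Finset.mem_singleton, hx, h]
      · rw [if_neg hx]
        exact Finset.mem_univ _
    · intro h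
      have h2 := h x0
      rw [if_pos rfl, Finset.mem_singleton] at h2
      exact ⟨Finset.mem_univ _, h2⟩
  rw [h1, Fintype.card_piFinset, ← Finset.mul_prod_erase Finset.univ _ (Finset.mem_univ x0), if_pos rfl,
    Finset.card_singleton, one_mul, Fintype.card_fun, Fintype.card_fin]
  have h3 : ∏ x ∈ Finset.univ.erase x0,
      (if x = x0 then ({l} : Finset (Fin n)) else Finset.univ).card = n ^ (Fintype.card X - 1) := by
    rw [Finset.prod_congr rfl (g := fun _ => n), Finset.prod_const, Finset.card_erase_of_mem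
      (Finset.mem_univ x0), Finset.card_univ]
    intro x hx
    rw [Finset.mem_erase] at hx
    rw [if_neg hx.1, Finset.card_univ, Fintype.card_fin]
  rw [h3, ← pow_succ']
  congr 1
  have h4 : 0 < Fintype.card X := Fintype.card_pos_iff.2 ⟨x0⟩
  omega

private theorem MKa_shift {X : Type*} [Fintype X] [DecidableEq X] (x0 : X) (n : ℕ) (hn : 0 < n)
    (G G' : (X → Fin n) → ℝ) (h1 : ∀ c, |G c| ≤ 1) (h2 : ∀ c, |G' c| ≤ 1)
    (h : ∀ (c : X → Fin n) (hc : (c x0 : ℕ) + 1 < n),
      G' c = G (Function.update c x0 ⟨(c x0 : ℕ) + 1, hc⟩)) :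
    |∑ c, G' c - ∑ c, G c| ≤ 2 * Fintype.card (X → Fin n) / n := by
  obtain ⟨m, rfl⟩ : ∃ m, n = m + 1 := ⟨n - 1, by omega⟩
  let e : Equiv.Perm (X → Fin (m + 1)) :=
    Equiv.piCongrRight (fun x => if x = x0 then finRotate (m + 1) else Equiv.refl _)
  have he : ∀ c x, e c x = if x = x0 then finRotate (m + 1) (c x) else c x := by
    intro c x
    show (if x = x0 then finRotate (m + 1) else Equiv.refl _) (c x) = _
    split_ifs <;> rfl
  have h3 : ∑ c, G c = ∑ c, G (e c) := (Equiv.sum_comp e G).symm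
  have h4 : ∀ c, |G' c - G (e c)| ≤ if c x0 = Fin.last m then 2 else 0 := by
    intro c
    by_cases hc : c x0 = Fin.last m
    · rw [if_pos hc]
      calc |G' c - G (e c)| ≤ |G' c| + |G (e c)| := abs_sub _ _
        _ ≤ 1 + 1 := add_le_add (h2 c) (h1 _)
        _ = 2 := by norm_num
    · rw [if_neg hc]
      have hlt : (c x0 : ℕ) + 1 < m + 1 := by
        have h5 := (c x0).2
        have h6 : (c x0 : ℕ) ≠ m := fun h6 => hc (Fin.ext h6)
        omega
      have h5 : Function.update c x0 ⟨(c x0 : ℕ) + 1, hlt⟩ = e c := by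
        funext x
        rw [he]
        by_cases hx : x = x0
        · rw [if_pos hx, hx, Function.update_self]
          apply Fin.ext
          rw [coe_finRotate_of_ne_last hc]
        · rw [if_neg hx, Function.update_of_ne hx]
      rw [h c hlt, h5, sub_self, abs_zero]
  have hcount := MKa_count x0 (m + 1) (Fin.last m)
  have hpos : (0 : ℝ) < ((m + 1 : ℕ) : ℝ) := by exact_mod_cast Nat.succ_pos m
  rw [h3, ← Finset.sum_sub_distrib]
  calc |∑ c, (G' c - G (e c))| ≤ ∑ c, |G' c - G (e c)| := Finset.abs_sum_le_sum_abs _ _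
    _ ≤ ∑ c : X → Fin (m + 1), (if c x0 = Fin.last m then (2 : ℝ) else 0) :=
        Finset.sum_le_sum (fun c _ => h4 c)
    _ = 2 * ((Finset.univ.filter (fun c : X → Fin (m + 1) => c x0 = Fin.last m)).card : ℝ) := by
        rw [← Finset.sum_filter, Finset.sum_const, nsmul_eq_mul, mul_comm]
    _ = 2 * Fintype.card (X → Fin (m + 1)) / ((m + 1 : ℕ) : ℝ) := by
        rw [eq_div_iff hpos.ne', ← hcount]
        push_cast
        ring
    _ ≤ _ := le_rfl

/-- approximately invariant finite averages -/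
theorem folner (R : Type u) [CommRing R] (T : Finset R) (Z : Finset Rˣ) (n : ℕ) (hn : 0 < n) :
    ∃ (ι : Type u) (_ : Fintype ι) (_ : Nonempty ι) (y : ι → R),
      ∀ f : R → ℝ, (∀ x, |f x| ≤ 1) →
        (∀ r ∈ T, |∑ i, f (y i + r) - ∑ i, f (y i)| ≤ 2 * Fintype.card ι / n) ∧
        (∀ w ∈ Z, |∑ i, f (w * y i) - ∑ i, f (y i)| ≤ 2 * Fintype.card ι / n) := by
  classical
  -- products of powers of the units
  let zz : (Z → Fin n) → Rˣ := fun a => ∏ w : Z, (w : Rˣ) ^ (a w : ℕ)
  let T' : Finset R := (Finset.univ ×ˢ T).image (fun p : (Z → Fin n) × R => ((zz p.1)⁻¹ : Rˣ) * p.2)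
  let y : (Z → Fin n) × (T' → Fin n) → R := fun p =>
    (zz p.1 : R) * ∑ t : T', ((p.2 t : ℕ) : R) * (t : R)
  have hzz : ∀ (a : Z → Fin n) (w : Z) (hw : (a w : ℕ) + 1 < n),
      zz (Function.update a w ⟨(a w : ℕ) + 1, hw⟩) = (w : Rˣ) * zz a := by
    intro a w hw
    show ∏ v : Z, (v : Rˣ) ^ (Function.update a w ⟨(a w : ℕ) + 1, hw⟩ v : ℕ) =
      (w : Rˣ) * ∏ v : Z, (v : Rˣ) ^ (a v : ℕ)
    rw [← Finset.mul_prod_erase Finset.univ _ (Finset.mem_univ w),
      ← Finset.mul_prod_erase Finset.univ (fun v : Z => (v : Rˣ) ^ (a v : ℕ)) (Finset.mem_univ w),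
      Function.update_self, ← mul_assoc, ← pow_succ']
    congr 1
    refine Finset.prod_congr rfl (fun v hv => ?_)
    rw [Function.update_of_ne (Finset.ne_of_mem_erase hv)]
  have hsum : ∀ (b : T' → Fin n) (t : T') (ht : (b t : ℕ) + 1 < n),
      ∑ s : T', ((Function.update b t ⟨(b t : ℕ) + 1, ht⟩ s : ℕ) : R) * (s : R) =
        (∑ s : T', ((b s : ℕ) : R) * (s : R)) + t := by
    intro b t ht
    rw [← Finset.add_sum_erase Finset.univ _ (Finset.mem_univ t),
      ← Finset.add_sum_erase Finset.univ (fun s : T' => ((b s : ℕ) : R) * (s : R)) (Finset.mem_univ t),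
      Function.update_self]
    have h1 : ∑ s ∈ Finset.univ.erase t,
        ((Function.update b t ⟨(b t : ℕ) + 1, ht⟩ s : ℕ) : R) * (s : R) =
        ∑ s ∈ Finset.univ.erase t, ((b s : ℕ) : R) * (s : R) := by
      refine Finset.sum_congr rfl (fun s hs => ?_)
      rw [Function.update_of_ne (Finset.ne_of_mem_erase hs)]
    rw [h1]
    push_cast
    ring
  have hne : Nonempty (Fin n) := ⟨⟨0, hn⟩⟩
  refine ⟨(Z → Fin n) × (T' → Fin n), inferInstance, inferInstance, y, ?_⟩
  intro f hf
  have hnpos : (0 : ℝ) < n := by exact_mod_cast hn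
  refine ⟨?_, ?_⟩
  · intro r hr
    rw [Fintype.sum_prod_type, Fintype.sum_prod_type, ← Finset.sum_sub_distrib]
    have h1 : ∀ a : Z → Fin n, |∑ b : T' → Fin n, f (y (a, b) + r) - ∑ b : T' → Fin n, f (y (a, b))| ≤
        2 * Fintype.card (T' → Fin n) / n := by
      intro a
      have hmem : ((zz a)⁻¹ : Rˣ) * r ∈ T' :=
        Finset.mem_image.2 ⟨(a, r), Finset.mem_product.2 ⟨Finset.mem_univ a, hr⟩, rfl⟩
      refine MKa_shift (⟨((zz a)⁻¹ : Rˣ) * r, hmem⟩ : T') n hn (fun b => f (y (a, b)))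
        (fun b => f (y (a, b) + r)) (fun b => hf _) (fun b => hf _) ?_
      intro b hb
      show f (y (a, b) + r) = f (y (a, _))
      congr 1
      show (zz a : R) * ∑ t : T', ((b t : ℕ) : R) * (t : R) + r = (zz a : R) * ∑ t : T', _
      rw [hsum b _ hb, mul_add, Units.mul_inv_cancel_left]
    calc |∑ a : Z → Fin n, (∑ b : T' → Fin n, f (y (a, b) + r) - ∑ b : T' → Fin n, f (y (a, b)))|
        ≤ ∑ a : Z → Fin n, |∑ b : T' → Fin n, f (y (a, b) + r) - ∑ b : T' → Fin n, f (y (a, b))| :=
          Finset.abs_sum_le_sum_abs _ _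
      _ ≤ ∑ _a : Z → Fin n, 2 * (Fintype.card (T' → Fin n) : ℝ) / n :=
          Finset.sum_le_sum (fun a _ => h1 a)
      _ = 2 * Fintype.card ((Z → Fin n) × (T' → Fin n)) / n := by
          rw [Finset.sum_const, nsmul_eq_mul, Finset.card_univ, Fintype.card_prod]
          push_cast
          ring
  · intro w hw
    rw [Fintype.sum_prod_type_right, Fintype.sum_prod_type_right, ← Finset.sum_sub_distrib]
    have h1 : ∀ b : T' → Fin n, |∑ a : Z → Fin n, f (w * y (a, b)) - ∑ a : Z → Fin n, f (y (a, b))| ≤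
        2 * Fintype.card (Z → Fin n) / n := by
      intro b
      refine MKa_shift (⟨w, hw⟩ : Z) n hn (fun a => f (y (a, b)))
        (fun a => f (w * y (a, b))) (fun a => hf _) (fun a => hf _) ?_
      intro a ha
      show f (w * y (a, b)) = f (y (_, b))
      congr 1
      show (w : R) * ((zz a : R) * ∑ t : T', ((b t : ℕ) : R) * (t : R)) =
        (zz (Function.update a _ _) : R) * ∑ t : T', ((b t : ℕ) : R) * (t : R)
      rw [hzz a _ ha, Units.val_mul, mul_assoc]
    calc |∑ b : T' → Fin n, (∑ a : Z → Fin n, f (w * y (a, b)) - ∑ a : Z → Fin n, f (y (a, b)))|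
        ≤ ∑ b : T' → Fin n, |∑ a : Z → Fin n, f (w * y (a, b)) - ∑ a : Z → Fin n, f (y (a, b))| :=
          Finset.abs_sum_le_sum_abs _ _
      _ ≤ ∑ _b : T' → Fin n, 2 * (Fintype.card (Z → Fin n) : ℝ) / n :=
          Finset.sum_le_sum (fun b _ => h1 b)
      _ = 2 * Fintype.card ((Z → Fin n) × (T' → Fin n)) / n := by
          rw [Finset.sum_const, nsmul_eq_mul, Finset.card_univ, Fintype.card_prod]
          push_cast
          ring

end Pool.LibHB92
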