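import Pool.Agent.LibHB92.MKa

/-
PLAN (MKb, MEDIUM). Index set D := Finset R × Finset Rˣ × ℕ with the order atTop (NeBot: directed, nonempty), 𝒰 := Ultrafilter.of Filter.atTop. For d = (T, Z, n) choose (folner R T Z (n+1)) the average A_d f := (∑ i, f (y i)) / card ι. For bounded f (|f| ≤ C) A_d f lies in the compact Icc (-C) C, so it has a limit along 𝒰
(isCompact_Icc.ultrafilter_le_nhds / IsCompact... exists x, Tendsto (fun d => A_d f) 𝒰 (nhds x)). M.m f := if bounded then this limit (choose; unique: tendsto_nhds_unique) else 0. add, smul, mono, one: limits (Tendsto.add, const_mul, le_of_tendsto_of_tendsto'). tr: for r: |A_d (f(.+r)) - A_d f| ≤ C * 2 / (n+1)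
for d ≥ ({r}, ∅, 0) (apply folner to f / C, C > 0 w.l.o.g. replace C by C + 1), so the limits agree: the difference tends to 0 (squeeze; d ↦ 2 C / (d.2.2 + 1) tends to 0 along atTop as d.2.2 does). sc the same.
-/

set_option autoImplicit false

noncomputable section

namespace Pool.LibHB92

universe u v w

private theorem MKb_scale {ι : Type u} [Fintype ι] [Nonempty ι] {X : Type v} (f : X → ℝ) (C : ℝ) (hC : ∀ x, |f x| ≤ C)
    (a b : ι → X) (n : ℕ)
    (h : ∀ f : X → ℝ, (∀ x, |f x| ≤ 1) → |∑ i, f (a i) - ∑ i, f (b i)| ≤ 2 * Fintype.card ι / ((n + 1 : ℕ) : ℝ)) :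
    |(∑ i, f (a i)) / Fintype.card ι - (∑ i, f (b i)) / Fintype.card ι| ≤ 2 * (|C| + 1) / ((n : ℝ) + 1) := by
  have hK : 0 < |C| + 1 := by positivity
  have hc : (0 : ℝ) < Fintype.card ι := by exact_mod_cast Fintype.card_pos
  have h1 := h (fun x => f x / (|C| + 1)) (by
    intro x
    rw [abs_div, abs_of_pos hK, div_le_one hK]
    have := (hC x).trans (le_abs_self C)
    linarith)
  rw [← Finset.sum_div, ← Finset.sum_div, ← sub_div, abs_div, abs_of_pos hK, div_le_iff₀ hK] at h1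
  rw [← sub_div, abs_div, abs_of_pos hc, div_le_iff₀ hc]
  refine h1.trans (le_of_eq ?_)
  push_cast
  ring

/-- invariant means exist -/
theorem mean_exists (R : Type u) [CommRing R] : ∃ M : Mean R, AffInv M := by
  classical
  choose ι hF hN y hy using fun d : Finset R × Finset Rˣ × ℕ => folner R d.1 d.2.1 (d.2.2 + 1) (Nat.succ_pos _)
  obtain ⟨𝒰, hU⟩ : ∃ 𝒰 : Ultrafilter (Finset R × Finset Rˣ × ℕ),
      (𝒰 : Filter (Finset R × Finset Rˣ × ℕ)) ≤ Filter.atTop := ⟨Ultrafilter.of Filter.atTop, Ultrafilter.of_le Filter.atTop⟩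
  obtain ⟨A, hA⟩ : ∃ A : (R → ℝ) → (Finset R × Finset Rˣ × ℕ) → ℝ, ∀ f d, A f d =
      (∑ i, f (y d i)) / Fintype.card (ι d) := ⟨_, fun _ _ => rfl⟩
  have hcp : ∀ d, (0 : ℝ) < Fintype.card (ι d) := fun d => by exact_mod_cast Fintype.card_pos
  have hlim : ∀ f, Bd f → ∃ L, Filter.Tendsto (A f) 𝒰 (nhds L) := by
    rintro f ⟨C, hC⟩
    have hmem : ∀ d, A f d ∈ Set.Icc (-C) C := by
      intro d
      rw [hA]
      have h1 : |∑ i, f (y d i)| ≤ ∑ _i : ι d, C :=
        (Finset.abs_sum_le_sum_abs _ _).trans (Finset.sum_le_sum fun i _ => hC _)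
      rw [Finset.sum_const, Finset.card_univ, nsmul_eq_mul, abs_le] at h1
      have hc := hcp d
      constructor
      · rw [le_div_iff₀ hc]
        linarith [h1.1]
      · rw [div_le_iff₀ hc]
        linarith [h1.2]
    obtain ⟨L, -, hL⟩ := (isCompact_Icc (a := -C) (b := C)).ultrafilter_le_nhds (𝒰.map (A f)) (by
      rw [Filter.le_principal_iff, Ultrafilter.coe_map]
      exact Filter.mem_map.2 (Filter.univ_mem' hmem))
    exact ⟨L, hL⟩
  obtain ⟨m, hm⟩ : ∃ m : (R → ℝ) → ℝ, ∀ f, Bd f → Filter.Tendsto (A f) 𝒰 (nhds (m f)) :=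
    ⟨fun f => Filter.limUnder (𝒰 : Filter (Finset R × Finset Rˣ × ℕ)) (A f), fun f hf => tendsto_nhds_limUnder (hlim f hf)⟩
  have key : ∀ (F G : R → ℝ), Bd F → Bd G → ∀ (K : ℝ) (d0 : Finset R × Finset Rˣ × ℕ),
      (∀ d, d0 ≤ d → |A F d - A G d| ≤ K / ((d.2.2 : ℝ) + 1)) → m F = m G := by
    intro F G hFb hGb K d0 h
    have t1 : Filter.Tendsto (fun d : Finset R × Finset Rˣ × ℕ => d.2.2) Filter.atTop Filter.atTop := by
      rw [Filter.tendsto_atTop_atTop]
      intro b
      exact ⟨(∅, ∅, b), fun d hd => hd.2.2⟩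
    have t2 : Filter.Tendsto (fun n : ℕ => K / ((n : ℝ) + 1)) Filter.atTop (nhds 0) := by
      have h1 := (tendsto_one_div_add_atTop_nhds_zero_nat (𝕜 := ℝ)).const_mul K
      simpa [div_eq_mul_inv] using h1
    have t3 : Filter.Tendsto (fun d => A F d - A G d) Filter.atTop (nhds 0) := by
      refine squeeze_zero_norm' ?_ (t2.comp t1)
      filter_upwards [Filter.eventually_ge_atTop d0] with d hd
      exact h d hd
    have t4 := (hm F hFb).sub (hm G hGb)
    have t5 := tendsto_nhds_unique t4 (t3.mono_left hU)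
    linarith
  refine ⟨⟨m, ?_, ?_, ?_, ?_⟩, ⟨?_, ?_⟩⟩
  · intro f g hf hg
    refine tendsto_nhds_unique (hm _ (hf.add hg)) ?_
    refine ((hm f hf).add (hm g hg)).congr fun d => ?_
    rw [hA, hA, hA, Finset.sum_add_distrib, add_div]
  · intro c f hf
    refine tendsto_nhds_unique (hm _ (hf.cmul c)) ?_
    refine ((hm f hf).const_mul c).congr fun d => ?_
    rw [hA, hA, ← Finset.mul_sum, mul_div_assoc]
  · intro f g hf hg h
    refine le_of_tendsto_of_tendsto' (hm f hf) (hm g hg) fun d => ?_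
    rw [hA, hA]
    exact div_le_div_of_nonneg_right (Finset.sum_le_sum fun i _ => h _) (hcp d).le
  · refine tendsto_nhds_unique (hm _ (bd_const 1)) ?_
    refine tendsto_const_nhds.congr fun d => ?_
    rw [hA, Finset.sum_const, Finset.card_univ, nsmul_eq_mul, mul_one, div_self (hcp d).ne']
  · intro r f hf
    obtain ⟨C, hC⟩ := hf
    refine key _ _ (Bd.comp (f := f) ⟨C, hC⟩ fun y => y + r) ⟨C, hC⟩ (2 * (|C| + 1)) ({r}, ∅, 0) fun d hd => ?_
    have hr : r ∈ d.1 := hd.1 (Finset.mem_singleton_self r)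
    rw [hA, hA]
    exact MKb_scale f C hC (fun i => y d i + r) (y d) d.2.2 fun f' hf' => (hy d f' hf').1 r hr
  · intro w f hf
    obtain ⟨C, hC⟩ := hf
    refine key _ _ (Bd.comp (f := f) ⟨C, hC⟩ fun y => (w : R) * y) ⟨C, hC⟩ (2 * (|C| + 1)) (∅, {w}, 0) fun d hd => ?_
    have hr : w ∈ d.2.1 := hd.2.1 (Finset.mem_singleton_self w)
    rw [hA, hA]
    exact MKb_scale f C hC (fun i => (w : R) * y d i) (y d) d.2.2 fun f' hf' => (hy d f' hf').2 w hr

end Pool.LibHB92
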