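import Pool.Agent.LibHB92.Defs

/-
PLAN (PKa, MEDIUM). Greedy sampling. Claim: for a finset E of pairs with ε < M.pr (sep i j) for all (i,j) in E and k : ℕ there is y : Fin k → Y such that the set E' of the pairs of E not separated by any y l has card E' ≤ (1-ε)^k * card E (reals). Induction on k: k = 0 trivial. Step: E' nonempty (otherwise any point; Y is nonempty: a mean on an
empty type would give 1 = M.m (fun _ => 1) = M.m (fun _ => 0) = 0), f y := ∑ (i,j) in E', ind (sep i j y): M.m f = ∑ M.pr (sep i j) > ε card E' (M.sum), so M.exists_gt gives y with f y > ε card E': at most (1-ε) card E' pairs remain (f y = number of pairs separated by y). If E' is nonempty ε < 1 (pr ≤ 1), so 1 - ε > 0.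
(If 1-ε ≤ 0 then E is empty: no pair at all.) Apply with E = all pairs i ≠ j of Fin n, card ≤ n^2: (1-ε)^k * n^2 < 1, so E' is empty. Fin k → Y by Fin.snoc or Fin.cons.
-/

set_option autoImplicit false

noncomputable section

namespace Pool.LibHB92

universe u v w

private theorem PKa_nonempty {Y : Type u} (M : Mean Y) : Nonempty Y := by
  by_contra hY
  rw [not_nonempty_iff] at hY
  have h1 : (fun _ : Y => (1 : ℝ)) = fun _ => 0 := funext fun y => (hY.false y).elim
  have h2 := M.one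
  rw [h1, M.const 0] at h2
  exact zero_ne_one h2

open Classical in
private theorem PKa_step {Y : Type u} (M : Mean Y) {n : ℕ} (sep : Fin n → Fin n → Y → Prop)
    {ε : ℝ} (E : Finset (Fin n × Fin n)) (h : ∀ e ∈ E, ε < M.pr (sep e.1 e.2)) :
    ∃ y : Y, ((E.filter fun e => ¬ sep e.1 e.2 y).card : ℝ) ≤ (1 - ε) * E.card := by
  rcases E.eq_empty_or_nonempty with rfl | hE
  · obtain ⟨y⟩ := PKa_nonempty M
    exact ⟨y, by simp⟩
  · have h1 : M.m (fun y => ∑ e ∈ E, ind (sep e.1 e.2 y)) = ∑ e ∈ E, M.pr (sep e.1 e.2) :=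
      M.sum E fun e _ => bd_ind _
    have h2 : ε * E.card < ∑ e ∈ E, M.pr (sep e.1 e.2) := by
      have h3 := Finset.sum_lt_sum_of_nonempty hE (f := fun _ => ε) h
      rw [Finset.sum_const, nsmul_eq_mul] at h3
      linarith
    rw [← h1] at h2
    obtain ⟨y, hy⟩ := M.exists_gt (Bd.sum E fun e _ => bd_ind (sep e.1 e.2)) h2
    refine ⟨y, ?_⟩
    have h4 : ∑ e ∈ E, ind (sep e.1 e.2 y) = ((E.filter fun e => sep e.1 e.2 y).card : ℝ) := by
      rw [← Finset.sum_boole]
      exact Finset.sum_congr rfl fun e _ => rfl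
    have h5 : (E.filter fun e => sep e.1 e.2 y).card +
        (E.filter fun e => ¬ sep e.1 e.2 y).card = E.card :=
      Finset.card_filter_add_card_filter_not (s := E) fun e => sep e.1 e.2 y
    have h6 : ((E.filter fun e => sep e.1 e.2 y).card : ℝ) +
        ((E.filter fun e => ¬ sep e.1 e.2 y).card : ℝ) = (E.card : ℝ) := by
      exact_mod_cast h5
    rw [h4] at hy
    linarith

open Classical in
private theorem PKa_many {Y : Type u} (M : Mean Y) {n : ℕ} (sep : Fin n → Fin n → Y → Prop)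
    {ε : ℝ} (hε1 : ε < 1) (E : Finset (Fin n × Fin n))
    (h : ∀ e ∈ E, ε < M.pr (sep e.1 e.2)) (k : ℕ) :
    ∃ y : Fin k → Y, ((E.filter fun e => ∀ l, ¬ sep e.1 e.2 (y l)).card : ℝ) ≤
      (1 - ε) ^ k * E.card := by
  induction k with
  | zero =>
    refine ⟨fun l => l.elim0, ?_⟩
    rw [pow_zero, one_mul]
    exact_mod_cast Finset.card_filter_le _ _
  | succ k ih =>
    obtain ⟨y, hy⟩ := ih
    obtain ⟨y0, hy0⟩ := PKa_step M sep (E.filter fun e => ∀ l, ¬ sep e.1 e.2 (y l))
      (fun e he => h e (Finset.mem_filter.mp he).1)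
    refine ⟨Fin.cons y0 y, ?_⟩
    have e1 : (E.filter fun e => ∀ l, ¬ sep e.1 e.2 ((Fin.cons y0 y : Fin (k + 1) → Y) l)) =
        (E.filter fun e => ∀ l, ¬ sep e.1 e.2 (y l)).filter fun e => ¬ sep e.1 e.2 y0 := by
      ext e
      rw [Finset.mem_filter, Finset.mem_filter, Finset.mem_filter, Fin.forall_fin_succ]
      simp only [Fin.cons_zero, Fin.cons_succ]
      tauto
    rw [e1, pow_succ]
    have h1 : 0 ≤ 1 - ε := by linarith
    have h2 := mul_le_mul_of_nonneg_left hy h1
    calc _ ≤ (1 - ε) * ((E.filter fun e => ∀ l, ¬ sep e.1 e.2 (y l)).card : ℝ) := hy0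
      _ ≤ (1 - ε) * ((1 - ε) ^ k * E.card) := h2
      _ = (1 - ε) ^ k * (1 - ε) * E.card := by ring

/-- a small sample separates all pairs -/
theorem sample {Y : Type u} (M : Mean Y) {n : ℕ} (sep : Fin n → Fin n → Y → Prop) {ε : ℝ}
    (hε : 0 < ε) (hε1 : ε < 1) (h : ∀ i j, i ≠ j → ε < M.pr (sep i j)) (k : ℕ)
    (hk : (1 - ε) ^ k * (n : ℝ) ^ 2 < 1) :
    ∃ y : Fin k → Y, ∀ i j, i ≠ j → ∃ l, sep i j (y l) := by
  classical
  obtain ⟨y, hy⟩ := PKa_many M sep hε1 (Finset.univ.filter fun e : Fin n × Fin n => e.1 ≠ e.2)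
    (fun e he => h e.1 e.2 (Finset.mem_filter.mp he).2) k
  refine ⟨y, fun i j hij => ?_⟩
  by_contra hcon
  push Not at hcon
  have hcard : ((Finset.univ.filter fun e : Fin n × Fin n => e.1 ≠ e.2).card : ℝ) ≤
      (n : ℝ) ^ 2 := by
    have h1 : (Finset.univ.filter fun e : Fin n × Fin n => e.1 ≠ e.2).card ≤ n ^ 2 := by
      refine (Finset.card_filter_le _ _).trans (le_of_eq ?_)
      rw [Finset.card_univ, Fintype.card_prod, Fintype.card_fin, sq]
    exact_mod_cast h1
  have h1 : 0 ≤ (1 - ε) ^ k := pow_nonneg (by linarith) k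
  have h2 := mul_le_mul_of_nonneg_left hcard h1
  have h3 : 1 ≤ ((Finset.univ.filter fun e : Fin n × Fin n => e.1 ≠ e.2).filter
      fun e => ∀ l, ¬ sep e.1 e.2 (y l)).card := by
    rw [Nat.one_le_iff_ne_zero, Finset.card_ne_zero]
    exact ⟨(i, j), Finset.mem_filter.mpr ⟨Finset.mem_filter.mpr ⟨Finset.mem_univ _, hij⟩, hcon⟩⟩
  have h4 : (1 : ℝ) ≤ (((Finset.univ.filter fun e : Fin n × Fin n => e.1 ≠ e.2).filter
      fun e => ∀ l, ¬ sep e.1 e.2 (y l)).card : ℝ) := by
    exact_mod_cast h3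
  linarith

end Pool.LibHB92
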