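import Mathlib

set_option autoImplicit false

noncomputable section

/-
PLAN (QB, SHORT/MEDIUM). D : A →* A, D a = σ a / a (hD: MonoidHom.range). In the ring AddMonoid.End (Additive A) one has (σ - 1)^q = σ^q - 1 = 0 because q kills everything (q divides the binomial coefficients; or sub_pow_char_of_commute with CharP q, A nontrivial), so D^[q] a = 1 for all a. By induction on k the range of D^k (k-fold composition) has finite index:
range D^(k+1) = (range D).map (D^k), range D^k = ⊤.map (D^k), the relative index of the first in the second divides / is at most the index of range D (Subgroup.relIndex_map_map or a surjection of quotients), relIndex_mul_index. For k = q the trivial subgroup has finite index: A is finite.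
-/

namespace Pool.LibHB92

universe u

private theorem QB_nil {A : Type u} [CommGroup A] {q : ℕ} (hq : q.Prime) (hA : ∀ a : A, a ^ q = 1)
    (σ : A →* A) (hσ : ∀ a, σ^[q] a = a) (D : A →* A) (hD : ∀ a, D a = σ a / a) (a : A) :
    D^[q] a = 1 := by
  rcases subsingleton_or_nontrivial A with hs | hn
  · exact Subsingleton.elim _ _
  · let E := AddMonoid.End (Additive A)
    have hE : Nontrivial E := by
      obtain ⟨b, hb⟩ := exists_ne (1 : A)
      refine ⟨⟨1, 0, ?_⟩⟩
      intro h
      have h1 := DFunLike.congr_fun h (Additive.ofMul b)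
      exact hb h1
    have hcast : ((q : ℕ) : E) = 0 := by
      apply DFunLike.ext
      intro x
      have h1 : ((q : ℕ) : E) x = q • x := AddMonoid.End.natCast_apply q x
      rw [h1]
      exact hA (Additive.toMul x)
    have : Fact q.Prime := ⟨hq⟩
    have : CharP E q := (CharP.charP_iff_prime_eq_zero hq).2 hcast
    let s : E := MonoidHom.toAdditive σ
    let d : E := MonoidHom.toAdditive D
    have hd : d = s - 1 := by
      apply DFunLike.ext
      intro x
      exact hD (Additive.toMul x)
    have hs : s ^ q = 1 := by
      apply DFunLike.ext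
      intro x
      rw [AddMonoid.End.coe_pow]
      exact hσ (Additive.toMul x)
    have h1 : d ^ q = 0 := by
      rw [hd, sub_pow_char_of_commute _ (Commute.one_right s), hs, one_pow, sub_self]
    have h2 := DFunLike.congr_fun h1 (Additive.ofMul a)
    rw [AddMonoid.End.coe_pow] at h2
    exact h2

/-- a unipotent action with finite coinvariants -/
theorem fin_of_unip {A : Type u} [CommGroup A] {q : ℕ} (hq : q.Prime) (hA : ∀ a : A, a ^ q = 1)
    (σ : A →* A) (hσ : ∀ a, σ^[q] a = a) (D : A →* A) (hD : ∀ a, D a = σ a / a)
    (hfin : D.range.index ≠ 0) : Finite A := by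
  have key : ∀ k : ℕ, ∃ R : Subgroup A, R.index ≠ 0 ∧ ∀ x ∈ R, ∃ a, D^[k] a = x := by
    intro k
    induction k with
    | zero => exact ⟨⊤, by simp, fun x _ => ⟨x, rfl⟩⟩
    | succ k ih =>
      obtain ⟨R, hR, hRx⟩ := ih
      refine ⟨R.map D, ?_, ?_⟩
      · rw [Subgroup.index_map]
        refine mul_ne_zero ?_ hfin
        intro h
        have h1 := Subgroup.index_dvd_of_le (le_sup_left : R ≤ R ⊔ D.ker)
        rw [h, zero_dvd_iff] at h1
        exact hR h1
      · rintro x ⟨y, hy, rfl⟩
        obtain ⟨a, ha⟩ := hRx y hy
        exact ⟨a, by rw [Function.iterate_succ_apply', ha]⟩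
  obtain ⟨R, hR, hRx⟩ := key q
  have hbot : R = ⊥ := by
    rw [eq_bot_iff]
    intro x hx
    obtain ⟨a, ha⟩ := hRx x hx
    rw [Subgroup.mem_bot, ← ha]
    exact QB_nil hq hA σ hσ D hD a
  rw [hbot, Subgroup.index_bot] at hR
  exact Nat.finite_of_card_ne_zero hR

end Pool.LibHB92
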