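import Pool.Agent.LibNP88.V1

/-
PLAN (QD1, MEDIUM). OU B x: x is congruent to 1 at all valuation rings of M' over B. G = Gal(M'/M) = zpowers σ, q elements. ou_mul, ou_inv, ou_algebraMap: as in VDef (val_of_J) and LibNP88.val_lt. ou_sig: for A over B the ring A.comap σ (valuation ring {x | σ x ∈ A}) is over B too, and (A.comap σ).valuation (x - 1) < 1 iff A.valuation (σ x - 1) < 1 (x - 1 nonunit of A.comap σ
iff σ x - 1 nonunit of A; see V11_comap / V11_lt_one_iff in LibNP88/V11.lean for the model). ou_norm: norm x = ∏ over the automorphisms (Algebra.norm_eq_prod_automorphisms), each factor is OU (ou_sig for every automorphism), there is some A over B (LibNP88.ext_exists), LibNP88.val_lt. root_norm: c^q - 1 = ∏_{i<q} (c - z^i)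
(IsPrimitiveRoot, X_pow_sub_one_eq_prod), so valuation (c - z^i) < 1 for some i; c' := c * (z^i)⁻¹ (valuation z = 1). h90_units: P i := ∏_{j<i} (σ^j) x (all OU), P q = norm x = 1 (Algebra.norm_eq_prod_automorphisms, reindexed: every automorphism is σ^i for exactly one i < q = card), y := q⁻¹ ∑_{i<q} P i: y - 1 = q⁻¹ ∑ (P i - 1), so OU (A.valuation q = 1 by val_one),
x * σ y = y because x * σ (P i) = P (i+1) and P q = 1 = P 0.
-/

set_option autoImplicit false

noncomputable section

namespace Pool.LibHB92

universe u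

open Pool.LibNP88

/-- x is congruent to 1 at all valuation rings of M' over B -/
def OU {M M' : Type u} [Field M] [Field M'] [Algebra M M'] (B : ValuationSubring M) (x : M') :
    Prop :=
  ∀ A : ValuationSubring M', A.comap (algebraMap M M') = B → A.valuation (x - 1) < 1

private theorem QD1_lt_one_iff {L : Type u} [Field L] (A : ValuationSubring L) (x : L) :
    A.valuation x < 1 ↔ x = 0 ∨ x⁻¹ ∉ A := by
  by_cases hx : x = 0
  · simp [hx]
  · rw [← A.valuation_le_one_iff, map_inv₀]
    have h0 : 0 < A.valuation x := zero_lt_iff.2 ((Valuation.ne_zero_iff _).2 hx)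
    constructor
    · intro h
      right
      rw [not_le]
      exact (one_lt_inv₀ h0).2 h
    · rintro (h | h)
      · exact absurd h hx
      · rw [not_le] at h
        exact (one_lt_inv₀ h0).1 h

private theorem QD1_comap {L M : Type u} [Field L] [Field M] (A : ValuationSubring M) (f : L →+* M)
    (x : L) : (A.comap f).valuation x < 1 ↔ A.valuation (f x) < 1 := by
  rw [QD1_lt_one_iff, QD1_lt_one_iff, ValuationSubring.mem_comap, map_inv₀, map_eq_zero]

/-- valuation 1 if x - 1 is in the maximal ideal -/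
private theorem QD1_one {L : Type u} [Field L] (A : ValuationSubring L) {x : L}
    (hx : A.valuation (x - 1) < 1) : A.valuation x = 1 := by
  have h1 : A.valuation (1 + (x - 1)) = 1 := Valuation.map_one_add_of_lt _ hx
  rwa [add_sub_cancel] at h1

private theorem QD1_mul {L : Type u} [Field L] (A : ValuationSubring L) {x y : L}
    (hx : A.valuation (x - 1) < 1) (hy : A.valuation (y - 1) < 1) :
    A.valuation (x * y - 1) < 1 := by
  have h : x * y - 1 = (x - 1) * y + (y - 1) := by ring
  rw [h]
  refine Valuation.map_add_lt _ ?_ hy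
  rw [map_mul, QD1_one A hy, mul_one]
  exact hx

private theorem QD1_inv {L : Type u} [Field L] (A : ValuationSubring L) {x : L}
    (hx : A.valuation (x - 1) < 1) : A.valuation (x⁻¹ - 1) < 1 := by
  have h1 := QD1_one A hx
  have hx0 : x ≠ 0 := by
    rintro rfl
    rw [map_zero] at h1
    exact zero_ne_one h1
  have h : x⁻¹ - 1 = -((x - 1) * x⁻¹) := by
    rw [sub_mul, mul_inv_cancel₀ hx0]
    ring
  rw [h, Valuation.map_neg, map_mul, map_inv₀, h1, inv_one, mul_one]
  exact hx

private theorem QD1_prod {L : Type u} [Field L] (A : ValuationSubring L) {ι : Type*}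
    (s : Finset ι) (f : ι → L) (hf : ∀ i ∈ s, A.valuation (f i - 1) < 1) :
    A.valuation (∏ i ∈ s, f i - 1) < 1 := by
  classical
  induction s using Finset.induction_on with
  | empty => simp
  | insert a s ha ih =>
    rw [Finset.prod_insert ha]
    exact QD1_mul A (hf a (Finset.mem_insert_self a s))
      (ih fun i hi => hf i (Finset.mem_insert_of_mem hi))

section

variable {M M' : Type u} [Field M] [Field M'] [Algebra M M'] {B : ValuationSubring M}

theorem ou_one : OU B (1 : M') := by
  intro A _
  simp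

theorem ou_mul {x y : M'} (hx : OU B x) (hy : OU B y) : OU B (x * y) := by
  intro A hA
  exact QD1_mul A (hx A hA) (hy A hA)

theorem ou_inv {x : M'} (hx : OU B x) : OU B x⁻¹ := by
  intro A hA
  exact QD1_inv A (hx A hA)

theorem ou_ne {x : M'} (hx : OU B x) : x ≠ 0 := by
  rintro rfl
  obtain ⟨A, hA⟩ := ext_exists B M'
  have h1 := QD1_one A (hx A hA)
  rw [map_zero] at h1
  exact zero_ne_one h1

theorem ou_base {x : M} : OU B (algebraMap M M' x) ↔ B.valuation (x - 1) < 1 := by
  constructor
  · intro h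
    obtain ⟨A, hA⟩ := ext_exists B M'
    have h1 := h A hA
    rw [← map_one (algebraMap M M'), ← map_sub] at h1
    exact (val_lt B A hA _).1 h1
  · intro h A hA
    rw [← map_one (algebraMap M M'), ← map_sub]
    exact (val_lt B A hA _).2 h

theorem ou_sig (σ : M' ≃ₐ[M] M') {x : M'} (hx : OU B x) : OU B (σ x) := by
  intro A hA
  have hc : (A.comap (σ : M' →+* M')).comap (algebraMap M M') = B := by
    rw [← hA]
    ext z
    rw [ValuationSubring.mem_comap, ValuationSubring.mem_comap, ValuationSubring.mem_comap]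
    have h1 : (σ : M' →+* M') (algebraMap M M' z) = algebraMap M M' z := σ.commutes z
    rw [h1]
  have h2 := (QD1_comap A (σ : M' →+* M') (x - 1)).1 (hx _ hc)
  have h3 : (σ : M' →+* M') (x - 1) = σ x - 1 := by
    change σ (x - 1) = σ x - 1
    rw [map_sub, map_one]
  rwa [h3] at h2

theorem ou_norm [FiniteDimensional M M'] [IsGalois M M'] {x : M'} (hx : OU B x) :
    B.valuation (Algebra.norm M x - 1) < 1 := by
  rw [← ou_base (M' := M'), Algebra.norm_eq_prod_automorphisms]
  intro A hA
  exact QD1_prod A _ _ fun σ _ => ou_sig σ hx A hA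

/-- Hilbert 90 for one-units -/
theorem h90_units [FiniteDimensional M M'] [IsGalois M M'] {q : ℕ} (hq : q.Prime)
    (hd : Module.finrank M M' = q) (hqv : B.valuation (q : M) = 1) (σ : M' ≃ₐ[M] M')
    (hσ : ∀ τ : M' ≃ₐ[M] M', τ ∈ Subgroup.zpowers σ) {x : M'} (hx : OU B x)
    (hN : Algebra.norm M x = 1) : ∃ y : M', OU B y ∧ x * σ y = y := by
  have hcard : orderOf σ = q := by
    rw [orderOf_eq_card_of_forall_mem_zpowers hσ, IsGalois.card_aut_eq_finrank, hd]
  set P : ℕ → M' := fun i => ∏ j ∈ Finset.range i, (σ ^ j) x with hP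
  have hPou : ∀ i, OU B (P i) := fun i A hA =>
    QD1_prod A _ _ fun j _ => ou_sig (σ ^ j) hx A hA
  have hstep : ∀ i, x * σ (P i) = P (i + 1) := by
    intro i
    simp only [hP]
    rw [Finset.prod_range_succ', map_prod, mul_comm, pow_zero]
    congr 1
    refine Finset.prod_congr rfl fun j _ => ?_
    rw [pow_succ', AlgEquiv.mul_apply]
  have hPq : P q = 1 := by
    classical
    have h1 := Algebra.norm_eq_prod_automorphisms (K := M) (L := M') x
    rw [hN, map_one] at h1
    rw [h1]
    simp only [hP]
    have h2 := IsCyclic.image_range_orderOf hσ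
    rw [hcard] at h2
    rw [← h2, Finset.prod_image]
    intro a ha b hb hab
    rw [Finset.mem_coe, Finset.mem_range, ← hcard] at ha hb
    exact pow_injOn_Iio_orderOf ha hb hab
  have hq0 : (q : M') ≠ 0 := by
    intro h0
    have h1 : algebraMap M M' (q : M) = 0 := by
      rw [map_natCast, h0]
    rw [map_eq_zero] at h1
    rw [h1, map_zero] at hqv
    exact zero_ne_one hqv
  refine ⟨(q : M')⁻¹ * ∑ i ∈ Finset.range q, P i, ?_, ?_⟩
  · intro A hA
    have h1 : (q : M')⁻¹ * ∑ i ∈ Finset.range q, P i - 1 =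
        (q : M')⁻¹ * ∑ i ∈ Finset.range q, (P i - 1) := by
      rw [Finset.sum_sub_distrib, Finset.sum_const, Finset.card_range, nsmul_eq_mul, mul_one,
        mul_sub, inv_mul_cancel₀ hq0]
    have h2 : A.valuation (q : M') = 1 := by
      rw [← map_natCast (algebraMap M M')]
      exact (val_one B A hA _).2 hqv
    rw [h1, map_mul, map_inv₀, h2, inv_one, one_mul]
    exact Valuation.map_sum_lt _ one_ne_zero fun i _ => hPou i A hA
  · rw [map_mul, map_inv₀, map_natCast, map_sum, mul_left_comm, Finset.mul_sum]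
    congr 1
    rw [Finset.sum_congr rfl fun i _ => hstep i]
    have h3 := Finset.sum_range_succ P q
    have h4 := Finset.sum_range_succ' P q
    have h5 : P 0 = 1 := by simp [hP]
    rw [h3, hPq, h5] at h4
    exact (add_right_cancel h4).symm

end

theorem root_norm {M : Type u} [Field M] (B : ValuationSubring M) {q : ℕ} (hq : q.Prime) (z : M)
    (hz : IsPrimitiveRoot z q) (c : M) (hc : B.valuation (c ^ q - 1) < 1) :
    ∃ c' : M, B.valuation (c' - 1) < 1 ∧ c' ^ q = c ^ q := by
  have hzv : B.valuation z = 1 := by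
    have h1 : B.valuation z ^ q = 1 := by
      rw [← map_pow, hz.pow_eq_one, map_one]
    exact (pow_eq_one_iff_of_nonneg zero_le hq.ne_zero).1 h1
  have hex : ∃ ξ ∈ Polynomial.nthRootsFinset q (1 : M), B.valuation (c - ξ) < 1 := by
    by_contra hcon
    push Not at hcon
    have h1 : c ^ q - 1 = ∏ ξ ∈ Polynomial.nthRootsFinset q (1 : M), (c - ξ) := by
      have h2 := congrArg (Polynomial.eval c) (Polynomial.X_pow_sub_one_eq_prod hq.pos hz)
      simpa [Polynomial.eval_prod] using h2
    rw [h1, map_prod] at hc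
    exact absurd hc (not_lt.2 (Finset.one_le_prod' hcon))
  obtain ⟨ξ, hξ, hξv⟩ := hex
  have hξq : ξ ^ q = 1 := (Polynomial.mem_nthRootsFinset hq.pos _).1 hξ
  have hξ1 : B.valuation ξ = 1 := by
    have h1 : B.valuation ξ ^ q = 1 := by
      rw [← map_pow, hξq, map_one]
    exact (pow_eq_one_iff_of_nonneg zero_le hq.ne_zero).1 h1
  have hξ0 : ξ ≠ 0 := by
    rintro rfl
    rw [map_zero] at hξ1
    exact zero_ne_one hξ1
  refine ⟨c * ξ⁻¹, ?_, ?_⟩
  · have h2 : c * ξ⁻¹ - 1 = (c - ξ) * ξ⁻¹ := by
      rw [sub_mul, mul_inv_cancel₀ hξ0]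
    rw [h2, map_mul, map_inv₀, hξ1, inv_one, mul_one]
    exact hξv
  · rw [mul_pow, inv_pow, hξq, inv_one, mul_one]

end Pool.LibHB92
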