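import Pool.Agent.LibHB92.QD1
import Pool.Agent.LibHB92.QB

/-
PLAN (QD2, MEDIUM). Gal(M'/M) has q elements, cyclic with generator σ (isCyclic_of_prime_card, IsGalois.card_aut_eq_finrank), σ^q = 1. H' := subgroup {u : M'ˣ | OU B u}, A0 := H' ⧸ (q-th powers of H'), a^q = 1 in A0; σ acts on H' (ou_sig) and on A0, D a = σ a / a. P := {x in H' | norm x is a q-th power in M}: finite index in H' (the classes of the norms lie in the
finite set hfin by ou_norm). For x in P: norm x = c^q, by root_norm with c ≡ 1 (B.valuation (c - 1) < 1): x' := x / algebraMap c is OU with norm 1 (Algebra.norm_algebraMap, finrank = q), h90_units: x' = y / σ y, y OU. So the image of P in A0, of finite index, lies in (image of H) * range D, H = {u : Mˣ | B.valuation (u - 1) < 1}; the image of H in A0 is finite: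
if u, v in H are in the same class modulo (Mˣ)^q, u / v = c^q, by root_norm c ≡ 1, so the same class in A0; finitely many classes by hfin. So range D has finite index in A0; fin_of_unip (row QB): A0 is finite. The set of the classes of M'ˣ in question is the image of A0.
-/

set_option autoImplicit false

noncomputable section

namespace Pool.LibHB92

universe u

open Pool.LibNP88

private theorem QD2_core {G G' A : Type u} [CommGroup G] [CommGroup G'] [CommGroup A] {q : ℕ}
    (hq : q.Prime) (s : G' →* G') (hsq : ∀ x, s^[q] x = x) (ι : G →* G') (N : G' →* G)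
    (hN : ∀ c, N (ι c) = c ^ q) (h90 : ∀ b : G', N b = 1 → ∃ y, b * s y = y)
    (hfin : Finite (G ⧸ (powMonoidHom q : G →* G).range))
    (π : G' →* A) (hπ : Function.Surjective π) (hk : ∀ x, π x = 1 ↔ ∃ y, y ^ q = x) :
    Finite A := by
  classical
  have hs : π.ker ≤ (π.comp s).ker := by
    intro x hx
    rw [MonoidHom.mem_ker] at hx ⊢
    obtain ⟨y, rfl⟩ := (hk x).1 hx
    rw [MonoidHom.comp_apply, map_pow]
    exact (hk _).2 ⟨s y, rfl⟩
  let sA : A →* A := π.liftOfSurjective hπ ⟨π.comp s, hs⟩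
  have hsA : ∀ x : G', sA (π x) = π (s x) := fun x =>
    MonoidHom.liftOfRightInverse_comp_apply π _ _ ⟨π.comp s, hs⟩ x
  have hA : ∀ a : A, a ^ q = 1 := by
    intro a
    obtain ⟨x, rfl⟩ := hπ a
    rw [← map_pow]
    exact (hk _).2 ⟨x, rfl⟩
  have hitA : ∀ (n : ℕ) (x : G'), sA^[n] (π x) = π (s^[n] x) := by
    intro n
    induction n with
    | zero => intro x; rfl
    | succ n ih =>
      intro x
      rw [Function.iterate_succ_apply', ih, Function.iterate_succ_apply', hsA]
  have hσA : ∀ a, sA^[q] a = a := by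
    intro a
    obtain ⟨x, rfl⟩ := hπ a
    rw [hitA, hsq]
  let D : A →* A := sA / MonoidHom.id A
  have hD : ∀ a, D a = sA a / a := fun a => rfl
  refine fin_of_unip hq hA sA hσA D hD ?_
  let PK : Subgroup G := (powMonoidHom q : G →* G).range
  let C : Subgroup A := (π.comp ι).range
  have hC : Finite C := by
    have hk' : PK ≤ (π.comp ι).ker := by
      rintro x ⟨y, rfl⟩
      rw [MonoidHom.mem_ker, MonoidHom.comp_apply]
      have : ι (powMonoidHom q y) = (ι y) ^ q := by
        rw [powMonoidHom_apply, map_pow]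
      rw [this]
      exact (hk _).2 ⟨ι y, rfl⟩
    have : Finite (G ⧸ PK) := hfin
    let f : (G ⧸ PK) → C := fun a => ⟨QuotientGroup.lift PK (π.comp ι) hk' a, by
      obtain ⟨x, rfl⟩ := QuotientGroup.mk_surjective a
      exact ⟨x, rfl⟩⟩
    apply Finite.of_surjective f
    rintro ⟨y, x, rfl⟩
    exact ⟨QuotientGroup.mk x, rfl⟩
  have hPK : PK.index ≠ 0 := by
    have : Finite (G ⧸ PK) := hfin
    exact Subgroup.index_ne_zero_of_finite
  have hB : (PK.comap N).index ≠ 0 := by
    rw [Subgroup.index_comap]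
    intro h0
    exact hPK (Nat.eq_zero_of_zero_dvd (h0 ▸ Subgroup.relIndex_dvd_index_of_normal PK N.range))
  have hle : PK.comap N ≤ (C ⊔ D.range).comap π := by
    intro x hx
    rw [Subgroup.mem_comap] at hx ⊢
    obtain ⟨c, hc⟩ := hx
    have h1 : N (x / ι c) = 1 := by
      rw [map_div, hN, ← hc, powMonoidHom_apply, div_self']
    obtain ⟨y, h2⟩ := h90 _ h1
    have h3 : π x = π (ι c) * D ((π y)⁻¹) := by
      have h4 : x = ι c * ((s y)⁻¹ * y) := by
        have h5 : y * (s y)⁻¹ = x / ι c := by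
          rw [mul_inv_eq_iff_eq_mul]
          exact h2.symm
        rw [mul_comm (s y)⁻¹, h5, mul_div_cancel]
      rw [hD, map_inv, hsA, div_inv_eq_mul]
      conv_lhs => rw [h4, map_mul, map_mul, map_inv]
    rw [h3]
    exact Subgroup.mul_mem_sup ⟨c, rfl⟩ ⟨_, rfl⟩
  have hsup : (C ⊔ D.range).index ≠ 0 := by
    rw [← Subgroup.index_comap_of_surjective (C ⊔ D.range) hπ]
    intro h0
    exact hB (Nat.eq_zero_of_zero_dvd (h0 ▸ Subgroup.index_dvd_of_le hle))
  have hrel : D.range.relIndex (C ⊔ D.range) ≠ 0 := by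
    rw [Subgroup.relIndex_sup_right]
    exact Subgroup.index_ne_zero_of_finite
  rw [← Subgroup.relIndex_mul_index (le_sup_right : D.range ≤ C ⊔ D.range)]
  exact Nat.mul_ne_zero hrel hsup

/-- finitely many classes of one-units go up in cyclic extensions of degree q -/
theorem cyc_step' {M M' : Type u} [Field M] [Field M'] [Algebra M M'] [FiniteDimensional M M']
    [IsGalois M M'] {q : ℕ} (hq : q.Prime) (hd : Module.finrank M M' = q)
    (B : ValuationSubring M) (hqv : B.valuation (q : M) = 1) (z : M) (hz : IsPrimitiveRoot z q)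
    (hfin : {c : Mˣ ⧸ (powMonoidHom q : Mˣ →* Mˣ).range |
        ∃ u : Mˣ, (QuotientGroup.mk u : Mˣ ⧸ (powMonoidHom q : Mˣ →* Mˣ).range) = c ∧
          B.valuation ((u : M) - 1) < 1}.Finite) :
    {c : M'ˣ ⧸ (powMonoidHom q : M'ˣ →* M'ˣ).range |
        ∃ u : M'ˣ, (QuotientGroup.mk u : M'ˣ ⧸ (powMonoidHom q : M'ˣ →* M'ˣ).range) = c ∧
          ∀ A : ValuationSubring M', A.comap (algebraMap M M') = B →
            A.valuation ((u : M') - 1) < 1}.Finite := by
  classical
  have hcard : Nat.card (M' ≃ₐ[M] M') = q := by rw [IsGalois.card_aut_eq_finrank, hd]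
  have : Fact q.Prime := ⟨hq⟩
  have hcyc : IsCyclic (M' ≃ₐ[M] M') := isCyclic_of_prime_card hcard
  obtain ⟨σ, hσ⟩ := hcyc.exists_generator
  have hσq : σ ^ q = 1 := by
    rw [← hcard]
    exact pow_card_eq_one'
  -- the groups of one-units
  let H' : Subgroup M'ˣ := {
    carrier := {u | OU B (u : M')}
    one_mem' := ou_one
    mul_mem' := fun {a b} ha hb => by
      show OU B (((a * b : M'ˣ)) : M')
      rw [Units.val_mul]
      exact ou_mul ha hb
    inv_mem' := fun {a} ha => by
      show OU B (((a⁻¹ : M'ˣ)) : M')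
      rw [Units.val_inv_eq_inv_val]
      exact ou_inv ha }
  let j : Mˣ →* M'ˣ := Units.map (algebraMap M M' : M →* M')
  let H : Subgroup Mˣ := H'.comap j
  have hH : ∀ u : Mˣ, u ∈ H ↔ B.valuation ((u : M) - 1) < 1 := fun u => ou_base
  let s : H' →* H' := {
    toFun := fun u => ⟨Units.map (σ : M' →* M') u, ou_sig σ u.2⟩
    map_one' := by
      apply Subtype.ext
      exact map_one _
    map_mul' := fun a b => by
      apply Subtype.ext
      exact map_mul _ _ _ }
  have hsit : ∀ (n : ℕ) (x : H'), (((s^[n] x : H') : M'ˣ) : M') = (σ ^ n) ((x : M'ˣ) : M') := by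
    intro n
    induction n with
    | zero => intro x; simp
    | succ n ih =>
      intro x
      rw [Function.iterate_succ_apply', pow_succ']
      show σ (((s^[n] x : H') : M'ˣ) : M') = σ ((σ ^ n) ((x : M'ˣ) : M'))
      rw [ih]
  have hsq : ∀ x, s^[q] x = x := by
    intro x
    apply Subtype.ext
    apply Units.ext
    rw [hsit, hσq]
    rfl
  let ι : H →* H' := {
    toFun := fun u => ⟨j u, u.2⟩
    map_one' := by
      apply Subtype.ext
      exact map_one _
    map_mul' := fun a b => by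
      apply Subtype.ext
      exact map_mul _ _ _ }
  let N : H' →* H := {
    toFun := fun u => ⟨Units.map (Algebra.norm M : M' →* M) u, (hH _).2 (ou_norm u.2)⟩
    map_one' := by
      apply Subtype.ext
      exact map_one _
    map_mul' := fun a b => by
      apply Subtype.ext
      exact map_mul _ _ _ }
  have hN : ∀ c, N (ι c) = c ^ q := by
    intro c
    apply Subtype.ext
    apply Units.ext
    show Algebra.norm M (algebraMap M M' ((c : Mˣ) : M)) = (((c ^ q : H) : Mˣ) : M)
    rw [Algebra.norm_algebraMap, hd]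
    push_cast
    rfl
  have h90 : ∀ b : H', N b = 1 → ∃ y, b * s y = y := by
    intro b hb
    have hb' : Algebra.norm M ((b : M'ˣ) : M') = 1 :=
      congrArg (fun u : H => ((u : Mˣ) : M)) hb
    obtain ⟨y, hy, hy2⟩ := h90_units hq hd hqv σ hσ b.2 hb'
    refine ⟨⟨Units.mk0 y (ou_ne hy), hy⟩, ?_⟩
    apply Subtype.ext
    apply Units.ext
    exact hy2
  have hfinH : Finite (H ⧸ (powMonoidHom q : H →* H).range) := by
    let P : Subgroup Mˣ := (powMonoidHom q : Mˣ →* Mˣ).range
    have hk : (powMonoidHom q : H →* H).range ≤ ((QuotientGroup.mk' P).comp H.subtype).ker := by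
      rintro x ⟨y, rfl⟩
      rw [MonoidHom.mem_ker, MonoidHom.comp_apply]
      exact (QuotientGroup.eq_one_iff _).2 ⟨(y : Mˣ), rfl⟩
    have hf := hfin.to_subtype
    let f : (H ⧸ (powMonoidHom q : H →* H).range) → {c : Mˣ ⧸ (powMonoidHom q : Mˣ →* Mˣ).range |
        ∃ u : Mˣ, (QuotientGroup.mk u : Mˣ ⧸ (powMonoidHom q : Mˣ →* Mˣ).range) = c ∧
          B.valuation ((u : M) - 1) < 1} := fun a =>
      ⟨QuotientGroup.lift _ ((QuotientGroup.mk' P).comp H.subtype) hk a, by
        obtain ⟨x, rfl⟩ := QuotientGroup.mk_surjective a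
        exact ⟨(x : Mˣ), rfl, (hH _).1 x.2⟩⟩
    apply Finite.of_injective f
    intro a b hab
    obtain ⟨x, rfl⟩ := QuotientGroup.mk_surjective a
    obtain ⟨y, rfl⟩ := QuotientGroup.mk_surjective b
    have h1 : (QuotientGroup.mk (x : Mˣ) : Mˣ ⧸ P) = QuotientGroup.mk (y : Mˣ) :=
      congrArg Subtype.val hab
    rw [QuotientGroup.eq] at h1 ⊢
    obtain ⟨c, hc⟩ := h1
    rw [powMonoidHom_apply] at hc
    have h2 : ((x⁻¹ * y : H) : Mˣ) = c ^ q := by
      rw [hc]
      rfl
    have h3 : B.valuation ((c : M) ^ q - 1) < 1 := by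
      have h4 := (hH _).1 (x⁻¹ * y : H).2
      rw [h2] at h4
      push_cast at h4
      exact h4
    obtain ⟨c', hc1, hc2⟩ := root_norm B hq z hz (c : M) h3
    have hc0 : c' ≠ 0 := by
      intro h0
      rw [h0, zero_pow hq.ne_zero] at hc2
      exact pow_ne_zero q c.ne_zero hc2.symm
    refine ⟨⟨Units.mk0 c' hc0, (hH _).2 hc1⟩, ?_⟩
    apply Subtype.ext
    rw [h2]
    apply Units.ext
    rw [powMonoidHom_apply]
    push_cast
    exact hc2
  have hA0 : Finite (H' ⧸ (powMonoidHom q : H' →* H').range) := by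
    refine QD2_core hq s hsq ι N hN h90 hfinH
      (QuotientGroup.mk' (powMonoidHom q : H' →* H').range) (QuotientGroup.mk'_surjective _)
      fun x => ?_
    exact (QuotientGroup.eq_one_iff x).trans ⟨fun ⟨y, hy⟩ => ⟨y, hy⟩, fun ⟨y, hy⟩ => ⟨y, hy⟩⟩
  let P' : Subgroup M'ˣ := (powMonoidHom q : M'ˣ →* M'ˣ).range
  have hk' : (powMonoidHom q : H' →* H').range ≤
      ((QuotientGroup.mk' P').comp H'.subtype).ker := by
    rintro x ⟨y, rfl⟩
    rw [MonoidHom.mem_ker, MonoidHom.comp_apply]
    exact (QuotientGroup.eq_one_iff _).2 ⟨(y : M'ˣ), rfl⟩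
  apply (Set.finite_range (QuotientGroup.lift (powMonoidHom q : H' →* H').range
    ((QuotientGroup.mk' P').comp H'.subtype) hk')).subset
  rintro c ⟨u, rfl, hu⟩
  exact ⟨QuotientGroup.mk (⟨u, hu⟩ : H'), rfl⟩

end Pool.LibHB92
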