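import Pool.Agent.LibHB92.QD2

/-
PLAN (QE, MEDIUM). Induction on n. n = 0: finrank = 1, algebraMap K L is bijective; exactly one A (the image of O), and the set of classes for L is the image of the one for K (transport along the isomorphism Kˣ ≃* Lˣ; if simpler: it is contained in the image of the finite set under QuotientGroup.map). n + 1: G = Gal(L/K) is a q-group with q^(n+1) elements
(IsGalois.card_aut_eq_finrank), its centre is nontrivial (IsPGroup.center_nontrivial), so there is a central element of order q (Cauchy: exists_prime_orderOf_dvd_card' in the centre, or take a power), N := zpowers of it is normal with q elements. M := IntermediateField.fixedField N: finrank M L = q (IntermediateField.finrank_fixedField_eq_card), finrank K M = q^n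
(Module.finrank_mul_finrank), M/K Galois (IsGalois.of_fixedField_normal_subgroup), L/M Galois. Induction hypothesis for M: finitely many classes and a unique extension B of O to M. Then A over B iff A over O for valuation rings A of L (A.comap to M lies over O, uniqueness: it is B; ValuationSubring.comap_comap, IsScalarTower). B.valuation q = 1 by LibNP88.val_one.
cyc_step' for L/M (z in M) gives the finiteness for L, hloc the uniqueness (a primitive root in L: algebraMap z, IsPrimitiveRoot.map_of_injective).
-/

set_option autoImplicit false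

noncomputable section

namespace Pool.LibHB92

universe u

open Pool.LibNP88

/-- from the local form to all Galois extensions of q-power degree -/
theorem q_tower' {K : Type u} [Field K] (O : ValuationSubring K) {q : ℕ} (hq : q.Prime)
    (hqv : O.valuation (q : K) = 1) (z : K) (hz : IsPrimitiveRoot z q)
    (hfin : {c : Kˣ ⧸ (powMonoidHom q : Kˣ →* Kˣ).range |
        ∃ u : Kˣ, (QuotientGroup.mk u : Kˣ ⧸ (powMonoidHom q : Kˣ →* Kˣ).range) = c ∧
          O.valuation ((u : K) - 1) < 1}.Finite)
    (hloc : ∀ (L : Type u) [Field L] [Algebra K L] [FiniteDimensional K L],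
      (∃ z : L, IsPrimitiveRoot z q) → {c : Lˣ ⧸ (powMonoidHom q : Lˣ →* Lˣ).range |
        ∃ u : Lˣ, (QuotientGroup.mk u : Lˣ ⧸ (powMonoidHom q : Lˣ →* Lˣ).range) = c ∧
          ∀ A : ValuationSubring L, A.comap (algebraMap K L) = O →
            A.valuation ((u : L) - 1) < 1}.Finite →
      ∃! A : ValuationSubring L, A.comap (algebraMap K L) = O) (n : ℕ) :
    ∀ (L : Type u) [Field L] [Algebra K L] [FiniteDimensional K L] [IsGalois K L],
      Module.finrank K L = q ^ n → {c : Lˣ ⧸ (powMonoidHom q : Lˣ →* Lˣ).range |
        ∃ u : Lˣ, (QuotientGroup.mk u : Lˣ ⧸ (powMonoidHom q : Lˣ →* Lˣ).range) = c ∧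
          ∀ A : ValuationSubring L, A.comap (algebraMap K L) = O →
            A.valuation ((u : L) - 1) < 1}.Finite ∧
      ∃! A : ValuationSubring L, A.comap (algebraMap K L) = O := by
  haveI : Fact q.Prime := ⟨hq⟩
  induction n with
  | zero =>
    intro L _ _ _ _ hd
    rw [pow_zero] at hd
    have hb := Module.Free.bijective_algebraMap_of_finrank_eq_one hd
    have hu : ∀ y : Lˣ, ∃ x : Kˣ, Units.map (algebraMap K L : K →* L) x = y := by
      intro y
      obtain ⟨x, hx⟩ := hb.2 (y : L)
      have hx0 : x ≠ 0 := by
        rintro rfl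
        rw [map_zero] at hx
        exact y.ne_zero hx.symm
      refine ⟨Units.mk0 x hx0, ?_⟩
      ext
      simpa using hx
    have hle : (powMonoidHom q : Kˣ →* Kˣ).range ≤
        ((powMonoidHom q : Lˣ →* Lˣ).range).comap (Units.map (algebraMap K L : K →* L)) := by
      rintro _ ⟨x, rfl⟩
      refine ⟨Units.map (algebraMap K L : K →* L) x, ?_⟩
      simp
    constructor
    · refine (hfin.image (QuotientGroup.map (powMonoidHom q : Kˣ →* Kˣ).range
        (powMonoidHom q : Lˣ →* Lˣ).range (Units.map (algebraMap K L : K →* L)) hle)).subset ?_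
      rintro c ⟨u, rfl, hA⟩
      obtain ⟨x, rfl⟩ := hu u
      refine ⟨QuotientGroup.mk x, ⟨x, rfl, ?_⟩, rfl⟩
      obtain ⟨A, hAO⟩ := ext_exists O L
      have h1 := hA A hAO
      have h2 : ((Units.map (algebraMap K L : K →* L) x : Lˣ) : L) - 1 =
          algebraMap K L ((x : K) - 1) := by
        rw [map_sub, map_one]
        rfl
      rw [h2] at h1
      exact (val_lt O A hAO _).1 h1
    · obtain ⟨A, hAO⟩ := ext_exists O L
      refine ⟨A, hAO, ?_⟩
      intro A' hA'
      have hA'2 : A'.comap (algebraMap K L) = O := hA'
      ext y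
      obtain ⟨x, rfl⟩ := hb.2 y
      rw [← ValuationSubring.mem_comap, ← ValuationSubring.mem_comap, hA'2, hAO]
  | succ n ih =>
    intro L _ _ _ _ hd
    have hcard : Nat.card (L ≃ₐ[K] L) = q ^ (n + 1) := by
      rw [IsGalois.card_aut_eq_finrank, hd]
    have hp : IsPGroup q (L ≃ₐ[K] L) := IsPGroup.of_card hcard
    haveI : Nontrivial (L ≃ₐ[K] L) := by
      rw [← Finite.one_lt_card_iff_nontrivial, hcard]
      exact Nat.one_lt_pow (Nat.succ_ne_zero n) hq.one_lt
    have hc := hp.center_nontrivial
    have hcp : IsPGroup q (Subgroup.center (L ≃ₐ[K] L)) := hp.to_subgroup _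
    obtain ⟨k, hk, hkc⟩ := hcp.nontrivial_iff_card.1 hc
    have hdvd : q ∣ Nat.card (Subgroup.center (L ≃ₐ[K] L)) := by
      rw [hkc]
      exact dvd_pow_self q hk.ne'
    obtain ⟨g, hg⟩ := exists_prime_orderOf_dvd_card' q hdvd
    obtain ⟨H, hH⟩ : ∃ H, H = Subgroup.zpowers (g : L ≃ₐ[K] L) := ⟨_, rfl⟩
    have hHcard : Nat.card H = q := by
      rw [hH, Nat.card_zpowers, Subgroup.orderOf_coe, hg]
    have hHle : H ≤ Subgroup.center (L ≃ₐ[K] L) := by
      rw [hH, Subgroup.zpowers_le]
      exact g.2
    haveI hN : H.Normal := ⟨fun x hx y => by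
      have h1 := Subgroup.mem_center_iff.1 (hHle hx) y
      rw [h1, mul_inv_cancel_right]
      exact hx⟩
    have h2 : Module.finrank (IntermediateField.fixedField H) L = q := by
      rw [IntermediateField.finrank_fixedField_eq_card, hHcard]
    have h3 : Module.finrank K (IntermediateField.fixedField H) = q ^ n := by
      have h4 := Module.finrank_mul_finrank K (IntermediateField.fixedField H) L
      rw [h2, hd, pow_succ] at h4
      exact Nat.eq_of_mul_eq_mul_right hq.pos h4
    obtain ⟨hfM, B, hB, hBu⟩ := ih (IntermediateField.fixedField H) h3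
    have hB' : B.comap (algebraMap K (IntermediateField.fixedField H)) = O := hB
    have hover : ∀ A : ValuationSubring L,
        A.comap (algebraMap K L) = O ↔ A.comap (algebraMap (IntermediateField.fixedField H) L) = B := by
      intro A
      have h5 : (A.comap (algebraMap (IntermediateField.fixedField H) L)).comap
          (algebraMap K (IntermediateField.fixedField H)) = A.comap (algebraMap K L) := by
        rw [ValuationSubring.comap_comap, ← IsScalarTower.algebraMap_eq]
      constructor
      · intro h6
        exact hBu _ (h5.trans h6)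
      · intro h6
        rw [← h5, h6, hB']
    have hfM' : {c : (IntermediateField.fixedField H)ˣ ⧸ (powMonoidHom q :
        (IntermediateField.fixedField H)ˣ →* (IntermediateField.fixedField H)ˣ).range |
        ∃ u : (IntermediateField.fixedField H)ˣ, (QuotientGroup.mk u :
          (IntermediateField.fixedField H)ˣ ⧸ (powMonoidHom q :
            (IntermediateField.fixedField H)ˣ →* (IntermediateField.fixedField H)ˣ).range) = c ∧
          B.valuation ((u : IntermediateField.fixedField H) - 1) < 1}.Finite := by
      refine hfM.subset ?_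
      rintro c ⟨u, hu, hv⟩
      refine ⟨u, hu, fun A hA => ?_⟩
      rw [hBu A hA]
      exact hv
    have hqv' : B.valuation (q : IntermediateField.fixedField H) = 1 := by
      have h5 := (val_one O B hB' (q : K)).2 hqv
      rwa [map_natCast] at h5
    have hz' : IsPrimitiveRoot (algebraMap K (IntermediateField.fixedField H) z) q :=
      hz.map_of_injective (algebraMap K (IntermediateField.fixedField H)).injective
    have hfL := cyc_step' hq h2 B hqv' _ hz' hfM'
    have hfL' : {c : Lˣ ⧸ (powMonoidHom q : Lˣ →* Lˣ).range |
        ∃ u : Lˣ, (QuotientGroup.mk u : Lˣ ⧸ (powMonoidHom q : Lˣ →* Lˣ).range) = c ∧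
          ∀ A : ValuationSubring L, A.comap (algebraMap K L) = O →
            A.valuation ((u : L) - 1) < 1}.Finite := by
      refine hfL.subset ?_
      rintro c ⟨u, hu, hv⟩
      exact ⟨u, hu, fun A hA => hv A ((hover A).2 hA)⟩
    exact ⟨hfL', hloc L ⟨algebraMap K L z, hz.map_of_injective (algebraMap K L).injective⟩ hfL'⟩

end Pool.LibHB92
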