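import Pool.Agent.LibHB92.VA

/-
PLAN (VD, SHORT/MEDIUM). root_one: if ξ ≠ 1 then 0 = ∑_{k < q} ξ^k (geom_sum: (ξ - 1) * ∑ = ξ^q - 1 = 0); ∑ ξ^k - q = ∑ (ξ^k - 1) has valuation < 1 (each ξ^k - 1 = (ξ - 1) * ∑.., valuation ξ = 1), so valuation q < 1: contradiction. ph_pow_ne: if ph V q (z^q) = 1 = mk 1 then by ph_eq_iff z^q = 1 * w^q with J1 w, w ≠ 0; ξ := z / w, ξ^q = 1,
valuation (ξ - 1) < 1 at j (z and w are both congruent to 1 at j), so ξ = 1, z = w, valuation (z - 1) < 1 at i0: contradiction.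
-/

set_option autoImplicit false

noncomputable section

namespace Pool.LibHB92

universe u

open Pool.LibNP88

theorem root_one {L : Type u} [Field L] (A : ValuationSubring L) {q : ℕ}
    (hq1 : A.valuation (q : L) = 1) {ξ : L} (h1 : ξ ^ q = 1) (h2 : A.valuation (ξ - 1) < 1) :
    ξ = 1 := by
  by_contra hne
  have hv : A.valuation ξ = 1 := val_of_J A h2
  have hgeom : ∀ k : ℕ, (∑ i ∈ Finset.range k, ξ ^ i) * (ξ - 1) = ξ ^ k - 1 := fun k =>
    geom_sum_mul ξ k
  have hsum : ∑ i ∈ Finset.range q, ξ ^ i = 0 := by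
    have h3 := hgeom q
    rw [h1, sub_self] at h3
    exact (mul_eq_zero.1 h3).resolve_right (sub_ne_zero.2 hne)
  have hle : ∀ k : ℕ, A.valuation (∑ i ∈ Finset.range k, ξ ^ i) ≤ 1 := by
    intro k
    refine Valuation.map_sum_le _ fun i _ => ?_
    rw [map_pow, hv, one_pow]
  have hlt : ∀ k : ℕ, A.valuation (ξ ^ k - 1) < 1 := by
    intro k
    rw [← hgeom k, map_mul]
    exact lt_of_le_of_lt (mul_le_of_le_one_left' (hle k)) h2
  have hlast : A.valuation (∑ k ∈ Finset.range q, (ξ ^ k - 1)) < 1 :=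
    Valuation.map_sum_lt _ one_ne_zero fun i _ => hlt i
  rw [Finset.sum_sub_distrib, hsum, Finset.sum_const, Finset.card_range, nsmul_eq_mul, mul_one,
    zero_sub, Valuation.map_neg, hq1] at hlast
  exact lt_irrefl _ hlast

theorem ph_pow_ne {L : Type u} [Field L] {s : ℕ} {V : Fin s → ValuationSubring L} {q : ℕ}
    (hs : 0 < s) (i0 j : Fin s) (hq1 : (V j).valuation (q : L) = 1) {z : L} (hz : J1 V (z ^ q))
    (hj : (V j).valuation (z - 1) < 1) (hi : ¬ (V i0).valuation (z - 1) < 1) :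
    ph V q (z ^ q) ≠ 1 := by
  intro h
  have h1 : ph V q (z ^ q) = QuotientGroup.mk (1 : Hs V) := h
  obtain ⟨w, hw, hzw⟩ := (ph_eq_iff hs hz 1).1 h1
  rw [OneMemClass.coe_one, Units.val_one, one_mul] at hzw
  have hw0 : w ≠ 0 := J1.ne_zero hs hw
  have hvw : (V j).valuation w = 1 := val_of_J _ (hw j)
  have hξ : z / w = 1 := by
    refine root_one (V j) hq1 ?_ ?_
    · rw [div_pow, hzw, div_self (pow_ne_zero q hw0)]
    · have e : z / w - 1 = ((z - 1) - (w - 1)) / w := by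
        field_simp
        ring
      rw [e, map_div₀, hvw, div_one]
      exact lt_of_le_of_lt (Valuation.map_sub _ _ _) (max_lt hj (hw j))
  have hzw' : z = w := by
    rwa [div_eq_one_iff_eq hw0] at hξ
  apply hi
  rw [hzw']
  exact hw i0

end Pool.LibHB92
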