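import Pool.Agent.LibHB92.QD1
import Pool.Agent.LibHB92.VD

/-
Unique extensions to the cyclic extensions of degree q: the one-units are q-th powers (helper92).
-/

set_option autoImplicit false

noncomputable section

open Polynomial

namespace Pool.LibHB92

universe u

open Pool.LibNP88

theorem one_units_pow {K : Type u} [Field K] (O : ValuationSubring K) {q : ℕ} (hq : q.Prime)
    (hqv : O.valuation (q : K) = 1) (z : K) (hz : IsPrimitiveRoot z q)
    (huniq : ∀ (L : Type u) [Field L] [Algebra K L] [FiniteDimensional K L] [IsGalois K L],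
      Module.finrank K L = q → ∃! A : ValuationSubring L, A.comap (algebraMap K L) = O) (u : K)
    (hu : O.valuation (u - 1) < 1) : ∃ w : K, O.valuation (w - 1) < 1 ∧ w ^ q = u := by
  by_contra hcon
  have h1 : ∀ b : K, b ^ q ≠ u := by
    intro b hb
    obtain ⟨c, hc1, hc2⟩ := root_norm O hq z hz b (by rw [hb]; exact hu)
    exact hcon ⟨c, hc1, hc2.trans hb⟩
  have H := X_pow_sub_C_irreducible_of_prime hq h1
  have hζ : (primitiveRoots q K).Nonempty := ⟨z, (mem_primitiveRoots hq.pos).2 hz⟩
  have hne : NeZero q := ⟨hq.ne_zero⟩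
  let L := (X ^ q - C u).SplittingField
  have hf : FiniteDimensional K L := Polynomial.IsSplittingField.finiteDimensional L (X ^ q - C u)
  have hg : IsGalois K L := isGalois_of_isSplittingField_X_pow_sub_C hζ H L
  have hd : Module.finrank K L = q := finrank_of_isSplittingField_X_pow_sub_C hζ H L
  obtain ⟨A, hA, huni⟩ := huniq L hd
  have hα : (rootOfSplitsXPowSubC hq.pos u L) ^ q = algebraMap K L u := rootOfSplitsXPowSubC_pow u L
  have hz' : IsPrimitiveRoot (algebraMap K L z) q := hz.map_of_injective (algebraMap K L).injective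
  obtain ⟨c, hc1, hc2⟩ := root_norm A hq _ hz' (rootOfSplitsXPowSubC hq.pos u L) (by
    rw [hα, ← map_one (algebraMap K L), ← map_sub]
    exact (val_lt O A hA _).2 hu)
  rw [hα] at hc2
  have hOU : OU O c := fun A' hA' => by
    rw [huni A' hA']
    exact hc1
  have h2 := autEquivZmod_symm_apply_natCast H L hc2 hz 1
  rw [pow_one, Algebra.smul_def] at h2
  have h3 := ou_sig ((autEquivZmod H L hz).symm (Multiplicative.ofAdd ((1 : ℕ) : ZMod q))) hOU A hA
  rw [h2] at h3
  have h4 : A.valuation (algebraMap K L z - 1) < 1 := by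
    have e : algebraMap K L z - 1 = (algebraMap K L z * c - 1) - algebraMap K L z * (c - 1) := by
      ring
    rw [e]
    refine Valuation.map_sub_lt _ h3 ?_
    have h5 : A.valuation (algebraMap K L z) = 1 := by
      have h6 : A.valuation (algebraMap K L z) ^ q = 1 := by
        rw [← map_pow, hz'.pow_eq_one, map_one]
      exact (pow_eq_one_iff_of_nonneg zero_le hq.ne_zero).1 h6
    rw [map_mul, h5, one_mul]
    exact hc1
  have h5 : A.valuation ((q : ℕ) : L) = 1 := by
    rw [← map_natCast (algebraMap K L) q]
    exact (val_one O A hA _).2 hqv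
  have h6 := root_one A h5 hz'.pow_eq_one h4
  have h7 := hz'.eq_orderOf
  rw [h6, orderOf_one] at h7
  exact hq.one_lt.ne' h7

end Pool.LibHB92
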