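import Mathlib

/-
PLAN (RA, MEDIUM). Finite Ramsey theorem for ordered pairs i < j. c = 0: n := 1 (no colouring exists). Usual proof: by induction on L there is n such that every colouring of pairs of Fin n has a strictly monotone sequence h : Fin L → Fin n that is end-homogeneous: col (h i) (h j) depends only on i for i < j (keep a finite set of candidates:
take its least element, colour the others by the colour of the pair, keep the largest class: sizes divided by c). Equivalent statement for a finset A of ℕ (or Fin n) with card ≥ (c+1)^L .. Then L = c (m - 1) + 1 and pigeonhole on the colour attached to i: m indices with the same colour (Finset.exists_lt_card_fiber_of_mul_lt_card..), orderEmbOfFin.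
(Last element of the end-homogeneous sequence has no colour: give it an arbitrary one, c ≥ 1.)
-/

set_option autoImplicit false

namespace Pool.LibHB92

private theorem RA_E (c : ℕ) (hc : 1 ≤ c) (L : ℕ) : ∃ N : ℕ, ∀ (n : ℕ)
    (col : Fin n → Fin n → Fin c) (A : Finset (Fin n)), N ≤ A.card →
    ∃ (h : Fin L → Fin n) (a : Fin L → Fin c), StrictMono h ∧ (∀ i, h i ∈ A) ∧
      ∀ i j, i < j → col (h i) (h j) = a i := by
  classical
  induction L with
  | zero =>
    exact ⟨0, fun n col A _ => ⟨fun i => i.elim0, fun i => i.elim0, fun i => i.elim0,
      fun i => i.elim0, fun i => i.elim0⟩⟩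
  | succ L ih =>
    obtain ⟨N, hN⟩ := ih
    refine ⟨c * N + 1, fun n col A hA => ?_⟩
    have hne : A.Nonempty := Finset.card_pos.1 (by omega)
    have hmem := A.min'_mem hne
    have hcard : (A.erase (A.min' hne)).card = A.card - 1 := Finset.card_erase_of_mem hmem
    obtain ⟨a0, -, ha0⟩ := Finset.exists_le_card_fiber_of_mul_le_card_of_maps_to
      (s := A.erase (A.min' hne)) (t := (Finset.univ : Finset (Fin c))) (n := N)
      (f := fun y => col (A.min' hne) y) (fun _ _ => Finset.mem_univ _)
      ⟨⟨0, hc⟩, Finset.mem_univ _⟩ (by
        rw [hcard, Finset.card_univ, Fintype.card_fin]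
        omega)
    obtain ⟨h, a, hmono, hA2, hcol⟩ := hN n col _ ha0
    have hA3 : ∀ i, h i ∈ A ∧ A.min' hne < h i ∧ col (A.min' hne) (h i) = a0 := by
      intro i
      have h1 := hA2 i
      rw [Finset.mem_filter, Finset.mem_erase] at h1
      exact ⟨h1.1.2, lt_of_le_of_ne (A.min'_le _ h1.1.2) (Ne.symm h1.1.1), h1.2⟩
    refine ⟨Fin.cons (A.min' hne) h, Fin.cons a0 a, ?_, ?_, ?_⟩
    · intro i j hij
      induction i using Fin.cases with
      | zero =>
        induction j using Fin.cases with
        | zero => exact absurd hij (lt_irrefl _)
        | succ j =>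
          rw [Fin.cons_zero, Fin.cons_succ]
          exact (hA3 j).2.1
      | succ i =>
        induction j using Fin.cases with
        | zero => exact absurd hij (by simp)
        | succ j =>
          rw [Fin.cons_succ, Fin.cons_succ]
          exact hmono (Fin.succ_lt_succ_iff.1 hij)
    · intro i
      induction i using Fin.cases with
      | zero =>
        rw [Fin.cons_zero]
        exact hmem
      | succ i =>
        rw [Fin.cons_succ]
        exact (hA3 i).1
    · intro i j hij
      induction i using Fin.cases with
      | zero =>
        induction j using Fin.cases with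
        | zero => exact absurd hij (lt_irrefl _)
        | succ j =>
          rw [Fin.cons_zero, Fin.cons_succ, Fin.cons_zero]
          exact (hA3 j).2.2
      | succ i =>
        induction j using Fin.cases with
        | zero => exact absurd hij (by simp)
        | succ j =>
          rw [Fin.cons_succ, Fin.cons_succ, Fin.cons_succ]
          exact hcol i j (Fin.succ_lt_succ_iff.1 hij)

/-- the finite Ramsey theorem for pairs -/
theorem ramsey (c m : ℕ) : ∃ n : ℕ, ∀ col : Fin n → Fin n → Fin c,
    ∃ (h : Fin m → Fin n) (a : Fin c), StrictMono h ∧ ∀ i j, i < j → col (h i) (h j) = a := by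
  classical
  rcases Nat.eq_zero_or_pos c with hc | hc
  · subst hc
    exact ⟨1, fun col => (col 0 0).elim0⟩
  · obtain ⟨N, hN⟩ := RA_E c hc (c * m)
    refine ⟨N, fun col => ?_⟩
    obtain ⟨h, a, hmono, -, hcol⟩ := hN N col Finset.univ (by
      rw [Finset.card_univ, Fintype.card_fin])
    obtain ⟨b, -, hb⟩ := Finset.exists_le_card_fiber_of_mul_le_card_of_maps_to
      (s := (Finset.univ : Finset (Fin (c * m)))) (t := (Finset.univ : Finset (Fin c))) (n := m)
      (f := a) (fun _ _ => Finset.mem_univ _) ⟨⟨0, hc⟩, Finset.mem_univ _⟩ (by
        rw [Finset.card_univ, Fintype.card_fin, Finset.card_univ, Fintype.card_fin])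
    refine ⟨fun i => h (Finset.orderEmbOfCardLe _ hb i), b, ?_, ?_⟩
    · intro i j hij
      exact hmono ((Finset.orderEmbOfCardLe _ hb).strictMono hij)
    · intro i j hij
      rw [hcol _ _ ((Finset.orderEmbOfCardLe _ hb).strictMono hij)]
      exact (Finset.mem_filter.1 (Finset.orderEmbOfCardLe_mem _ hb i)).2

end Pool.LibHB92
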