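import Pool.Agent.LibHB92.Gid
import Pool.Agent.LibHB92.PK

/-
PLAN (S1, MEDIUM/STRONG). Show the probability is ≤ 8 ε for every ε > 0. B := the covering number (coverF N (card F) ε) for families with index type R × R, A (b1, b2) y := φ (1 - η (y + b1) b2) (hD.V1). n := B^B + 2 (any n > B^B), w : Fin n → Rˣ from hdif, r i j := r * w_j / (w_i - w_j) (w_i - w_j a unit for i ≠ j, 0 for i = j).
All functions A_(u, ρ) (y) := g z (u⁻¹ y + ρ) = φ (1 - η (y + u ρ) (z u)⁻¹), u in Rˣ, ρ in R, are in this family. (1) R1 := {0} ∪ {r i j}; coverF for I1 := the indices (ρ, z⁻¹), ρ in R1: R2 ⊆ R1 of card ≤ B such that every ρ in R1 has ρ' in R2 with pr (g z (y + ρ) ≠ g z (y + ρ')) ≤ ε. (2) for ρ' in R2 coverF for the n functions A_(w_i, ρ'):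
a map c_ρ' : Fin n → (a set of size ≤ B) with pr (A_(w_i, ρ') ≠ A_(c i, ρ')) ≤ ε. (3) pigeonhole for i ↦ (c_ρ' i)_ρ' (at most B^B values, n > B^B): i ≠ j with pr (A_(w_i, ρ') ≠ A_(w_j, ρ')) ≤ 2 ε for all ρ' in R2. (4) for ρ = 0 and ρ = r i j: pr (A_(w_i, ρ) ≠ A_(w_j, ρ)) ≤ 4 ε (two triangle inequalities, hM.sc for u⁻¹: pr (A_(u, ρ) ≠ A_(u, ρ')) = pr (g z (y + ρ) ≠ g z (y + ρ'))).
(5) w := w_i / w_j, ρ := r i j, (w - 1) ρ = r. Substituting y → w_j y (hM.sc): pr (g z (w⁻¹ y + ρ) ≠ g z (y + ρ)) ≤ 4 ε and pr (g z (w⁻¹ y) ≠ g z y) ≤ 4 ε; y → w y: pr (g z (y + ρ) ≠ g z (w y + ρ)) ≤ 4 ε, pr (g z y ≠ g z (w y)) ≤ 4 ε; the last one with y → y + ρ (hM.tr): pr (g z (y + ρ) ≠ g z (w y + w ρ)) ≤ 4 ε. Triangle: pr (g z (w y + w ρ) ≠ g z (w y + ρ)) ≤ 8 ε;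
y → w⁻¹ y: pr (g z (y + w ρ) ≠ g z (y + ρ)) ≤ 8 ε; y → y - ρ: pr (g z (y + r) ≠ g z y) ≤ 8 ε. (All functions y ↦ ind (..) are bounded: bd_ind.) Finally ε → 0, pr_nonneg.
-/

set_option autoImplicit false

noncomputable section

namespace Pool.LibHB92

universe u v w

private theorem s1_sc {R : Type u} [CommRing R] {M : Mean R} (hM : AffInv M) (w : Rˣ)
    (P : R → Prop) : M.pr (fun y => P (w * y)) = M.pr P :=
  hM.sc w (fun y => ind (P y)) (bd_ind P)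

private theorem s1_tr {R : Type u} [CommRing R] {M : Mean R} (hM : AffInv M) (r : R)
    (P : R → Prop) : M.pr (fun y => P (y + r)) = M.pr P :=
  hM.tr r (fun y => ind (P y)) (bd_ind P)

/-- the member of the family with index b -/
private def s1A {R : Type u} [CommRing R] {F : Type u} (η : R) (φ : R → F) (b : R × R) (y : R) : F :=
  φ (1 - η * (y + b.1) * b.2)

private theorem s1_A {R : Type u} [CommRing R] {F : Type u} (η : R) (φ : R → F) (z u : Rˣ) (ρ y : R) :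
    s1A η φ (u * ρ, (((z * u)⁻¹ : Rˣ) : R)) y = g η φ z (((u⁻¹ : Rˣ) : R) * y + ρ) := by
  unfold s1A g
  congr 1
  have hu : (u : R) * ((u⁻¹ : Rˣ) : R) = 1 := Units.mul_inv u
  rw [mul_inv, Units.val_mul]
  linear_combination (-(η * ρ * ((z⁻¹ : Rˣ) : R))) * hu

private theorem s1_A1 {R : Type u} [CommRing R] {F : Type u} (η : R) (φ : R → F) (z : Rˣ) (ρ y : R) :
    s1A η φ (ρ, ((z⁻¹ : Rˣ) : R)) y = g η φ z (y + ρ) := rfl

private theorem s1_core {R : Type u} [CommRing R] {F : Type u} [CommGroup F] [Fintype F] {η : R}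
    {φ : R → F} {N : ℕ} (hD : Dat η φ N) (hdif : Dif R) (M : Mean R) (hM : AffInv M) (z : Rˣ) (r : R)
    {ε : ℝ} (hε : 0 < ε) : ∃ (u v : Rˣ) (ρ : R), ((u : R) - v) * ρ = r * v ∧
      M.pr (fun y => g η φ z (((u⁻¹ : Rˣ) : R) * y + ρ) ≠ g η φ z (((v⁻¹ : Rˣ) : R) * y + ρ)) ≤ 4 * ε ∧
      M.pr (fun y => g η φ z (((u⁻¹ : Rˣ) : R) * y + 0) ≠ g η φ z (((v⁻¹ : Rˣ) : R) * y + 0)) ≤
        4 * ε := by
  classical
  obtain ⟨B, hB⟩ := coverF.{u, u, u} N (Fintype.card F) hε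
  have C := hB R M F le_rfl (R × R) (s1A η φ) hD.V1
  clear hB
  obtain ⟨n, hn⟩ : ∃ n, (B + 1) ^ B < n := ⟨_, Nat.lt_succ_self _⟩
  obtain ⟨w, hw⟩ := hdif n
  let q : Fin n → Fin n → R := fun i j =>
    if h : IsUnit ((w i : R) - (w j : R)) then r * w j * ((h.unit⁻¹ : Rˣ) : R) else 0
  have hq : ∀ i j, i ≠ j → ((w i : R) - (w j : R)) * q i j = r * w j := by
    intro i j hij
    have h := hw i j hij
    have h1 : q i j = r * w j * ((h.unit⁻¹ : Rˣ) : R) := dif_pos h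
    have h2 : ((w i : R) - (w j : R)) * ((h.unit⁻¹ : Rˣ) : R) = 1 := h.mul_val_inv
    rw [h1]
    linear_combination (r * w j) * h2
  let R1 : Finset R := insert 0 (Finset.univ.image fun p : Fin n × Fin n => q p.1 p.2)
  obtain ⟨I0, hI0, hI0c, hI0e⟩ := C (R1.image fun ρ => (ρ, ((z⁻¹ : Rˣ) : R)))
  let R2 : Finset R := I0.image Prod.fst
  have hR2c : R2.card ≤ B := Finset.card_image_le.trans hI0c
  have hR2 : ∀ ρ ∈ R1, ∃ ρ' ∈ R2, M.pr (fun y => g η φ z (y + ρ) ≠ g η φ z (y + ρ')) ≤ ε := by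
    intro ρ hρ
    obtain ⟨j, hj, hje⟩ := hI0e (ρ, ((z⁻¹ : Rˣ) : R)) (Finset.mem_image_of_mem _ hρ)
    obtain ⟨ρ', -, rfl⟩ := Finset.mem_image.1 (hI0 hj)
    exact ⟨ρ', Finset.mem_image.2 ⟨_, hj, rfl⟩, hje⟩
  choose J hJ hJc hJe using fun ρ' : R =>
    C (Finset.univ.image fun i : Fin n => ((w i : R) * ρ', (((z * w i)⁻¹ : Rˣ) : R)))
  have hJe' : ∀ (ρ' : R) (i : Fin n), ∃ j ∈ J ρ',
      M.pr (fun y => g η φ z ((((w i)⁻¹ : Rˣ) : R) * y + ρ') ≠ s1A η φ j y) ≤ ε := by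
    intro ρ' i
    obtain ⟨j, hj, hje⟩ := hJe ρ' _ (Finset.mem_image_of_mem _ (Finset.mem_univ i))
    refine ⟨j, hj, ?_⟩
    simp only [s1_A] at hje
    exact hje
  choose c hc hce using hJe'
  -- pigeonhole
  let T : Fin n → (∀ x : R2, J x) := fun i x => ⟨c x i, hc x i⟩
  have hcard : Fintype.card (∀ x : R2, J x) < Fintype.card (Fin n) := by
    rw [Fintype.card_pi, Fintype.card_fin]
    have h1 : ∏ x : R2, Fintype.card (J x) ≤ ∏ _x : R2, (B + 1) := by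
      refine Finset.prod_le_prod' fun x _ => ?_
      rw [Fintype.card_coe]
      exact (hJc x).trans (Nat.le_succ B)
    rw [Finset.prod_const, Finset.card_univ, Fintype.card_coe] at h1
    have h2 : (B + 1) ^ R2.card ≤ (B + 1) ^ B := Nat.pow_le_pow_right (Nat.succ_pos B) hR2c
    omega
  obtain ⟨i, j, hij, hT⟩ := Fintype.exists_ne_map_eq_of_card_lt T hcard
  have h2e : ∀ ρ' ∈ R2, M.pr (fun y => g η φ z ((((w i)⁻¹ : Rˣ) : R) * y + ρ') ≠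
      g η φ z ((((w j)⁻¹ : Rˣ) : R) * y + ρ')) ≤ 2 * ε := by
    intro ρ' hρ'
    have h1 : c ρ' i = c ρ' j := congrArg Subtype.val (congrFun hT ⟨ρ', hρ'⟩)
    have h2 := hce ρ' i
    have h3 := hce ρ' j
    rw [← h1, M.pr_ne_symm] at h3
    have h4 := M.pr_ne_tri (fun y => g η φ z ((((w i)⁻¹ : Rˣ) : R) * y + ρ')) (s1A η φ (c ρ' i))
      (fun y => g η φ z ((((w j)⁻¹ : Rˣ) : R) * y + ρ'))
    linarith
  have h4e : ∀ ρ ∈ R1, M.pr (fun y => g η φ z ((((w i)⁻¹ : Rˣ) : R) * y + ρ) ≠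
      g η φ z ((((w j)⁻¹ : Rˣ) : R) * y + ρ)) ≤ 4 * ε := by
    intro ρ hρ
    obtain ⟨ρ', hρ', he⟩ := hR2 ρ hρ
    have h1 := h2e ρ' hρ'
    have h2 := s1_sc hM (w i)⁻¹ (fun y => g η φ z (y + ρ) ≠ g η φ z (y + ρ'))
    have h3 := s1_sc hM (w j)⁻¹ (fun y => g η φ z (y + ρ') ≠ g η φ z (y + ρ))
    have h3' := M.pr_ne_symm (fun y => g η φ z (y + ρ')) (fun y => g η φ z (y + ρ))
    have h4 := M.pr_ne_tri (fun y => g η φ z ((((w i)⁻¹ : Rˣ) : R) * y + ρ))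
      (fun y => g η φ z ((((w i)⁻¹ : Rˣ) : R) * y + ρ'))
      (fun y => g η φ z ((((w j)⁻¹ : Rˣ) : R) * y + ρ))
    have h5 := M.pr_ne_tri (fun y => g η φ z ((((w i)⁻¹ : Rˣ) : R) * y + ρ'))
      (fun y => g η φ z ((((w j)⁻¹ : Rˣ) : R) * y + ρ'))
      (fun y => g η φ z ((((w j)⁻¹ : Rˣ) : R) * y + ρ))
    linarith
  refine ⟨w i, w j, q i j, hq i j hij, h4e _ ?_, h4e _ (Finset.mem_insert_self _ _)⟩
  exact Finset.mem_insert_of_mem (Finset.mem_image.2 ⟨(i, j), Finset.mem_univ _, rfl⟩)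

/-- translations act trivially almost surely -/
theorem step1 {R : Type u} [CommRing R] {F : Type u} [CommGroup F] [Fintype F] {η : R} {φ : R → F}
    {N : ℕ} (hD : Dat η φ N) (hdif : Dif R) (M : Mean R) (hM : AffInv M) (z : Rˣ) (r : R) :
    M.pr (fun y => g η φ z (y + r) ≠ g η φ z y) = 0 := by
  refine le_antisymm (le_of_forall_pos_le_add fun δ hδ => ?_) (M.pr_nonneg _)
  obtain ⟨u, v, ρ, hρ, h1, h0⟩ := s1_core hD hdif M hM z r (ε := δ / 8) (by linarith)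
  -- substitute y by u y
  have hv : (v : R) * ((v⁻¹ : Rˣ) : R) = 1 := Units.mul_inv v
  have hu : ((u⁻¹ : Rˣ) : R) * (u : R) = 1 := Units.inv_mul u
  have e1 : M.pr (fun y => g η φ z (y + ρ) ≠ g η φ z (((v⁻¹ * u : Rˣ) : R) * y + ρ)) ≤ 4 * (δ / 8) := by
    refine le_trans (le_of_eq ?_) h1
    rw [← s1_sc hM u (fun y => g η φ z (((u⁻¹ : Rˣ) : R) * y + ρ) ≠
      g η φ z (((v⁻¹ : Rˣ) : R) * y + ρ))]
    refine M.pr_congr fun y => ?_
    rw [← mul_assoc, hu, one_mul, ← mul_assoc, Units.val_mul]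
  have e0 : M.pr (fun y => g η φ z y ≠ g η φ z (((v⁻¹ * u : Rˣ) : R) * y)) ≤ 4 * (δ / 8) := by
    refine le_trans (le_of_eq ?_) h0
    rw [← s1_sc hM u (fun y => g η φ z (((u⁻¹ : Rˣ) : R) * y + 0) ≠
      g η φ z (((v⁻¹ : Rˣ) : R) * y + 0))]
    refine M.pr_congr fun y => ?_
    rw [← mul_assoc, hu, one_mul, ← mul_assoc, Units.val_mul, add_zero, add_zero]
  rw [← s1_tr hM ρ (fun y => g η φ z y ≠ g η φ z (((v⁻¹ * u : Rˣ) : R) * y))] at e0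
  have e2 := M.pr_ne_tri (fun y => g η φ z (((v⁻¹ * u : Rˣ) : R) * y + ρ)) (fun y => g η φ z (y + ρ))
    (fun y => g η φ z (((v⁻¹ * u : Rˣ) : R) * (y + ρ)))
  rw [M.pr_ne_symm (fun y => g η φ z (((v⁻¹ * u : Rˣ) : R) * y + ρ)) (fun y => g η φ z (y + ρ))] at e2
  have e3 : M.pr (fun y => g η φ z (((v⁻¹ * u : Rˣ) : R) * y + ρ) ≠
      g η φ z (((v⁻¹ * u : Rˣ) : R) * (y + ρ))) =
      M.pr (fun y => g η φ z (y + ρ) ≠ g η φ z (y + ((v⁻¹ * u : Rˣ) : R) * ρ)) := by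
    rw [← s1_sc hM (v⁻¹ * u) (fun y => g η φ z (y + ρ) ≠ g η φ z (y + ((v⁻¹ * u : Rˣ) : R) * ρ))]
    refine M.pr_congr fun y => ?_
    rw [mul_add]
  have e4 : M.pr (fun y => g η φ z (y + ρ) ≠ g η φ z (y + ((v⁻¹ * u : Rˣ) : R) * ρ)) =
      M.pr (fun y => g η φ z (y + r) ≠ g η φ z y) := by
    rw [← s1_tr hM (-ρ) (fun y => g η φ z (y + ρ) ≠ g η φ z (y + ((v⁻¹ * u : Rˣ) : R) * ρ))]
    refine M.pr_congr fun y => ?_
    have k1 : y + -ρ + ρ = y := by ring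
    have k2 : y + -ρ + ((v⁻¹ * u : Rˣ) : R) * ρ = y + r := by
      rw [Units.val_mul]
      linear_combination (ρ + r) * hv + ((v⁻¹ : Rˣ) : R) * hρ
    rw [k1, k2]
    exact ne_comm
  rw [zero_add, ← e4, ← e3]
  linarith

end Pool.LibHB92
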