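import Pool.Agent.LibHB92.S1

/-
PLAN (S2, SHORT). r := - x z: (h : R) = 1 - η r z⁻¹ as z z⁻¹ = 1. g_tr: g z (y + r) = φ h * g (z h) y. So g (z h) y ≠ (φ h)⁻¹ * g z y iff g z (y + r) ≠ g z y: pr_congr and step1.
-/

set_option autoImplicit false

noncomputable section

namespace Pool.LibHB92

universe u v w

/-- congruent units: g (z h) = g z / φ h almost surely -/
theorem g_cong {R : Type u} [CommRing R] {F : Type u} [CommGroup F] [Fintype F] {η : R} {φ : R → F}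
    {N : ℕ} (hD : Dat η φ N) (hdif : Dif R) (M : Mean R) (hM : AffInv M) (z h : Rˣ) (x : R)
    (hx : (h : R) = 1 + η * x) : M.pr (fun y => g η φ (z * h) y ≠ (φ h)⁻¹ * g η φ z y) = 0 := by
  obtain ⟨r, hr⟩ : ∃ r : R, r = -(x * (z : R)) := ⟨_, rfl⟩
  have hz : (z : R) * ((z⁻¹ : Rˣ) : R) = 1 := Units.mul_inv z
  have hh : (h : R) = 1 - η * r * ((z⁻¹ : Rˣ) : R) := by
    rw [hx, hr]
    linear_combination (-(η * x)) * hz
  rw [← step1 hD hdif M hM z r]
  have hP : (fun y => g η φ (z * h) y ≠ (φ h)⁻¹ * g η φ z y) =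
      (fun y => g η φ z (y + r) ≠ g η φ z y) := by
    funext y
    rw [g_tr hD z h r y hh]
    apply propext
    rw [ne_eq, ne_eq, eq_inv_mul_iff_mul_eq]
  rw [hP]

end Pool.LibHB92
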