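import Pool.Agent.LibHB92.S3a

/-
PLAN (S3c, MEDIUM). pi_pow: induction on k: pr (g (z^(k+1)) y ≠ ω^(k+1) g 1 y) ≤ pr (g (z * z^k) y ≠ ω * g (z^k) y) + pr (g (z^k) y ≠ ω^k g 1 y); the first one: substitute y → z^k y (hM.sc, g_sc): = pr (g z y ≠ ω * g 1 y) = 1 - pi z ω ≤ ε. (pr_not.) k = 0: pr of a true property.
PP_two: for fixed y with s := g z y * (g 1 y)⁻¹ the inner mean is pi z s (g z y (g z y')⁻¹ = g 1 y (g 1 y')⁻¹ iff g z y' = s g 1 y'); as a function of y it is ∑_s pi z s * ind (g z y * (g 1 y)⁻¹ = s): M.sum, M.smul give ∑ pi z s * pi z s.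
-/

set_option autoImplicit false

noncomputable section

namespace Pool.LibHB92

universe u v w

variable {R : Type u} [CommRing R] {F : Type u} [CommGroup F] [Fintype F] {η : R} {φ : R → F}
  {N : ℕ}

omit [Fintype F] in
private theorem aux_sub (M : Mean R) (hM : AffInv M) (z w : Rˣ) (ω : F) :
    M.pr (fun y => g η φ (z * w) y = ω * g η φ w y) = pi' η φ M z ω := by
  unfold pi' Mean.pr
  rw [← hM.sc w (fun y => ind (g η φ (z * w) y = ω * g η φ w y)) (bd_ind _)]
  congr 1
  funext y
  have h1 := g_sc (η := η) (φ := φ) z w y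
  have h2 := g_sc (η := η) (φ := φ) 1 w y
  rw [one_mul] at h2
  rw [h1, h2]

theorem pi_pow (M : Mean R) (hM : AffInv M) (z : Rˣ) (ω : F) {ε : ℝ} (hε : 0 ≤ ε)
    (h : 1 - ε ≤ pi' η φ M z ω) (k : ℕ) :
    1 - k * ε ≤ M.pr (fun y => g η φ (z ^ k) y = ω ^ k * g η φ 1 y) := by
  have _ := hε
  induction k with
  | zero =>
    rw [M.pr_true fun y => by rw [pow_zero, pow_zero, one_mul]]
    simp
  | succ k ih =>
    have h1 : M.pr (fun y => ¬ (g η φ (z ^ (k + 1)) y = ω ^ (k + 1) * g η φ 1 y)) ≤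
        M.pr (fun y => ¬ (g η φ (z * z ^ k) y = ω * g η φ (z ^ k) y)) +
          M.pr (fun y => ¬ (g η φ (z ^ k) y = ω ^ k * g η φ 1 y)) := by
      refine M.pr_le_or fun y hy => ?_
      by_contra hn
      push Not at hn
      apply hy
      rw [pow_succ' z k, hn.1, hn.2, pow_succ' ω k, mul_assoc]
    rw [M.pr_not, M.pr_not, M.pr_not, aux_sub M hM z (z ^ k) ω] at h1
    push_cast
    linarith

/-- the collision probability as a double mean -/
theorem PP_two (M : Mean R) (z : Rˣ) : PP η φ M z = M.m (fun y => M.m (fun y' =>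
    ind (g η φ z y * (g η φ z y')⁻¹ = g η φ 1 y * (g η φ 1 y')⁻¹))) := by
  classical
  have h1 : ∀ y : R, M.m (fun y' =>
      ind (g η φ z y * (g η φ z y')⁻¹ = g η φ 1 y * (g η φ 1 y')⁻¹)) =
      ∑ s, pi' η φ M z s * ind (g η φ z y * (g η φ 1 y)⁻¹ = s) := by
    intro y
    rw [Finset.sum_eq_single (g η φ z y * (g η φ 1 y)⁻¹), ind_true rfl, mul_one]
    · unfold pi' Mean.pr
      congr 1
      funext y'
      apply ind_congr
      constructor
      · intro h
        rw [mul_inv_eq_iff_eq_mul] at h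
        rw [h]
        generalize g η φ 1 y = a
        generalize g η φ 1 y' = b
        generalize g η φ z y' = c
        have : a * b⁻¹ * c * a⁻¹ * b = c * (a * a⁻¹) * (b⁻¹ * b) := by
          simp only [mul_comm, mul_left_comm, mul_assoc]
        rw [this, mul_inv_cancel, inv_mul_cancel, mul_one, mul_one]
      · intro h
        rw [h]
        generalize g η φ 1 y = a
        generalize g η φ 1 y' = b
        generalize g η φ z y = c
        rw [mul_inv, mul_inv, inv_inv]
        have : c * (c⁻¹ * a * b⁻¹) = (c * c⁻¹) * (a * b⁻¹) := by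
          simp only [mul_assoc]
        rw [this, mul_inv_cancel, one_mul]
    · intro s _ hs
      rw [ind_false fun h => hs h.symm, mul_zero]
    · intro h
      exact absurd (Finset.mem_univ _) h
  have h2 : (fun y => M.m (fun y' =>
      ind (g η φ z y * (g η φ z y')⁻¹ = g η φ 1 y * (g η φ 1 y')⁻¹))) =
      fun y => ∑ s, pi' η φ M z s * ind (g η φ z y * (g η φ 1 y)⁻¹ = s) := funext h1
  rw [h2, M.sum Finset.univ fun s _ => (bd_ind _).cmul _]
  unfold PP
  refine Finset.sum_congr rfl fun s _ => ?_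
  rw [M.smul _ _ (bd_ind _), sq]
  congr 1
  unfold pi' Mean.pr
  congr 1
  funext y
  apply ind_congr
  rw [mul_inv_eq_iff_eq_mul]

end Pool.LibHB92
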