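import Pool.Agent.LibHB92.S2

/-
PLAN (S3a, MEDIUM). pi_sum: sum_pr_eq for y ↦ g z y * (g 1 y)⁻¹. PP_nonneg, PP_le_one: 0 ≤ pi ≤ 1, pi^2 ≤ pi. PP_one: g 1 y = s * g 1 y iff s = 1, so pi 1 s = 1 for s = 1, 0 otherwise. PP_cong: pi (z h) s = pi z (φ h * s) by g_cong (pr_eq_of), Equiv.mulLeft reindexes the sum. PP_inv: pi z⁻¹ s = pr (g z⁻¹ y = s g 1 y), substitute
y → z⁻¹ y (hM.sc): g z⁻¹ (z⁻¹ y) = g 1 y (g_sc with z := 1), g 1 (z⁻¹ y) = g z y (g_sc'): = pr (g 1 y = s g z y) = pi z s⁻¹; reindex by Equiv.inv.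
-/

set_option autoImplicit false

noncomputable section

namespace Pool.LibHB92

universe u v w

variable {R : Type u} [CommRing R] {F : Type u} [CommGroup F] [Fintype F] {η : R} {φ : R → F}
  {N : ℕ}

omit [Fintype F] in
private theorem S3a_nonneg (M : Mean R) (z : Rˣ) (s : F) : 0 ≤ pi' η φ M z s := M.pr_nonneg _

omit [Fintype F] in
private theorem S3a_le (M : Mean R) (z : Rˣ) (s : F) : pi' η φ M z s ≤ 1 := M.pr_le_one _

omit [Fintype F] in
private theorem S3a_inv (M : Mean R) (hM : AffInv M) (z : Rˣ) (s : F) :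
    pi' η φ M z⁻¹ s = pi' η φ M z s⁻¹ := by
  have h1 := hM.sc z⁻¹ (fun y => ind (g η φ z⁻¹ y = s * g η φ 1 y)) (bd_ind _)
  unfold pi'
  show M.m (fun y => ind (g η φ z⁻¹ y = s * g η φ 1 y)) = _
  rw [← h1]
  refine M.pr_congr fun y => ?_
  have e1 : g η φ z⁻¹ (((z⁻¹ : Rˣ) : R) * y) = g η φ 1 y := by
    have := g_sc (η := η) (φ := φ) 1 z⁻¹ y
    rw [one_mul] at this
    exact this
  have e2 : g η φ 1 (((z⁻¹ : Rˣ) : R) * y) = g η φ z y := by
    rw [g_sc', inv_inv, one_mul]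
  rw [e1, e2]
  constructor
  · intro h
    rw [h, inv_mul_cancel_left]
  · intro h
    rw [h, mul_inv_cancel_left]


theorem pi_sum (M : Mean R) (z : Rˣ) : ∑ s, pi' η φ M z s = 1 := by
  rw [← M.sum_pr_eq (fun y => g η φ z y * (g η φ 1 y)⁻¹)]
  refine Finset.sum_congr rfl fun s _ => ?_
  unfold pi'
  exact M.pr_congr fun y => mul_inv_eq_iff_eq_mul.symm

theorem PP_nonneg (M : Mean R) (z : Rˣ) : 0 ≤ PP η φ M z := by
  exact Finset.sum_nonneg fun s _ => sq_nonneg _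

theorem PP_le_one (M : Mean R) (z : Rˣ) : PP η φ M z ≤ 1 := by
  rw [← pi_sum (η := η) (φ := φ) M z]
  refine Finset.sum_le_sum fun s _ => ?_
  have h0 := S3a_nonneg (η := η) (φ := φ) M z s
  have h1 := S3a_le (η := η) (φ := φ) M z s
  nlinarith

theorem PP_one (M : Mean R) : PP η φ M 1 = 1 := by
  classical
  unfold PP
  rw [Finset.sum_eq_single (1 : F)]
  · have h1 : pi' η φ M 1 1 = 1 := M.pr_true fun y => (one_mul _).symm
    rw [h1, one_pow]
  · intro s _ hs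
    have h1 : pi' η φ M 1 s = 0 := M.pr_false fun y hy => hs (right_eq_mul.1 hy)
    rw [h1]
    norm_num
  · intro h
    exact absurd (Finset.mem_univ _) h

theorem PP_cong (hD : Dat η φ N) (hdif : Dif R) (M : Mean R) (hM : AffInv M) (z h : Rˣ) (x : R)
    (hx : (h : R) = 1 + η * x) : PP η φ M (z * h) = PP η φ M z := by
  have h1 : ∀ s : F, pi' η φ M (z * h) s = pi' η φ M z (φ h * s) := by
    intro s
    refine M.pr_eq_of (le_antisymm ?_ (M.pr_nonneg _))
    rw [← g_cong hD hdif M hM z h x hx]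
    refine M.pr_mono fun y hy heq => hy ?_
    rw [heq]
    constructor
    · intro h2
      rw [mul_assoc, ← h2, mul_inv_cancel_left]
    · intro h2
      rw [h2, mul_assoc, inv_mul_cancel_left]
  unfold PP
  rw [Finset.sum_congr rfl fun s _ => by rw [h1 s]]
  exact Equiv.sum_comp (Equiv.mulLeft (φ (h : R))) (fun s => pi' η φ M z s ^ 2)

theorem PP_inv (M : Mean R) (hM : AffInv M) (z : Rˣ) : PP η φ M z⁻¹ = PP η φ M z := by
  unfold PP
  rw [Finset.sum_congr rfl fun s _ => by rw [S3a_inv M hM z s]]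
  exact Equiv.sum_comp (Equiv.inv F) (fun s => pi' η φ M z s ^ 2)

end Pool.LibHB92
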