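import Pool.Agent.LibHB92.S3a

/-
PLAN (S3b, MEDIUM). PP_close: pr (g z y ≠ g z' y) ≤ ε; y → z' y (hM.sc): g z (z' y) = g (z z'⁻¹) y, g z' (z' y) = g 1 y: pi (z z'⁻¹) 1 ≥ 1 - ε (pr_not), PP ≥ (1-ε)^2 ≥ 1 - 2 ε if ε ≤ 1, otherwise PP_nonneg. exists_pi: ∑ pi^2 ≤ (max pi) ∑ pi = max pi (Finset.exists_max_image, F nonempty; pi_sum).
PP_mul: ω from exists_pi; substitute y → z y: pr (g 1 y = ω * g z⁻¹ y) ≥ 1 - ε [g z (z y) = g 1 y, g 1 (z y) = g z⁻¹ y] and pi (z z') s = pr (g z' y = s * g z⁻¹ y) [g (z z') (z y) = g z' y]. On the event E0 : g 1 y = ω g z⁻¹ y we have g z' y = s g z⁻¹ y iff g z' y = (s ω⁻¹) g 1 y.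
∑_s |pi (z z') s - pi z' (s ω⁻¹)| ≤ ∑_s M.m (|ind A_s - ind B_s|) ≤ 2 (1 - pr E0) ≤ 2 ε (for y outside E0 the sum over s of |ind A_s - ind B_s| is ≤ 2, on E0 it is 0; M.sum, mono). |a^2 - b^2| ≤ 2 |a - b| for a, b in [0,1]; reindex ∑ pi z' (s ω⁻¹)^2 = PP z' (Equiv.mulRight). So |PP (z z') - PP z'| ≤ 4 ε.
-/

set_option autoImplicit false

noncomputable section

namespace Pool.LibHB92

universe u v w

variable {R : Type u} [CommRing R] {F : Type u} [CommGroup F] [Fintype F] {η : R} {φ : R → F}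
  {N : ℕ}

private theorem S3b_sub (M : Mean R) (hM : AffInv M) (w : Rˣ) {P Q : R → Prop}
    (h : ∀ y, P (w * y) ↔ Q y) : M.pr P = M.pr Q := by
  rw [← M.pr_congr h]
  unfold Mean.pr
  exact (hM.sc w (fun y => ind (P y)) (bd_ind P)).symm

theorem PP_close (M : Mean R) (hM : AffInv M) (z z' : Rˣ) {ε : ℝ} (hε : 0 ≤ ε)
    (h : M.pr (fun y => g η φ z y ≠ g η φ z' y) ≤ ε) : 1 - 2 * ε ≤ PP η φ M (z * z'⁻¹) := by
  have h0 : 0 ≤ PP η φ M (z * z'⁻¹) := Finset.sum_nonneg fun s _ => sq_nonneg _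
  by_cases h1 : 1 < ε
  · linarith
  push Not at h1
  have h2 : M.pr (fun y => g η φ z y ≠ g η φ z' y) =
      M.pr (fun y => ¬ (g η φ (z * z'⁻¹) y = 1 * g η φ 1 y)) := by
    refine S3b_sub M hM z' fun y => ?_
    rw [g_sc' z z' y, g_sc' z' z' y, mul_inv_cancel, one_mul]
  rw [h2, M.pr_not] at h
  have h3 : 1 - ε ≤ pi' η φ M (z * z'⁻¹) 1 := by
    unfold pi'
    linarith
  have h4 : pi' η φ M (z * z'⁻¹) 1 ^ 2 ≤ PP η φ M (z * z'⁻¹) :=
    Finset.single_le_sum (f := fun s => pi' η φ M (z * z'⁻¹) s ^ 2) (fun s _ => sq_nonneg _)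
      (Finset.mem_univ 1)
  nlinarith

theorem exists_pi (M : Mean R) (z : Rˣ) {ε : ℝ} (h : 1 - ε ≤ PP η φ M z) :
    ∃ ω : F, 1 - ε ≤ pi' η φ M z ω := by
  obtain ⟨ω, -, hω⟩ := Finset.exists_max_image (Finset.univ : Finset F)
    (fun s => pi' η φ M z s) ⟨1, Finset.mem_univ 1⟩
  refine ⟨ω, h.trans ?_⟩
  calc PP η φ M z = ∑ s, pi' η φ M z s ^ 2 := rfl
    _ ≤ ∑ s, pi' η φ M z ω * pi' η φ M z s := by
        refine Finset.sum_le_sum fun s _ => ?_
        rw [pow_two]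
        exact mul_le_mul_of_nonneg_right (hω s (Finset.mem_univ s)) (M.pr_nonneg _)
    _ = pi' η φ M z ω := by rw [← Finset.mul_sum, pi_sum, mul_one]

theorem PP_mul (M : Mean R) (hM : AffInv M) (z z' : Rˣ) {ε : ℝ} (hε : 0 ≤ ε)
    (h : 1 - ε ≤ PP η φ M z) : |PP η φ M (z * z') - PP η φ M z'| ≤ 4 * ε := by
  classical
  obtain ⟨ω, hω⟩ := exists_pi M z h
  -- the event
  have hE : M.pr (fun y => ¬ (g η φ 1 y = ω * g η φ z⁻¹ y)) ≤ ε := by
    have h1 : pi' η φ M z ω = M.pr (fun y => g η φ 1 y = ω * g η φ z⁻¹ y) := by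
      refine S3b_sub M hM z fun y => ?_
      rw [g_sc' z z y, g_sc' 1 z y, mul_inv_cancel, one_mul]
    rw [M.pr_not, ← h1]
    linarith
  have hp : ∀ s, pi' η φ M (z * z') s = M.pr (fun y => g η φ z' y = s * g η φ z⁻¹ y) := by
    intro s
    refine S3b_sub M hM z fun y => ?_
    rw [g_sc' (z * z') z y, g_sc' 1 z y, one_mul, mul_comm z z', mul_inv_cancel_right]
  have hq : ∀ s, pi' η φ M z' (s * ω⁻¹) = M.pr (fun y => g η φ z' y = s * ω⁻¹ * g η φ 1 y) :=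
    fun s => rfl
  -- the sum of the differences
  have hsum : ∑ s, |pi' η φ M (z * z') s - pi' η φ M z' (s * ω⁻¹)| ≤ 2 * ε := by
    have h1 : ∑ s, |pi' η φ M (z * z') s - pi' η φ M z' (s * ω⁻¹)| ≤
        ∑ s, M.pr (fun y => ¬ (g η φ z' y = s * g η φ z⁻¹ y ↔
          g η φ z' y = s * ω⁻¹ * g η φ 1 y)) := by
      refine Finset.sum_le_sum fun s _ => ?_
      rw [hp, hq]
      exact M.abs_pr_sub _ _
    have h2 : ∑ s, M.pr (fun y => ¬ (g η φ z' y = s * g η φ z⁻¹ y ↔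
          g η φ z' y = s * ω⁻¹ * g η φ 1 y)) =
        M.m (fun y => ∑ s, ind (¬ (g η φ z' y = s * g η φ z⁻¹ y ↔
          g η φ z' y = s * ω⁻¹ * g η φ 1 y))) := by
      rw [M.sum Finset.univ fun s _ => bd_ind _]
      rfl
    have h3 : M.m (fun y => ∑ s, ind (¬ (g η φ z' y = s * g η φ z⁻¹ y ↔
          g η φ z' y = s * ω⁻¹ * g η φ 1 y))) ≤
        M.m (fun y => 2 * ind (¬ (g η φ 1 y = ω * g η φ z⁻¹ y))) := by
      refine M.mono _ _ (Bd.sum _ fun s _ => bd_ind _) ((bd_ind _).cmul 2) fun y => ?_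
      by_cases hy : g η φ 1 y = ω * g η φ z⁻¹ y
      · rw [ind_false (not_not.2 hy), mul_zero]
        refine le_of_eq (Finset.sum_eq_zero fun s _ => ind_false ?_)
        rw [not_not, hy, mul_assoc, inv_mul_cancel_left]
      · rw [ind_true hy, mul_one]
        have h4 : ∀ s : F, ind (¬ (g η φ z' y = s * g η φ z⁻¹ y ↔
            g η φ z' y = s * ω⁻¹ * g η φ 1 y)) ≤
            (if s = g η φ z' y * (g η φ z⁻¹ y)⁻¹ then 1 else 0) +
              (if s = g η φ z' y * (ω⁻¹ * g η φ 1 y)⁻¹ then 1 else 0) := by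
          intro s
          have e1 : g η φ z' y = s * g η φ z⁻¹ y ↔ s = g η φ z' y * (g η φ z⁻¹ y)⁻¹ := by
            rw [eq_mul_inv_iff_mul_eq]
            exact eq_comm
          have e2 : g η φ z' y = s * ω⁻¹ * g η φ 1 y ↔
              s = g η φ z' y * (ω⁻¹ * g η φ 1 y)⁻¹ := by
            rw [eq_mul_inv_iff_mul_eq, mul_assoc]
            exact eq_comm
          rw [e1, e2]
          by_cases c1 : s = g η φ z' y * (g η φ z⁻¹ y)⁻¹
          · rw [if_pos c1]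
            refine (ind_le_one _).trans ?_
            split_ifs <;> norm_num
          · by_cases c2 : s = g η φ z' y * (ω⁻¹ * g η φ 1 y)⁻¹
            · rw [if_neg c1, if_pos c2]
              refine (ind_le_one _).trans ?_
              norm_num
            · rw [if_neg c1, if_neg c2, ind_false]
              · norm_num
              · rw [not_not]
                exact ⟨fun c => absurd c c1, fun c => absurd c c2⟩
        refine (Finset.sum_le_sum fun s _ => h4 s).trans ?_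
        rw [Finset.sum_add_distrib, Finset.sum_ite_eq' Finset.univ, Finset.sum_ite_eq' Finset.univ,
          if_pos (Finset.mem_univ _), if_pos (Finset.mem_univ _)]
        norm_num
    have h5 : M.m (fun y => 2 * ind (¬ (g η φ 1 y = ω * g η φ z⁻¹ y))) =
        2 * M.pr (fun y => ¬ (g η φ 1 y = ω * g η φ z⁻¹ y)) := M.smul 2 _ (bd_ind _)
    rw [h2] at h1
    rw [h5] at h3
    linarith
  -- the squares
  have hre : ∑ s, pi' η φ M z' (s * ω⁻¹) ^ 2 = PP η φ M z' :=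
    Equiv.sum_comp (Equiv.mulRight ω⁻¹) (fun s => pi' η φ M z' s ^ 2)
  rw [← hre]
  unfold PP
  rw [← Finset.sum_sub_distrib]
  refine (Finset.abs_sum_le_sum_abs _ _).trans ?_
  calc ∑ s, |pi' η φ M (z * z') s ^ 2 - pi' η φ M z' (s * ω⁻¹) ^ 2|
      ≤ ∑ s, 2 * |pi' η φ M (z * z') s - pi' η φ M z' (s * ω⁻¹)| := by
        refine Finset.sum_le_sum fun s _ => ?_
        have a0 : 0 ≤ pi' η φ M (z * z') s := M.pr_nonneg _
        have a1 : pi' η φ M (z * z') s ≤ 1 := M.pr_le_one _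
        have b0 : 0 ≤ pi' η φ M z' (s * ω⁻¹) := M.pr_nonneg _
        have b1 : pi' η φ M z' (s * ω⁻¹) ≤ 1 := M.pr_le_one _
        rw [sq_sub_sq, abs_mul, abs_of_nonneg (add_nonneg a0 b0)]
        exact mul_le_mul_of_nonneg_right (by linarith) (abs_nonneg _)
    _ = 2 * ∑ s, |pi' η φ M (z * z') s - pi' η φ M z' (s * ω⁻¹)| := by rw [Finset.mul_sum]
    _ ≤ 2 * (2 * ε) := by linarith
    _ = 4 * ε := by ring

end Pool.LibHB92
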