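import Pool.Agent.LibHB92.VDef

/-
PLAN (VA, MEDIUM). ph_mk: for u : Hs V, ph V q u = mk u (the choice has the same value, so is the same element: Units.ext, Subtype.ext). fq_pow: the quotient by the q-th powers. ph_mul: ph multiplicative on J1-elements (J1 x: x ≠ 0 when s > 0.. for s = 0 J1 is empty: keep hs : 0 < s; x ≠ 0 because valuation (0 - 1) = 1).
ph_eq_iff: for x with J1 x and h : Hs V: ph V q x = mk h iff ∃ w, J1 w ∧ x = h w^q (QuotientGroup.eq: h⁻¹ x = w^q with w in Hs V). dat_of: un: 1 + η x has valuation 1 at all i, its inverse is in Rv V. mul: ph_mul. V1: for s0 : Fq V q take a representative h; a pattern of the family for s0 gives a pattern of rel1 with parameters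
(b1, b2, η, h) (all elements 1 - η (y + b1) b2 are J1). V2: T s t y := rel2 V q (t, η, h_s) y with h_s := the chosen representative (Quotient.out) of s; for y.1 + t a unit of Rv V: (∃ w, ..) iff ∃ x : Rv V, ph (1 + η x) = s ∧ ..: a + t - η y = (a + t)(1 - η y / (a + t)) is a unit of Rv V, same for y'; from w: u := h w^q = (a + t - η y) / (a + t - η y')
= 1 + η x with x := (y' - y) / (a + t - η y') in Rv V; conversely 1 + η x is J1 and ph (1 + η x) = s gives w by ph_eq_iff.
-/

set_option autoImplicit false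

noncomputable section

namespace Pool.LibHB92

universe u

open Pool.LibNP88

variable {L : Type u} [Field L] {s : ℕ} {V : Fin s → ValuationSubring L} {q : ℕ}

theorem J1.ne_zero (hs : 0 < s) {x : L} (hx : J1 V x) : x ≠ 0 := by
  rintro rfl
  have h := hx ⟨0, hs⟩
  rw [zero_sub, Valuation.map_neg, map_one] at h
  exact lt_irrefl _ h

theorem ph_mk (u : Hs V) : ph V q ((u : Lˣ) : L) = QuotientGroup.mk u := by
  have h : ∃ v : Hs V, ((v : Lˣ) : L) = ((u : Lˣ) : L) := ⟨u, rfl⟩
  unfold ph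
  rw [dif_pos h]
  congr 1
  exact Subtype.ext (Units.ext h.choose_spec)

theorem fq_pow (c : Fq V q) : c ^ q = 1 := by
  induction c using QuotientGroup.induction_on with
  | H u =>
    rw [← QuotientGroup.mk_pow, QuotientGroup.eq_one_iff]
    exact ⟨u, rfl⟩

private theorem J1.ex (hs : 0 < s) {x : L} (hx : J1 V x) : ∃ u : Hs V, ((u : Lˣ) : L) = x :=
  ⟨⟨Units.mk0 x (J1.ne_zero hs hx), hx⟩, rfl⟩

theorem ph_mul (hs : 0 < s) {x y : L} (hx : J1 V x) (hy : J1 V y) :
    ph V q (x * y) = ph V q x * ph V q y := by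
  obtain ⟨u, rfl⟩ := J1.ex hs hx
  obtain ⟨v, rfl⟩ := J1.ex hs hy
  have e : ((u : Lˣ) : L) * ((v : Lˣ) : L) = (((u * v : Hs V) : Lˣ) : L) := rfl
  rw [e, ph_mk, ph_mk, ph_mk]
  rfl

theorem ph_eq_iff (hs : 0 < s) {x : L} (hx : J1 V x) (h : Hs V) :
    ph V q x = QuotientGroup.mk h ↔ ∃ w, J1 V w ∧ x = ((h : Lˣ) : L) * w ^ q := by
  obtain ⟨u, rfl⟩ := J1.ex hs hx
  rw [ph_mk, eq_comm, QuotientGroup.eq]
  constructor
  · rintro ⟨w, hw⟩
    refine ⟨((w : Lˣ) : L), w.2, ?_⟩
    have h1 : u = h * w ^ q := by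
      have h2 : w ^ q = h⁻¹ * u := hw
      rw [h2, mul_inv_cancel_left]
    rw [h1]
    rfl
  · rintro ⟨w, hw, hx⟩
    obtain ⟨v, rfl⟩ := J1.ex hs hw
    refine ⟨v, ?_⟩
    have h1 : u = h * v ^ q := Subtype.ext (Units.ext hx)
    rw [h1, inv_mul_cancel_left]
    rfl

private theorem J1.eta {η : Rv V} (hη : ∀ i, (V i).valuation (η : L) < 1) (x : Rv V) :
    J1 V ((1 + η * x : Rv V) : L) := by
  intro i
  have e : ((1 + η * x : Rv V) : L) - 1 = (η : L) * (x : L) := by
    push_cast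
    ring
  rw [e, map_mul]
  have h1 : (V i).valuation (x : L) ≤ 1 :=
    (ValuationSubring.valuation_le_one_iff _ _).2 ((mem_Rv V x.1).1 x.2 i)
  exact mul_lt_one_of_lt_of_le (hη i) h1

private theorem J1.unit (hs : 0 < s) {z : Rv V} (hz : J1 V (z : L)) : IsUnit z := by
  have h0 : (z : L) ≠ 0 := J1.ne_zero hs hz
  have hinv : (z : L)⁻¹ ∈ Rv V := by
    rw [mem_Rv]
    intro i
    rw [← ValuationSubring.valuation_le_one_iff, map_inv₀, val_of_J _ (hz i), inv_one]
  refine ⟨⟨z, ⟨(z : L)⁻¹, hinv⟩, ?_, ?_⟩, rfl⟩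
  · exact Subtype.ext (mul_inv_cancel₀ h0)
  · exact Subtype.ext (inv_mul_cancel₀ h0)

/-- the data of the core -/
theorem dat_of (hs : 0 < s) {N : ℕ} (h1 : NoSh N (rel1 V q)) (h2 : NoSh N (rel2 V q))
    (η : Rv V) (hη : ∀ i, (V i).valuation (η : L) < 1) :
    Dat η (fun x : Rv V => ph V q (x : L)) N := by
  have hun : ∀ x : Rv V, IsUnit (1 + η * x) := fun x => J1.unit hs (J1.eta hη x)
  refine ⟨hun, ?_, ?_, ?_⟩
  · intro x y
    exact ph_mul hs (J1.eta hη x) (J1.eta hη y)
  · intro c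
    rintro ⟨y, b, hyb⟩
    obtain ⟨h, rfl⟩ := QuotientGroup.mk_surjective c
    refine h1 ⟨fun i => (y i : L), fun J => (((b J).1 : L), ((b J).2 : L), (η : L), ((h : Lˣ) : L)),
      fun i J => ?_⟩
    rw [← hyb i J]
    have hJ : J1 V ((1 - η * (y i + (b J).1) * (b J).2 : Rv V) : L) := by
      have e : (1 - η * (y i + (b J).1) * (b J).2 : Rv V) =
          1 + η * (-((y i + (b J).1) * (b J).2)) := by ring
      rw [e]
      exact J1.eta hη _
    have h3 := ph_eq_iff (q := q) hs hJ h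
    exact h3.symm
  · refine ⟨fun c t y => rel2 V q ((t : L), (η : L), (((Quotient.out c : Hs V) : Lˣ) : L))
      ((y.1 : L), (y.2.1 : L), (y.2.2 : L)), ?_, ?_⟩
    · intro c
      rintro ⟨y, b, hyb⟩
      exact h2 ⟨fun i => (((y i).1 : L), ((y i).2.1 : L), ((y i).2.2 : L)),
        fun J => ((b J : L), (η : L), (((Quotient.out c : Hs V) : Lˣ) : L)), hyb⟩
    · intro c t y hU
      have hc : (QuotientGroup.mk (Quotient.out c : Hs V) : Fq V q) = c := QuotientGroup.out_eq' c
      have key : ∀ z : Rv V, IsUnit (y.1 + t - η * z) := by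
        intro z
        obtain ⟨A, hA⟩ := hU
        have e : y.1 + t - η * z = (A : Rv V) * (1 + η * (-(z * ((A⁻¹ : (Rv V)ˣ) : Rv V)))) := by
          have hAA : (A : Rv V) * ((A⁻¹ : (Rv V)ˣ) : Rv V) = 1 := A.mul_inv
          rw [← hA]
          linear_combination (η * z) * hAA
        rw [e]
        exact A.isUnit.mul (hun _)
      constructor
      · rintro ⟨w, hw, hB⟩
        obtain ⟨C, hC⟩ := key y.2.2
        have hCC : (C : Rv V) * ((C⁻¹ : (Rv V)ˣ) : Rv V) = 1 := C.mul_inv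
        have e1 : y.1 + t - η * y.2.1 =
            (1 + η * ((y.2.2 - y.2.1) * ((C⁻¹ : (Rv V)ˣ) : Rv V))) * (y.1 + t - η * y.2.2) := by
          rw [← hC]
          linear_combination (-(η * (y.2.2 - y.2.1))) * hCC - hC
        refine ⟨(y.2.2 - y.2.1) * ((C⁻¹ : (Rv V)ˣ) : Rv V), ?_, e1⟩
        refine Eq.trans ?_ hc
        rw [ph_eq_iff hs (J1.eta hη _)]
        refine ⟨w, hw, ?_⟩
        have hC0 : ((y.1 + t - η * y.2.2 : Rv V) : L) ≠ 0 := by
          intro h0
          have h4 : (C : Rv V) = 0 := by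
            rw [hC]
            exact Subtype.ext h0
          have h5 : (1 : Rv V) = 0 := by rw [← hCC, h4, zero_mul]
          have h6 : ((1 : Rv V) : L) = ((0 : Rv V) : L) := by rw [h5]
          exact one_ne_zero h6
        have e2 := congrArg (fun r : Rv V => (r : L)) e1
        apply mul_right_cancel₀ hC0
        have hB' : ((y.1 + t - η * y.2.1 : Rv V) : L) =
            (((Quotient.out c : Hs V) : Lˣ) : L) * w ^ q * ((y.1 + t - η * y.2.2 : Rv V) : L) := hB
        rw [← hB']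
        exact e2.symm
      · rintro ⟨x, hx, hB⟩
        rw [← hc] at hx
        obtain ⟨w, hw, hxw⟩ := (ph_eq_iff hs (J1.eta hη x) _).1 hx
        refine ⟨w, hw, ?_⟩
        have e2 := congrArg (fun r : Rv V => (r : L)) hB
        change ((y.1 + t - η * y.2.1 : Rv V) : L) =
            (((Quotient.out c : Hs V) : Lˣ) : L) * w ^ q * ((y.1 + t - η * y.2.2 : Rv V) : L)
        rw [← hxw]
        exact e2

end Pool.LibHB92
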