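import Pool.Agent.LibHB92.VDef

/-
PLAN (VB1, MEDIUM). As LibNP88.M4 / Z (proved there: def_psi, use of nip_def): b := Module.finBasis K L, d := finrank K L. Coordinates: points Fin m × Fin d, parameters Fin n × Fin d (reindex by Fin (m d), Fin (n d) with finProdFinEquiv for nip_def). Set {v | ∃ w : L, J1 w ∧ eval P = 0}: variables v and the coordinates u : Fin d → K of w:
def_ex over (def_inter of (def_polyL: the polynomial P with each variable replaced by the linear form SUM_j b_j X_(i, j)) and of the condition w - 1 in J: there is v' with v' in def_J and SUM v'_j b_j + 1 = SUM u_j b_j (see the proof of def_psi in LibNP88/M4.lean, copy it)). hJ is the criterion given by LibNP88.family (J := {w | ∀ i, valuation w < 1}).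
Then nip_def: a pattern over L gives a pattern over K by b.repr (see LibNP88/Z.lean).
-/

set_option autoImplicit false

noncomputable section

namespace Pool.LibHB92

universe u

open Pool.LibNP88

/-- The linear polynomial of a tuple of variables. -/
private def VB1_W {K L : Type u} [Field K] [Field L] [Algebra K L] {d : ℕ}
    (b : Module.Basis (Fin d) K L) {σ : Type} (f : Fin d → σ) : MvPolynomial σ L :=
  ∑ i, MvPolynomial.C (b i) * MvPolynomial.X (f i)

private theorem VB1_W_eval {K L : Type u} [Field K] [Field L] [Algebra K L] {d : ℕ}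
    (b : Module.Basis (Fin d) K L) {σ : Type} (f : Fin d → σ) (v : σ → K) :
    MvPolynomial.eval (fun s => algebraMap K L (v s)) (VB1_W b f) = ∑ i, v (f i) • b i := by
  unfold VB1_W
  rw [map_sum]
  refine Finset.sum_congr rfl fun i _ => ?_
  rw [map_mul, MvPolynomial.eval_C, MvPolynomial.eval_X, Algebra.smul_def, mul_comm]

/-- the substitution: the variable `none` becomes `1 + SUM t_i b_i` -/
private def VB1_g {K L : Type u} [Field K] [Field L] [Algebra K L] {d : ℕ}
    (b : Module.Basis (Fin d) K L) (m n : ℕ) (o : Option (Fin m ⊕ Fin n)) :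
    MvPolynomial ((Fin (m * d) ⊕ Fin (n * d)) ⊕ Fin d) L :=
  o.elim (1 + VB1_W b Sum.inr) (Sum.elim
    (fun j => VB1_W b (fun i => Sum.inl (Sum.inl (finProdFinEquiv (j, i)))))
    (fun j => VB1_W b (fun i => Sum.inl (Sum.inr (finProdFinEquiv (j, i))))))

private theorem VB1_eval {K L : Type u} [Field K] [Field L] [Algebra K L] {d : ℕ}
    (b : Module.Basis (Fin d) K L) (m n : ℕ) (P : MvPolynomial (Option (Fin m ⊕ Fin n)) L)
    (x : Fin m → L) (y : Fin n → L) (t : Fin d → K) :
    MvPolynomial.eval (fun s => algebraMap K L (Sum.elim (Sum.elim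
        (fun k : Fin (m * d) => b.repr (x (finProdFinEquiv.symm k).1) (finProdFinEquiv.symm k).2)
        (fun k : Fin (n * d) => b.repr (y (finProdFinEquiv.symm k).1) (finProdFinEquiv.symm k).2))
        t s)) (MvPolynomial.bind₁ (VB1_g b m n) P) =
      MvPolynomial.eval (fun o => o.elim (1 + ∑ i, t i • b i) (Sum.elim x y)) P := by
  have h1 : ∀ v : (Fin (m * d) ⊕ Fin (n * d)) ⊕ Fin d → L,
      MvPolynomial.eval v (MvPolynomial.bind₁ (VB1_g b m n) P) =
      MvPolynomial.eval (fun o => MvPolynomial.eval v (VB1_g b m n o)) P := fun v =>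
    MvPolynomial.eval₂Hom_bind₁ (RingHom.id _) v (VB1_g b m n) P
  rw [h1]
  congr 1
  congr 1
  funext o
  rcases o with _ | (j | j)
  · change MvPolynomial.eval _ (1 + VB1_W b Sum.inr) = 1 + ∑ i, t i • b i
    rw [map_add, map_one, VB1_W_eval]
    rfl
  · change MvPolynomial.eval _ (VB1_W b (fun i => Sum.inl (Sum.inl (finProdFinEquiv (j, i))))) =
      x j
    rw [VB1_W_eval]
    simp only [Sum.elim_inl, Equiv.symm_apply_apply]
    exact b.sum_repr (x j)
  · change MvPolynomial.eval _ (VB1_W b (fun i => Sum.inl (Sum.inr (finProdFinEquiv (j, i))))) =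
      y j
    rw [VB1_W_eval]
    simp only [Sum.elim_inl, Sum.elim_inr, Equiv.symm_apply_apply]
    exact b.sum_repr (y j)

/-- NIP bounds for relations of the form: there is w = 1 mod J with P(points, parameters, w) = 0 -/
theorem nipL {K L : Type u} [Field K] [Field L] [Algebra K L] [FiniteDimensional K L]
    (O : ValuationSubring K) (hN : NIP O) {s : ℕ} (V : Fin s → ValuationSubring L)
    (hJ : ∀ w : L, (∀ i, (V i).valuation w < 1) ↔ ∃ c : Fin (Module.finrank K L) → K,
      (∀ j, O.valuation (c j) < 1) ∧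
      w ^ Module.finrank K L + ∑ j, algebraMap K L (c j) * w ^ (j : ℕ) = 0)
    (m n : ℕ) (P : MvPolynomial (Option (Fin m ⊕ Fin n)) L) : ∃ N : ℕ,
    ¬ ∃ (a : Fin N → Fin m → L) (c : Set (Fin N) → Fin n → L), ∀ i J,
      (∃ w : L, J1 V w ∧
        MvPolynomial.eval (fun o => o.elim w (Sum.elim (a i) (c J))) P = 0) ↔ i ∈ J := by
  let b := Module.finBasis K L
  let J : Set L := {w | ∀ i, (V i).valuation w < 1}
  have h0 := def_J O b J hJ
  have h1 : Df O ({u : (Fin (m * Module.finrank K L) ⊕ Fin (n * Module.finrank K L)) ⊕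
      Fin (Module.finrank K L) → K |
      MvPolynomial.eval (fun s => algebraMap K L (u s)) (MvPolynomial.bind₁ (VB1_g b m n) P) = 0} ∩
      {u : (Fin (m * Module.finrank K L) ⊕ Fin (n * Module.finrank K L)) ⊕
      Fin (Module.finrank K L) → K | (fun s => u (Sum.inr s)) ∈
        {v : Fin (Module.finrank K L) → K | ∑ i, v i • b i ∈ J}}) :=
    def_inter O _ _ (def_polyL O _) (def_pre O Sum.inr _ h0)
  obtain ⟨N, hNN⟩ := nip_def O hN _ (def_ex O _ h1)
  refine ⟨N, ?_⟩
  rintro ⟨a, c, hac⟩
  refine hNN ⟨fun i k => b.repr (a i (finProdFinEquiv.symm k).1) (finProdFinEquiv.symm k).2,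
    fun J' k => b.repr (c J' (finProdFinEquiv.symm k).1) (finProdFinEquiv.symm k).2, ?_⟩
  intro i J'
  rw [← hac i J']
  constructor
  · rintro ⟨t, ht1, ht2⟩
    have ht1' : MvPolynomial.eval (fun s => algebraMap K L (Sum.elim (Sum.elim
        (fun k => b.repr (a i (finProdFinEquiv.symm k).1) (finProdFinEquiv.symm k).2)
        (fun k => b.repr (c J' (finProdFinEquiv.symm k).1) (finProdFinEquiv.symm k).2))
        t s)) (MvPolynomial.bind₁ (VB1_g b m n) P) = 0 := ht1
    rw [VB1_eval b m n P (a i) (c J') t] at ht1'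
    refine ⟨1 + ∑ i, t i • b i, ?_, ht1'⟩
    intro i'
    have ht2' : ∀ i, (V i).valuation (∑ j, t j • b j) < 1 := ht2
    have e : (1 + ∑ j, t j • b j) - 1 = ∑ j, t j • b j := by ring
    rw [e]
    exact ht2' i'
  · rintro ⟨w, hw1, hw2⟩
    have hrep : ∑ j, (b.repr (w - 1)) j • b j = w - 1 := b.sum_repr (w - 1)
    refine ⟨fun j => b.repr (w - 1) j, ?_, ?_⟩
    · change MvPolynomial.eval (fun s => algebraMap K L (Sum.elim (Sum.elim
        (fun k => b.repr (a i (finProdFinEquiv.symm k).1) (finProdFinEquiv.symm k).2)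
        (fun k => b.repr (c J' (finProdFinEquiv.symm k).1) (finProdFinEquiv.symm k).2))
        (fun j => b.repr (w - 1) j) s)) (MvPolynomial.bind₁ (VB1_g b m n) P) = 0
      rw [VB1_eval b m n P (a i) (c J') _, hrep, add_sub_cancel]
      exact hw2
    · change ∀ i, (V i).valuation (∑ j, (b.repr (w - 1)) j • b j) < 1
      rw [hrep]
      exact hw1

end Pool.LibHB92
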