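import Pool.Agent.LibHB92.VB1

/-
PLAN (VB2, SHORT/MEDIUM). nosh_mono: restrict a pattern of N' points to the first N (Fin.castLE; J ↦ image of J). rel1: m = 1, n = 4, P := 1 - η (y + r) z - h w^q as a polynomial in the variables none = w, some (inl 0) = y, some (inr j) = r, z, η, h; eval by simp; rel2: m = 3, n = 3, P := (a + t - η y) - h w^q (a + t - η y'). N := max of the two.
-/

set_option autoImplicit false

noncomputable section

namespace Pool.LibHB92

universe u v

open Pool.LibNP88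

theorem nosh_mono {Y : Type u} {I : Type v} {N N' : ℕ} (h : N ≤ N') {A : I → Y → Prop}
    (hA : NoSh N A) : NoSh N' A := by
  rintro ⟨y, b, hyb⟩
  refine hA ⟨fun i => y (Fin.castLE h i), fun J => b (Fin.castLE h '' J), fun i J => ?_⟩
  rw [hyb]
  exact (Fin.castLE_injective h).mem_set_image

theorem bounds {K L : Type u} [Field K] [Field L] [Algebra K L] [FiniteDimensional K L]
    (O : ValuationSubring K) (hN : NIP O) {s : ℕ} (V : Fin s → ValuationSubring L)
    (hJ : ∀ w : L, (∀ i, (V i).valuation w < 1) ↔ ∃ c : Fin (Module.finrank K L) → K,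
      (∀ j, O.valuation (c j) < 1) ∧
      w ^ Module.finrank K L + ∑ j, algebraMap K L (c j) * w ^ (j : ℕ) = 0) (q : ℕ) :
    ∃ N : ℕ, NoSh N (rel1 V q) ∧ NoSh N (rel2 V q) := by
  obtain ⟨N1, h1⟩ := nipL O hN V hJ 1 4
    (1 - MvPolynomial.X (some (Sum.inr 2)) *
      (MvPolynomial.X (some (Sum.inl 0)) + MvPolynomial.X (some (Sum.inr 0))) *
        MvPolynomial.X (some (Sum.inr 1)) -
      MvPolynomial.X (some (Sum.inr 3)) * MvPolynomial.X none ^ q)
  obtain ⟨N2, h2⟩ := nipL O hN V hJ 3 3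
    ((MvPolynomial.X (some (Sum.inl 0)) + MvPolynomial.X (some (Sum.inr 0)) -
      MvPolynomial.X (some (Sum.inr 1)) * MvPolynomial.X (some (Sum.inl 1))) -
      MvPolynomial.X (some (Sum.inr 2)) * MvPolynomial.X none ^ q *
      (MvPolynomial.X (some (Sum.inl 0)) + MvPolynomial.X (some (Sum.inr 0)) -
      MvPolynomial.X (some (Sum.inr 1)) * MvPolynomial.X (some (Sum.inl 2))))
  refine ⟨max N1 N2, nosh_mono (le_max_left _ _) ?_, nosh_mono (le_max_right _ _) ?_⟩
  · rintro ⟨y, b, hyb⟩
    refine h1 ⟨fun i => fun _ => y i, fun J => ![(b J).1, (b J).2.1, (b J).2.2.1, (b J).2.2.2],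
      fun i J => ?_⟩
    rw [← hyb i J]
    unfold rel1
    refine exists_congr fun w => and_congr_right fun _ => ?_
    simp [sub_eq_zero]
  · rintro ⟨y, b, hyb⟩
    refine h2 ⟨fun i => ![(y i).1, (y i).2.1, (y i).2.2], fun J => ![(b J).1, (b J).2.1, (b J).2.2],
      fun i J => ?_⟩
    rw [← hyb i J]
    unfold rel2
    refine exists_congr fun w => and_congr_right fun _ => ?_
    simp [sub_eq_zero]

end Pool.LibHB92
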