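import Pool.Agent.LibHB92.VDef

/-
VC: H / H^q is finite.
-/

set_option autoImplicit false

noncomputable section

namespace Pool.LibHB92

universe u

open Pool.LibNP88

private theorem VC_finite {L : Type u} [Field L] (A : ValuationSubring L) {q : ℕ} (hq : 0 < q) :
    Finite {y : IsLocalRing.ResidueField A // y ^ q = 1} := by
  classical
  have h : {y : IsLocalRing.ResidueField A | y ^ q = 1} ⊆
      ((Polynomial.nthRootsFinset q (1 : IsLocalRing.ResidueField A) : Finset _) : Set _) := by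
    intro y hy
    rw [Finset.mem_coe, Polynomial.mem_nthRootsFinset hq]
    exact hy
  exact ((Finset.finite_toSet _).subset h).to_subtype

private theorem VC_val {L : Type u} [Field L] (A : ValuationSubring L) {q : ℕ} (hq : 0 < q) {z : L}
    (h : A.valuation (z ^ q - 1) < 1) : A.valuation z = 1 := by
  have h1 := val_of_J A h
  rw [map_pow] at h1
  exact (pow_eq_one_iff_of_nonneg zero_le' hq.ne').mp h1

open Classical in
/-- the residue -/
private def VC_r {L : Type u} [Field L] (A : ValuationSubring L) (z : L) : IsLocalRing.ResidueField A :=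
  if h : z ∈ A then IsLocalRing.residue A ⟨z, h⟩ else 0

private theorem VC_r_eq {L : Type u} [Field L] (A : ValuationSubring L) {z : L} (h : z ∈ A) :
    VC_r A z = IsLocalRing.residue A ⟨z, h⟩ := by
  unfold VC_r
  rw [dif_pos h]

private theorem VC_pow {L : Type u} [Field L] (A : ValuationSubring L) {q : ℕ} (hq : 0 < q) {z : L}
    (h : A.valuation (z ^ q - 1) < 1) : VC_r A z ^ q = 1 := by
  have hz : z ∈ A := (A.valuation_le_one_iff z).mp (VC_val A hq h).le
  rw [VC_r_eq A hz, ← map_pow, ← sub_eq_zero, ← map_one (IsLocalRing.residue A), ← map_sub,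
    IsLocalRing.residue_eq_zero_iff, A.valuation_lt_one_iff]
  simpa using h

private theorem VC_eq {L : Type u} [Field L] (A : ValuationSubring L) {q : ℕ} (hq : 0 < q) {z z' : L}
    (h : A.valuation (z ^ q - 1) < 1) (h' : A.valuation (z' ^ q - 1) < 1) (he : VC_r A z = VC_r A z') :
    A.valuation (z * z'⁻¹ - 1) < 1 := by
  have v1 := VC_val A hq h
  have v1' := VC_val A hq h'
  have hz : z ∈ A := (A.valuation_le_one_iff z).mp v1.le
  have hz' : z' ∈ A := (A.valuation_le_one_iff z').mp v1'.le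
  have hz0 : z' ≠ 0 := by
    rintro rfl
    rw [map_zero] at v1'
    exact zero_ne_one v1'
  rw [VC_r_eq A hz, VC_r_eq A hz', ← sub_eq_zero, ← map_sub, IsLocalRing.residue_eq_zero_iff,
    A.valuation_lt_one_iff] at he
  have h2 : A.valuation (z - z') < 1 := by simpa using he
  have h3 : z * z'⁻¹ - 1 = (z - z') * z'⁻¹ := by field_simp
  rw [h3, map_mul, map_inv₀, v1', inv_one, mul_one]
  exact h2

/-- H / H^q is finite -/
theorem fin_F {L : Type u} [Field L] {s : ℕ} (V : Fin s → ValuationSubring L) {q : ℕ}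
    (hq : 0 < q) (hfin : {c : Lˣ ⧸ (powMonoidHom q : Lˣ →* Lˣ).range |
      ∃ u : Lˣ, (QuotientGroup.mk u : Lˣ ⧸ (powMonoidHom q : Lˣ →* Lˣ).range) = c ∧
        J1 V (u : L)}.Finite) : Finite (Fq V q) := by
  set C : Set (Lˣ ⧸ (powMonoidHom q : Lˣ →* Lˣ).range) := {c | ∃ u : Lˣ,
    (QuotientGroup.mk u : Lˣ ⧸ (powMonoidHom q : Lˣ →* Lˣ).range) = c ∧ J1 V (u : L)} with hC
  have hCf : Finite C := hfin.to_subtype
  have hTf : ∀ i, Finite {y : IsLocalRing.ResidueField (V i) // y ^ q = 1} := fun i => VC_finite (V i) hq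
  -- representatives
  have hrep : ∀ x : Fq V q, ∃ u : Hs V, (QuotientGroup.mk u : Fq V q) = x := fun x => QuotientGroup.mk_surjective x
  choose rep hrep using hrep
  have hw : ∀ c : C, ∃ u : Lˣ, (QuotientGroup.mk u : Lˣ ⧸ (powMonoidHom q : Lˣ →* Lˣ).range) = c ∧
    J1 V (u : L) := fun c => c.2
  choose w hw1 hw2 using hw
  let cl : Fq V q → C := fun x => ⟨QuotientGroup.mk ((rep x : Hs V) : Lˣ), ⟨(rep x : Hs V), rfl, (rep x).2⟩⟩
  have hz : ∀ x : Fq V q, ∃ z : Lˣ, z ^ q = (w (cl x))⁻¹ * ((rep x : Hs V) : Lˣ) := by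
    intro x
    have h1 : (QuotientGroup.mk (w (cl x)) : Lˣ ⧸ (powMonoidHom q : Lˣ →* Lˣ).range) =
        QuotientGroup.mk ((rep x : Hs V) : Lˣ) := hw1 (cl x)
    rw [QuotientGroup.eq] at h1
    obtain ⟨z, hz⟩ := h1
    exact ⟨z, hz⟩
  choose z hz using hz
  have hzJ : ∀ x i, (V i).valuation (((z x : Lˣ) : L) ^ q - 1) < 1 := by
    intro x i
    have h1 : (w (cl x))⁻¹ * ((rep x : Hs V) : Lˣ) ∈ Hs V :=
      (Hs V).mul_mem ((Hs V).inv_mem (hw2 (cl x))) (rep x).2
    rw [← hz x] at h1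
    have h2 := h1 i
    simpa using h2
  let f : Fq V q → C × (∀ i, {y : IsLocalRing.ResidueField (V i) // y ^ q = 1}) := fun x =>
    (cl x, fun i => ⟨VC_r (V i) (z x : Lˣ), VC_pow (V i) hq (hzJ x i)⟩)
  refine Finite.of_injective f ?_
  intro x y hxy
  have h1 : cl x = cl y := congrArg Prod.fst hxy
  have h2 : ∀ i, VC_r (V i) ((z x : Lˣ) : L) = VC_r (V i) ((z y : Lˣ) : L) := by
    intro i
    have h3 := congrArg (fun p => (p.2 i).1) hxy
    exact h3
  have h3 : z x * (z y)⁻¹ ∈ Hs V := by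
    intro i
    have := VC_eq (V i) hq (hzJ x i) (hzJ y i) (h2 i)
    simpa using this
  rw [← hrep x, ← hrep y, eq_comm, QuotientGroup.eq]
  refine ⟨⟨z x * (z y)⁻¹, h3⟩, ?_⟩
  apply Subtype.ext
  show (z x * (z y)⁻¹) ^ q = ((rep y : Hs V) : Lˣ)⁻¹ * ((rep x : Hs V) : Lˣ)
  rw [mul_pow, inv_pow, hz x, hz y, h1]
  rw [mul_inv_rev, inv_inv]
  rw [mul_comm (w (cl y))⁻¹, mul_assoc, mul_comm ((rep y : Hs V) : Lˣ)⁻¹, ← mul_assoc (w (cl y))⁻¹,
    inv_mul_cancel, one_mul]
  rw [mul_comm]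

end Pool.LibHB92
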