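import Pool.Agent.LibNP88.V8
import Pool.Agent.LibNP88.V11
import Pool.Agent.LibNP88.M4
import Pool.Agent.LibNP88.M1
import Pool.Agent.LibHB92.Defs

/-
Valuation theoretic definitions. V : Fin s → ValuationSubring L, Rv V their intersection (LibNP88), Hs V the group of the
elements that are congruent to 1 at all places, Fq V q its quotient modulo q-th powers, ph V q the class map.
-/

set_option autoImplicit false

noncomputable section

namespace Pool.LibHB92

universe u

open Pool.LibNP88

/-- x is congruent to 1 at all places -/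
def J1 {L : Type u} [Field L] {s : ℕ} (V : Fin s → ValuationSubring L) (x : L) : Prop :=
  ∀ i, (V i).valuation (x - 1) < 1

theorem val_of_J {L : Type u} [Field L] (A : ValuationSubring L) {x : L}
    (h : A.valuation (x - 1) < 1) : A.valuation x = 1 := by
  have h1 : A.valuation (1 + (x - 1)) = A.valuation (1 : L) :=
    Valuation.map_add_eq_of_lt_left A.valuation (by rw [map_one]; exact h)
  rw [map_one] at h1
  rw [← h1]
  congr 1
  ring

/-- the elements congruent to 1 at all places -/
def Hs {L : Type u} [Field L] {s : ℕ} (V : Fin s → ValuationSubring L) : Subgroup Lˣ where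
  carrier := {u | J1 V (u : L)}
  one_mem' := by
    intro i
    simp
  mul_mem' := by
    intro a b ha hb i
    have h1 : ((a * b : Lˣ) : L) - 1 = (a : L) * ((b : L) - 1) + ((a : L) - 1) := by
      push_cast
      ring
    rw [h1]
    refine lt_of_le_of_lt (Valuation.map_add _ _ _) (max_lt ?_ (ha i))
    rw [map_mul, val_of_J _ (ha i), one_mul]
    exact hb i
  inv_mem' := by
    intro a ha i
    have h1 : ((a⁻¹ : Lˣ) : L) - 1 = -(((a⁻¹ : Lˣ) : L) * ((a : L) - 1)) := by
      have : ((a⁻¹ : Lˣ) : L) * (a : L) = 1 := Units.inv_mul a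
      linear_combination this
    rw [h1, Valuation.map_neg, map_mul, Units.val_inv_eq_inv_val, map_inv₀, val_of_J _ (ha i),
      inv_one, one_mul]
    exact ha i

/-- H / H^q -/
abbrev Fq {L : Type u} [Field L] {s : ℕ} (V : Fin s → ValuationSubring L) (q : ℕ) : Type u :=
  Hs V ⧸ (powMonoidHom q : Hs V →* Hs V).range

open Classical in
/-- the class map -/
def ph {L : Type u} [Field L] {s : ℕ} (V : Fin s → ValuationSubring L) (q : ℕ) (x : L) :
    Fq V q :=
  if h : ∃ u : Hs V, ((u : Lˣ) : L) = x then QuotientGroup.mk h.choose else 1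

/-- the first relation: parameters (r, z, η, h) -/
def rel1 {L : Type u} [Field L] {s : ℕ} (V : Fin s → ValuationSubring L) (q : ℕ)
    (b : L × L × L × L) (y : L) : Prop :=
  ∃ w, J1 V w ∧ 1 - b.2.2.1 * (y + b.1) * b.2.1 = b.2.2.2 * w ^ q

/-- the second relation: parameters (t, η, h), points (a, y, y') -/
def rel2 {L : Type u} [Field L] {s : ℕ} (V : Fin s → ValuationSubring L) (q : ℕ)
    (b : L × L × L) (y : L × L × L) : Prop :=
  ∃ w, J1 V w ∧ y.1 + b.1 - b.2.1 * y.2.1 = b.2.2 * w ^ q * (y.1 + b.1 - b.2.1 * y.2.2)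

end Pool.LibHB92
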