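import Pool.Agent.LibHB92.VDef

/-
PLAN (VE, MEDIUM). v_i := (V i).valuation. e0 from LibNP88.crtV for the targets 1 at i0 and 0 at the other places: v_i0 (e0 - 1) < 1, v_j e0 < 1 for j ≠ i0, all v_i e0 ≤ 1. If all x in S are 0: e := e0, y := 0. Otherwise t in S, t ≠ 0, with v_i0 t maximal among the elements of S (Finset.exists_max_image; t ≠ 0 because some element has v ≠ 0).
If v_i0 t ≤ v_i0 (1 - e0): e := e0. Otherwise v_i0 (1 - e0) < v_i0 t: e := e0 (1 - t), 1 - e = (1 - e0) + t e0 has v_i0 = v_i0 t (v_i0 e0 = 1); v_j e < 1 still (v_j (1 - t) ≤ 1), v_i0 (e - 1) = v_i0 t < 1. In both cases v_i0 t ≤ v_i0 (1 - e), so 1 - e ≠ 0; y := x / (1 - e): v_i0 y ≤ 1; at j ≠ i0 v_j (1 - e) = 1 (v_j e < 1), v_j y = v_j x ≤ 1.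
-/

set_option autoImplicit false

noncomputable section

namespace Pool.LibHB92

universe u

open Pool.LibNP88

/-- the approximate idempotent -/
theorem exists_e {L : Type u} [Field L] {s : ℕ} (V : Fin s → ValuationSubring L)
    (hV : ∀ i j, V i ≤ V j → i = j) (c : ℕ → L) (hc : ∀ i m, (V i).valuation (c m) = 1)
    (hcc : ∀ i m m', m ≠ m' → (V i).valuation (c m - c m') = 1) (i0 : Fin s) (S : Finset L)
    (hS : ∀ x ∈ S, (∀ i, (V i).valuation x ≤ 1) ∧ (V i0).valuation x < 1) :
    ∃ e : L, (V i0).valuation (e - 1) < 1 ∧ (∀ j, j ≠ i0 → (V j).valuation e < 1) ∧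
      (∀ i, (V i).valuation e ≤ 1) ∧
      ∀ x ∈ S, ∃ y : L, (∀ i, (V i).valuation y ≤ 1) ∧ x = (1 - e) * y := by
  classical
  obtain ⟨e0, he0, he1⟩ := crtV V hV c hc hcc (fun j => if j = i0 then 1 else 0)
    (by intro i; split_ifs <;> simp)
  have h0 : (V i0).valuation (e0 - 1) < 1 := by
    have := he1 i0
    simpa using this
  have hj : ∀ j, j ≠ i0 → (V j).valuation e0 < 1 := by
    intro j hj
    have := he1 j
    simpa [hj] using this
  have h1v : ∀ (i : Fin s) (x : L), (V i).valuation x ≤ 1 → (V i).valuation (1 - x) ≤ 1 := by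
    intro i x hx
    refine (Valuation.map_sub _ _ _).trans (max_le ?_ hx)
    rw [map_one]
  by_cases hS0 : ∀ x ∈ S, x = 0
  · refine ⟨e0, h0, hj, he0, fun x hx => ⟨0, by simp, ?_⟩⟩
    rw [hS0 x hx, mul_zero]
  push Not at hS0
  obtain ⟨x0, hx0, hx0'⟩ := hS0
  obtain ⟨t, htS, ht⟩ := Finset.exists_max_image S (fun x => (V i0).valuation x) ⟨x0, hx0⟩
  have ht0 : t ≠ 0 := by
    rintro rfl
    have h := ht x0 hx0
    rw [map_zero] at h
    exact hx0' ((Valuation.zero_iff _).1 (le_antisymm h zero_le))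
  have key : ∃ e : L, (V i0).valuation (e - 1) < 1 ∧ (∀ j, j ≠ i0 → (V j).valuation e < 1) ∧
      (∀ i, (V i).valuation e ≤ 1) ∧ (V i0).valuation t ≤ (V i0).valuation (1 - e) := by
    by_cases hcase : (V i0).valuation t ≤ (V i0).valuation (1 - e0)
    · exact ⟨e0, h0, hj, he0, hcase⟩
    · rw [not_le] at hcase
      have v0 : (V i0).valuation e0 = 1 := val_of_J _ h0
      have v1 : (V i0).valuation (t * e0) = (V i0).valuation t := by rw [map_mul, v0, mul_one]
      have e1 : (V i0).valuation (1 - e0 * (1 - t)) = (V i0).valuation t := by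
        have h1 : 1 - e0 * (1 - t) = t * e0 + (1 - e0) := by ring
        rw [h1, Valuation.map_add_eq_of_lt_left _ (by rw [v1]; exact hcase), v1]
      refine ⟨e0 * (1 - t), ?_, ?_, ?_, e1.ge⟩
      · rw [Valuation.map_sub_swap, e1]
        exact (hS t htS).2
      · intro j hj'
        rw [map_mul]
        exact lt_of_le_of_lt (mul_le_of_le_one_right' (h1v j t ((hS t htS).1 j))) (hj j hj')
      · intro i
        rw [map_mul]
        exact mul_le_one' (he0 i) (h1v i t ((hS t htS).1 i))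
  obtain ⟨e, k1, k2, k3, k4⟩ := key
  have hne : (V i0).valuation (1 - e) ≠ 0 := by
    intro h
    rw [h] at k4
    exact ht0 ((Valuation.zero_iff _).1 (le_antisymm k4 zero_le))
  have hne' : 1 - e ≠ 0 := fun h => hne (by rw [h, map_zero])
  refine ⟨e, k1, k2, k3, fun x hx => ⟨x / (1 - e), ?_, ?_⟩⟩
  · intro i
    by_cases hi : i = i0
    · subst hi
      rw [map_div₀]
      exact div_le_one_of_le₀ ((ht x hx).trans k4) zero_le
    · have h1 : (V i).valuation (1 - e) = 1 := by
        apply val_of_J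
        have h2 : (1 - e) - 1 = -e := by ring
        rw [h2, Valuation.map_neg]
        exact k2 i hi
      rw [map_div₀, h1, div_one]
      exact (hS x hx).1 i
  · rw [mul_div_cancel₀ _ hne']

end Pool.LibHB92
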