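import Pool.Agent.LibHB92.VE

/-
PLAN (VF, MEDIUM/STRONG). 𝔽 a finite subfield of the residue field κ of V i0. Lifts l : 𝔽 → L with all v_i (l b) ≤ 1 and rv V i0 (l b) = b (IsLocalRing.residue surjective, then crtV with target the lift at i0 and 0 elsewhere; residues equal iff valuation of the difference < 1: LibNP88.rv_zero). S := the finite set of all l b + l c - l (b + c), l b * l c - l (b * c), l 1 - 1:
each has all v_i ≤ 1 and residue 0 at i0. e from exists_e, η := e (1 - e), z b := e * l b + (1 - e), t c := e * l c, all in Rv V. Lft: add: z b + t c - z (b + c) = e (l b + l c - l (b + c)) = e (1 - e) y. mul: z b * z c - z (b c) = e (1-e) (l b + l c) + e^2 l b l c + (1-e)^2 - e l(bc) - (1-e) = e (1 - e) (l b + l c - 1 - l b l c + y) with l b l c - l (bc) = (1-e) y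
[check: e^2 l l' - e l(bc) = e (l l' - l(bc)) - e (1-e) l l']. one: z 1 - 1 = e (l 1 - 1) = e (1-e) y. un: for b ≠ 0: residue at i0 of z b is b ≠ 0 (e ≡ 1), at j ≠ i0: z b ≡ 1: all valuations 1, the inverse is in Rv V. The other conclusions: v_i η < 1; v_j (z b - 1) < 1 for j ≠ i0 (e ≡ 0 at j); rv V i0 (z b) = b.
-/

set_option autoImplicit false

noncomputable section

namespace Pool.LibHB92

universe u

open Pool.LibNP88

private theorem VF_le {L : Type u} [Field L] {s : ℕ} (V : Fin s → ValuationSubring L) (i : Fin s)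
    (x : Rv V) : (V i).valuation (x : L) ≤ 1 :=
  (ValuationSubring.valuation_le_one_iff _ _).2 ((mem_Rv V x.1).1 x.2 i)

private theorem VF_unit {L : Type u} [Field L] {s : ℕ} (V : Fin s → ValuationSubring L)
    (i0 : Fin s) (x : Rv V) (h : ∀ i, rv V i x ≠ 0) : IsUnit x := by
  have h1 : ∀ i, (V i).valuation (x : L) = 1 := by
    intro i
    have := h i
    rw [Ne, rv_zero, not_lt] at this
    exact le_antisymm (VF_le V i x) this
  have hx0 : (x : L) ≠ 0 := by
    intro h
    have := h1 i0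
    rw [h, map_zero] at this
    exact zero_ne_one this
  have hi : (x : L)⁻¹ ∈ Rv V := (mem_Rv V _).2 fun i => by
    rw [← ValuationSubring.valuation_le_one_iff, map_inv₀, h1 i, inv_one]
  exact IsUnit.of_mul_eq_one ⟨(x : L)⁻¹, hi⟩ (Subtype.ext (mul_inv_cancel₀ hx0))

private theorem VF_crt {L : Type u} [Field L] {s : ℕ} (V : Fin s → ValuationSubring L)
    (hV : ∀ i j, V i ≤ V j → i = j) (c : ℕ → L) (hc : ∀ i m, (V i).valuation (c m) = 1)
    (hcc : ∀ i m m', m ≠ m' → (V i).valuation (c m - c m') = 1) (i0 : Fin s)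
    (b : IsLocalRing.ResidueField (V i0)) : ∃ x : Rv V, rv V i0 x = b := by
  classical
  obtain ⟨y, hy⟩ := IsLocalRing.residue_surjective (R := V i0) b
  obtain ⟨x, hx1, hx2⟩ := crtV V hV c hc hcc (fun i => if i = i0 then (y : L) else 0) (by
    intro i
    by_cases h : i = i0
    · subst h
      simp only [if_true]
      exact (ValuationSubring.valuation_le_one_iff _ _).2 y.2
    · simp only [if_neg h, map_zero]
      exact zero_le_one)
  refine ⟨⟨x, (mem_Rv V x).2 fun i => (ValuationSubring.valuation_le_one_iff _ _).1 (hx1 i)⟩, ?_⟩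
  rw [← hy]
  have hxi : x ∈ V i0 := (ValuationSubring.valuation_le_one_iff _ _).1 (hx1 i0)
  have h2 : rv V i0 ⟨x, (mem_Rv V x).2 fun i =>
      (ValuationSubring.valuation_le_one_iff _ _).1 (hx1 i)⟩ =
      IsLocalRing.residue (V i0) ⟨x, hxi⟩ := rfl
  rw [h2, ← sub_eq_zero, ← map_sub, IsLocalRing.residue_eq_zero_iff]
  have h3 := hx2 i0
  simp only [if_true] at h3
  exact ((V i0).valuation_lt_one_iff _).2 h3

/-- lifts of a finite subfield of one residue field -/
theorem lifts {L : Type u} [Field L] {s : ℕ} (V : Fin s → ValuationSubring L)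
    (hV : ∀ i j, V i ≤ V j → i = j) (c : ℕ → L) (hc : ∀ i m, (V i).valuation (c m) = 1)
    (hcc : ∀ i m m', m ≠ m' → (V i).valuation (c m - c m') = 1) (i0 : Fin s)
    (𝔽 : Subfield (IsLocalRing.ResidueField (V i0))) [Finite 𝔽] :
    ∃ (η : Rv V) (z t : 𝔽 → Rv V), Lft η 𝔽 z t ∧ (∀ i, (V i).valuation (η : L) < 1) ∧
      (∀ b j, j ≠ i0 → (V j).valuation ((z b : L) - 1) < 1) ∧
      ∀ b : 𝔽, rv V i0 (z b) = (b : IsLocalRing.ResidueField (V i0)) := by
  classical
  letI : Fintype 𝔽 := Fintype.ofFinite 𝔽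
  choose l hl using fun b : 𝔽 => VF_crt V hV c hc hcc i0 (b : IsLocalRing.ResidueField (V i0))
  let S : Finset L := (Finset.univ.image fun p : 𝔽 × 𝔽 => ((l p.1 + l p.2 - l (p.1 + p.2) : Rv V) : L)) ∪
    ((Finset.univ.image fun p : 𝔽 × 𝔽 => ((l p.1 * l p.2 - l (p.1 * p.2) : Rv V) : L)) ∪
      {((l 1 - 1 : Rv V) : L)})
  have hgen : ∀ x : Rv V, rv V i0 x = 0 →
      (∀ i, (V i).valuation (x : L) ≤ 1) ∧ (V i0).valuation (x : L) < 1 := fun x hx =>
    ⟨fun i => VF_le V i x, (rv_zero V i0 x).1 hx⟩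
  have hS : ∀ x ∈ S, (∀ i, (V i).valuation x ≤ 1) ∧ (V i0).valuation x < 1 := by
    intro x hx
    simp only [S, Finset.mem_union, Finset.mem_image, Finset.mem_univ, true_and,
      Finset.mem_singleton] at hx
    rcases hx with ⟨p, rfl⟩ | ⟨p, rfl⟩ | rfl
    · apply hgen
      rw [map_sub, map_add, hl, hl, hl]
      push_cast
      ring
    · apply hgen
      rw [map_sub, map_mul, hl, hl, hl]
      push_cast
      ring
    · apply hgen
      rw [map_sub, map_one, hl]
      push_cast
      ring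
  obtain ⟨e, he1, he2, he3, he4⟩ := exists_e V hV c hc hcc i0 S hS
  let E : Rv V := ⟨e, (mem_Rv V e).2 fun i => (ValuationSubring.valuation_le_one_iff _ _).1 (he3 i)⟩
  have hE0 : rv V i0 E = 1 := by
    have h1 : rv V i0 (E - 1) = 0 := (rv_zero V i0 _).2 he1
    rw [map_sub, map_one] at h1
    exact sub_eq_zero.1 h1
  have hEj : ∀ j, j ≠ i0 → rv V j E = 0 := fun j hj => (rv_zero V j E).2 (he2 j hj)
  have hdiv : ∀ x : Rv V, (x : L) ∈ S → ∃ y : Rv V, x = (1 - E) * y := by
    intro x hx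
    obtain ⟨y, hy1, hy2⟩ := he4 _ hx
    exact ⟨⟨y, (mem_Rv V y).2 fun i => (ValuationSubring.valuation_le_one_iff _ _).1 (hy1 i)⟩,
      Subtype.ext hy2⟩
  have hadd : ∀ b b' : 𝔽, ∃ y : Rv V, l b + l b' - l (b + b') = (1 - E) * y := by
    intro b b'
    apply hdiv
    simp only [S, Finset.mem_union, Finset.mem_image, Finset.mem_univ, true_and]
    exact Or.inl ⟨(b, b'), rfl⟩
  have hmul : ∀ b b' : 𝔽, ∃ y : Rv V, l b * l b' - l (b * b') = (1 - E) * y := by
    intro b b'
    apply hdiv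
    simp only [S, Finset.mem_union, Finset.mem_image, Finset.mem_univ, true_and]
    exact Or.inr (Or.inl ⟨(b, b'), rfl⟩)
  have hone : ∃ y : Rv V, l 1 - 1 = (1 - E) * y := by
    apply hdiv
    simp only [S, Finset.mem_union, Finset.mem_singleton]
    exact Or.inr (Or.inr trivial)
  have hz0 : ∀ b : 𝔽, rv V i0 (E * l b + (1 - E)) = (b : IsLocalRing.ResidueField (V i0)) := by
    intro b
    rw [map_add, map_mul, map_sub, map_one, hE0, hl]
    ring
  have hzj : ∀ (b : 𝔽) (j : Fin s), j ≠ i0 → rv V j (E * l b + (1 - E)) = 1 := by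
    intro b j hj
    rw [map_add, map_mul, map_sub, map_one, hEj j hj]
    ring
  refine ⟨E * (1 - E), fun b => E * l b + (1 - E), fun b => E * l b, ⟨?_, ?_, ?_, ?_⟩, ?_, ?_, hz0⟩
  · intro b hb
    apply VF_unit V i0
    intro i
    by_cases hi : i = i0
    · subst hi
      rw [hz0 b]
      intro h
      exact hb (Subtype.ext h)
    · rw [hzj b i hi]
      exact one_ne_zero
  · intro b b'
    obtain ⟨y, hy⟩ := hmul b b'
    refine ⟨y - l b * l b' + l b + l b' - 1, ?_⟩
    linear_combination E * hy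
  · intro b b'
    obtain ⟨y, hy⟩ := hadd b b'
    refine ⟨y, ?_⟩
    linear_combination E * hy
  · obtain ⟨y, hy⟩ := hone
    refine ⟨y, ?_⟩
    linear_combination E * hy
  · intro i
    rw [← rv_zero, map_mul, map_sub, map_one]
    by_cases hi : i = i0
    · subst hi
      rw [hE0]
      ring
    · rw [hEj i hi]
      ring
  · intro b j hj
    have h1 : rv V j (E * l b + (1 - E) - 1) = 0 := by
      rw [map_sub, hzj b j hj, map_one, sub_self]
    exact (rv_zero V j _).1 h1

end Pool.LibHB92
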