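import Pool.Agent.LibHB92.VDef

/-
PLAN (VG, MEDIUM). subfields: the set of elements algebraic over ZMod p is infinite: take a finset T of n elements of it and ζ (algebraic: root of X^q - 1, q > 0); 𝔽 := the subfield generated: IntermediateField.adjoin (ZMod p) (T ∪ {ζ}) is finite dimensional over ZMod p (IntermediateField.finiteDimensional_adjoin, integral elements), so finite (Module.finite_of_finite),
take .toSubfield; card ≥ n as it contains T. inf_up: the map ResidueField O → ResidueField A induced by algebraMap (A.comap = O, local): x ↦ residue of a lift; it is an injective ring hom (IsLocalRing.ResidueField.map of the local hom O → A) and maps elements algebraic over ZMod p to such elements. val_q: residue of q in the residue field of O is nonzero as q is prime,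
q ≠ p (CharP.cast_eq_zero_iff), so O.valuation q = 1 (ValuationSubring.valuation_eq_one_iff / residue_eq_zero_iff); val_one from LibNP88.V1 gives A. charP_up: CharP of the residue field of A: p = 0 in ResidueField O maps to 0.
-/

set_option autoImplicit false

noncomputable section

namespace Pool.LibHB92

universe u

open Pool.LibNP88

/-- large finite subfields that contain ζ -/
theorem subfields {κ : Type u} [Field κ] (p : ℕ) [Fact p.Prime] [CharP κ p] [Algebra (ZMod p) κ]
    (hinf : {x : κ | IsAlgebraic (ZMod p) x}.Infinite) {q : ℕ} (hq : 0 < q) (ζ : κ)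
    (hζ : ζ ^ q = 1) (n : ℕ) : ∃ 𝔽 : Subfield κ, Finite 𝔽 ∧ n ≤ Nat.card 𝔽 ∧ ζ ∈ 𝔽 := by
  classical
  obtain ⟨T, hT, hTn⟩ := hinf.exists_subset_card_eq n
  let S : Set κ := insert ζ (T : Set κ)
  have hS : S.Finite := T.finite_toSet.insert ζ
  have hSi : ∀ x ∈ S, IsIntegral (ZMod p) x := by
    intro x hx
    rcases hx with rfl | hx
    · refine IsIntegral.of_pow hq ?_
      rw [hζ]
      exact isIntegral_one
    · exact (hT hx).isIntegral
  let E : IntermediateField (ZMod p) κ := IntermediateField.adjoin (ZMod p) S
  have hSf : Finite S := hS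
  have hfd : FiniteDimensional (ZMod p) E := IntermediateField.finiteDimensional_adjoin hSi
  have hfin : Finite E := Module.finite_of_finite (ZMod p)
  have hsub : S ⊆ E := IntermediateField.subset_adjoin _ _
  refine ⟨E.toSubfield, hfin, ?_, hsub (Set.mem_insert _ _)⟩
  have h1 : Nat.card (T : Set κ) ≤ Nat.card (E : Set κ) :=
    Nat.card_mono (Set.toFinite _) (fun x hx => hsub (Set.mem_insert_of_mem _ hx))
  rw [Nat.card_eq_card_toFinset] at h1
  simpa [hTn] using h1

private def rr {K L : Type u} [Field K] [Field L] [Algebra K L] (O : ValuationSubring K)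
    (A : ValuationSubring L) (hA : A.comap (algebraMap K L) = O) : O →+* A :=
  RingHom.codRestrict ((algebraMap K L).comp O.subtype) A (fun x => by
    have h : (x : K) ∈ A.comap (algebraMap K L) := by
      rw [hA]
      exact x.2
    exact h)

private theorem rr_coe {K L : Type u} [Field K] [Field L] [Algebra K L] (O : ValuationSubring K)
    (A : ValuationSubring L) (hA : A.comap (algebraMap K L) = O) (x : O) :
    ((rr O A hA x : A) : L) = algebraMap K L x := rfl

private theorem rr_local {K L : Type u} [Field K] [Field L] [Algebra K L] (O : ValuationSubring K)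
    (A : ValuationSubring L) (hA : A.comap (algebraMap K L) = O) : IsLocalHom (rr O A hA) := by
  constructor
  intro x hx
  rw [ValuationSubring.valuation_eq_one_iff, rr_coe, val_one O A hA] at hx
  exact (ValuationSubring.valuation_eq_one_iff _ _).2 hx

private theorem exists_rmap {K L : Type u} [Field K] [Field L] [Algebra K L]
    (O : ValuationSubring K) (A : ValuationSubring L) (hA : A.comap (algebraMap K L) = O) :
    Nonempty (IsLocalRing.ResidueField O →+* IsLocalRing.ResidueField A) := by
  have := rr_local O A hA
  exact ⟨IsLocalRing.ResidueField.map (rr O A hA)⟩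

theorem charP_up {K L : Type u} [Field K] [Field L] [Algebra K L] (O : ValuationSubring K)
    (A : ValuationSubring L) (hA : A.comap (algebraMap K L) = O) (p : ℕ)
    [CharP (IsLocalRing.ResidueField O) p] : CharP (IsLocalRing.ResidueField A) p := by
  obtain ⟨f⟩ := exists_rmap O A hA
  exact charP_of_injective_ringHom f.injective p

theorem inf_up {K L : Type u} [Field K] [Field L] [Algebra K L] (O : ValuationSubring K)
    (A : ValuationSubring L) (hA : A.comap (algebraMap K L) = O) (p : ℕ) [Fact p.Prime]
    [Algebra (ZMod p) (IsLocalRing.ResidueField O)] [Algebra (ZMod p) (IsLocalRing.ResidueField A)]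
    (hinf : {x : IsLocalRing.ResidueField O | IsAlgebraic (ZMod p) x}.Infinite) :
    {x : IsLocalRing.ResidueField A | IsAlgebraic (ZMod p) x}.Infinite := by
  obtain ⟨f⟩ := exists_rmap O A hA
  refine (hinf.image f.injective.injOn).mono ?_
  rintro _ ⟨x, hx, rfl⟩
  have hf : f.comp (algebraMap (ZMod p) (IsLocalRing.ResidueField O)) =
      algebraMap (ZMod p) (IsLocalRing.ResidueField A) := Subsingleton.elim _ _
  obtain ⟨P, hP, hP0⟩ := hx
  refine ⟨P, hP, ?_⟩
  rw [Polynomial.aeval_def] at hP0 ⊢
  rw [← hf, ← Polynomial.hom_eval₂, hP0, map_zero]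

theorem val_q {K L : Type u} [Field K] [Field L] [Algebra K L] (O : ValuationSubring K)
    (A : ValuationSubring L) (hA : A.comap (algebraMap K L) = O) {p q : ℕ} (hp : p.Prime)
    (hq : q.Prime) (hne : q ≠ p) [CharP (IsLocalRing.ResidueField O) p] :
    A.valuation (q : L) = 1 := by
  have h0 : ((q : ℕ) : IsLocalRing.ResidueField O) ≠ 0 := by
    intro h
    rw [CharP.cast_eq_zero_iff _ p] at h
    exact hne ((Nat.prime_dvd_prime_iff_eq hp hq).1 h).symm
  have h1 : IsUnit ((q : ℕ) : O) := by
    by_contra h
    apply h0
    have h2 := (IsLocalRing.residue_eq_zero_iff ((q : ℕ) : O)).2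
      ((IsLocalRing.mem_maximalIdeal _).2 h)
    rwa [map_natCast] at h2
  rw [ValuationSubring.valuation_eq_one_iff] at h1
  have h3 := (val_one O A hA ((q : ℕ) : K)).2 (by simpa using h1)
  rwa [map_natCast] at h3

end Pool.LibHB92
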