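import Pool.Agent.LibHB92.VDef

/-
PLAN (VH, MEDIUM). Copy the proof of LibNP88.choose_L (Pool/Agent/LibNP88/V10.lean, proved) with K1 and the root condition removed: L := j0.fieldRange ⊔ adjoin {z} in AlgebraicClosure K, z a primitive q-th root of unity.
-/

set_option autoImplicit false

noncomputable section

namespace Pool.LibHB92

universe u

open Pool.LibNP88

private theorem VH_aux {K : Type u} [Field K] (O : ValuationSubring K)
    {q : ℕ} (_hq : q.Prime) (hqK : (q : K) ≠ 0) (E : Type u) [Field E] [Algebra K E]
    [Algebra.IsAlgebraic K E] (A B : ValuationSubring E) (hA : A.comap (algebraMap K E) = O)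
    (hB : B.comap (algebraMap K E) = O) (x : E) (hxA : x ∈ A) (hxB : x ∉ B) :
    ∃ (L : Type u) (_ : Field L) (_ : Algebra K L) (_ : FiniteDimensional K L),
      (∃ z : L, IsPrimitiveRoot z q) ∧
      ∃ A' B' : ValuationSubring L, A'.comap (algebraMap K L) = O ∧
        B'.comap (algebraMap K L) = O ∧ A' ≠ B' := by
  classical
  let j : E →ₐ[K] AlgebraicClosure K := IsAlgClosed.lift
  have hqΩ : ((q : ℕ) : AlgebraicClosure K) ≠ 0 := by
    have := (map_ne_zero (algebraMap K (AlgebraicClosure K))).mpr hqK
    rwa [map_natCast] at this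
  have : NeZero ((q : ℕ) : AlgebraicClosure K) := ⟨hqΩ⟩
  obtain ⟨z, hz⟩ := HasEnoughRootsOfUnity.exists_primitiveRoot (AlgebraicClosure K) q
  have hext : ∀ C : ValuationSubring E, C.comap (algebraMap K E) = O →
      ∃ C' : ValuationSubring (AlgebraicClosure K), C'.comap j.toRingHom = C ∧
        C'.comap (algebraMap K (AlgebraicClosure K)) = O := by
    intro C hC
    let : Algebra E (AlgebraicClosure K) := j.toRingHom.toAlgebra
    obtain ⟨C', hC'⟩ := ext_exists C (AlgebraicClosure K)
    refine ⟨C', hC', ?_⟩
    rw [← hC, ← hC', ValuationSubring.comap_comap]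
    congr 1
    exact (j.comp_algebraMap).symm
  obtain ⟨A'', hA1, hA2⟩ := hext A hA
  obtain ⟨B'', hB1, hB2⟩ := hext B hB
  let L : IntermediateField K (AlgebraicClosure K) :=
    IntermediateField.adjoin K {j x} ⊔ IntermediateField.adjoin K {z}
  have hjx : j x ∈ L := by
    apply (le_sup_left : IntermediateField.adjoin K {j x} ≤ L)
    exact IntermediateField.mem_adjoin_simple_self K (j x)
  have hzL : z ∈ L := by
    apply (le_sup_right : IntermediateField.adjoin K {z} ≤ L)
    exact IntermediateField.mem_adjoin_simple_self K z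
  have hf1 : FiniteDimensional K (IntermediateField.adjoin K {j x}) :=
    IntermediateField.adjoin.finiteDimensional (Algebra.IsIntegral.isIntegral (j x))
  have hf2 : FiniteDimensional K (IntermediateField.adjoin K {z}) :=
    IntermediateField.adjoin.finiteDimensional (Algebra.IsIntegral.isIntegral z)
  have hfL : FiniteDimensional K L := IntermediateField.finiteDimensional_sup _ _
  refine ⟨L, inferInstance, inferInstance, hfL, ⟨⟨z, hzL⟩, ?_⟩, ?_⟩
  · exact IsPrimitiveRoot.of_map_of_injective (f := L.val) (by simpa using hz) L.val.injective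
  · refine ⟨A''.comap (algebraMap L (AlgebraicClosure K)),
      B''.comap (algebraMap L (AlgebraicClosure K)), ?_, ?_, ?_⟩
    · rw [ValuationSubring.comap_comap, ← hA2]
      rfl
    · rw [ValuationSubring.comap_comap, ← hB2]
      rfl
    · intro heq
      have h1 : (⟨j x, hjx⟩ : L) ∈ A''.comap (algebraMap L (AlgebraicClosure K)) := by
        rw [ValuationSubring.mem_comap]
        have : x ∈ A''.comap j.toRingHom := by rw [hA1]; exact hxA
        exact this
      rw [heq, ValuationSubring.mem_comap] at h1
      apply hxB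
      rw [← hB1]
      exact h1

/-- choice of the finite extension L -/
theorem choose_L' {K : Type u} [Field K] (O : ValuationSubring K) {q : ℕ} (hq : q.Prime)
    (hqK : (q : K) ≠ 0) (E : Type u) [Field E] [Algebra K E]
    [Algebra.IsAlgebraic K E] (A B : ValuationSubring E) (hA : A.comap (algebraMap K E) = O)
    (hB : B.comap (algebraMap K E) = O) (hne : A ≠ B) :
    ∃ (L : Type u) (_ : Field L) (_ : Algebra K L) (_ : FiniteDimensional K L),
      (∃ z : L, IsPrimitiveRoot z q) ∧
      ∃ A' B' : ValuationSubring L, A'.comap (algebraMap K L) = O ∧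
        B'.comap (algebraMap K L) = O ∧ A' ≠ B' := by
  by_cases hAB : A ≤ B
  · have hBA : ¬ B ≤ A := fun h' => hne (le_antisymm hAB h')
    obtain ⟨x, hxB, hxA⟩ := Set.not_subset.mp hBA
    exact VH_aux O hq hqK E B A hB hA x hxB hxA
  · obtain ⟨x, hxA, hxB⟩ := Set.not_subset.mp hAB
    exact VH_aux O hq hqK E A B hA hB x hxA hxB

end Pool.LibHB92
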