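import Pool.Agent.LibHB92.Z

/-
Assembly, third part (helper92): from a cofinal family of finite extensions to all algebraic extensions.
-/

set_option autoImplicit false

noncomputable section

namespace Pool.LibHB92

universe u

open Pool.LibNP88

private theorem Z3_aux {K : Type u} [Field K] (O : ValuationSubring K)
    (h : ∀ (L : Type u) [Field L] [Algebra K L] [FiniteDimensional K L],
      ∃ (L' : Type u) (_ : Field L') (_ : Algebra K L') (_ : Algebra L L')
        (_ : IsScalarTower K L L'), ∀ A B : ValuationSubring L',
          A.comap (algebraMap K L') = O → B.comap (algebraMap K L') = O → A = B)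
    (E : Type u) [Field E] [Algebra K E] [Algebra.IsAlgebraic K E] (A B : ValuationSubring E)
    (hA : A.comap (algebraMap K E) = O) (hB : B.comap (algebraMap K E) = O) : A ≤ B := by
  intro x hx
  have hi : IsIntegral K x := (Algebra.IsAlgebraic.isAlgebraic (R := K) x).isIntegral
  have hf : FiniteDimensional K (IntermediateField.adjoin K {x}) :=
    IntermediateField.adjoin.finiteDimensional hi
  obtain ⟨L', _, _, _, _, huni⟩ := h (IntermediateField.adjoin K {x})
  let A1 : ValuationSubring (IntermediateField.adjoin K {x}) :=
    A.comap (algebraMap (IntermediateField.adjoin K {x}) E)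
  let B1 : ValuationSubring (IntermediateField.adjoin K {x}) :=
    B.comap (algebraMap (IntermediateField.adjoin K {x}) E)
  obtain ⟨A2, hA2⟩ := ext_exists A1 L'
  obtain ⟨B2, hB2⟩ := ext_exists B1 L'
  have e : ∀ (W : ValuationSubring L') (W1 : ValuationSubring E),
      W.comap (algebraMap (IntermediateField.adjoin K {x}) L') =
        W1.comap (algebraMap (IntermediateField.adjoin K {x}) E) →
      W1.comap (algebraMap K E) = O → W.comap (algebraMap K L') = O := by
    intro W W1 h1 h2
    rw [← h2, IsScalarTower.algebraMap_eq K (IntermediateField.adjoin K {x}) L',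
      IsScalarTower.algebraMap_eq K (IntermediateField.adjoin K {x}) E,
      ← ValuationSubring.comap_comap, ← ValuationSubring.comap_comap, h1]
  have h3 : A2 = B2 := huni A2 B2 (e A2 A hA2 hA) (e B2 B hB2 hB)
  have h4 : A1 = B1 := by rw [← hA2, ← hB2, h3]
  have h5 : (⟨x, IntermediateField.mem_adjoin_simple_self K x⟩ :
      IntermediateField.adjoin K {x}) ∈ A1 := hx
  rw [h4] at h5
  exact h5

/-- uniqueness on a cofinal family of finite extensions implies henselian -/
theorem of_cofinal {K : Type u} [Field K] (O : ValuationSubring K)
    (h : ∀ (L : Type u) [Field L] [Algebra K L] [FiniteDimensional K L],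
      ∃ (L' : Type u) (_ : Field L') (_ : Algebra K L') (_ : Algebra L L')
        (_ : IsScalarTower K L L'), ∀ A B : ValuationSubring L',
          A.comap (algebraMap K L') = O → B.comap (algebraMap K L') = O → A = B)
    (E : Type u) [Field E] [Algebra K E] [Algebra.IsAlgebraic K E] :
    ∃! A : ValuationSubring E, A.comap (algebraMap K E) = O := by
  obtain ⟨A, hA⟩ := ext_exists O E
  exact ⟨A, hA, fun B hB => le_antisymm (Z3_aux O h E B A hB hA) (Z3_aux O h E A B hA hB)⟩

end Pool.LibHB92
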