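import Pool.Agent.LibHB92.Z
import Pool.Agent.LibHB92.Z3
import Pool.Agent.LibHB92.QE
import Pool.Agent.LibHB92.QF
import Pool.Agent.LibHB92.X1

/-
X2 (helper92): the roots of unity in the residue field. If the residue field of one extension A of O to L contains a
primitive q-th root of unity and Cls O q L is finite, then L contains a primitive q-th root of unity and A is the only
extension of O to L.
-/

set_option autoImplicit false

noncomputable section

namespace Pool.LibHB92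

universe u

open Pool.LibNP88

private theorem X2_back {K L : Type u} [Field K] [Field L] [Algebra K L] [FiniteDimensional K L]
    (O : ValuationSubring K) (V : ValuationSubring L) (hV : V.comap (algebraMap K L) = O) (w : L)
    (c : Fin (Module.finrank K L) → K) (hc : ∀ j, O.valuation (c j) < 1)
    (hw : w ^ Module.finrank K L + ∑ j, algebraMap K L (c j) * w ^ (j : ℕ) = 0) :
    V.valuation w < 1 := by
  by_contra hcon
  rw [not_lt] at hcon
  have h0 : 0 < V.valuation w := lt_of_lt_of_le zero_lt_one hcon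
  have h1 : V.valuation (∑ j, algebraMap K L (c j) * w ^ (j : ℕ)) <
      V.valuation w ^ Module.finrank K L := by
    apply Valuation.map_sum_lt _ (pow_ne_zero _ h0.ne')
    intro j _
    rw [map_mul, map_pow]
    have h2 : V.valuation (algebraMap K L (c j)) < 1 := (val_lt O V hV (c j)).2 (hc j)
    have h3 : V.valuation w ^ (j : ℕ) ≤ V.valuation w ^ Module.finrank K L :=
      pow_le_pow_right₀ hcon j.2.le
    refine lt_of_lt_of_le ?_ h3
    exact mul_lt_of_lt_one_left (pow_pos h0 _) h2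
  have h4 : w ^ Module.finrank K L = - ∑ j, algebraMap K L (c j) * w ^ (j : ℕ) :=
    eq_neg_of_add_eq_zero_left hw
  have h5 := congrArg V.valuation h4
  rw [map_pow, Valuation.map_neg] at h5
  rw [h5] at h1
  exact lt_irrefl _ h1

/-- a unit of the intersection -/
private theorem X2_unit {L : Type u} [Field L] {s : ℕ} (hs : 0 < s)
    (V : Fin s → ValuationSubring L) (x : Rv V) (h : ∀ i, (V i).valuation (x : L) = 1) :
    IsUnit x := by
  have hx0 : (x : L) ≠ 0 := by
    intro h0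
    have := h ⟨0, hs⟩
    rw [h0, map_zero] at this
    exact zero_ne_one this
  have hmem : ((x : L))⁻¹ ∈ Rv V := by
    rw [mem_Rv]
    intro i
    rw [← ValuationSubring.valuation_le_one_iff, map_inv₀, h i, inv_one]
  refine ⟨⟨x, ⟨(x : L)⁻¹, hmem⟩, ?_, ?_⟩, rfl⟩
  · exact Subtype.ext (mul_inv_cancel₀ hx0)
  · exact Subtype.ext (inv_mul_cancel₀ hx0)

private theorem X2_dif {L : Type u} [Field L] {s : ℕ} (hs : 0 < s)
    (V : Fin s → ValuationSubring L) (c : ℕ → L) (hc : ∀ i m, (V i).valuation (c m) = 1)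
    (hcc : ∀ i m m', m ≠ m' → (V i).valuation (c m - c m') = 1) : Dif (Rv V) := by
  intro n
  have hmem : ∀ m, c m ∈ Rv V := by
    intro m
    rw [mem_Rv]
    intro i
    rw [← ValuationSubring.valuation_le_one_iff]
    exact (hc i m).le
  have hu : ∀ m : ℕ, IsUnit (⟨c m, hmem m⟩ : Rv V) := fun m => X2_unit hs V _ fun i => hc i m
  refine ⟨fun k => (hu k).unit, ?_⟩
  intro i j hij
  refine X2_unit hs V _ fun k => ?_
  have h1 : ((((hu i).unit : (Rv V)ˣ) : Rv V) - (((hu j).unit : (Rv V)ˣ) : Rv V) : Rv V) =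
      (⟨c i, hmem i⟩ : Rv V) - ⟨c j, hmem j⟩ := by
    rw [IsUnit.unit_spec, IsUnit.unit_spec]
  rw [h1]
  exact hcc k i j fun h => hij (Fin.ext h)

/-- the main step: the root of unity of one residue field lifts to a root of unity of L that is 1 at the other
places -/
theorem root_lift {K : Type u} [Field K] (O : ValuationSubring K) (hN : NIP O) {p q : ℕ}
    (hp : p.Prime) (hq : q.Prime) (hne : q ≠ p) [CharP (IsLocalRing.ResidueField O) p]
    [Infinite (IsLocalRing.ResidueField O)] (L : Type u) [Field L] [Algebra K L]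
    [FiniteDimensional K L]
    (hfin : {c : Lˣ ⧸ (powMonoidHom q : Lˣ →* Lˣ).range |
        ∃ u : Lˣ, (QuotientGroup.mk u : Lˣ ⧸ (powMonoidHom q : Lˣ →* Lˣ).range) = c ∧
          ∀ A : ValuationSubring L, A.comap (algebraMap K L) = O →
            A.valuation ((u : L) - 1) < 1}.Finite)
    (A B : ValuationSubring L) (hA : A.comap (algebraMap K L) = O)
    (hB : B.comap (algebraMap K L) = O)
    (hζ : ∃ ζ : IsLocalRing.ResidueField A, IsPrimitiveRoot ζ q) :
    ∃ ξ : L, ξ ^ q = 1 ∧ ¬ A.valuation (ξ - 1) < 1 ∧ (A ≠ B → B.valuation (ξ - 1) < 1) := by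
  classical
  obtain ⟨s, V, hVi, hVO, ⟨i0, hi0⟩, ⟨j0, hj0⟩, hJ⟩ := family1 O A B hA hB
  subst hi0
  have hs0 : 0 < s := i0.pos
  have hV : ∀ i j, V i ≤ V j → i = j := fun i j hij =>
    hVi (incomp O (V i) (V j) (hVO i) (hVO j) hij)
  obtain ⟨c, hc, hcc⟩ := seq O inferInstance
  have hc' : ∀ i m, (V i).valuation (algebraMap K L (c m)) = 1 := fun i m =>
    (val_one O (V i) (hVO i) _).2 (hc m)
  have hcc' : ∀ i m m', m ≠ m' →
      (V i).valuation (algebraMap K L (c m) - algebraMap K L (c m')) = 1 := by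
    intro i m m' hm
    rw [← map_sub]
    exact (val_one O (V i) (hVO i) _).2 (hcc m m' hm)
  have hq1 : ∀ i, (V i).valuation (q : L) = 1 := fun i => val_q O (V i) (hVO i) hp hq hne
  have hF : Finite (Fq V q) := by
    refine fin_F V hq.pos (hfin.subset ?_)
    rintro c ⟨u, hu, hu'⟩
    refine ⟨u, hu, ?_⟩
    intro W hW
    obtain ⟨c, hc1, hc2⟩ := (hJ ((u : L) - 1)).1 hu'
    exact X2_back O W hW _ c hc1 hc2
  let _ : Fintype (Fq V q) := Fintype.ofFinite _
  obtain ⟨N, h1, h2⟩ := bounds O hN V hJ q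
  obtain ⟨Q0, hcore⟩ := core.{u} N (Fintype.card (Fq V q)) q hq.pos
  have _ : Fact p.Prime := ⟨hp⟩
  let _ : Algebra (ZMod p) (IsLocalRing.ResidueField O) := ZMod.algebra _ p
  obtain ⟨N', hN'⟩ := nip_as O hN p
  have hinfA := alg_inf (k := IsLocalRing.ResidueField O) p fun t => as_surj p hN' t
  have _ : CharP (IsLocalRing.ResidueField (V i0)) p := charP_up O (V i0) (hVO i0) p
  let _ : Algebra (ZMod p) (IsLocalRing.ResidueField (V i0)) := ZMod.algebra _ p
  have hinfL := inf_up O (V i0) (hVO i0) p hinfA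
  obtain ⟨ζ0, hζ0⟩ := hζ
  have hζ1 : ζ0 ^ q = 1 := hζ0.pow_eq_one
  have hζ2 : ζ0 ≠ 1 := hζ0.ne_one hq.one_lt
  obtain ⟨𝔽, h𝔽, h𝔽c, h𝔽ζ⟩ := subfields p hinfL hq.pos ζ0 hζ1 Q0
  obtain ⟨η, zz, t, hL, hη, hzj, hzi⟩ := lifts V hV (fun m => algebraMap K L (c m)) hc' hcc' i0 𝔽
  let _ : Fintype 𝔽 := Fintype.ofFinite 𝔽
  have hcard : Q0 ≤ Fintype.card 𝔽 := by
    rw [← Nat.card_eq_fintype_card]
    exact h𝔽c
  have hD := dat_of hs0 h1 h2 η hη
  have hdif := X2_dif hs0 V (fun m => algebraMap K L (c m)) hc' hcc'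
  obtain ⟨ζ, hζd⟩ : ∃ ζ : 𝔽, ζ = ⟨ζ0, h𝔽ζ⟩ := ⟨_, rfl⟩
  have hζq : ζ ^ q = 1 := by
    rw [hζd]
    exact Subtype.ext hζ1
  have h3 := hcore (Rv V) (Fq V q) le_rfl fq_pow η _ hD hdif 𝔽 hcard zz t hL ζ hζq
  have hw : rv V i0 (zz ζ) = ζ0 := by
    rw [hzi, hζd]
  have hJ1 : J1 V ((zz ζ : L) ^ q) := by
    intro i
    have h4 : rv V i (zz ζ ^ q - 1) = 0 := by
      by_cases hi : i = i0
      · subst hi
        rw [map_sub, map_pow, hw, hζ1, map_one, sub_self]
      · have h5 : rv V i (zz ζ - 1) = 0 := by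
          rw [rv_zero]
          exact hzj ζ i hi
        rw [map_sub, map_one, sub_eq_zero] at h5
        rw [map_sub, map_pow, h5, one_pow, map_one, sub_self]
    rw [rv_zero] at h4
    exact h4
  have h3' : ph V q ((zz ζ : L) ^ q) = QuotientGroup.mk (1 : Hs V) := h3
  obtain ⟨w, hw1, hw2⟩ := (ph_eq_iff hs0 hJ1 1).1 h3'
  rw [OneMemClass.coe_one, Units.val_one, one_mul] at hw2
  have hw0 : w ≠ 0 := J1.ne_zero hs0 hw1
  have hvw : ∀ i, (V i).valuation w = 1 := fun i => val_of_J _ (hw1 i)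
  -- valuation of z/w - 1 and z - 1
  have key : ∀ i, (V i).valuation ((zz ζ : L) / w - 1) < 1 ↔
      (V i).valuation ((zz ζ : L) - 1) < 1 := by
    intro i
    have e1 : (zz ζ : L) / w - 1 = (((zz ζ : L) - 1) - (w - 1)) * w⁻¹ := by
      field_simp
      ring
    have e2 : (V i).valuation ((zz ζ : L) / w - 1) =
        (V i).valuation (((zz ζ : L) - 1) - (w - 1)) := by
      rw [e1, map_mul, map_inv₀, hvw i, inv_one, mul_one]
    rw [e2]
    constructor
    · intro h
      have e3 : (zz ζ : L) - 1 = (((zz ζ : L) - 1) - (w - 1)) + (w - 1) := by ring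
      rw [e3]
      exact Valuation.map_add_lt _ h (hw1 i)
    · intro h
      exact Valuation.map_sub_lt _ h (hw1 i)
  refine ⟨(zz ζ : L) / w, ?_, ?_, ?_⟩
  · rw [div_pow, hw2, div_self (pow_ne_zero q hw0)]
  · rw [key i0]
    intro h4
    have h5 : rv V i0 (zz ζ - 1) = 0 := by
      rw [rv_zero]
      exact h4
    rw [map_sub, hw, map_one, sub_eq_zero] at h5
    exact hζ2 h5
  · intro hAB
    subst hj0
    rw [key j0]
    exact hzj ζ j0 fun h => hAB (by rw [h])

/-- the root of unity lifts and the extension is unique -/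
theorem root_unique {K : Type u} [Field K] (O : ValuationSubring K) (hN : NIP O) {p q : ℕ}
    (hp : p.Prime) (hq : q.Prime) (hne : q ≠ p) [CharP (IsLocalRing.ResidueField O) p]
    [Infinite (IsLocalRing.ResidueField O)] (L : Type u) [Field L] [Algebra K L]
    [FiniteDimensional K L]
    (hζ : ∃ A : ValuationSubring L, A.comap (algebraMap K L) = O ∧
      ∃ ζ : IsLocalRing.ResidueField A, IsPrimitiveRoot ζ q)
    (hfin : {c : Lˣ ⧸ (powMonoidHom q : Lˣ →* Lˣ).range |
        ∃ u : Lˣ, (QuotientGroup.mk u : Lˣ ⧸ (powMonoidHom q : Lˣ →* Lˣ).range) = c ∧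
          ∀ A : ValuationSubring L, A.comap (algebraMap K L) = O →
            A.valuation ((u : L) - 1) < 1}.Finite) :
    (∃ z : L, IsPrimitiveRoot z q) ∧
    ∃! A : ValuationSubring L, A.comap (algebraMap K L) = O := by
  obtain ⟨A, hA, hζ⟩ := hζ
  have h1 := root_lift O hN hp hq hne L hfin A
  refine ⟨?_, A, hA, fun B hB => ?_⟩
  · obtain ⟨ξ, hξ1, hξ2, -⟩ := h1 A hA hA hζ
    refine ⟨ξ, ?_⟩
    have hξ3 : ξ ≠ 1 := by
      rintro rfl
      exact hξ2 (by simp)
    have _ : Fact q.Prime := ⟨hq⟩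
    have h2 : orderOf ξ = q := orderOf_eq_prime hξ1 hξ3
    rw [← h2]
    exact IsPrimitiveRoot.orderOf ξ
  · by_contra hne'
    obtain ⟨ξ, hξ1, hξ2, hξ3⟩ := h1 B hA hB hζ
    have h2 := root_one B (val_q O B hB hp hq hne) hξ1 (hξ3 fun h => hne' h.symm)
    rw [h2] at hξ2
    exact hξ2 (by simp)

end Pool.LibHB92
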