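import Mathlib

/-
PLAN (X7, MEDIUM). S' := the primes q in S such that k contains a primitive q-th root of unity z_q. 𝔽 := the subfield generated by the z_q over the prime field: FINITE (finitely many elements integral over ZMod p; see the proof of `subfields` in Pool/Agent/LibHB92/VG.lean, proved). x := Nat.card 𝔽, a power of p: x = p ^ r (FiniteField.card), r ≥ 1; b^x = b for b in 𝔽
(FiniteField.pow_card), and conversely b in k with b^x = b is in 𝔽 (the polynomial X^x - X has at most x roots). y ↦ y^p - y on 𝔽 is not injective (0, 1), so not surjective: a in 𝔽 not in its image, θ in k with θ^p - θ = a (h); θ is not in 𝔽. δ := θ^x - θ: δ^p - δ = (θ^p - θ)^x - (θ^p - θ) = a^x - a = 0 (add_pow_char_pow / iterateFrobenius), so δ^p = δ, δ^x = δ, δ ≠ 0. By induction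
θ^(x^j) = θ + j δ, so θ^(x^p) = θ. θ ≠ 0. w := θ^(x-1): w ≠ 1 and w^m = 1 with m := SUM_(i < p) x^i, (x - 1) m = x^p - 1 (Nat.geomSum / Commute.geom_sum). q := a prime divisor of orderOf w (> 1, divides m, m > 0), z := w ^ (orderOf w / q) has order q: IsPrimitiveRoot (IsPrimitiveRoot.orderOf, IsPrimitiveRoot.pow). q divides m. q ≠ p because p | x, m ≡ 1 mod p. q ∉ S: otherwise q ∈ S', z_q in 𝔽,
z_q^(x-1) = 1, so q | x - 1, m ≡ p mod q, q | p: contradiction to q ≠ p.
(Proof below: instead of the subfield generated by the z_q take x = p ^ r with q ∣ x - 1 for all primes q ∈ S, q ≠ p, and for 𝔽 the set of the b with b ^ x = b.)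
-/

set_option autoImplicit false

noncomputable section

namespace Pool.LibHB92

universe u

private theorem X7_core {k : Type u} [Field k] (p : ℕ) [Fact p.Prime] [CharP k p]
    (h : ∀ t : k, ∃ x, x ^ p - x = t) (r : ℕ) (hr : r ≠ 0) :
    ∃ θ δ : k, θ ^ p ^ r = θ + δ ∧ δ ≠ 0 ∧ δ ^ p ^ r = δ := by
  have hp : p.Prime := Fact.out
  have hx1 : 1 < p ^ r := Nat.one_lt_pow hr hp.one_lt
  have hfin : Finite {b : k // b ^ p ^ r = b} := by
    have hP : (Polynomial.X ^ p ^ r - Polynomial.X : Polynomial k) ≠ 0 :=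
      FiniteField.X_pow_card_sub_X_ne_zero k hx1
    have hs : {b : k | b ^ p ^ r = b} ⊆
        (Polynomial.X ^ p ^ r - Polynomial.X : Polynomial k).rootSet k := by
      intro b hb
      have hb' : b ^ p ^ r = b := hb
      rw [Polynomial.mem_rootSet]
      refine ⟨hP, ?_⟩
      simp [hb']
    exact ((Polynomial.rootSet_finite _ _).subset hs).to_subtype
  have hcl : ∀ b : k, b ^ p ^ r = b → (b ^ p - b) ^ p ^ r = b ^ p - b := by
    intro b hb
    rw [sub_pow_char_pow, ← pow_mul, mul_comm p, pow_mul, hb]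
  let f : {b : k // b ^ p ^ r = b} → {b : k // b ^ p ^ r = b} :=
    fun b => ⟨b.1 ^ p - b.1, hcl b.1 b.2⟩
  have h01 : ¬ Function.Injective f := by
    intro hinj
    have e : (⟨0, zero_pow (by omega)⟩ : {b : k // b ^ p ^ r = b}) = ⟨1, one_pow _⟩ := by
      apply hinj
      apply Subtype.ext
      show (0 : k) ^ p - 0 = 1 ^ p - 1
      rw [zero_pow hp.ne_zero, one_pow]
      ring
    exact zero_ne_one (congrArg Subtype.val e)
  have hns : ¬ Function.Surjective f := fun hs => h01 (Finite.injective_iff_surjective.2 hs)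
  obtain ⟨⟨a, ha⟩, hna⟩ : ∃ a, ∀ b, f b ≠ a := by
    by_contra hcon
    apply hns
    intro a
    by_contra hc
    exact hcon ⟨a, fun b hb => hc ⟨b, hb⟩⟩
  obtain ⟨θ, hθ⟩ := h a
  have hθn : θ ^ p ^ r ≠ θ := by
    intro hc
    exact hna ⟨θ, hc⟩ (Subtype.ext hθ)
  have hδ : (θ ^ p ^ r - θ) ^ p = θ ^ p ^ r - θ := by
    have e1 : (θ ^ p - θ) ^ p ^ r = θ ^ p - θ := by rw [hθ]; exact ha
    rw [sub_pow_char_pow, ← pow_mul] at e1
    rw [sub_pow_char, ← pow_mul, mul_comm (p ^ r) p]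
    linear_combination e1
  have hδ2 : ∀ s : ℕ, (θ ^ p ^ r - θ) ^ p ^ s = θ ^ p ^ r - θ := by
    intro s
    induction s with
    | zero => simp
    | succ s ih => rw [pow_succ, pow_mul, ih, hδ]
  exact ⟨θ, θ ^ p ^ r - θ, by ring, sub_ne_zero.2 hθn, hδ2 r⟩

/-- an Artin-Schreier closed field of characteristic p contains primitive q-th roots of unity for infinitely many
primes q -/
theorem inf_roots {k : Type u} [Field k] (p : ℕ) [Fact p.Prime] [CharP k p]
    (h : ∀ t : k, ∃ x, x ^ p - x = t) (S : Finset ℕ) :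
    ∃ q : ℕ, q.Prime ∧ q ∉ S ∧ q ≠ p ∧ ∃ z : k, IsPrimitiveRoot z q := by
  classical
  have hp : p.Prime := Fact.out
  obtain ⟨r, hr⟩ : ∃ r, r = ∏ q ∈ S.filter Nat.Prime, (q - 1) := ⟨_, rfl⟩
  have hr0 : r ≠ 0 := by
    rw [hr, Finset.prod_ne_zero_iff]
    intro q hq
    have := (Finset.mem_filter.1 hq).2.two_le
    omega
  have hS : ∀ q ∈ S, q.Prime → q ≠ p → ((p ^ r : ℕ) : ZMod q) = 1 := by
    intro q hq hqp hne
    have : Fact q.Prime := ⟨hqp⟩
    have hd : (q - 1) ∣ r := by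
      rw [hr]
      exact Finset.dvd_prod_of_mem (fun q => q - 1) (Finset.mem_filter.2 ⟨hq, hqp⟩)
    obtain ⟨t, ht⟩ := hd
    have hp0 : (p : ZMod q) ≠ 0 := by
      rw [Ne, ZMod.natCast_eq_zero_iff]
      intro hc
      exact hne ((Nat.prime_dvd_prime_iff_eq hqp hp).1 hc)
    rw [Nat.cast_pow, ht, pow_mul, ZMod.pow_card_sub_one_eq_one hp0, one_pow]
  obtain ⟨θ, δ, h1, h2, h3⟩ := X7_core p h r hr0
  have hx1 : 1 < p ^ r := Nat.one_lt_pow hr0 hp.one_lt
  obtain ⟨y, hy⟩ : ∃ y, p ^ r = y + 1 := ⟨p ^ r - 1, by omega⟩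
  have hpx : p ∣ p ^ r := dvd_pow_self p hr0
  have hjδ : ∀ j : ℕ, ((j : k) * δ) ^ p ^ r = (j : k) * δ := by
    intro j
    induction j with
    | zero => rw [Nat.cast_zero, zero_mul]; exact zero_pow (by omega)
    | succ j ih =>
      rw [Nat.cast_succ, add_mul, one_mul, add_pow_char_pow, ih, h3]
  have hit : ∀ j : ℕ, θ ^ (p ^ r) ^ j = θ + j * δ := by
    intro j
    induction j with
    | zero => simp
    | succ j ih =>
      rw [pow_succ, pow_mul, ih, add_pow_char_pow, h1, hjδ]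
      push_cast
      ring
  have hθp : θ ^ (p ^ r) ^ p = θ := by
    rw [hit p, CharP.cast_eq_zero, zero_mul, add_zero]
  have hθ0 : θ ≠ 0 := by
    intro hc
    rw [hc, zero_pow (by omega), zero_add] at h1
    exact h2 h1.symm
  obtain ⟨m, hm⟩ : ∃ m, m = ∑ i ∈ Finset.range p, (y + 1) ^ i := ⟨_, rfl⟩
  have hmy : m * y + 1 = (y + 1) ^ p := by
    rw [hm]
    exact geom_sum_mul_add y p
  have hw : (θ ^ y) ^ m = 1 := by
    apply mul_right_cancel₀ hθ0
    rw [one_mul, ← pow_mul, ← pow_succ, mul_comm y m, hmy, ← hy]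
    exact hθp
  have hw1 : θ ^ y ≠ 1 := by
    intro hc
    rw [hy, pow_succ, hc, one_mul] at h1
    exact h2 (by linear_combination -h1)
  have hm0 : m ≠ 0 := by
    intro hc
    rw [hc, zero_mul, zero_add] at hmy
    have : 1 < (y + 1) ^ p := Nat.one_lt_pow hp.ne_zero (by omega)
    omega
  have hod : orderOf (θ ^ y) ∣ m := orderOf_dvd_of_pow_eq_one hw
  have ho1 : orderOf (θ ^ y) ≠ 1 := fun hc => hw1 (orderOf_eq_one_iff.1 hc)
  have ho0 : orderOf (θ ^ y) ≠ 0 := fun hc => hm0 (Nat.eq_zero_of_zero_dvd (hc ▸ hod))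
  obtain ⟨q, hq, hqd⟩ := Nat.exists_prime_and_dvd ho1
  have hqm : q ∣ m := hqd.trans hod
  have hqp : q ≠ p := by
    intro hc
    have a1 : p ∣ m * y := (hc ▸ hqm : p ∣ m).mul_right y
    have a2 : p ∣ (y + 1) ^ p := (hy ▸ hpx : p ∣ y + 1).trans (dvd_pow_self _ hp.ne_zero)
    rw [← hmy] at a2
    exact hp.one_lt.ne' (Nat.dvd_one.1 ((Nat.dvd_add_right a1).1 a2))
  refine ⟨q, hq, ?_, hqp, (θ ^ y) ^ (orderOf (θ ^ y) / q), ?_⟩
  · intro hqS
    have e := hS q hqS hq hqp
    rw [hy] at e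
    have e2 : ((m : ℕ) : ZMod q) = (p : ZMod q) := by
      rw [hm]
      simp only [Nat.cast_sum, Nat.cast_pow]
      simp [e]
    rw [(ZMod.natCast_eq_zero_iff m q).2 hqm] at e2
    have : q ∣ p := (ZMod.natCast_eq_zero_iff p q).1 e2.symm
    exact hqp ((Nat.prime_dvd_prime_iff_eq hq hp).1 this)
  · have := IsPrimitiveRoot.orderOf ((θ ^ y) ^ (orderOf (θ ^ y) / q))
    rw [orderOf_pow_orderOf_div ho0 hqd] at this
    exact this

end Pool.LibHB92
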