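import Pool.Agent.LibHB92.XDef

/-
PLAN (X8a, SHORT). Suppose NIP O fails: formula φ(x; y), lengths m, n, with patterns a, b for every N. Refute StrNIP with m' := n, n' i := m, φ' i := φ.relabel Sum.swap (Formula.realize_relabel). For N take the pattern a, b for N * N points: b' i j := a (finProdFinEquiv (i, j)), and for η the tuple a' := b J with J := {k | (finProdFinEquiv.symm k).2 = η (finProdFinEquiv.symm k).1}.
-/

set_option autoImplicit false

noncomputable section

open FirstOrder Pool.LibNP88

namespace Pool.LibHB92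

universe u

/-- strongly NIP implies NIP -/
theorem nip_of_str {K : Type u} [Field K] (O : ValuationSubring K) (h : StrNIP O) : NIP O := by
  let _ := strV O
  by_contra hN
  unfold NIP at hN
  simp only [not_forall] at hN
  obtain ⟨m, n, φ, hφ⟩ := hN
  have hφ' : ∀ N : ℕ, ∃ (a : Fin N → Fin m → K) (b : Set (Fin N) → Fin n → K),
      ∀ i J, φ.Realize (Sum.elim (a i) (b J)) ↔ i ∈ J := by
    intro N
    by_contra hc
    exact hφ ⟨N, hc⟩
  apply h
  refine ⟨n, fun _ => m, fun _ => φ.relabel Sum.swap, fun N => ?_⟩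
  obtain ⟨a, b, hab⟩ := hφ' (N * N)
  refine ⟨fun i j => a (finProdFinEquiv (i, j)), fun η => ?_⟩
  refine ⟨b {k | (finProdFinEquiv.symm k).2 = η (finProdFinEquiv.symm k).1}, fun i j => ?_⟩
  rw [FirstOrder.Language.Formula.realize_relabel]
  have h1 : (Sum.elim (b {k | (finProdFinEquiv.symm k).2 = η (finProdFinEquiv.symm k).1})
      (a (finProdFinEquiv (i, j)))) ∘ Sum.swap =
      Sum.elim (a (finProdFinEquiv (i, j))) (b {k | (finProdFinEquiv.symm k).2 = η (finProdFinEquiv.symm k).1}) := by
    funext x
    rcases x with x | x <;> rfl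
  rw [h1, hab, Set.mem_ofPred_eq, Equiv.symm_apply_apply]

end Pool.LibHB92
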