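import Pool.Agent.LibHB92.XDef

/-
PLAN (X8b, SHORT/MEDIUM). As LibNP88.nip_def (Pool/Agent/LibNP88/M1.lean, proved, 40 lines: copy it): for every i get from hD i a formula φ i of Lvf in Fin m ⊕ Fin (n i + k i), k i the number of constants of S i. Suppose for every N a pattern b for the sets S i. Then b' i j := Fin.append (b i j) (constants of S i) is a pattern for the φ i, against hS.
-/

set_option autoImplicit false

noncomputable section

open FirstOrder Pool.LibNP88

namespace Pool.LibHB92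

universe u

/-- strong NIP bounds the arrays of sequences of parameter definable relations -/
theorem str_def {K : Type u} [Field K] (O : ValuationSubring K) (hS : StrNIP O) {m : ℕ} (n : ℕ → ℕ)
    (S : (i : ℕ) → Set (Fin m ⊕ Fin (n i) → K)) (hD : ∀ i, Df O (S i)) : ∃ N : ℕ,
    ¬ ∃ b : (i : Fin N) → Fin N → Fin (n i) → K, ∀ η : Fin N → Fin N, ∃ a : Fin m → K,
      ∀ i j : Fin N, Sum.elim a (b i j) ∈ S i ↔ j = η i := by
  let _ := strV O
  have key : ∀ i, ∃ (k : ℕ) (c : Fin k → K) (ψ : Lvf.Formula (Fin m ⊕ Fin (n i + k))),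
      ∀ (a : Fin m → K) (b : Fin (n i) → K),
        ψ.Realize (Sum.elim a (Fin.append b c)) ↔ Sum.elim a b ∈ S i := by
    intro i
    have hS' : (Set.univ : Set K).Definable Lvf (S i) := hD i
    rw [Set.definable_iff_finitely_definable] at hS'
    obtain ⟨A0, -, hA0⟩ := hS'
    rw [Set.definable_iff_exists_formula_sum] at hA0
    obtain ⟨φ, hφ⟩ := hA0
    obtain ⟨k, ⟨e⟩⟩ : ∃ k : ℕ, Nonempty (((A0 : Set K) : Type u) ≃ Fin k) :=
      ⟨_, ⟨Finite.equivFin _⟩⟩
    let g : ((A0 : Set K) : Type u) ⊕ (Fin m ⊕ Fin (n i)) → Fin m ⊕ Fin (n i + k) :=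
      Sum.elim (fun x => Sum.inr (Fin.natAdd (n i) (e x)))
        (Sum.elim Sum.inl (fun j => Sum.inr (Fin.castAdd k j)))
    refine ⟨k, fun l => ((e.symm l : ((A0 : Set K) : Type u)) : K), φ.relabel g, fun a b => ?_⟩
    rw [Language.Formula.realize_relabel, hφ]
    have hv : (Sum.elim a (Fin.append b (fun l => ((e.symm l : ((A0 : Set K) : Type u)) : K)))) ∘ g =
        Sum.elim (fun x : ((A0 : Set K) : Type u) => (x : K)) (Sum.elim a b) := by
      funext x
      rcases x with x | x | x
      · show Fin.append b (fun l => ((e.symm l : ((A0 : Set K) : Type u)) : K))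
          (Fin.natAdd (n i) (e x)) = (x : K)
        rw [Fin.append_right, Equiv.symm_apply_apply]
      · rfl
      · show Fin.append b (fun l => ((e.symm l : ((A0 : Set K) : Type u)) : K))
          (Fin.castAdd k x) = b x
        rw [Fin.append_left]
    rw [hv]
    rfl
  choose k c ψ h using key
  by_contra hcon
  refine hS ⟨m, fun i => n i + k i, ψ, fun N => ?_⟩
  have hN : ∃ b : (i : Fin N) → Fin N → Fin (n i) → K, ∀ η : Fin N → Fin N, ∃ a : Fin m → K,
      ∀ i j : Fin N, Sum.elim a (b i j) ∈ S i ↔ j = η i := by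
    by_contra h'
    exact hcon ⟨N, h'⟩
  obtain ⟨b, hb⟩ := hN
  refine ⟨fun i j => Fin.append (b i j) (c i), fun η => ?_⟩
  obtain ⟨a, ha⟩ := hb η
  exact ⟨a, fun i j => (h i a (b i j)).trans (ha i j)⟩

end Pool.LibHB92
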