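import Pool.Agent.LibHB92.X8b
import Pool.Agent.LibNP88.M4

/-
PLAN (X8c, MEDIUM; Kaplan-Shelah). Suppose the set of these primes is infinite, q : ℕ → ℕ injective with all q i prime and Lˣ / (Lˣ)^(q i) infinite (Set.Infinite.natEmbedding). b := Module.finBasis K L, d := finrank K L. S i := {v : Fin d ⊕ Fin d → K | ∃ t : Fin d → K, SUM v (inl k) • b k = (SUM v (inr k) • b k) * (SUM t k • b k) ^ q i}: Df O by
def_ex and def_polyL (see Pool/Agent/LibHB92/VB1.lean for the same technique: linear forms W f := SUM C (b k) * X (f k), eval lemma). N from str_def. For i < N choose representatives c i j (j < N) of N different classes of Lˣ / (Lˣ)^(q i) (Infinite.natEmbedding). Array: coordinates b.repr (c i j). For η: e i := (PROD_(k < N, k ≠ i) q k) ^ (q i - 1) is 1 mod q i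
(Fermat: ZMod.pow_card_sub_one_eq_one, Nat.Coprime), 0 mod q k for k ≠ i (q k - 1.. exponents ≥ 1 as q i ≥ 2). a := PROD_i (c i (η i)) ^ e i. Then a = c i (η i) * (a q i-th power) for every i, so a ∈ c i j (Lˣ)^(q i) iff c i j, c i (η i) are in the same class iff j = η i. (t ≠ 0 is automatic since a ≠ 0.)
-/

set_option autoImplicit false

noncomputable section

open FirstOrder Pool.LibNP88

namespace Pool.LibHB92

universe u

/-- The linear polynomial of a tuple of variables. -/
private def X8c_W {K L : Type u} [Field K] [Field L] [Algebra K L] {d : ℕ}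
    (b : Module.Basis (Fin d) K L) {σ : Type} (f : Fin d → σ) : MvPolynomial σ L :=
  ∑ i, MvPolynomial.C (b i) * MvPolynomial.X (f i)

private theorem X8c_W_eval {K L : Type u} [Field K] [Field L] [Algebra K L] {d : ℕ}
    (b : Module.Basis (Fin d) K L) {σ : Type} (f : Fin d → σ) (v : σ → K) :
    MvPolynomial.eval (fun s => algebraMap K L (v s)) (X8c_W b f) = ∑ i, v (f i) • b i := by
  unfold X8c_W
  rw [map_sum]
  refine Finset.sum_congr rfl fun i _ => ?_
  rw [map_mul, MvPolynomial.eval_C, MvPolynomial.eval_X, Algebra.smul_def, mul_comm]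

private theorem X8c_def {K L : Type u} [Field K] [Field L] [Algebra K L] [FiniteDimensional K L]
    (O : ValuationSubring K) {d : ℕ} (b : Module.Basis (Fin d) K L) (q : ℕ) :
    Df O {v : Fin d ⊕ Fin d → K | ∃ t : Fin d → K,
      ∑ k, v (Sum.inl k) • b k = (∑ k, v (Sum.inr k) • b k) * (∑ k, t k • b k) ^ q} := by
  have h1 : Df O {w : (Fin d ⊕ Fin d) ⊕ Fin d → K |
      MvPolynomial.eval (fun s => algebraMap K L (w s))
        (X8c_W b (fun i : Fin d => (Sum.inl (Sum.inl i) : (Fin d ⊕ Fin d) ⊕ Fin d)) -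
          X8c_W b (fun i : Fin d => (Sum.inl (Sum.inr i) : (Fin d ⊕ Fin d) ⊕ Fin d)) *
            (X8c_W b (Sum.inr : Fin d → (Fin d ⊕ Fin d) ⊕ Fin d)) ^ q) = 0} := def_polyL O _
  have h2 := def_ex O _ h1
  convert h2 using 1
  ext v
  refine exists_congr fun t => ?_
  change _ ↔ MvPolynomial.eval (fun s => algebraMap K L (Sum.elim v t s))
        (X8c_W b (fun i : Fin d => (Sum.inl (Sum.inl i) : (Fin d ⊕ Fin d) ⊕ Fin d)) -
          X8c_W b (fun i : Fin d => (Sum.inl (Sum.inr i) : (Fin d ⊕ Fin d) ⊕ Fin d)) *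
            (X8c_W b (Sum.inr : Fin d → (Fin d ⊕ Fin d) ⊕ Fin d)) ^ q) = 0
  rw [map_sub, map_mul, map_pow, X8c_W_eval, X8c_W_eval, X8c_W_eval, sub_eq_zero]
  simp only [Sum.elim_inl, Sum.elim_inr]

/-- over a strongly NIP field the q-th powers have finite index in every finite extension, for almost all primes q -/
theorem pow_classes {K L : Type u} [Field K] [Field L] [Algebra K L] [FiniteDimensional K L]
    (O : ValuationSubring K) (hS : StrNIP O) :
    {q : ℕ | q.Prime ∧ ¬ Finite (Lˣ ⧸ (powMonoidHom q : Lˣ →* Lˣ).range)}.Finite := by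
  classical
  by_contra hinf0
  have hinf : {q : ℕ | q.Prime ∧ ¬ Finite (Lˣ ⧸ (powMonoidHom q : Lˣ →* Lˣ).range)}.Infinite :=
    hinf0
  obtain ⟨q, hqdef⟩ : ∃ q : ℕ → ℕ, q = fun i => (hinf.natEmbedding _ i : ℕ) := ⟨_, rfl⟩
  have hq : ∀ i, (q i).Prime := fun i => by
    rw [hqdef]
    exact (hinf.natEmbedding _ i).2.1
  have hqi : ∀ i, Infinite (Lˣ ⧸ (powMonoidHom (q i) : Lˣ →* Lˣ).range) := fun i => by
    rw [hqdef]
    exact not_finite_iff_infinite.1 (hinf.natEmbedding _ i).2.2
  have hinj : Function.Injective q := by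
    rw [hqdef]
    intro i j h
    exact (hinf.natEmbedding _).injective (Subtype.ext h)
  have b := Module.finBasis K L
  obtain ⟨N, hN⟩ := str_def O hS (m := Module.finrank K L) (fun _ => Module.finrank K L)
    (fun i => {v : Fin (Module.finrank K L) ⊕ Fin (Module.finrank K L) → K |
      ∃ t : Fin (Module.finrank K L) → K,
      ∑ k, v (Sum.inl k) • b k = (∑ k, v (Sum.inr k) • b k) * (∑ k, t k • b k) ^ (q i)})
    (fun i => X8c_def O b (q i))
  apply hN
  obtain ⟨c, hc⟩ : ∃ c : ℕ → ℕ → Lˣ, ∀ i, Function.Injective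
      (fun j => (QuotientGroup.mk (c i j) : Lˣ ⧸ (powMonoidHom (q i) : Lˣ →* Lˣ).range)) := by
    have h1 : ∀ i, ∃ c : ℕ → Lˣ, Function.Injective
      (fun j => (QuotientGroup.mk (c j) : Lˣ ⧸ (powMonoidHom (q i) : Lˣ →* Lˣ).range)) := by
      intro i
      have := hqi i
      refine ⟨fun j => Quotient.out (Infinite.natEmbedding
        (Lˣ ⧸ (powMonoidHom (q i) : Lˣ →* Lˣ).range) j), ?_⟩
      intro j j' hjj
      have e1 : ∀ x : Lˣ ⧸ (powMonoidHom (q i) : Lˣ →* Lˣ).range,
          (QuotientGroup.mk (Quotient.out x) : Lˣ ⧸ (powMonoidHom (q i) : Lˣ →* Lˣ).range) = x :=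
        fun x => QuotientGroup.out_eq' x
      have h2 : Infinite.natEmbedding (Lˣ ⧸ (powMonoidHom (q i) : Lˣ →* Lˣ).range) j =
          Infinite.natEmbedding (Lˣ ⧸ (powMonoidHom (q i) : Lˣ →* Lˣ).range) j' := by
        rw [← e1 (Infinite.natEmbedding _ j), ← e1 (Infinite.natEmbedding _ j')]
        exact hjj
      exact (Infinite.natEmbedding _).injective h2
    choose c hc using h1
    exact ⟨c, hc⟩
  refine ⟨fun i j k => b.repr (c i j : L) k, ?_⟩
  intro η
  obtain ⟨e, he⟩ : ∃ e : Fin N → ℕ, e = fun i : Fin N =>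
      (∏ k ∈ Finset.univ.erase i, q (k : ℕ)) ^ Nat.totient (q i) := ⟨_, rfl⟩
  obtain ⟨a, ha⟩ : ∃ a : Lˣ, a = ∏ i : Fin N, (c i (η i)) ^ e i := ⟨_, rfl⟩
  refine ⟨fun k => b.repr (a : L) k, ?_⟩
  intro i j
  -- the class of `a`
  have hpow : ∀ x : Lˣ ⧸ (powMonoidHom (q i) : Lˣ →* Lˣ).range, x ^ (q (i : ℕ)) = 1 := by
    intro x
    induction x using QuotientGroup.induction_on with
    | H y =>
      rw [← QuotientGroup.mk_pow, QuotientGroup.eq_one_iff]
      exact ⟨y, rfl⟩
  have hcls : (QuotientGroup.mk a : Lˣ ⧸ (powMonoidHom (q i) : Lˣ →* Lˣ).range) =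
      QuotientGroup.mk (c i (η i)) := by
    have h1 : (QuotientGroup.mk a : Lˣ ⧸ (powMonoidHom (q i) : Lˣ →* Lˣ).range) =
        ∏ k : Fin N, (QuotientGroup.mk (c k (η k)) :
          Lˣ ⧸ (powMonoidHom (q i) : Lˣ →* Lˣ).range) ^ e k := by
      rw [ha]
      have h2 := map_prod (QuotientGroup.mk' (powMonoidHom (q i) : Lˣ →* Lˣ).range)
        (fun k : Fin N => (c k (η k)) ^ e k) Finset.univ
      simp only [map_pow] at h2
      exact h2
    rw [h1, Finset.prod_eq_single i]
    · -- exponent `1`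
      have h2 : e i ≡ 1 [MOD q i] := by
        rw [he]
        apply Nat.ModEq.pow_totient
        apply Nat.Coprime.prod_left
        intro k hk
        rw [Nat.coprime_primes (hq _) (hq _)]
        intro h3
        exact (Finset.mem_erase.1 hk).1 (Fin.ext (hinj h3))
      rw [pow_eq_pow_mod _ (hpow _), h2, ← pow_eq_pow_mod _ (hpow _), pow_one]
    · intro k _ hki
      have h2 : q (i : ℕ) ∣ e k := by
        rw [he]
        have h3 : q (i : ℕ) ∣ ∏ k' ∈ Finset.univ.erase k, q (k' : ℕ) :=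
          Finset.dvd_prod_of_mem (fun k' : Fin N => q (k' : ℕ))
            (Finset.mem_erase.2 ⟨Ne.symm hki, Finset.mem_univ _⟩)
        exact dvd_pow h3 (Nat.totient_pos.2 (hq _).pos).ne'
      obtain ⟨r, hr⟩ := h2
      rw [hr, pow_mul, hpow, one_pow]
    · intro h
      exact absurd (Finset.mem_univ i) h
  have hmem : (∃ t : Fin (Module.finrank K L) → K,
      (a : L) = (c i j : L) * (∑ k, t k • b k) ^ (q (i : ℕ))) ↔
      (QuotientGroup.mk a : Lˣ ⧸ (powMonoidHom (q i) : Lˣ →* Lˣ).range) =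
        QuotientGroup.mk (c i j) := by
    constructor
    · rintro ⟨t, ht⟩
      have hτ : (∑ k, t k • b k) ≠ 0 := by
        intro h0
        rw [h0, zero_pow (hq i).ne_zero, mul_zero] at ht
        exact a.ne_zero ht
      have h1 : a = c i j * (Units.mk0 _ hτ) ^ (q (i : ℕ)) := by
        apply Units.ext
        rw [ht]
        simp
      rw [h1]
      exact QuotientGroup.mk_mul_of_mem _ ⟨Units.mk0 _ hτ, rfl⟩
    · intro h
      obtain ⟨u, hu⟩ := QuotientGroup.eq.1 h.symm
      refine ⟨fun k => b.repr (u : L) k, ?_⟩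
      rw [b.sum_repr]
      have h1 : u ^ (q (i : ℕ)) = (c i j)⁻¹ * a := hu
      have h2 : a = c i j * u ^ (q (i : ℕ)) := by rw [h1, mul_inv_cancel_left]
      rw [← Units.val_pow_eq_pow_val, ← Units.val_mul, ← h2]
  have hS1 : (Sum.elim (fun k => b.repr (a : L) k) (fun k => b.repr (c i j : L) k) ∈
      {v : Fin (Module.finrank K L) ⊕ Fin (Module.finrank K L) → K |
        ∃ t : Fin (Module.finrank K L) → K,
        ∑ k, v (Sum.inl k) • b k = (∑ k, v (Sum.inr k) • b k) * (∑ k, t k • b k) ^ (q i)}) ↔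
      ∃ t : Fin (Module.finrank K L) → K,
        (a : L) = (c i j : L) * (∑ k, t k • b k) ^ (q (i : ℕ)) := by
    change (∃ t : Fin (Module.finrank K L) → K,
      ∑ k, Sum.elim (fun k => b.repr (a : L) k) (fun k => b.repr (c i j : L) k) (Sum.inl k) • b k =
      (∑ k, Sum.elim (fun k => b.repr (a : L) k) (fun k => b.repr (c i j : L) k) (Sum.inr k) • b k)
        * (∑ k, t k • b k) ^ (q i)) ↔ _
    simp only [Sum.elim_inl, Sum.elim_inr, b.sum_repr]
  refine hS1.trans (hmem.trans ?_)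
  rw [hcls]
  constructor
  · intro h
    exact (Fin.ext (hc i h)).symm
  · rintro rfl
    rfl

end Pool.LibHB92
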