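import Pool.Agent.LibHB92.X2
import Pool.Agent.LibHB92.X7
import Pool.Agent.LibHB92.X8a
import Pool.Agent.LibHB92.X8c

/-
X9 (helper92): assembly. Finitely many classes for almost all primes, strongly NIP valued fields.
-/

set_option autoImplicit false

noncomputable section

namespace Pool.LibHB92

universe u

open Pool.LibNP88

private def X9_rr {K L : Type u} [Field K] [Field L] [Algebra K L] (O : ValuationSubring K)
    (A : ValuationSubring L) (hA : A.comap (algebraMap K L) = O) : O →+* A :=
  RingHom.codRestrict ((algebraMap K L).comp O.subtype) A (fun x => by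
    have h : (x : K) ∈ A.comap (algebraMap K L) := by
      rw [hA]
      exact x.2
    exact h)

private theorem X9_rr_coe {K L : Type u} [Field K] [Field L] [Algebra K L] (O : ValuationSubring K)
    (A : ValuationSubring L) (hA : A.comap (algebraMap K L) = O) (x : O) :
    ((X9_rr O A hA x : A) : L) = algebraMap K L x := rfl

private theorem X9_rr_local {K L : Type u} [Field K] [Field L] [Algebra K L] (O : ValuationSubring K)
    (A : ValuationSubring L) (hA : A.comap (algebraMap K L) = O) : IsLocalHom (X9_rr O A hA) := by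
  constructor
  intro x hx
  rw [ValuationSubring.valuation_eq_one_iff, X9_rr_coe, val_one O A hA] at hx
  exact (ValuationSubring.valuation_eq_one_iff _ _).2 hx

private theorem X9_rmap {K L : Type u} [Field K] [Field L] [Algebra K L]
    (O : ValuationSubring K) (A : ValuationSubring L) (hA : A.comap (algebraMap K L) = O) :
    Nonempty (IsLocalRing.ResidueField O →+* IsLocalRing.ResidueField A) := by
  have := X9_rr_local O A hA
  exact ⟨IsLocalRing.ResidueField.map (X9_rr O A hA)⟩

/-- a root of unity of the residue field of O is one of the residue field of every extension -/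
theorem res_up {K L : Type u} [Field K] [Field L] [Algebra K L] (O : ValuationSubring K)
    (A : ValuationSubring L) (hA : A.comap (algebraMap K L) = O) {q : ℕ}
    (h : ∃ ζ : IsLocalRing.ResidueField O, IsPrimitiveRoot ζ q) :
    ∃ ζ : IsLocalRing.ResidueField A, IsPrimitiveRoot ζ q := by
  obtain ⟨ζ, hζ⟩ := h
  obtain ⟨f⟩ := X9_rmap O A hA
  exact ⟨f ζ, hζ.map_of_injective f.injective⟩

/-- finitely many classes of one-units for almost all primes, for every finite extension, implies henselian -/
theorem almost_all {K : Type u} [Field K] (O : ValuationSubring K) (hN : NIP O) {p : ℕ}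
    (hp : p.Prime) [CharP (IsLocalRing.ResidueField O) p]
    [Infinite (IsLocalRing.ResidueField O)]
    (hfin : ∀ (L : Type u) [Field L] [Algebra K L] [FiniteDimensional K L],
      {q : ℕ | q.Prime ∧ ¬ {c : Lˣ ⧸ (powMonoidHom q : Lˣ →* Lˣ).range |
        ∃ u : Lˣ, (QuotientGroup.mk u : Lˣ ⧸ (powMonoidHom q : Lˣ →* Lˣ).range) = c ∧
          ∀ A : ValuationSubring L, A.comap (algebraMap K L) = O →
            A.valuation ((u : L) - 1) < 1}.Finite}.Finite)
    (E : Type u) [Field E] [Algebra K E] [Algebra.IsAlgebraic K E] :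
    ∃! A : ValuationSubring E, A.comap (algebraMap K E) = O := by
  have _ : Fact p.Prime := ⟨hp⟩
  let _ : Algebra (ZMod p) (IsLocalRing.ResidueField O) := ZMod.algebra _ p
  obtain ⟨N', hN'⟩ := nip_as O hN p
  have has : ∀ t : IsLocalRing.ResidueField O, ∃ x, x ^ p - x = t := fun t => as_surj p hN' t
  refine of_cofinal O (fun L _ _ _ => ?_) E
  obtain ⟨q, hq, hqS, hne, hz⟩ := inf_roots p has (hfin L).toFinset
  refine ⟨L, inferInstance, inferInstance, Algebra.id L, inferInstance, fun A B hA hB => ?_⟩
  have hf : {c : Lˣ ⧸ (powMonoidHom q : Lˣ →* Lˣ).range |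
        ∃ u : Lˣ, (QuotientGroup.mk u : Lˣ ⧸ (powMonoidHom q : Lˣ →* Lˣ).range) = c ∧
          ∀ A : ValuationSubring L, A.comap (algebraMap K L) = O →
            A.valuation ((u : L) - 1) < 1}.Finite := by
    by_contra hcon
    exact hqS ((hfin L).mem_toFinset.2 ⟨hq, hcon⟩)
  exact (root_unique O hN hp hq hne L ⟨A, hA, res_up O A hA hz⟩ hf).2.unique hA hB

/-- NIP with strongly NIP field -/
theorem strong_hens {K : Type u} [Field K] (O : ValuationSubring K) (hN : NIP O)
    (O' : ValuationSubring K) (hS : StrNIP O') {p : ℕ}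
    (hp : p.Prime) [CharP (IsLocalRing.ResidueField O) p]
    [Infinite (IsLocalRing.ResidueField O)]
    (E : Type u) [Field E] [Algebra K E] [Algebra.IsAlgebraic K E] :
    ∃! A : ValuationSubring E, A.comap (algebraMap K E) = O := by
  refine almost_all O hN hp (fun L _ _ _ => (pow_classes (L := L) O' hS).subset ?_) E
  rintro q ⟨hq, hq'⟩
  refine ⟨hq, fun hf => hq' (Set.toFinite _)⟩

end Pool.LibHB92
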