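import Pool.Agent.LibNP88.DefsM

/-
Strongly NIP (strongly dependent) valued fields.
-/

set_option autoImplicit false

noncomputable section

open FirstOrder Pool.LibNP88

namespace Pool.LibHB92

universe u

/-- (K, O) is strongly NIP (strongly dependent): there is no sequence of formulas φ_i(x; y_i), x a tuple of fixed
length m, such that for every N there are tuples b_(i, j) (i, j < N) in K with: for every η : {0, .., N-1} → {0, .., N-1}
some m-tuple a of K satisfies φ_i(a; b_(i, j)) exactly when j = η(i), for all i, j < N -/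
def StrNIP {K : Type u} [Field K] (O : ValuationSubring K) : Prop :=
  letI := strV O
  ¬ ∃ (m : ℕ) (n : ℕ → ℕ) (φ : (i : ℕ) → Lvf.Formula (Fin m ⊕ Fin (n i))), ∀ N : ℕ,
    ∃ b : (i : Fin N) → Fin N → Fin (n i) → K, ∀ η : Fin N → Fin N, ∃ a : Fin m → K,
      ∀ i j : Fin N, (φ i).Realize (Sum.elim a (b i j)) ↔ j = η i

end Pool.LibHB92
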