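import Pool.Agent.LibNP88.V1
import Pool.Agent.LibNP88.V6
import Pool.Agent.LibNP88.V11
import Pool.Agent.LibHB92.CZ
import Pool.Agent.LibHB92.VB2
import Pool.Agent.LibHB92.VC
import Pool.Agent.LibHB92.VD
import Pool.Agent.LibHB92.VF
import Pool.Agent.LibHB92.VG
import Pool.Agent.LibHB92.VH
import Pool.Agent.LibHB92.KA
import Pool.Agent.LibHB92.KF

/-
Assembly (helper92).
-/

set_option autoImplicit false

noncomputable section

namespace Pool.LibHB92

universe u

open Pool.LibNP88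

private theorem Z_back {K L : Type u} [Field K] [Field L] [Algebra K L] [FiniteDimensional K L]
    (O : ValuationSubring K) (V : ValuationSubring L) (hV : V.comap (algebraMap K L) = O) (w : L)
    (c : Fin (Module.finrank K L) → K) (hc : ∀ j, O.valuation (c j) < 1)
    (hw : w ^ Module.finrank K L + ∑ j, algebraMap K L (c j) * w ^ (j : ℕ) = 0) :
    V.valuation w < 1 := by
  by_contra hcon
  rw [not_lt] at hcon
  have h0 : 0 < V.valuation w := lt_of_lt_of_le zero_lt_one hcon
  have h1 : V.valuation (∑ j, algebraMap K L (c j) * w ^ (j : ℕ)) <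
      V.valuation w ^ Module.finrank K L := by
    apply Valuation.map_sum_lt _ (pow_ne_zero _ h0.ne')
    intro j _
    rw [map_mul, map_pow]
    have h2 : V.valuation (algebraMap K L (c j)) < 1 := (val_lt O V hV (c j)).2 (hc j)
    have h3 : V.valuation w ^ (j : ℕ) ≤ V.valuation w ^ Module.finrank K L :=
      pow_le_pow_right₀ hcon j.2.le
    refine lt_of_lt_of_le ?_ h3
    exact mul_lt_of_lt_one_left (pow_pos h0 _) h2
  have h4 : w ^ Module.finrank K L = - ∑ j, algebraMap K L (c j) * w ^ (j : ℕ) :=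
    eq_neg_of_add_eq_zero_left hw
  have h5 := congrArg V.valuation h4
  rw [map_pow, Valuation.map_neg] at h5
  rw [h5] at h1
  exact lt_irrefl _ h1

/-- a unit of the intersection -/
private theorem Z_unit {L : Type u} [Field L] {s : ℕ} (hs : 0 < s)
    (V : Fin s → ValuationSubring L) (x : Rv V) (h : ∀ i, (V i).valuation (x : L) = 1) :
    IsUnit x := by
  have hx0 : (x : L) ≠ 0 := by
    intro h0
    have := h ⟨0, hs⟩
    rw [h0, map_zero] at this
    exact zero_ne_one this
  have hmem : ((x : L))⁻¹ ∈ Rv V := by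
    rw [mem_Rv]
    intro i
    rw [← ValuationSubring.valuation_le_one_iff, map_inv₀, h i, inv_one]
  refine ⟨⟨x, ⟨(x : L)⁻¹, hmem⟩, ?_, ?_⟩, rfl⟩
  · exact Subtype.ext (mul_inv_cancel₀ hx0)
  · exact Subtype.ext (inv_mul_cancel₀ hx0)

private theorem Z_dif {L : Type u} [Field L] {s : ℕ} (hs : 0 < s)
    (V : Fin s → ValuationSubring L) (c : ℕ → L) (hc : ∀ i m, (V i).valuation (c m) = 1)
    (hcc : ∀ i m m', m ≠ m' → (V i).valuation (c m - c m') = 1) : Dif (Rv V) := by
  intro n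
  have hmem : ∀ m, c m ∈ Rv V := by
    intro m
    rw [mem_Rv]
    intro i
    rw [← ValuationSubring.valuation_le_one_iff]
    exact (hc i m).le
  have hu : ∀ m : ℕ, IsUnit (⟨c m, hmem m⟩ : Rv V) := fun m => Z_unit hs V _ fun i => hc i m
  refine ⟨fun k => (hu k).unit, ?_⟩
  intro i j hij
  refine Z_unit hs V _ fun k => ?_
  have h1 : ((((hu i).unit : (Rv V)ˣ) : Rv V) - (((hu j).unit : (Rv V)ˣ) : Rv V) : Rv V) =
      (⟨c i, hmem i⟩ : Rv V) - ⟨c j, hmem j⟩ := by
    rw [IsUnit.unit_spec, IsUnit.unit_spec]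
  rw [h1]
  exact hcc k i j fun h => hij (Fin.ext h)

/-- uniqueness of the extension to one finite extension L -/
theorem unique_ext' {K : Type u} [Field K] (O : ValuationSubring K) (hN : NIP O) {p q : ℕ}
    (hp : p.Prime) (hq : q.Prime) (hne : q ≠ p) [CharP (IsLocalRing.ResidueField O) p]
    [Infinite (IsLocalRing.ResidueField O)] (L : Type u) [Field L] [Algebra K L]
    [FiniteDimensional K L] (hz : ∃ z : L, IsPrimitiveRoot z q)
    (hfin : {c : Lˣ ⧸ (powMonoidHom q : Lˣ →* Lˣ).range |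
        ∃ u : Lˣ, (QuotientGroup.mk u : Lˣ ⧸ (powMonoidHom q : Lˣ →* Lˣ).range) = c ∧
          ∀ A : ValuationSubring L, A.comap (algebraMap K L) = O →
            A.valuation ((u : L) - 1) < 1}.Finite)
    (A' B' : ValuationSubring L) (hA' : A'.comap (algebraMap K L) = O)
    (hB' : B'.comap (algebraMap K L) = O) : A' = B' := by
  classical
  by_contra hne''
  obtain ⟨z, hz⟩ := hz
  obtain ⟨s, V, hs, hVi, hVO, hJ⟩ := family O A' B' hA' hB' hne''
  have hs0 : 0 < s := by omega
  have hV : ∀ i j, V i ≤ V j → i = j := fun i j hij =>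
    hVi (incomp O (V i) (V j) (hVO i) (hVO j) hij)
  obtain ⟨c, hc, hcc⟩ := seq O inferInstance
  have hc' : ∀ i m, (V i).valuation (algebraMap K L (c m)) = 1 := fun i m =>
    (val_one O (V i) (hVO i) _).2 (hc m)
  have hcc' : ∀ i m m', m ≠ m' →
      (V i).valuation (algebraMap K L (c m) - algebraMap K L (c m')) = 1 := by
    intro i m m' hm
    rw [← map_sub]
    exact (val_one O (V i) (hVO i) _).2 (hcc m m' hm)
  have hq1 : ∀ i, (V i).valuation (q : L) = 1 := fun i => val_q O (V i) (hVO i) hp hq hne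
  have hF : Finite (Fq V q) := by
    refine fin_F V hq.pos (hfin.subset ?_)
    rintro c ⟨u, hu, hu'⟩
    refine ⟨u, hu, ?_⟩
    intro W hW
    obtain ⟨c, hc1, hc2⟩ := (hJ ((u : L) - 1)).1 hu'
    exact Z_back O W hW _ c hc1 hc2
  let _ : Fintype (Fq V q) := Fintype.ofFinite _
  obtain ⟨N, h1, h2⟩ := bounds O hN V hJ q
  obtain ⟨Q0, hcore⟩ := core.{u} N (Fintype.card (Fq V q)) q hq.pos
  have _ : Fact p.Prime := ⟨hp⟩
  let _ : Algebra (ZMod p) (IsLocalRing.ResidueField O) := ZMod.algebra _ p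
  obtain ⟨N', hN'⟩ := nip_as O hN p
  have hinfA := alg_inf (k := IsLocalRing.ResidueField O) p fun t => as_surj p hN' t
  let i0 : Fin s := ⟨0, by omega⟩
  let j0 : Fin s := ⟨1, by omega⟩
  have hij : j0 ≠ i0 := by
    intro h
    have := congrArg Fin.val h
    simp [i0, j0] at this
  have _ : CharP (IsLocalRing.ResidueField (V i0)) p := charP_up O (V i0) (hVO i0) p
  let _ : Algebra (ZMod p) (IsLocalRing.ResidueField (V i0)) := ZMod.algebra _ p
  have hinfL := inf_up O (V i0) (hVO i0) p hinfA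
  have hzq : z ^ q = 1 := hz.pow_eq_one
  have hzv : ∀ i, (V i).valuation z = 1 := by
    intro i
    have h3 : (V i).valuation z ^ q = 1 := by rw [← map_pow, hzq, map_one]
    exact (pow_eq_one_iff_of_nonneg zero_le hq.ne_zero).1 h3
  have hzm : z ∈ Rv V := by
    rw [mem_Rv]
    intro i
    rw [← ValuationSubring.valuation_le_one_iff]
    exact (hzv i).le
  have hζ : (rv V i0 ⟨z, hzm⟩) ^ q = 1 := by
    rw [← map_pow]
    have h3 : (⟨z, hzm⟩ : Rv V) ^ q = 1 := Subtype.ext hzq
    rw [h3, map_one]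
  obtain ⟨𝔽, h𝔽, h𝔽c, h𝔽ζ⟩ := subfields p hinfL hq.pos _ hζ Q0
  obtain ⟨η, zz, t, hL, hη, hzj, hzi⟩ := lifts V hV (fun m => algebraMap K L (c m)) hc' hcc' i0 𝔽
  let _ : Fintype 𝔽 := Fintype.ofFinite 𝔽
  have hcard : Q0 ≤ Fintype.card 𝔽 := by
    rw [← Nat.card_eq_fintype_card]
    exact h𝔽c
  have hD := dat_of hs0 h1 h2 η hη
  have hdif := Z_dif hs0 V (fun m => algebraMap K L (c m)) hc' hcc'
  obtain ⟨ζ, hζd⟩ : ∃ ζ : 𝔽, ζ = ⟨rv V i0 ⟨z, hzm⟩, h𝔽ζ⟩ := ⟨_, rfl⟩
  have hζq : ζ ^ q = 1 := by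
    rw [hζd]
    exact Subtype.ext hζ
  have h3 := hcore (Rv V) (Fq V q) le_rfl fq_pow η _ hD hdif 𝔽 hcard zz t hL ζ hζq
  have hw : rv V i0 (zz ζ) = rv V i0 ⟨z, hzm⟩ := by
    rw [hzi, hζd]
  have hJ1 : J1 V ((zz ζ : L) ^ q) := by
    intro i
    have h4 : rv V i (zz ζ ^ q - 1) = 0 := by
      by_cases hi : i = i0
      · subst hi
        rw [map_sub, map_pow, hw, hζ, map_one, sub_self]
      · have h5 : rv V i (zz ζ - 1) = 0 := by
          rw [rv_zero]
          exact hzj ζ i hi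
        rw [map_sub, map_one, sub_eq_zero] at h5
        rw [map_sub, map_pow, h5, one_pow, map_one, sub_self]
    rw [rv_zero] at h4
    exact h4
  have hi : ¬ (V i0).valuation ((zz ζ : L) - 1) < 1 := by
    intro h4
    have h5 : rv V i0 (zz ζ - 1) = 0 := by
      rw [rv_zero]
      exact h4
    have h6 : rv V i0 (⟨z, hzm⟩ - 1) = 0 := by
      rw [map_sub, ← hw, ← map_sub]
      exact h5
    rw [rv_zero] at h6
    have h7 := root_one (V i0) (hq1 i0) hzq h6
    have h8 := hz.eq_orderOf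
    rw [h7, orderOf_one] at h8
    exact hq.one_lt.ne' h8
  exact ph_pow_ne hs0 i0 j0 (hq1 j0) hJ1 (hzj ζ j0 hij) hi h3

/-- local form: exactly one extension to L -/
theorem local_unique {K : Type u} [Field K] (O : ValuationSubring K) (hN : NIP O) {p q : ℕ}
    (hp : p.Prime) (hq : q.Prime) (hne : q ≠ p) [CharP (IsLocalRing.ResidueField O) p]
    [Infinite (IsLocalRing.ResidueField O)] (L : Type u) [Field L] [Algebra K L]
    [FiniteDimensional K L] (hz : ∃ z : L, IsPrimitiveRoot z q)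
    (hfin : {c : Lˣ ⧸ (powMonoidHom q : Lˣ →* Lˣ).range |
        ∃ u : Lˣ, (QuotientGroup.mk u : Lˣ ⧸ (powMonoidHom q : Lˣ →* Lˣ).range) = c ∧
          ∀ A : ValuationSubring L, A.comap (algebraMap K L) = O →
            A.valuation ((u : L) - 1) < 1}.Finite) :
    ∃! A : ValuationSubring L, A.comap (algebraMap K L) = O := by
  obtain ⟨A, hA⟩ := ext_exists O L
  exact ⟨A, hA, fun B hB => unique_ext' O hN hp hq hne L hz hfin B A hB hA⟩

/-- main theorem -/
theorem main {K : Type u} [Field K] (O : ValuationSubring K) (hN : NIP O) {p q : ℕ}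
    (hp : p.Prime) (hq : q.Prime) (hne : q ≠ p) [CharP (IsLocalRing.ResidueField O) p]
    [Infinite (IsLocalRing.ResidueField O)]
    (hfin : ∀ (L : Type u) [Field L] [Algebra K L] [FiniteDimensional K L],
      {c : Lˣ ⧸ (powMonoidHom q : Lˣ →* Lˣ).range |
        ∃ u : Lˣ, (QuotientGroup.mk u : Lˣ ⧸ (powMonoidHom q : Lˣ →* Lˣ).range) = c ∧
          ∀ A : ValuationSubring L, A.comap (algebraMap K L) = O →
            A.valuation ((u : L) - 1) < 1}.Finite)
    (E : Type u) [Field E] [Algebra K E] [Algebra.IsAlgebraic K E] :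
    ∃! A : ValuationSubring E, A.comap (algebraMap K E) = O := by
  obtain ⟨A, hA⟩ := ext_exists O E
  refine ⟨A, hA, fun B hB => ?_⟩
  by_contra hne'
  have hqO : O.valuation (q : K) = 1 :=
    val_q (K := K) (L := K) O O (by ext x; simp) hp hq hne
  have hqK : (q : K) ≠ 0 := by
    intro h0
    rw [h0] at hqO
    simp at hqO
  obtain ⟨L, _, _, _, hz, A', B', hA', hB', hne''⟩ := choose_L' O hq hqK E B A hB hA hne'
  exact hne'' (unique_ext' O hN hp hq hne L hz (hfin L) A' B' hA' hB')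

end Pool.LibHB92
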