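import Pool.Agent.LibHB92.Z
import Pool.Agent.LibHB92.QE
import Pool.Agent.LibHB92.QF

/-
Assembly, second part (helper92): finite index of q-th powers in the one-units implies q-henselian.
-/

set_option autoImplicit false

noncomputable section

namespace Pool.LibHB92

universe u

open Pool.LibNP88

/-- the one-units are q-th powers of one-units, exactly one extension to every Galois extension of q-power degree -/
theorem q_hens {K : Type u} [Field K] (O : ValuationSubring K) (hN : NIP O) {p q : ℕ}
    (hp : p.Prime) (hq : q.Prime) (hne : q ≠ p) [CharP (IsLocalRing.ResidueField O) p]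
    [Infinite (IsLocalRing.ResidueField O)] (hz : ∃ z : K, IsPrimitiveRoot z q)
    (hfin : {c : Kˣ ⧸ (powMonoidHom q : Kˣ →* Kˣ).range |
        ∃ u : Kˣ, (QuotientGroup.mk u : Kˣ ⧸ (powMonoidHom q : Kˣ →* Kˣ).range) = c ∧
          O.valuation ((u : K) - 1) < 1}.Finite) :
    (∀ u : K, O.valuation (u - 1) < 1 → ∃ w : K, O.valuation (w - 1) < 1 ∧ w ^ q = u) ∧
    ∀ (n : ℕ) (L : Type u) [Field L] [Algebra K L] [FiniteDimensional K L] [IsGalois K L],
      Module.finrank K L = q ^ n → ∃! A : ValuationSubring L, A.comap (algebraMap K L) = O := by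
  obtain ⟨z, hz⟩ := hz
  have hqO : O.valuation (q : K) = 1 :=
    val_q (K := K) (L := K) O O (by ext x; simp) hp hq hne
  have h1 : ∀ (n : ℕ) (L : Type u) [Field L] [Algebra K L] [FiniteDimensional K L]
      [IsGalois K L], Module.finrank K L = q ^ n →
      ∃! A : ValuationSubring L, A.comap (algebraMap K L) = O := fun n L _ _ _ _ hd =>
    (q_tower' O hq hqO z hz hfin
      (fun L _ _ _ hzL hL => local_unique O hN hp hq hne L hzL hL) n L hd).2
  exact ⟨fun u hu => one_units_pow O hq hqO z hz
    (fun L _ _ _ _ hd => h1 1 L (by rw [hd, pow_one])) u hu, h1⟩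

end Pool.LibHB92
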